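import Pool.Agent.H175F.H146R2_GP_Facts

namespace Pool.Agent.H146GP

open Finset Classical
open Pool.Agent.H175G
open Pool.Agent.H175R2 (DT nt on cpt Cn P4Free)

variable {V : Type} {G : SimpleGraph V} {c0 c1 c2 c3 c4 : V}

/-! reflection `c0 ↔ c1`, `c2 ↔ c4` -/

lemma r_c5 (h : C5c G c0 c1 c2 c3 c4) : C5c G c1 c0 c4 c3 c2 := by
  obtain ⟨h1, h2, h3, h4, h5, h6, h7, h8, h9, h10⟩ := h
  exact ⟨h1.symm, h5.symm, h4.symm, h3.symm, h2.symm, h9, h8, h7, h6, fun h => h10 h.symm⟩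

lemma r_n {x : V} (h : TN G c0 c1 c2 c3 c4 x) : TN G c1 c0 c4 c3 c2 x :=
  ⟨h.2.1, h.1, h.2.2.2.2, h.2.2.2.1, h.2.2.1⟩

lemma r_0 {x : V} (h : TD G c0 c1 c2 c3 c4 x) : TD G c0 c4 c3 c2 c1 x :=
  ⟨h.1, h.2.2.2.2.1, h.2.2.2.1, h.2.2.1, h.2.1, h.2.2.2.2.2⟩

/-- the configuration `013` -/
structure Cfg (G : SimpleGraph V) (c0 c1 c2 c3 c4 : V) (N D0 D1 D3 : Finset V) : Prop where
  hg : NoGem G
  hp : NoP23 G
  hc : C5c G c0 c1 c2 c3 c4
  hN : ∀ x ∈ N, TN G c0 c1 c2 c3 c4 x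
  h0 : ∀ x ∈ D0, TD G c0 c1 c2 c3 c4 x
  h1 : ∀ x ∈ D1, TD G c1 c2 c3 c4 c0 x
  h3 : ∀ x ∈ D3, TD G c3 c4 c0 c1 c2 x

variable {N D0 D1 D3 : Finset V}

lemma Cfg.refl (C : Cfg G c0 c1 c2 c3 c4 N D0 D1 D3) : Cfg G c1 c0 c4 c3 c2 N D1 D0 D3 where
  hg := C.hg
  hp := C.hp
  hc := r_c5 C.hc
  hN := fun x hx => r_n (C.hN x hx)
  h0 := fun x hx => r_0 (C.h1 x hx)
  h1 := fun x hx => r_0 (C.h0 x hx)
  h3 := fun x hx => r_0 (C.h3 x hx)

lemma Cfg.sub (C : Cfg G c0 c1 c2 c3 c4 N D0 D1 D3) {N' D0' D1' D3' : Finset V} (hN : N' ⊆ N)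
    (h0 : D0' ⊆ D0) (h1 : D1' ⊆ D1) (h3 : D3' ⊆ D3) : Cfg G c0 c1 c2 c3 c4 N' D0' D1' D3' where
  hg := C.hg
  hp := C.hp
  hc := C.hc
  hN := fun x hx => C.hN x (hN hx)
  h0 := fun x hx => C.h0 x (h0 hx)
  h1 := fun x hx => C.h1 x (h1 hx)
  h3 := fun x hx => C.h3 x (h3 hx)

section
variable (C : Cfg G c0 c1 c2 c3 c4 N D0 D1 D3)
include C

lemma Cfg.nn : Ind G N := fun x hx y hy => f_nn C.hg C.hp C.hc (C.hN x hx) (C.hN y hy)

/-- `d0` misses at most one vertex of `D1` -/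
lemma Cfg.miss {d0 d1 d1' : V} (h0 : d0 ∈ D0) (h1 : d1 ∈ D1) (h1' : d1' ∈ D1)
    (a : ¬ G.Adj d0 d1) (b : ¬ G.Adj d0 d1') : d1 = d1' :=
  f_miss0 C.hg C.hp C.hc (C.h0 _ h0) (C.h1 _ h1) (C.h1 _ h1') a b

lemma Cfg.tri {d0 d1 d3 : V} (h0 : d0 ∈ D0) (h1 : d1 ∈ D1) (h3 : d3 ∈ D3)
    (a : G.Adj d3 d0) (b : G.Adj d3 d1) : ¬ G.Adj d0 d1 := fun c =>
  f_tri C.hg C.hp C.hc (C.h0 _ h0) (C.h1 _ h1) (C.h3 _ h3) c a b

lemma Cfg.n0 {x : V} (hx : x ∈ N) : x ∉ D0 := fun h => (C.hN x hx).2.1 (C.h0 x h).2.1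
lemma Cfg.n1 {x : V} (hx : x ∈ N) : x ∉ D1 := fun h => (C.hN x hx).2.2.1 (C.h1 x h).2.1
lemma Cfg.n3 {x : V} (hx : x ∈ N) : x ∉ D3 := fun h => (C.hN x hx).2.2.2.2 (C.h3 x h).2.1
lemma Cfg.d01 {x : V} (hx : x ∈ D0) : x ∉ D1 := fun h => (C.h1 x h).1 (C.h0 x hx).2.1
lemma Cfg.d03 {x : V} (hx : x ∈ D0) : x ∉ D3 := fun h => (C.h3 x h).2.2.2.1 (C.h0 x hx).2.1
lemma Cfg.d13 {x : V} (hx : x ∈ D1) : x ∉ D3 := fun h => (C.h1 x hx).2.2.2.1 (C.h3 x h).2.1

/-- `N` is anticomplete to `D3` -/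
lemma Cfg.two {n d3 : V} (hn : n ∈ N) (h3 : d3 ∈ D3) (hadj : G.Adj n d3) (hcard : 3 ≤ D0.card) :
    ∃ x ∈ D0, ∃ y ∈ D0, x ≠ y ∧ G.Adj d3 x ∧ G.Adj d3 y := by
  obtain ⟨a, ha, b, hb, c, hc, hab, hac, hbc⟩ := Finset.two_lt_card.1 (show 2 < D0.card by omega)
  have k1 : ∀ x ∈ D0, ¬ G.Adj n x → G.Adj d3 x := fun x hx h =>
    (f_b2 C.hg C.hp C.hc (C.h0 _ hx) (C.h3 _ h3) (C.hN _ hn) hadj h).symm
  have k2 : ∀ x ∈ D0, ∀ y ∈ D0, x ≠ y → G.Adj n x → G.Adj n y → G.Adj d3 x := fun x hx y hy hne h h' =>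
    (f_e0 C.hg C.hp C.hc (C.h0 _ hx) (C.h0 _ hy) (C.h3 _ h3)
      (f_cl0 C.hg C.hp C.hc (C.h0 _ hx) (C.h0 _ hy) (C.hN _ hn) h h' hne)).symm
  by_cases h1 : G.Adj n a <;> by_cases h2 : G.Adj n b <;> by_cases h3 : G.Adj n c
  · exact ⟨a, ha, b, hb, hab, k2 a ha b hb hab h1 h2, k2 b hb a ha hab.symm h2 h1⟩
  · exact ⟨a, ha, b, hb, hab, k2 a ha b hb hab h1 h2, k2 b hb a ha hab.symm h2 h1⟩
  · exact ⟨a, ha, c, hc, hac, k2 a ha c hc hac h1 h3, k2 c hc a ha hac.symm h3 h1⟩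
  · exact ⟨b, hb, c, hc, hbc, k1 b hb h2, k1 c hc h3⟩
  · exact ⟨b, hb, c, hc, hbc, k2 b hb c hc hbc h2 h3, k2 c hc b hb hbc.symm h3 h2⟩
  · exact ⟨a, ha, c, hc, hac, k1 a ha h1, k1 c hc h3⟩
  · exact ⟨a, ha, b, hb, hab, k1 a ha h1, k1 b hb h2⟩
  · exact ⟨a, ha, b, hb, hab, k1 a ha h1, k1 b hb h2⟩

lemma Cfg.anti3 (hc0 : 3 ≤ D0.card) (hc1 : 3 ≤ D1.card) : Anti G N D3 := by
  intro n hn d3 h3 hadj
  obtain ⟨x, hx, y, hy, hne, a1, a2⟩ := C.two hn h3 hadj hc0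
  obtain ⟨z, hz, -, -, -, a3, -⟩ := C.refl.two hn h3 hadj hc1
  have b1 := C.tri hx hz h3 a1 a3
  have b2 := C.tri hy hz h3 a2 a3
  exact hne (C.refl.miss hz hx hy (fun h => b1 h.symm) (fun h => b2 h.symm))

end

/-- `D0` has an edge -/
theorem caseA (hA : AttachStmt) (hZ : ZStmt) : ∃ K : ℕ, ∀ (V : Type) (G : SimpleGraph V)
    (c0 c1 c2 c3 c4 : V) (N D0 D1 D3 : Finset V), Cfg G c0 c1 c2 c3 c4 N D0 D1 D3 → Anti G N D3 →
    D3.Nonempty → (∃ x ∈ D0, ∃ y ∈ D0, G.Adj x y) → BD G K (N ∪ D0 ∪ D1 ∪ D3) := by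
  obtain ⟨B, hB⟩ := hA
  obtain ⟨K, hK⟩ := hZ
  refine ⟨B K (2 ^ 2) (Fintype.card Bool), ?_⟩
  intro V G c0 c1 c2 c3 c4 N D0 D1 D3 C hN3 ⟨d3, hd3⟩ ⟨x, hx, x', hx', hxx⟩
  -- D3 is anticomplete to D1
  have h31 : ∀ z ∈ D3, ∀ y ∈ D1, ¬ G.Adj z y := by
    intro z hz y hy hadj
    have e1 := f_e0 C.hg C.hp C.hc (C.h0 _ hx) (C.h0 _ hx') (C.h3 _ hz) hxx
    have e2 := f_e0 C.hg C.hp C.hc (C.h0 _ hx') (C.h0 _ hx) (C.h3 _ hz) hxx.symm
    have b1 := C.tri hx hy hz e1.symm hadj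
    have b2 := C.tri hx' hy hz e2.symm hadj
    exact hxx.ne (C.refl.miss hy hx hx' (fun h => b1 h.symm) (fun h => b2 h.symm))
  have h11 : ∀ y ∈ D1, ∀ y' ∈ D1, ¬ G.Adj y y' := by
    intro y hy y' hy' hadj
    have C' := C.refl
    have e1 := f_e0 C'.hg C'.hp C'.hc (C'.h0 _ hy) (C'.h0 _ hy') (C'.h3 _ hd3) hadj
    exact h31 d3 hd3 y hy e1.symm
  have hN1 : ∀ n ∈ N, ∀ y ∈ D1, ¬ G.Adj y n := by
    intro n hn y hy hadj
    have C' := C.refl
    have e1 := f_b1 C'.hg C'.hp C'.hc (C'.h0 _ hy) (C'.h3 _ hd3) (C'.hN _ hn) hadj.symm (hN3 n hn d3 hd3)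
    exact h31 d3 hd3 y hy e1.symm
  obtain ⟨b, hb⟩ : ∃ b : V → V, ∀ x, b x = (if h : x ∈ D1 ∧ ∃ y ∈ D0, ¬ G.Adj x y then h.2.choose else x) :=
    ⟨_, fun _ => rfl⟩
  have bV : ∀ x, x ∉ D1 → b x = x := by
    intro x hx
    rw [hb, dif_neg (fun h => hx h.1)]
  have bD1 : ∀ x ∈ D1, ∀ y ∈ D0, ¬ G.Adj x y → b x = y := by
    intro x hx y hy hadj
    have h : x ∈ D1 ∧ ∃ y ∈ D0, ¬ G.Adj x y := ⟨hx, y, hy, hadj⟩
    rw [hb, dif_pos h]
    exact C.refl.miss hx h.2.choose_spec.1 hy h.2.choose_spec.2 hadj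
  have key := hB V G Bool V K (2 ^ 2) (N ∪ (D0 ∪ D3)) D1 (fun x => decide (x ∈ D0)) (fun _ q => q = true) b ?_ ?_ ?_ ?_
  · exact key.sub (by intro z; simp only [mem_union]; tauto)
  · -- Z
    have := hK V G C.hg C.hp c4 (D0 ∪ D3) N ⟨?_, ?_, C.nn, ?_⟩
    · rwa [union_comm] at this
    · intro m hm
      rcases mem_union.1 hm with h | h
      · exact (C.h0 m h).2.2.2.2.1
      · exact (C.h3 m h).2.1
    · intro n hn; exact (C.hN n hn).2.2.2.2
    · intro h; exact (C.hN _ h).2.2.2.1 C.hc.2.2.2.1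
  · intro x hx y hy hxy
    have hx' : x ∉ D1 := by
      rcases mem_union.1 hx with h | h
      · exact C.n1 h
      · rcases mem_union.1 h with h | h
        · exact C.d01 h
        · exact fun h' => C.d13 h' h
    have hy' : y ∉ D1 := by
      rcases mem_union.1 hy with h | h
      · exact C.n1 h
      · rcases mem_union.1 h with h | h
        · exact C.d01 h
        · exact fun h' => C.d13 h' h
    rwa [bV x hx', bV y hy'] at hxy
  · intro x hx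
    apply BD.card
    set t := b x
    by_cases ht : t ∈ D0
    · calc _ ≤ ({t} ∪ D1.filter (fun z => ¬ G.Adj t z)).card := by
            apply card_le_card
            intro z hz
            rw [mem_filter] at hz
            simp only [mem_union, mem_singleton, mem_filter]
            by_cases hz1 : z ∈ D1
            · by_cases h : ∃ y ∈ D0, ¬ G.Adj z y
              · obtain ⟨y, hy, h⟩ := h
                have := bD1 z hz1 y hy h
                right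
                rw [← hz.2, this]
                exact ⟨hz1, fun h' => h h'.symm⟩
              · left
                have : b z = z := by
                  rw [hb, dif_neg (fun h' => h h'.2)]
                rw [← this]; exact hz.2
            · left; rw [← bV z hz1]; exact hz.2
        _ ≤ 1 + 1 := by
            refine (card_union_le _ _).trans (Nat.add_le_add (by simp) ?_)
            rw [card_le_one]
            intro a ha c hc
            rw [mem_filter] at ha hc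
            exact C.miss ht ha.1 hc.1 ha.2 hc.2
    · calc _ ≤ ({t} : Finset V).card := by
            apply card_le_card
            intro z hz
            rw [mem_filter] at hz
            simp only [mem_singleton]
            by_cases hz1 : z ∈ D1
            · by_cases h : ∃ y ∈ D0, ¬ G.Adj z y
              · obtain ⟨y, hy, h⟩ := h
                have := bD1 z hz1 y hy h
                exact absurd (by rw [← hz.2, this]; exact hy) ht
              · have : b z = z := by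
                  rw [hb, dif_neg (fun h' => h h'.2)]
                rw [← this]; exact hz.2
            · rw [← bV z hz1]; exact hz.2
        _ ≤ 2 := by simp
  · intro w hw y hy hne
    simp only [decide_eq_true_eq]
    constructor
    · intro hadj
      rcases mem_union.1 hy with h | h
      · rcases mem_union.1 h with h | h
        · exact absurd hadj (hN1 y h w hw)
        · rcases mem_union.1 h with h | h
          · exact h
          · exact absurd hadj.symm (h31 y h w hw)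
      · exact absurd hadj (h11 w hw y h)
    · intro hy0
      by_contra hadj
      exact hne (by rw [bD1 w hw y hy0 hadj, bV y (C.d01 hy0)])

/-- `D0`, `D1`, `D3` independent, `N` anticomplete to `D1` and `D3` -/
theorem caseB (hA : AttachStmt) (hT : TwoStmt) (hZ : ZStmt) : ∃ K : ℕ, ∀ (V : Type) (G : SimpleGraph V)
    (c0 c1 c2 c3 c4 : V) (N D0 D1 D3 : Finset V), Cfg G c0 c1 c2 c3 c4 N D0 D1 D3 → Anti G N D3 →
    Anti G N D1 → Ind G D0 → Ind G D1 → Ind G D3 → BD G K (N ∪ D0 ∪ D1 ∪ D3) := by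
  obtain ⟨B, hB⟩ := hA
  obtain ⟨T, hT⟩ := hT
  obtain ⟨K, hK⟩ := hZ
  refine ⟨B (T K 1 (Fintype.card (Bool × Bool))) ((1 + 1) * 2 ^ 2) (Fintype.card (Bool × Bool × Bool × Bool)), ?_⟩
  intro V G c0 c1 c2 c3 c4 N D0 D1 D3 C hN3 hN1 i0 i1 i3
  obtain ⟨P, hP⟩ : ∃ P : V → Prop, ∀ x, (P x ↔ (x ∈ D0 ∧ ∃ y ∈ D1, ¬ G.Adj x y) ∨
    (x ∈ D1 ∧ ∃ y ∈ D0, ¬ G.Adj x y) ∨
    (x ∈ D3 ∧ (∃ y ∈ D0, G.Adj x y) ∧ (∃ y ∈ D1, G.Adj x y))) := ⟨_, fun _ => Iff.rfl⟩
  obtain ⟨R, hR⟩ : ∃ R : Finset V, R = N ∪ D0 ∪ D1 ∪ D3 := ⟨_, rfl⟩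
  rw [← hR]
  obtain ⟨b, hb⟩ : ∃ b : V → V, ∀ x, b x = (if h : x ∈ D1 ∧ ∃ y ∈ D0, ¬ G.Adj x y then h.2.choose else
    if h : x ∈ D3 ∧ (∃ y ∈ D0, G.Adj x y) ∧ (∃ y ∈ D1, G.Adj x y) then h.2.1.choose else x) :=
    ⟨_, fun _ => rfl⟩
  have bV : ∀ x, ¬ P x → b x = x := by
    intro x hx
    rw [hP] at hx
    rw [hb, dif_neg (fun h => hx (Or.inr (Or.inl h))), dif_neg (fun h => hx (Or.inr (Or.inr h)))]
  have b0 : ∀ x ∈ D0, b x = x := by
    intro x hx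
    rw [hb, dif_neg (fun h => C.d01 hx h.1), dif_neg (fun h => C.d03 hx h.1)]
  have b1 : ∀ x ∈ D1, ∀ y ∈ D0, ¬ G.Adj x y → b x = y := by
    intro x hx y hy hadj
    have h : x ∈ D1 ∧ ∃ y ∈ D0, ¬ G.Adj x y := ⟨hx, y, hy, hadj⟩
    rw [hb, dif_pos h]
    exact C.refl.miss hx h.2.choose_spec.1 hy h.2.choose_spec.2 hadj
  have b3 : ∀ x ∈ D3, ∀ y ∈ D0, ∀ z ∈ D1, G.Adj x y → G.Adj x z → b x = y := by
    intro x hx y hy z hz a1 a2
    have h : x ∈ D3 ∧ (∃ y ∈ D0, G.Adj x y) ∧ (∃ y ∈ D1, G.Adj x y) := ⟨hx, ⟨y, hy, a1⟩, ⟨z, hz, a2⟩⟩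
    rw [hb, dif_neg (fun h => C.d13 h.1 hx), dif_pos h]
    have k1 := C.tri hy hz hx a1 a2
    have k2 := C.tri h.2.1.choose_spec.1 hz hx h.2.1.choose_spec.2 a2
    exact C.refl.miss hz h.2.1.choose_spec.1 hy (fun h => k2 h.symm) (fun h => k1 h.symm)
  have cov : R.filter (fun x => ¬ P x) ∪ R.filter P = R := by
    ext z; simp only [mem_union, mem_filter]
    constructor
    · rintro (h | h)
      · exact h.1
      · exact h.1
    · intro h
      by_cases h' : P z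
      · exact Or.inr ⟨h, h'⟩
      · exact Or.inl ⟨h, h'⟩
  have lk0 : ∀ x ∈ D0, ∀ y ∈ D1, ¬ G.Adj x y → ∀ n ∈ N, ¬ G.Adj x n := by
    intro x hx y hy hadj n hn h
    have := f_link C.hg C.hp C.hc (C.h0 _ hx) (C.h1 _ hy) (C.hN _ hn) hadj h
    exact hN1 n hn y hy this.symm
  have lk3 : ∀ x ∈ D0, ∀ y ∈ D1, ¬ G.Adj x y → ∀ z ∈ D3, G.Adj z x → ¬ G.Adj z y → ∀ x' ∈ D0, G.Adj z x' :=
    fun x hx y hy h z hz h1 h2 x' hx' =>
      f_lk C.hg C.hp C.hc (C.h0 _ hx) (C.h0 _ hx') (C.h1 _ hy) (C.h3 _ hz) h h1 h2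
  have lk3' : ∀ x ∈ D0, ∀ y ∈ D1, ¬ G.Adj x y → ∀ z ∈ D3, G.Adj z y → ¬ G.Adj z x → ∀ y' ∈ D1, G.Adj z y' :=
    fun x hx y hy h z hz h1 h2 x' hx' => by
      have C' := C.refl
      exact f_lk C'.hg C'.hp C'.hc (C'.h0 _ hy) (C'.h0 _ hx') (C'.h1 _ hx) (C'.h3 _ hz)
        (fun h' => h h'.symm) h1 h2
  have key := hB V G (Bool × Bool × Bool × Bool) V (T K 1 (Fintype.card (Bool × Bool))) ((1 + 1) * 2 ^ 2)
    (R.filter (fun x => ¬ P x)) (R.filter P)
    (fun x => (decide (x ∈ D0), decide (x ∈ D1), decide (x ∈ D3 ∧ ∀ y ∈ D0, G.Adj x y),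
      decide (x ∈ D3 ∧ ∀ y ∈ D1, G.Adj x y)))
    (fun p q => (p.1 = true ∧ (q.2.1 = true ∨ q.2.2.1 = true)) ∨ (p.2.1 = true ∧ (q.1 = true ∨ q.2.2.2 = true)))
    b ?_ ?_ ?_ ?_
  · rwa [cov] at key
  · -- V0
    have h2 := hT V G (Bool × Bool) K 1 (R.filter (fun x => ¬ P x ∧ (x ∈ N ∨ x ∈ D0 ∨ (x ∈ D3 ∧ ∀ y ∈ D1, ¬ G.Adj x y))))
      (R.filter (fun x => ¬ P x ∧ (x ∈ D1 ∨ (x ∈ D3 ∧ ∃ y ∈ D1, G.Adj x y))))
      (fun x => (decide (x ∈ D0), decide (x ∈ D1))) (fun p q => p.1 = true ∧ q.2 = true) ?_ ?_ ?_ ?_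
    · refine h2.sub ?_
      intro z hz
      rw [mem_filter] at hz
      have hzc : z ∈ N ∨ z ∈ D0 ∨ z ∈ D1 ∨ z ∈ D3 := by
        have := hz.1
        simp only [hR, mem_union] at this; tauto
      rw [mem_union, mem_filter, mem_filter]
      rcases hzc with h | h | h | h
      · exact Or.inl ⟨hz.1, hz.2, Or.inl h⟩
      · exact Or.inl ⟨hz.1, hz.2, Or.inr (Or.inl h)⟩
      · exact Or.inr ⟨hz.1, hz.2, Or.inl h⟩
      · by_cases hz3 : ∃ y ∈ D1, G.Adj z y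
        · exact Or.inr ⟨hz.1, hz.2, Or.inr ⟨h, hz3⟩⟩
        · exact Or.inl ⟨hz.1, hz.2, Or.inr (Or.inr ⟨h, fun y hy hadj => hz3 ⟨y, hy, hadj⟩⟩)⟩
    · rw [disjoint_left]
      intro z h1 h2
      rw [mem_filter] at h1 h2
      rcases h1.2.2 with h | h | h
      · rcases h2.2.2 with h' | h'
        · exact C.n1 h h'
        · exact C.n3 h h'.1
      · rcases h2.2.2 with h' | h'
        · exact C.d01 h h'
        · exact C.d03 h h'.1
      · rcases h2.2.2 with h' | h'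
        · exact C.d13 h' h.1
        · obtain ⟨_, y, hy, hadj⟩ := h'
          exact h.2 y hy hadj
    · have := hK V G C.hg C.hp c4 (D0 ∪ D3) N ⟨?_, ?_, C.nn, ?_⟩
      · refine this.sub ?_
        intro z hz
        rw [mem_filter] at hz
        simp only [mem_union]
        rcases hz.2.2 with h | h | h
        · exact Or.inr h
        · exact Or.inl (Or.inl h)
        · exact Or.inl (Or.inr h.1)
      · intro m hm
        rcases mem_union.1 hm with h | h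
        · exact (C.h0 m h).2.2.2.2.1
        · exact (C.h3 m h).2.1
      · intro n hn; exact (C.hN n hn).2.2.2.2
      · intro h; exact (C.hN _ h).2.2.2.1 C.hc.2.2.2.1
    · apply BD.cograph
      apply p4free_of_nb C.hg (v := c2)
      intro z hz
      rw [mem_filter] at hz
      rcases hz.2.2 with h | h
      · exact (C.h1 z h).2.1
      · exact (C.h3 z h.1).2.2.2.2.1
    · intro x hx y hy
      rw [mem_filter] at hx hy
      simp only [decide_eq_true_eq]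
      constructor
      · intro hadj
        rcases hx.2.2 with h | h | h
        · rcases hy.2.2 with h' | h'
          · exact absurd hadj (hN1 x h y h')
          · exact absurd hadj (hN3 x h y h'.1)
        · rcases hy.2.2 with h' | h'
          · exact ⟨h, h'⟩
          · exact absurd ((hP y).2 (Or.inr (Or.inr ⟨h'.1, ⟨x, h, hadj.symm⟩, h'.2⟩))) hy.2.1
        · rcases hy.2.2 with h' | h'
          · exact absurd hadj (h.2 y h')
          · exact absurd hadj (i3 x h.1 y h'.1)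
      · rintro ⟨hx0, hy1⟩
        by_contra hadj
        exact hx.2.1 ((hP x).2 (Or.inl ⟨hx0, y, hy1, hadj⟩))
  · intro x hx y hy hxy
    rw [mem_filter] at hx hy
    rwa [bV x hx.2, bV y hy.2] at hxy
  · intro x hx
    rw [cov]
    set t := b x
    have hblk : ∀ z ∈ R, b z = t → z = t ∨ (z ∈ D1 ∧ t ∈ D0 ∧ ¬ G.Adj t z) ∨ z ∈ D3 := by
      intro z hz hzt
      by_cases h1 : z ∈ D1 ∧ ∃ y ∈ D0, ¬ G.Adj z y
      · obtain ⟨h1, y, hy, h2⟩ := h1
        have := b1 z h1 y hy h2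
        right; left
        rw [← hzt, this]
        exact ⟨h1, hy, fun h => h2 h.symm⟩
      · by_cases h2 : z ∈ D3
        · right; right; exact h2
        · left
          have : b z = z := by
            rw [hb, dif_neg h1, dif_neg (fun h => h2 h.1)]
          rw [← this, hzt]
    refine BD.of_sdiff (X := {t} ∪ D1.filter (fun z => t ∈ D0 ∧ ¬ G.Adj t z)) ?_ ?_
    · apply BD.ind
      intro z hz z' hz'
      simp only [mem_sdiff, mem_filter, mem_union, mem_singleton, not_or] at hz hz'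
      have e1 := hblk z hz.1.1 hz.1.2
      have e2 := hblk z' hz'.1.1 hz'.1.2
      have e1' : z ∈ D3 := by
        rcases e1 with h | h | h
        · exact absurd h hz.2.1
        · exact absurd h.2 (fun h' => hz.2.2 ⟨h.1, h'⟩)
        · exact h
      have e2' : z' ∈ D3 := by
        rcases e2 with h | h | h
        · exact absurd h hz'.2.1
        · exact absurd h.2 (fun h' => hz'.2.2 ⟨h.1, h'⟩)
        · exact h
      exact i3 z e1' z' e2'
    · refine (card_union_le _ _).trans ?_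
      have : (D1.filter (fun z => t ∈ D0 ∧ ¬ G.Adj t z)).card ≤ 1 := by
        rw [card_le_one]
        intro a ha c hc
        rw [mem_filter] at ha hc
        exact C.miss ha.2.1 ha.1 hc.1 ha.2.2 hc.2.2
      simp only [card_singleton]; omega
  · intro w hw y hy hne
    rw [mem_filter] at hw
    rw [cov] at hy
    simp only [decide_eq_true_eq]
    have hyc : y ∈ N ∨ y ∈ D0 ∨ y ∈ D1 ∨ y ∈ D3 := by
      simp only [hR, mem_union] at hy; tauto
    rcases (hP w).1 hw.2 with ⟨w0, d1, hd1, hwd⟩ | ⟨w1, d0, hd0, hwd⟩ | ⟨w3, ⟨d0, hd0, e0⟩, ⟨d1, hd1, e1⟩⟩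
    · -- w ∈ D0 linked
      have hw1 : w ∉ D1 := C.d01 w0
      constructor
      · intro hadj
        left
        refine ⟨w0, ?_⟩
        rcases hyc with h | h | h | h
        · exact absurd hadj (lk0 w w0 d1 hd1 hwd y h)
        · exact absurd hadj (i0 w w0 y h)
        · left; exact h
        · right
          refine ⟨h, ?_⟩
          by_cases h2 : ∃ z ∈ D1, G.Adj y z
          · obtain ⟨z, hz, hyz⟩ := h2
            exact absurd (by rw [b0 w w0, b3 y h w w0 z hz hadj.symm hyz]) hne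
          · exact lk3 w w0 d1 hd1 hwd y h hadj.symm (fun h' => h2 ⟨d1, hd1, h'⟩)
      · rintro (⟨-, h⟩ | ⟨h, -⟩)
        · rcases h with h | h
          · by_contra hadj
            exact hne (by rw [b0 w w0, b1 y h w w0 (fun h => hadj h.symm)])
          · exact (h.2 w w0).symm
        · exact absurd h hw1
    · -- w ∈ D1 linked
      have hw0 : w ∉ D0 := fun h => C.d01 h w1
      have hbw : b w = d0 := b1 w w1 d0 hd0 hwd
      constructor
      · intro hadj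
        right
        refine ⟨w1, ?_⟩
        rcases hyc with h | h | h | h
        · exact absurd hadj.symm (hN1 y h w w1)
        · left; exact h
        · exact absurd hadj (i1 w w1 y h)
        · right
          refine ⟨h, ?_⟩
          by_cases h2 : ∃ z ∈ D0, G.Adj y z
          · obtain ⟨z, hz, hyz⟩ := h2
            have k1 := C.tri hz w1 h hyz hadj.symm
            have k2 := b1 w w1 z hz (fun h => k1 h.symm)
            exact absurd (by rw [k2, b3 y h z hz w w1 hyz hadj.symm]) hne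
          · exact lk3' d0 hd0 w w1 (fun h => hwd h.symm) y h hadj.symm (fun h' => h2 ⟨d0, hd0, h'⟩)
      · rintro (⟨h, -⟩ | ⟨-, h⟩)
        · exact absurd h hw0
        · rcases h with h | h
          · by_contra hadj
            exact hne (by rw [b1 w w1 y h hadj, b0 y h])
          · exact (h.2 w w1).symm
    · -- w ∈ D3
      have hw0 : w ∉ D0 := fun h => C.d03 h w3
      have hw1 : w ∉ D1 := fun h => C.d13 h w3
      have hbw := b3 w w3 d0 hd0 d1 hd1 e0 e1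
      constructor
      · intro hadj
        exfalso
        rcases hyc with h | h | h | h
        · exact hN3 y h w w3 hadj.symm
        · have := b3 w w3 y h d1 hd1 hadj e1
          exact hne (by rw [this, b0 y h])
        · have k1 := C.tri hd0 h w3 e0 hadj
          have := b1 y h d0 hd0 (fun h => k1 h.symm)
          exact hne (by rw [this, hbw])
        · exact i3 w w3 y h hadj
      · rintro (⟨h, -⟩ | ⟨h, -⟩)
        · exact absurd h hw0
        · exact absurd h hw1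

theorem nd013_stmt (hA : AttachStmt) (hT : TwoStmt) (hZ : ZStmt) : ND013Stmt := by
  obtain ⟨K1, h1⟩ := caseA hA hZ
  obtain ⟨K2, h2⟩ := caseB hA hT hZ
  have hle2 : K2 ≤ (K2 + 1) * 2 ^ 1 := by omega
  refine ⟨max K1 ((K2 + 1) * 2 ^ 1), ?_⟩
  intro V G hg hp c0 c1 c2 c3 c4 N D0 D1 D3 hcfg hc0 hc1 hc3
  obtain ⟨hc, hN, g0, g1, -, g3, -⟩ := hcfg
  have C : Cfg G c0 c1 c2 c3 c4 N D0 D1 D3 := ⟨hg, hp, hc, hN, g0, g1, g3⟩
  have hN3 : Anti G N D3 := C.anti3 (by omega) (by omega)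
  have hne3 : D3.Nonempty := card_pos.1 (by omega)
  have perm : N ∪ D1 ∪ D0 ∪ D3 = N ∪ D0 ∪ D1 ∪ D3 := by
    ext z; simp only [mem_union]; tauto
  by_cases e0 : ∃ x ∈ D0, ∃ y ∈ D0, G.Adj x y
  · exact (h1 V G c0 c1 c2 c3 c4 N D0 D1 D3 C hN3 hne3 e0).mono (le_max_left _ _)
  by_cases e1 : ∃ x ∈ D1, ∃ y ∈ D1, G.Adj x y
  · have := (h1 V G c1 c0 c4 c3 c2 N D1 D0 D3 C.refl hN3 hne3 e1).mono (le_max_left K1 ((K2 + 1) * 2 ^ 1))
    rwa [perm] at this
  have i0 : Ind G D0 := fun x hx y hy h => e0 ⟨x, hx, y, hy, h⟩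
  have i1 : Ind G D1 := fun x hx y hy h => e1 ⟨x, hx, y, hy, h⟩
  have i3 : Ind G D3 := by
    intro x hx y hy hadj
    have k0 : ∀ z ∈ D0, G.Adj x z := fun z hz =>
      f_e3 C.hg C.hp C.hc (C.h3 _ hx) (C.h3 _ hy) (C.h0 _ hz) hadj
    have k1 : ∀ z ∈ D1, G.Adj x z := fun z hz =>
      f_e3 C.refl.hg C.refl.hp C.refl.hc (C.refl.h3 _ hx) (C.refl.h3 _ hy) (C.refl.h0 _ hz) hadj
    obtain ⟨z, hz⟩ : D0.Nonempty := card_pos.1 (by omega)
    obtain ⟨a, ha, b, hb, hab⟩ := Finset.one_lt_card.1 (show 1 < D1.card by omega)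
    exact hab (C.miss hz ha hb (C.tri hz ha hx (k0 z hz) (k1 a ha)) (C.tri hz hb hx (k0 z hz) (k1 b hb)))
  by_cases a1 : Anti G N D1
  · exact (h2 V G c0 c1 c2 c3 c4 N D0 D1 D3 C hN3 a1 i0 i1 i3).mono (hle2.trans (le_max_right _ _))
  by_cases a0 : Anti G N D0
  · have := (h2 V G c1 c0 c4 c3 c2 N D1 D0 D3 C.refl hN3 a0 i1 i0 i3).mono (hle2.trans (le_max_right K1 _))
    rwa [perm] at this
  -- both
  simp only [Anti, not_forall, not_not] at a0 a1
  obtain ⟨n, hn, d0, hd0, ad0⟩ := a0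
  obtain ⟨n', hn', d1, hd1, ad1⟩ := a1
  have comp1 : ∀ m ∈ N, ∀ y ∈ D1, G.Adj m y → ∀ z ∈ D3, G.Adj z y := fun m hm y hy h z hz =>
    (f_b1 C.refl.hg C.refl.hp C.refl.hc (C.refl.h0 _ hy) (C.refl.h3 _ hz) (C.refl.hN _ hm) h (hN3 m hm z hz)).symm
  have comp0 : ∀ z ∈ D3, G.Adj z d0 := fun z hz =>
    (f_b1 C.hg C.hp C.hc (C.h0 _ hd0) (C.h3 _ hz) (C.hN _ hn) ad0 (hN3 n hn z hz)).symm
  obtain ⟨z, hz⟩ := hne3
  have uniq : ∀ m ∈ N, ∀ y ∈ D1, G.Adj m y → y = d1 := by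
    intro m hm y hy h
    exact C.miss hd0 hy hd1 (C.tri hd0 hy hz (comp0 z hz) (comp1 m hm y hy h z hz))
      (C.tri hd0 hd1 hz (comp0 z hz) (comp1 n' hn' d1 hd1 ad1 z hz))
  have hfin := h2 V G c0 c1 c2 c3 c4 N D0 (D1.erase d1) D3
    (C.sub (Subset.refl _) (Subset.refl _) (erase_subset _ _) (Subset.refl _)) hN3 ?_ i0
    (i1.sub (erase_subset _ _)) i3
  · refine BD.mono (BD.of_sdiff (K := K2) (c := 1) (X := {d1}) (hfin.sub ?_) (by simp)) (le_max_right _ _)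
    intro z hz
    simp only [mem_sdiff, mem_union, mem_singleton, mem_erase] at hz ⊢
    tauto
  · intro m hm y hy h
    rw [mem_erase] at hy
    exact hy.1 (uniq m hm y hy.2 h)

end Pool.Agent.H146GP
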