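import Pool.Agent.H175F.Stmts2

/-! The cluster case. -/

namespace Pool.Agent.H175G

open Finset Classical

variable {V : Type} {G : SimpleGraph V}

/-- the component of `a` in a cluster set is a clique -/
lemma clus_comp_clq {M : Finset V} (h : Clus G M) {a : V} (ha : a ∈ M) :
    Clq G (M.filter (fun x => x = a ∨ G.Adj a x)) := by
  intro x hx y hy hne
  rw [mem_filter] at hx hy
  rcases hx.2 with rfl | h1
  · rcases hy.2 with rfl | h2
    · exact absurd rfl hne
    · exact h2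
  · rcases hy.2 with rfl | h2
    · exact h1.symm
    · exact h x hx.1 a ha y hy.1 h1.symm h2 hne

/-- the component of `a` is anticomplete to the rest -/
lemma clus_comp_anti {M I : Finset V} (h : Clus G M) {a : V} (ha : a ∈ M) (hI : I ⊆ M)
    (hI2 : ∀ x ∈ I, ¬ (x = a ∨ G.Adj a x)) :
    Anti G (M.filter (fun x => x = a ∨ G.Adj a x)) I := by
  intro x hx y hy hxy
  rw [mem_filter] at hx
  have h0 := hI2 y hy
  rcases hx.2 with rfl | h1
  · exact h0 (Or.inr hxy)
  · by_cases hay : y = a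
    · exact h0 (Or.inl hay)
    · exact h0 (Or.inr (h a ha x hx.1 y (hI hy) h1 hxy (Ne.symm hay)))

theorem cluster_stmt (hB : BipStmt) (hAl : AlphaStmt) (hBe : BetaStmt) (hGa : GammaStmt) :
    ClusterStmt := by
  obtain ⟨KB, hB⟩ := hB
  obtain ⟨KA, hA⟩ := hAl
  obtain ⟨KE, hE⟩ := hBe
  obtain ⟨KG, hG⟩ := hGa
  refine ⟨KB + KA + KE + KG, ?_⟩
  intro V G hg hp v M N hZ hM
  by_cases h3 : ∃ a ∈ M, ∃ a' ∈ M, ∃ b ∈ M, ∃ b' ∈ M, ∃ c ∈ M, ∃ c' ∈ M, G.Adj a a' ∧ G.Adj b b' ∧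
      G.Adj c c' ∧ ¬ G.Adj a b ∧ a ≠ b ∧ ¬ G.Adj a c ∧ a ≠ c ∧ ¬ G.Adj b c ∧ b ≠ c
  · exact (hG V G hg hp v M N hZ hM h3).mono (by omega)
  by_cases h2 : ∃ a ∈ M, ∃ a' ∈ M, ∃ b ∈ M, ∃ b' ∈ M, G.Adj a a' ∧ G.Adj b b' ∧ ¬ G.Adj a b ∧ a ≠ b
  · obtain ⟨a, ha, a', ha', b, hb, b', hb', haa, hbb, hab, hne⟩ := h2
    set P := M.filter (fun x => x = a ∨ G.Adj a x) with hP
    set Q := M.filter (fun x => x = b ∨ G.Adj b x) with hQ
    set I := M \ (P ∪ Q) with hI
    have hIM : I ⊆ M := sdiff_subset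
    have hIP : ∀ x ∈ I, ¬ (x = a ∨ G.Adj a x) := by
      intro x hx h
      rw [hI, mem_sdiff, mem_union] at hx
      exact hx.2 (Or.inl (mem_filter.2 ⟨hx.1, h⟩))
    have hIQ : ∀ x ∈ I, ¬ (x = b ∨ G.Adj b x) := by
      intro x hx h
      rw [hI, mem_sdiff, mem_union] at hx
      exact hx.2 (Or.inr (mem_filter.2 ⟨hx.1, h⟩))
    have hU : P ∪ Q ∪ I = M := by
      ext x
      simp only [mem_union, hI, mem_sdiff]
      constructor
      · rintro ((h | h) | h)
        · exact (mem_filter.1 h).1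
        · exact (mem_filter.1 h).1
        · exact h.1
      · intro h; tauto
    have hPQ : Anti G P Q := by
      refine clus_comp_anti hM ha (filter_subset _ _) ?_
      intro y hy h
      rw [hQ, mem_filter] at hy
      rcases hy.2 with rfl | h1
      · rcases h with h | h
        · exact hne h.symm
        · exact hab h
      · rcases h with rfl | h
        · exact hab h1.symm
        · exact hab (hM a ha y hy.1 b hb h h1.symm hne)
    have hInd : Ind G I := by
      intro x hx y hy hxy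
      refine h3 ⟨a, ha, a', ha', b, hb, b', hb', x, hIM hx, y, hIM hy, haa, hbb, hxy, hab, hne,
        fun h => hIP x hx (Or.inr h), fun h => hIP x hx (Or.inl h.symm),
        fun h => hIQ x hx (Or.inr h), fun h => hIQ x hx (Or.inl h.symm)⟩
    have := hE V G hg hp v P Q I N (by rw [hU]; exact hZ) (clus_comp_clq hM ha)
      (clus_comp_clq hM hb) hInd hPQ (clus_comp_anti hM ha hIM hIP) (clus_comp_anti hM hb hIM hIQ)
    rw [hU] at this
    exact this.mono (by omega)
  by_cases h1 : ∃ a ∈ M, ∃ a' ∈ M, G.Adj a a'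
  · obtain ⟨a, ha, a', ha', haa⟩ := h1
    set Q := M.filter (fun x => x = a ∨ G.Adj a x) with hQ
    set I := M \ Q with hI
    have hIM : I ⊆ M := sdiff_subset
    have hIQ : ∀ x ∈ I, ¬ (x = a ∨ G.Adj a x) := by
      intro x hx h
      rw [hI, mem_sdiff, hQ, mem_filter] at hx
      exact hx.2 ⟨hx.1, h⟩
    have hU : Q ∪ I = M := by
      rw [hI, union_sdiff_of_subset (filter_subset _ _)]
    have hInd : Ind G I := by
      intro x hx y hy hxy
      exact h2 ⟨a, ha, a', ha', x, hIM hx, y, hIM hy, haa, hxy,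
        fun h => hIQ x hx (Or.inr h), fun h => hIQ x hx (Or.inl h.symm)⟩
    have := hA V G hg hp v Q I N (by rw [hU]; exact hZ) (clus_comp_clq hM ha) hInd
      (clus_comp_anti hM ha hIM hIQ)
    rw [hU] at this
    exact this.mono (by omega)
  · have hInd : Ind G M := by
      intro x hx y hy hxy
      exact h1 ⟨x, hx, y, hy, hxy⟩
    obtain ⟨hZ1, hZ2, hN, hZ4⟩ := hZ
    have hdisj : Disjoint M N := by
      rw [Finset.disjoint_left]
      intro x hx hy
      exact hZ2 x hy (hZ1 x hx)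
    refine (hB V G M N hdisj hInd hN ?_).mono (by omega)
    intro m hm m' hm' hcard n0 hn0
    by_contra hcon
    rw [mem_nb] at hn0 hcon
    have hmn : ¬ G.Adj m n0 := fun h => hcon ⟨hn0.1, h⟩
    obtain ⟨n1, hn1, n2, hn2, hne⟩ := Finset.one_lt_card.1 (show 1 < (nb G N m \ nb G N m').card by
      omega)
    rw [mem_sdiff, mem_nb, mem_nb] at hn1 hn2
    have e1 : ¬ G.Adj m' n1 := fun h => hn1.2 ⟨hn1.1.1, h⟩
    have e2 : ¬ G.Adj m' n2 := fun h => hn2.2 ⟨hn2.1.1, h⟩
    exact hp n0 m' n1 m n2 hn0.2.symm hn1.1.2.symm hn2.1.2 hne (hN n1 hn1.1.1 n2 hn2.1.1)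
      (hN n0 hn0.1 n1 hn1.1.1) (fun h => hmn h.symm) (hN n0 hn0.1 n2 hn2.1.1) e1 (hInd m' hm' m hm) e2

end Pool.Agent.H175G
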