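import Pool.Agent.H175F.Stmts2

/-! T13 (CROSS-LAM): laminarity on one of the two sides of the crossing configuration. -/

namespace Pool.Agent.H20R2.CL

open Finset Classical
open Pool.Agent.H175G

section

variable {V : Type} {G : SimpleGraph V} (hg : NoGem G) (hp : NoP23 G) (hc : NoC5 G)
  {v0 v1 v2 v3 : V} {P Q Ω : Finset V} {π : V → V} (hcfg : CPCfg G v0 v1 v2 v3 P Q Ω π)

/-- nonadjacent `x ∈ P`, `y ∈ Q` have no neighbour among the vertices of type `∅` -/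
theorem x0 (hp : NoP23 G) (hc : NoC5 G) {v0 v1 v2 v3 x y w : V}
    (hC : C22 G v0 v1 v2 v3) (hx : G.Adj v0 x ∧ G.Adj v2 x ∧ ¬ G.Adj v3 x)
    (hy : G.Adj v1 y ∧ G.Adj v3 y ∧ ¬ G.Adj v2 y)
    (hw : ¬ G.Adj v0 w ∧ ¬ G.Adj v1 w ∧ ¬ G.Adj v2 w ∧ ¬ G.Adj v3 w)
    (h : G.Adj w x ∨ G.Adj w y) : G.Adj x y := by
  by_contra hn
  rcases h with h | h
  · exact hp y v3 w x v0 (SimpleGraph.Adj.symm (And.left (And.right hy))) h (SimpleGraph.Adj.symm (And.left hx)) (Ne.symm (ne_of_wit (SimpleGraph.Adj.symm (And.left hC)) (And.left (And.right hw)))) (not_symm' (And.left hw)) (id fun (h_1 : SimpleGraph.Adj G y w) => hc y w x v0 v1 h_1 h (SimpleGraph.Adj.symm (And.left hx)) (And.left hC) (And.left hy) (not_symm' hn) (not_symm' (id fun (h : SimpleGraph.Adj G v0 y) => hc v0 y v3 v2 x h (SimpleGraph.Adj.symm (And.left (And.right hy))) (SimpleGraph.Adj.symm (And.left (And.right hC))) (And.left (And.right hx))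 (SimpleGraph.Adj.symm (And.left hx)) (And.left (And.right (And.right (And.right hC)))) (And.left (And.right (And.right hC))) (not_symm' (And.right (And.right hy))) (not_symm' hn) (And.right (And.right hx)))) (not_symm' (And.left hw)) (not_symm' (And.left (And.right hw))) (not_symm' (id fun (h : SimpleGraph.Adj G v1 x) => hc v1 x v2 v3 y h (SimpleGraph.Adj.symm (And.left (And.right hx))) (And.left (And.right hC)) (And.left (And.right hy)) (SimpleGraph.Adj.symm (And.left hy)) (And.left (And.right (And.right (And.right (And.right hC))))) (And.right (And.right (And.right (And.right (And.right hC))))) (not_symm' (And.right (And.right hx))) hn (And.right (And.right hy))))) (not_symm' hn) (not_symm' (id fun (h : SimpleGraph.Adj G v0 y) => hc v0 y v3 v2 x h (SimpleGraph.Adj.symm (And.left (And.right hy))) (SimpleGraph.Adj.symm (And.left (And.right hC))) (And.left (And.right hx)) (SimpleGraph.Adj.symm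 (And.left hx)) (And.left (And.right (And.right (And.right hC)))) (And.left (And.right (And.right hC))) (not_symm' (And.right (And.right hy))) (not_symm' hn) (And.right (And.right hx)))) (And.right (And.right (And.right hw))) (And.right (And.right hx)) (not_symm' (And.left (And.right (And.right (And.right hC)))))
  · exact hp w y v0 x v2 h (And.left hx) (SimpleGraph.Adj.symm (And.left (And.right hx))) (ne_of_wit (SimpleGraph.Adj.symm (And.left hC)) (And.left (And.right (And.right (And.right (And.right hC)))))) (And.left (And.right (And.right hC))) (not_symm' (And.left hw)) (not_symm' (id fun (h_1 : SimpleGraph.Adj G x w) => hc x w y v1 v0 h_1 h (SimpleGraph.Adj.symm (And.left hy)) (SimpleGraph.Adj.symm (And.left hC)) (And.left hx) hn (not_symm' (id fun (h : SimpleGraph.Adj G v1 x) => hc v1 x v2 v3 y h (SimpleGraph.Adj.symm (And.left (And.right hx))) (And.left (And.right hC)) (And.left (And.right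 hy)) (SimpleGraph.Adj.symm (And.left hy)) (And.left (And.right (And.right (And.right (And.right hC))))) (And.right (And.right (And.right (And.right (And.right hC))))) (not_symm' (And.right (And.right hx))) hn (And.right (And.right hy)))) (not_symm' (And.left (And.right hw))) (not_symm' (And.left hw)) (not_symm' (id fun (h : SimpleGraph.Adj G v0 y) => hc v0 y v3 v2 x h (SimpleGraph.Adj.symm (And.left (And.right hy))) (SimpleGraph.Adj.symm (And.left (And.right hC))) (And.left (And.right hx)) (SimpleGraph.Adj.symm (And.left hx)) (And.left (And.right (And.right (And.right hC)))) (And.left (And.right (And.right hC))) (not_symm' (And.right (And.right hy))) (not_symm' hn) (And.right (And.right hx)))))) (not_symm' (And.left (And.right (And.right hw)))) (not_symm' (id fun (h : SimpleGraph.Adj G v0 y) => hc v0 y v3 v2 x h (SimpleGraph.Adj.symm (And.left (And.right hy))) (SimpleGraph.Adj.symm (And.left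 (And.right hC))) (And.left (And.right hx)) (SimpleGraph.Adj.symm (And.left hx)) (And.left (And.right (And.right (And.right hC)))) (And.left (And.right (And.right hC))) (not_symm' (And.right (And.right hy))) (not_symm' hn) (And.right (And.right hx)))) (not_symm' hn) (not_symm' (And.right (And.right hy)))

include hcfg in
theorem adjQ {w y : V} (hw : w ∈ Ω) (hy : y ∈ Q) (h : G.Adj (π w) y) : G.Adj w y := by
  obtain ⟨-, -, -, -, -, -, h7⟩ := hcfg
  rcases h7 w hw with h1 | ⟨-, -, h1⟩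
  · rwa [h1] at h
  · exact h1 y hy

include hcfg in
theorem adjP {w x : V} (hw : w ∈ Ω) (hx : x ∈ P) (h : G.Adj w x) : G.Adj (π w) x := by
  obtain ⟨-, -, -, -, -, -, h7⟩ := hcfg
  rcases h7 w hw with h1 | ⟨-, h1, -⟩
  · rwa [h1]
  · exact h1 x hx

include hg hp hc hcfg

theorem x1P {w x x' y : V} (hw : w ∈ Ω) (hx : x ∈ P) (hx' : x' ∈ P) (hy : y ∈ Q)
    (hwy : G.Adj (π w) y) (hxx : G.Adj x x') (hwx : G.Adj w x') : G.Adj w x := by
  have h1 := adjQ hcfg hw hy hwy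
  obtain ⟨hC, h2, h3, h4, h5, h6, h7⟩ := hcfg
  have tx := h2 x hx
  have tx' := h2 x' hx'
  have ty := h3 y hy
  have tw := h4 w hw
  have a1 := x0 hp hc hC tx ty tw (Or.inr h1)
  have a2 := x0 hp hc hC tx' ty tw (Or.inr h1)
  by_contra hn
  exact hg w y x v2 x' (SimpleGraph.Adj.symm hwx) a2 (SimpleGraph.Adj.symm hxx) (SimpleGraph.Adj.symm (And.left (And.right tx'))) h1 (SimpleGraph.Adj.symm a1) (SimpleGraph.Adj.symm (And.left (And.right tx))) hn (not_symm' (And.right (And.right ty))) (not_symm' (And.left (And.right (And.right tw))))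

theorem x1Q {w x y y' : V} (hw : w ∈ Ω) (hx : x ∈ P) (hy : y ∈ Q) (hy' : y' ∈ Q)
    (hwx : G.Adj w x) (hyy : G.Adj y y') (hwy : G.Adj (π w) y') : G.Adj (π w) y := by
  have h1 := adjP hcfg hw hx hwx
  obtain ⟨hC, h2, h3, h4, h5, h6, h7⟩ := hcfg
  have tx := h2 x hx
  have ty := h3 y hy
  have ty' := h3 y' hy'
  have tw := h5 w hw
  have a1 := x0 hp hc hC tx ty tw (Or.inl h1)
  have a2 := x0 hp hc hC tx ty' tw (Or.inl h1)
  by_contra hn
  exact hg (π w) x y v3 y' (SimpleGraph.Adj.symm hwy) (SimpleGraph.Adj.symm a2) (SimpleGraph.Adj.symm hyy) (SimpleGraph.Adj.symm (And.left (And.right ty'))) h1 a1 (SimpleGraph.Adj.symm (And.left (And.right ty))) hn (not_symm' (And.right (And.right tx))) (not_symm' (And.right (And.right (And.right tw))))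

theorem x2 {w w' x x' y : V} (hw : w ∈ Ω) (hw' : w' ∈ Ω) (hx : x ∈ P) (hx' : x' ∈ P)
    (hy : y ∈ Q) (h1 : G.Adj (π w) y) (h2 : G.Adj (π w') y) (h3 : G.Adj w x) (h4 : G.Adj w' x)
    (h5 : G.Adj w x') : G.Adj w' x' := by
  by_contra hn
  have hne : w ≠ w' := by rintro rfl; exact hn h5
  have hxx : ¬ G.Adj x' x := fun h => hn (x1P hg hp hc hcfg hw' hx' hx hy h2 h h4)
  have h1' := adjQ hcfg hw hy h1
  have h2' := adjQ hcfg hw' hy h2
  obtain ⟨hC, g2, g3, g4, g5, g6, g7⟩ := hcfg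
  have tx := g2 x hx
  have tx' := g2 x' hx'
  have ty := g3 y hy
  have tw := g4 w hw
  have a1 := x0 hp hc hC tx ty tw (Or.inr h1')
  have a2 := x0 hp hc hC tx' ty tw (Or.inr h1')
  have b1 := (g6 w hw w' hw' hne).1
  clear g2 g3 g4 g5 g6 g7
  exact hg w' x w x' y (SimpleGraph.Adj.symm h2') (SimpleGraph.Adj.symm a1) (SimpleGraph.Adj.symm h1') (SimpleGraph.Adj.symm a2) h4 (SimpleGraph.Adj.symm h3) h5 (not_symm' b1) (not_symm' hxx) hn

theorem x2' {w w' x y y' : V} (hw : w ∈ Ω) (hw' : w' ∈ Ω) (hx : x ∈ P) (hy : y ∈ Q)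
    (hy' : y' ∈ Q) (h1 : G.Adj w x) (h2 : G.Adj w' x) (h3 : G.Adj (π w) y) (h4 : G.Adj (π w') y)
    (h5 : G.Adj (π w) y') : G.Adj (π w') y' := by
  by_contra hn
  have hne : w ≠ w' := by rintro rfl; exact hn h5
  have hyy : ¬ G.Adj y' y := fun h => hn (x1Q hg hp hc hcfg hw' hx hy' hy h2 h h4)
  have h1' := adjP hcfg hw hx h1
  have h2' := adjP hcfg hw' hx h2
  obtain ⟨hC, g2, g3, g4, g5, g6, g7⟩ := hcfg
  have tx := g2 x hx
  have ty := g3 y hy
  have ty' := g3 y' hy'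
  have tw := g5 w hw
  have a1 := x0 hp hc hC tx ty tw (Or.inl h1')
  have a2 := x0 hp hc hC tx ty' tw (Or.inl h1')
  have b1 := (g6 w hw w' hw' hne).2.1
  clear g2 g3 g4 g5 g6 g7 h1 h2
  exact hg (π w') y (π w) y' x (SimpleGraph.Adj.symm h2') a1 (SimpleGraph.Adj.symm h1') a2 h4 (SimpleGraph.Adj.symm h3) h5 (not_symm' b1) (not_symm' hyy) hn

theorem x3P {w w' a b c y : V} (hw : w ∈ Ω) (hw' : w' ∈ Ω) (hne : w ≠ w') (ha : a ∈ P)
    (hb : b ∈ P) (hcc : c ∈ P) (hy : y ∈ Q) (hwy : G.Adj (π w) y)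
    (h1 : G.Adj w a) (h2 : G.Adj w b) (hab : ¬ G.Adj a b) (hne' : a ≠ b) (h3 : G.Adj w' c)
    (h4 : ¬ G.Adj w c) (h5 : ¬ G.Adj w' a) (h6 : ¬ G.Adj w' b) : False := by
  have k1 : ¬ G.Adj c a := fun h => h4 (x1P hg hp hc hcfg hw hcc ha hy hwy h h1)
  have k2 : ¬ G.Adj c b := fun h => h4 (x1P hg hp hc hcfg hw hcc hb hy hwy h h2)
  have b1 := (hcfg.2.2.2.2.2.1 w hw w' hw' hne).1
  clear hcfg
  exact hp w' c a w b h3 (SimpleGraph.Adj.symm h1) h2 hne' hab h5 (not_symm' b1) h6 k1 (not_symm' h4) k2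

theorem x3Q {w w' a b c x : V} (hw : w ∈ Ω) (hw' : w' ∈ Ω) (hne : w ≠ w') (ha : a ∈ Q)
    (hb : b ∈ Q) (hcc : c ∈ Q) (hx : x ∈ P) (hwx : G.Adj w x)
    (h1 : G.Adj (π w) a) (h2 : G.Adj (π w) b) (hab : ¬ G.Adj a b) (hne' : a ≠ b)
    (h3 : G.Adj (π w') c)
    (h4 : ¬ G.Adj (π w) c) (h5 : ¬ G.Adj (π w') a) (h6 : ¬ G.Adj (π w') b) : False := by
  have k1 : ¬ G.Adj c a := fun h => h4 (x1Q hg hp hc hcfg hw hx hcc ha hwx h h1)
  have k2 : ¬ G.Adj c b := fun h => h4 (x1Q hg hp hc hcfg hw hx hcc hb hwx h h2)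
  have b1 := (hcfg.2.2.2.2.2.1 w hw w' hw' hne).2.1
  clear hcfg hwx
  exact hp (π w') c a (π w) b h3 (SimpleGraph.Adj.symm h1) h2 hne' hab h5 (not_symm' b1) h6 k1 (not_symm' h4) k2

theorem core {w1 w2 w3 w4 p q p' q' a1 a2 b3 b4 : V} (hw1 : w1 ∈ Ω) (hw2 : w2 ∈ Ω) (hw3 : w3 ∈ Ω)
    (hw4 : w4 ∈ Ω) (hq : q ∈ Q) (hq' : q' ∈ Q) (hP : p ∈ P) (hP' : p' ∈ P)
    (ha1 : a1 ∈ P) (ha2 : a2 ∈ P) (hb3 : b3 ∈ Q) (hb4 : b4 ∈ Q)
    (k1 : G.Adj w1 a1) (k2 : G.Adj w2 a2) (k3 : G.Adj (π w3) b3) (k4 : G.Adj (π w4) b4)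
    (h1 : G.Adj (π w1) q) (h2 : G.Adj (π w2) q) (h3 : G.Adj (π w1) q') (h4 : ¬ G.Adj (π w2) q')
    (h5 : G.Adj w3 p) (h6 : G.Adj w4 p) (h7 : G.Adj w3 p') (h8 : ¬ G.Adj w4 p') : False := by
  have n34 : w3 ≠ w4 := by rintro rfl; exact h8 h7
  have F2 : ∀ y ∈ Q, G.Adj (π w3) y → ¬ G.Adj (π w4) y := fun y hy e1 e2 =>
    h8 (x2 hg hp hc hcfg hw3 hw4 hP hP' hy e1 e2 h5 h6 h7)
  have nq : ¬ G.Adj q q' := fun h =>
    h4 (x1Q hg hp hc hcfg hw2 ha2 hq' hq k2 h.symm h2)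
  have np : ¬ G.Adj p p' := fun h =>
    h8 (x1P hg hp hc hcfg hw4 hP' hP hb4 k4 h.symm h6)
  have eq : q ≠ q' := by rintro rfl; exact h4 h2
  have ep : p ≠ p' := by rintro rfl; exact h8 h6
  -- the final contradiction
  have fin : G.Adj (π w3) q → G.Adj (π w3) q' → False := fun e1 e2 =>
    x3Q hg hp hc hcfg hw3 hw4 n34 hq hq' hb4 hP h5 e1 e2 nq eq k4
      (fun h => F2 b4 hb4 h k4) (F2 q hq e1) (F2 q' hq' e2)
  by_cases e13 : w1 = w3
  · subst e13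
    exact fin h1 h3
  · have A : ∃ y ∈ Q, G.Adj (π w1) y ∧ G.Adj (π w3) y := by
      by_contra hno
      push Not at hno
      exact x3Q hg hp hc hcfg hw1 hw3 e13 hq hq' hb3 ha1 k1 h1 h3 nq eq k3
        (fun h => hno b3 hb3 h k3) (hno q hq h1) (hno q' hq' h3)
    have B : ∃ x ∈ P, G.Adj w1 x ∧ G.Adj w3 x := by
      by_contra hno
      push Not at hno
      exact x3P hg hp hc hcfg hw3 hw1 (Ne.symm e13) hP hP' ha1 hb3 k3 h5 h7 np ep k1
        (hno a1 ha1 k1) (fun h => hno p hP h h5) (fun h => hno p' hP' h h7)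
    obtain ⟨y, hy, y1, y3⟩ := A
    obtain ⟨x, hx, x1, x3⟩ := B
    exact fin (x2' hg hp hc hcfg hw1 hw3 hx hy hq x1 x3 y1 y3 h1)
      (x2' hg hp hc hcfg hw1 hw3 hx hy hq' x1 x3 y1 y3 h3)

end

/-- two different sets which are not disjoint -/
theorem split_ne {α : Type} {S T : Finset α} (h : ¬ (S = T ∨ Disjoint S T)) :
    (∃ a ∈ S, a ∈ T) ∧ ((∃ b ∈ S, b ∉ T) ∨ ∃ b ∈ T, b ∉ S) := by
  push Not at h
  refine ⟨?_, ?_⟩
  · rw [Finset.not_disjoint_iff] at h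
    obtain ⟨a, h1, h2⟩ := h.2
    exact ⟨a, h1, h2⟩
  · by_contra hno
    push Not at hno
    exact h.1 (Subset.antisymm hno.1 hno.2)

theorem cplam_stmt : CPLamStmt := by
  intro V G hg hp hc v0 v1 v2 v3 P Q Ω π hcfg _ _
  by_contra hno
  rw [not_or] at hno
  obtain ⟨hQ, hP⟩ := hno
  push Not at hQ hP
  obtain ⟨w1, hw1, w2, hw2, ⟨a1, ha1⟩, -, ⟨a2, ha2⟩, -, hne1, hd1⟩ := hQ
  obtain ⟨w3, hw3, w4, hw4, -, ⟨b3, hb3⟩, -, ⟨b4, hb4⟩, hne2, hd2⟩ := hP
  obtain ⟨⟨q, hq1, hq2⟩, hq⟩ := split_ne (not_or.mpr ⟨hne1, hd1⟩)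
  obtain ⟨⟨p, hp3, hp4⟩, hpp⟩ := split_ne (not_or.mpr ⟨hne2, hd2⟩)
  simp only [nb, mem_filter, not_and] at ha1 ha2 hb3 hb4 hq1 hq2 hq hp3 hp4 hpp
  rcases hq with ⟨q', hq'1, hq'2⟩ | ⟨q', hq'1, hq'2⟩ <;>
  rcases hpp with ⟨p', hp'1, hp'2⟩ | ⟨p', hp'1, hp'2⟩
  · exact core hg hp hc hcfg hw1 hw2 hw3 hw4 hq1.1 hq'1.1 hp3.1 hp'1.1 ha1.1 ha2.1 hb3.1 hb4.1
      ha1.2 ha2.2 hb3.2 hb4.2 hq1.2 hq2.2 hq'1.2 (hq'2 hq'1.1) hp3.2 hp4.2 hp'1.2 (hp'2 hp'1.1)
  · exact core hg hp hc hcfg hw1 hw2 hw4 hw3 hq1.1 hq'1.1 hp3.1 hp'1.1 ha1.1 ha2.1 hb4.1 hb3.1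
      ha1.2 ha2.2 hb4.2 hb3.2 hq1.2 hq2.2 hq'1.2 (hq'2 hq'1.1) hp4.2 hp3.2 hp'1.2 (hp'2 hp'1.1)
  · exact core hg hp hc hcfg hw2 hw1 hw3 hw4 hq1.1 hq'1.1 hp3.1 hp'1.1 ha2.1 ha1.1 hb3.1 hb4.1
      ha2.2 ha1.2 hb3.2 hb4.2 hq2.2 hq1.2 hq'1.2 (hq'2 hq'1.1) hp3.2 hp4.2 hp'1.2 (hp'2 hp'1.1)
  · exact core hg hp hc hcfg hw2 hw1 hw4 hw3 hq1.1 hq'1.1 hp3.1 hp'1.1 ha2.1 ha1.1 hb4.1 hb3.1
      ha2.2 ha1.2 hb4.2 hb3.2 hq2.2 hq1.2 hq'1.2 (hq'2 hq'1.1) hp4.2 hp3.2 hp'1.2 (hp'2 hp'1.1)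

end Pool.Agent.H20R2.CL
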