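import Pool.Agent.H175F.H459R3_NDMFacts

/-! Assembly of `NDMStmt`. -/

namespace Pool.Agent.H459R3

open Finset Classical
open Pool.Agent.H175G

/-- the types allowed in `NDMStmt` -/
abbrev Tp {V : Type} (G : SimpleGraph V) (c0 c1 c2 c3 c4 x : V) : Prop :=
  TN G c0 c1 c2 c3 c4 x ∨ TD G c0 c1 c2 c3 c4 x ∨ TD G c1 c2 c3 c4 c0 x ∨
      TD G c2 c3 c4 c0 c1 x ∨ TD G c3 c4 c0 c1 c2 x ∨ TD G c4 c0 c1 c2 c3 x ∨
      TM G c0 c1 c2 c3 c4 x ∨ TM G c2 c3 c4 c0 c1 x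

theorem stepA (hA : AttachStmt) (hL2 : NDML2Stmt) : ∃ f : ℕ → ℕ, ∀ (V : Type) (G : SimpleGraph V),
    NoGem G → NoP23 G → ∀ (c0 c1 c2 c3 c4 : V), C5c G c0 c1 c2 c3 c4 → ∀ (R : Finset V),
    (∀ x ∈ R, Tp G c0 c1 c2 c3 c4 x) → ∃ R' : Finset V, R' ⊆ R ∧
      (∀ x ∈ R', ∀ y ∈ R', TD G c0 c1 c2 c3 c4 x → TM G c0 c1 c2 c3 c4 y → G.Adj x y) ∧
      ∀ K, BD G K R' → BD G (f K) R := by
  obtain ⟨B, hB⟩ := hA
  obtain ⟨K2, hK2⟩ := hL2
  refine ⟨fun K => K + K2 + (K + 1) * 2 ^ 1 + (B K (2 ^ 2) 2 + 1) * 2 ^ 1, ?_⟩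
  intro V G hg hp c0 c1 c2 c3 c4 hc R hR
  by_cases hcard : (R.filter (fun x => TM G c0 c1 c2 c3 c4 x)).card ≤ 1
  · refine ⟨R \ R.filter (fun x => TM G c0 c1 c2 c3 c4 x), sdiff_subset, ?_, ?_⟩
    · intro x _ y hy _ hm
      exact absurd (mem_filter.2 ⟨(mem_sdiff.1 hy).1, hm⟩) (mem_sdiff.1 hy).2
    · intro K hK
      exact (BD.of_sdiff hK hcard).mono (by simp only; omega)
  have hex : ∀ m : V, ∃ m' ∈ R, TM G c0 c1 c2 c3 c4 m' ∧ m ≠ m' := by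
    intro m
    obtain ⟨b, hb, hne⟩ := Finset.exists_mem_ne (by omega : 1 < (R.filter
      (fun x => TM G c0 c1 c2 c3 c4 x)).card) m
    exact ⟨b, (mem_filter.1 hb).1, (mem_filter.1 hb).2, hne.symm⟩
  by_cases hlink : ∃ d ∈ R, ∃ m ∈ R, TD G c0 c1 c2 c3 c4 d ∧ TM G c0 c1 c2 c3 c4 m ∧ ¬ G.Adj d m
  swap
  · refine ⟨R, Subset.refl _, ?_, fun K hK => hK.mono (by simp only; omega)⟩
    intro x hx y hy hd hm
    by_contra h
    exact hlink ⟨x, hx, y, hy, hd, hm, h⟩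
  obtain ⟨d0, hd0R, m0, hm0R, hd0, hm0, hl0⟩ := hlink
  obtain ⟨m1, hm1R, hm1, hne0⟩ := hex m0
  have eD1 : ∀ x, ¬ TD G c1 c2 c3 c4 c0 x := fun x hx => noD1 hg hp hc hd0 hm0 hm1 hl0 hne0 hx
  have eD4 : ∀ x, ¬ TD G c4 c0 c1 c2 c3 x := fun x hx => noD4 hg hp hc hd0 hm0 hm1 hl0 hne0 hx
  by_cases hD : ∃ z ∈ R, TD G c2 c3 c4 c0 c1 z ∨ TD G c3 c4 c0 c1 c2 z
  swap
  · refine ⟨∅, empty_subset _, fun x hx => absurd hx (notMem_empty x), fun K _ => ?_⟩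
    have h := hK2 V G hg hp c0 c1 c2 c3 c4 (R.filter (fun x => TN G c0 c1 c2 c3 c4 x))
      (R.filter (fun x => TD G c0 c1 c2 c3 c4 x)) (R.filter (fun x => TM G c0 c1 c2 c3 c4 x))
      (R.filter (fun x => TM G c2 c3 c4 c0 c1 x)) hc (fun x hx => (mem_filter.1 hx).2)
      (fun x hx => (mem_filter.1 hx).2) (fun x hx => (mem_filter.1 hx).2)
      (fun x hx => (mem_filter.1 hx).2)
    refine (h.sub ?_).mono (by simp only; omega)
    intro x hx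
    simp only [mem_union, mem_filter]
    rcases hR x hx with h | h | h | h | h | h | h | h
    · exact Or.inl (Or.inl (Or.inl ⟨hx, h⟩))
    · exact Or.inl (Or.inl (Or.inr ⟨hx, h⟩))
    · exact absurd h (eD1 x)
    · exact absurd ⟨x, hx, Or.inl h⟩ hD
    · exact absurd ⟨x, hx, Or.inr h⟩ hD
    · exact absurd h (eD4 x)
    · exact Or.inl (Or.inr ⟨hx, h⟩)
    · exact Or.inr ⟨hx, h⟩
  obtain ⟨z, hzR, hz⟩ := hD
  -- linked vertices
  let W : Finset V := R.filter (fun d => TD G c0 c1 c2 c3 c4 d ∧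
    ∃ m ∈ R, TM G c0 c1 c2 c3 c4 m ∧ ¬ G.Adj d m)
  let X : Finset V := R.filter (fun n => TN G c0 c1 c2 c3 c4 n ∧ ∃ d ∈ W, G.Adj n d)
  have hW : ∀ d, d ∈ W ↔ d ∈ R ∧ TD G c0 c1 c2 c3 c4 d ∧
    ∃ m ∈ R, TM G c0 c1 c2 c3 c4 m ∧ ¬ G.Adj d m := fun d => mem_filter
  have hX : ∀ n, n ∈ X ↔ n ∈ R ∧ TN G c0 c1 c2 c3 c4 n ∧ ∃ d ∈ W, G.Adj n d := fun n => mem_filter
  have hXz : ∀ n ∈ X, TN G c0 c1 c2 c3 c4 n ∧ G.Adj n z := by
    intro n hn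
    obtain ⟨-, hn, d, hd, hnd⟩ := (hX n).1 hn
    obtain ⟨-, hd, m, hmR, hm, hl⟩ := (hW d).1 hd
    obtain ⟨m', -, hm', hne⟩ := hex m
    refine ⟨hn, ?_⟩
    rcases hz with hz | hz
    · exact nD2 hg hp hc hd hm hm' hl hne hz hn hnd
    · exact nD3 hg hp hc hd hm hm' hl hne hz hn hnd
  have hXc : X.card ≤ 1 := by
    rw [card_le_one]
    intro n hn n' hn'
    obtain ⟨h1, h2⟩ := hXz n hn
    obtain ⟨h3, h4⟩ := hXz n' hn'
    rcases hz with hz | hz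
    · exact oneN (c0 := c2) (c1 := c3) (c2 := c4) (c3 := c0) (c4 := c1) hg hp
        (by obtain ⟨a1, a2, a3, a4, a5, a6, a7, a8, a9, a10⟩ := hc
            exact ⟨a3, a4, a5, a1, a2, a10, fun h => a6 h.symm, fun h => a7 h.symm,
              fun h => a8 h.symm, fun h => a9 h.symm⟩) hz
        (by obtain ⟨a1, a2, a3, a4, a5⟩ := h1; exact ⟨a3, a4, a5, a1, a2⟩)
        (by obtain ⟨a1, a2, a3, a4, a5⟩ := h3; exact ⟨a3, a4, a5, a1, a2⟩) h2 h4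
    · exact oneN (c0 := c3) (c1 := c4) (c2 := c0) (c3 := c1) (c4 := c2) hg hp
        (by obtain ⟨a1, a2, a3, a4, a5, a6, a7, a8, a9, a10⟩ := hc
            exact ⟨a4, a5, a1, a2, a3, fun h => a7 h.symm, fun h => a8 h.symm, fun h => a9 h.symm,
              fun h => a10 h.symm, a6⟩) hz
        (by obtain ⟨a1, a2, a3, a4, a5⟩ := h1; exact ⟨a4, a5, a1, a2, a3⟩)
        (by obtain ⟨a1, a2, a3, a4, a5⟩ := h3; exact ⟨a4, a5, a1, a2, a3⟩) h2 h4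
  have hWM : ∀ d ∈ W, ∀ m, TM G c0 c1 c2 c3 c4 m → d ≠ m := by
    intro d hd m hm e
    obtain ⟨-, hd, -⟩ := (hW d).1 hd
    rw [e] at hd
    exact hm.2.1 hd.2.1
  have hpart : ∀ d, ∃ m, d ∈ W → m ∈ R ∧ TM G c0 c1 c2 c3 c4 m ∧ ¬ G.Adj d m := by
    intro d
    by_cases hd : d ∈ W
    · obtain ⟨-, -, m, hm⟩ := (hW d).1 hd
      exact ⟨m, fun _ => hm⟩
    · exact ⟨d, fun h => absurd h hd⟩
  choose pt hpt using hpart
  let V0 : Finset V := (R \ X) \ W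
  have hV0 : ∀ x, x ∈ V0 ↔ (x ∈ R ∧ x ∉ X) ∧ x ∉ W := fun x => by simp only [V0, mem_sdiff]
  refine ⟨V0, fun x hx => ((hV0 x).1 hx).1.1, ?_, ?_⟩
  · intro x hx y hy hd hm
    by_contra h
    exact ((hV0 x).1 hx).2 ((hW x).2 ⟨((hV0 x).1 hx).1.1, hd, y, ((hV0 y).1 hy).1.1, hm, h⟩)
  intro K hK
  let b : V → V := fun x => if x ∈ W then pt x else x
  have hbW : ∀ x ∈ W, b x = pt x := fun x hx => if_pos hx
  have hbn : ∀ x, x ∉ W → b x = x := fun x hx => if_neg hx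
  have hmain := hB V G Bool V K (2 ^ 2) V0 W (fun y => decide (TM G c0 c1 c2 c3 c4 y))
    (fun _ l => l = true) b hK ?_ ?_ ?_
  · refine (BD.of_sdiff (hmain.sub (B := R \ X) ?_) hXc).mono ?_
    · intro x hx
      by_cases h : x ∈ W
      · exact mem_union_right _ h
      · exact mem_union_left _ (mem_sdiff.2 ⟨hx, h⟩)
    · rw [Fintype.card_bool]
      simp only
      omega
  · intro x hx y hy h
    rw [hbn x ((hV0 x).1 hx).2, hbn y ((hV0 y).1 hy).2] at h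
    exact h
  · intro x _
    apply BD.card
    have hsub : (V0 ∪ W).filter (fun y => b y = b x) ⊆ {b x} ∪ W.filter (fun y => pt y = b x) := by
      intro y hy
      rw [mem_filter, mem_union] at hy
      rw [mem_union, mem_singleton, mem_filter]
      by_cases h : y ∈ W
      · exact Or.inr ⟨h, by rw [← hbW y h]; exact hy.2⟩
      · exact Or.inl (by rw [← hy.2, hbn y h])
    refine (card_le_card hsub).trans ((card_union_le _ _).trans ?_)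
    have h1 : (W.filter (fun y => pt y = b x)).card ≤ 1 := by
      rw [card_le_one]
      intro y hy y' hy'
      rw [mem_filter] at hy hy'
      by_contra hne
      obtain ⟨-, h2, -⟩ := (hW y).1 hy.1
      obtain ⟨-, h3, -⟩ := (hW y').1 hy'.1
      have h4 := hpt y hy.1
      have h5 := hpt y' hy'.1
      have h6 := miss2 hg hp hc h2 h3 h4.2.1 h4.2.2 hne
      rw [hy.2, ← hy'.2] at h6
      exact h5.2.2 h6
    rw [card_singleton]
    omega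
  · intro x hx y hy hbxy
    obtain ⟨hxR, hdx, -⟩ := (hW x).1 hx
    obtain ⟨-, hmx, hlx⟩ := hpt x hx
    obtain ⟨m', -, hm', hne⟩ := hex (pt x)
    have hyR : y ∈ R := by
      rcases mem_union.1 hy with h | h
      · exact ((hV0 y).1 h).1.1
      · exact ((hW y).1 h).1
    simp only [decide_eq_true_eq]
    constructor
    · intro hadj
      rcases hR y hyR with h | h | h | h | h | h | h | h
      · exfalso
        rcases mem_union.1 hy with h1 | h1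
        · exact ((hV0 y).1 h1).1.2 ((hX y).2 ⟨hyR, h, x, hx, hadj.symm⟩)
        · exact h.2.1 ((hW y).1 h1).2.1.2.1
      · exfalso
        rcases hz with hz | hz
        · exact isoD2 hg hp hc hdx hmx hm' hlx hne hz h hadj
        · exact isoD3 hg hp hc hdx hmx hm' hlx hne hz h hadj
      · exact absurd h (eD1 y)
      · exact absurd hadj.symm (antiD2 hg hp hc hdx hmx hm' hlx hne h)
      · exact absurd hadj.symm (antiD3 hg hp hc hdx hmx hm' hlx hne h)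
      · exact absurd h (eD4 y)
      · exact h
      · exact absurd hadj (antiM2 hg hp hc hdx hmx hm' hlx hne h)
    · intro h
      have hyW : y ∉ W := fun h1 => hWM y h1 y h rfl
      rw [hbW x hx, hbn y hyW] at hbxy
      exact miss1 hg hp hc hdx hmx h hlx hbxy

theorem ndm_stmt (hA : AttachStmt) (hnl : NDMnlStmt) (hL2 : NDML2Stmt) : NDMStmt := by
  obtain ⟨f, hf⟩ := stepA hA hL2
  obtain ⟨K0, hK0⟩ := hnl
  refine ⟨f (f K0), ?_⟩
  intro V G hg hp c0 c1 c2 c3 c4 hc R hR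
  obtain ⟨R1, hR1, hl1, hb1⟩ := hf V G hg hp c0 c1 c2 c3 c4 hc R hR
  have hc' : C5c G c2 c1 c0 c4 c3 := by
    obtain ⟨a1, a2, a3, a4, a5, a6, a7, a8, a9, a10⟩ := hc
    exact ⟨a2.symm, a1.symm, a5.symm, a4.symm, a3.symm, fun h => a6 h.symm, a10,
      a9, a8, fun h => a7 h⟩
  obtain ⟨R2, hR2, hl2, hb2⟩ := hf V G hg hp c2 c1 c0 c4 c3 hc' R1 (by
    intro x hx
    rcases hR x (hR1 hx) with h | h | h | h | h | h | h | h
    · obtain ⟨a1, a2, a3, a4, a5⟩ := h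
      exact Or.inl ⟨a3, a2, a1, a5, a4⟩
    · obtain ⟨a1, a2, a3, a4, a5, a6⟩ := h
      exact Or.inr (Or.inr (Or.inr (Or.inl ⟨a1, a5, a4, a3, a2, a6⟩)))
    · obtain ⟨a1, a2, a3, a4, a5, a6⟩ := h
      exact Or.inr (Or.inr (Or.inl ⟨a1, a5, a4, a3, a2, a6⟩))
    · obtain ⟨a1, a2, a3, a4, a5, a6⟩ := h
      exact Or.inr (Or.inl ⟨a1, a5, a4, a3, a2, a6⟩)
    · obtain ⟨a1, a2, a3, a4, a5, a6⟩ := h
      exact Or.inr (Or.inr (Or.inr (Or.inr (Or.inr (Or.inl ⟨a1, a5, a4, a3, a2, a6⟩)))))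
    · obtain ⟨a1, a2, a3, a4, a5, a6⟩ := h
      exact Or.inr (Or.inr (Or.inr (Or.inr (Or.inl ⟨a1, a5, a4, a3, a2, a6⟩))))
    · obtain ⟨a1, a2, a3, a4, a5⟩ := h
      exact Or.inr (Or.inr (Or.inr (Or.inr (Or.inr (Or.inr (Or.inr ⟨a1, a5, a4, a3, a2⟩))))))
    · obtain ⟨a1, a2, a3, a4, a5⟩ := h
      exact Or.inr (Or.inr (Or.inr (Or.inr (Or.inr (Or.inr (Or.inl ⟨a1, a5, a4, a3, a2⟩)))))))
  apply hb1
  apply hb2
  have h := hK0 V G hg hp c0 c1 c2 c3 c4 (R2.filter (fun x => TN G c0 c1 c2 c3 c4 x))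
    (R2.filter (fun x => TD G c0 c1 c2 c3 c4 x)) (R2.filter (fun x => TD G c1 c2 c3 c4 c0 x))
    (R2.filter (fun x => TD G c2 c3 c4 c0 c1 x)) (R2.filter (fun x => TD G c3 c4 c0 c1 c2 x))
    (R2.filter (fun x => TD G c4 c0 c1 c2 c3 x)) (R2.filter (fun x => TM G c0 c1 c2 c3 c4 x))
    (R2.filter (fun x => TM G c2 c3 c4 c0 c1 x))
    ⟨hc, fun x hx => (mem_filter.1 hx).2, fun x hx => (mem_filter.1 hx).2,
      fun x hx => (mem_filter.1 hx).2, fun x hx => (mem_filter.1 hx).2,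
      fun x hx => (mem_filter.1 hx).2, fun x hx => (mem_filter.1 hx).2⟩
    (fun x hx => (mem_filter.1 hx).2) (fun x hx => (mem_filter.1 hx).2) ?_ ?_
  · refine h.sub ?_
    intro x hx
    simp only [mem_union, mem_filter]
    rcases hR x (hR1 (hR2 hx)) with h | h | h | h | h | h | h | h
    · exact Or.inl (Or.inl (Or.inl (Or.inl (Or.inl (Or.inl (Or.inl ⟨hx, h⟩))))))
    · exact Or.inl (Or.inl (Or.inl (Or.inl (Or.inl (Or.inl (Or.inr ⟨hx, h⟩))))))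
    · exact Or.inl (Or.inl (Or.inl (Or.inl (Or.inl (Or.inr ⟨hx, h⟩)))))
    · exact Or.inl (Or.inl (Or.inl (Or.inl (Or.inr ⟨hx, h⟩))))
    · exact Or.inl (Or.inl (Or.inl (Or.inr ⟨hx, h⟩)))
    · exact Or.inl (Or.inl (Or.inr ⟨hx, h⟩))
    · exact Or.inl (Or.inr ⟨hx, h⟩)
    · exact Or.inr ⟨hx, h⟩
  · intro x hx y hy
    rw [mem_filter] at hx hy
    exact hl1 x (hR2 hx.1) y (hR2 hy.1) hx.2 hy.2
  · intro x hx y hy
    rw [mem_filter] at hx hy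
    refine hl2 x hx.1 y hy.1 ?_ ?_
    · obtain ⟨a1, a2, a3, a4, a5, a6⟩ := hx.2
      exact ⟨a1, a5, a4, a3, a2, a6⟩
    · obtain ⟨a1, a2, a3, a4, a5⟩ := hy.2
      exact ⟨a1, a5, a4, a3, a2⟩

end Pool.Agent.H459R3
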