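import Pool.Agent.H175F.Frame0

set_option autoImplicit false

/-! Task T02 (LINEAR) of helper175's project on (gem, `P₂+P₃`)-free graphs. -/

namespace Pool.Agent.H175G

open Finset Classical
open Pool.Agent.H175R2 (DT nt on mem_on)

namespace T02

variable {V : Type} {G : SimpleGraph V}

lemma card_types (R L : Finset V) :
    (insert ∅ (L.image (on G R L))).card ≤ nt G R L + 1 := by
  unfold nt
  by_cases h : ∅ ∈ L.image (on G R L)
  · rw [insert_eq_of_mem h, card_erase_of_mem h]
    omega
  · rw [card_insert_of_notMem h, erase_eq_of_notMem h]

lemma level {K c : ℕ} {R L : Finset V} (hL : L ⊆ R) (hne : L.Nonempty) (h : BD G K L)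
    (hc : nt G R L ≤ c) : DT G ((K + 1) * (c + 1)) R L := by
  have h1 := h.ambient hne hL (insert ∅ (L.image (on G R L))) (on G R L)
    (fun x hx => mem_insert_of_mem (mem_image_of_mem _ hx)) (by
      intro x _ y _ he z hz hzL
      have e : z ∈ on G R L x ↔ z ∈ on G R L y := by rw [he]
      simp only [mem_on] at e
      constructor
      · intro h2
        exact (e.1 ⟨⟨hz, hzL⟩, h2⟩).2
      · intro h2
        exact (e.2 ⟨⟨hz, hzL⟩, h2⟩).2)
  refine h1.mono (Nat.mul_le_mul_left _ ?_)
  have := card_types (G := G) R L
  omega

end T02

theorem linear_stmt : LinearStmt := by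
  refine ⟨fun K a c => max a ((K + 1) * (c + 1)), ?_⟩
  intro V G K a c R f ha hc hK hR
  have key : ∀ t : ℕ, (R.filter (fun x => f x ≤ t)).Nonempty →
      DT G (max a ((K + 1) * (c + 1))) R (R.filter (fun x => f x ≤ t)) := by
    intro t
    induction t with
    | zero =>
      intro hne
      have e : R.filter (fun x => f x ≤ 0) = R.filter (fun x => f x = 0) := by
        apply Finset.filter_congr
        intro x _
        exact Nat.le_zero
      rw [e] at hne ⊢
      exact (T02.level (filter_subset _ _) hne (hK 0) (hc 0)).mono (le_max_right _ _)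
    | succ t ih =>
      intro hne
      have e : R.filter (fun x => f x ≤ t + 1) =
          R.filter (fun x => f x ≤ t) ∪ R.filter (fun x => f x = t + 1) := by
        ext x
        simp only [mem_filter, mem_union]
        constructor
        · rintro ⟨h1, h2⟩
          rcases Nat.lt_or_ge t (f x) with h3 | h3
          · exact Or.inr ⟨h1, by omega⟩
          · exact Or.inl ⟨h1, h3⟩
        · rintro (⟨h1, h2⟩ | ⟨h1, h2⟩)
          · exact ⟨h1, by omega⟩
          · exact ⟨h1, by omega⟩
      by_cases hL : (R.filter (fun x => f x = t + 1)).Nonempty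
      · have h1 := (T02.level (G := G) (filter_subset _ _) hL (hK (t + 1)) (hc (t + 1))).mono
          (le_max_right a _)
        by_cases hP : (R.filter (fun x => f x ≤ t)).Nonempty
        · rw [e]
          refine DT.node ?_ (ih hP) h1 ?_
          · rw [Finset.disjoint_filter]
            intro x _ h2 h3
            omega
          · rw [← e]
            exact (ha (t + 1)).trans (le_max_left _ _)
        · rw [not_nonempty_iff_eq_empty] at hP
          rw [e, hP, empty_union]
          exact h1
      · rw [not_nonempty_iff_eq_empty] at hL
        rw [e, hL, union_empty] at hne ⊢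
        exact ih hne
  have e : R.filter (fun x => f x ≤ R.sup f) = R := by
    rw [Finset.filter_eq_self]
    intro x hx
    exact Finset.le_sup hx
  have h1 := key (R.sup f) (by rw [e]; exact hR)
  rwa [e] at h1

end Pool.Agent.H175G
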