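import Pool.Agent.H175F.Stmts2

set_option linter.unusedVariables false

namespace Pool.Agent.H175G.N5

open Finset Classical
open Pool.Agent.H175R2 (DT nt on cpt Cn P4Free)

variable {V : Type}

lemma mod_of_attach (hA : AttachStmt) : ∃ M : ℕ → ℕ, ∀ (V : Type) (G : SimpleGraph V) (K : ℕ)
    (R C : Finset V), BD G K (R \ C) → BD G 1 C →
    (∀ x ∈ R, x ∉ C → ∀ c ∈ C, ∀ c' ∈ C, G.Adj x c → G.Adj x c') → BD G (M K) R := by
  obtain ⟨B, hB⟩ := hA
  refine ⟨fun K => B K 1 (Fintype.card Bool), ?_⟩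
  intro V G K R C h1 h2 h3
  have key := hB V G Bool (Option V) K 1 (R \ C) C (fun y => decide (∃ c ∈ C, G.Adj y c))
    (fun _ l => l = true) (fun x => if x ∈ C then none else some x) h1 ?_ ?_ ?_
  · exact key.sub (by intro x hx; simp only [mem_union, mem_sdiff]; tauto)
  · intro x hx y hy hxy
    rw [mem_sdiff] at hx hy
    simpa [hx.2, hy.2] using hxy
  · intro x hx
    by_cases hxC : x ∈ C
    · refine h2.sub ?_
      intro y hy
      by_contra hyC
      simp [hxC, hyC] at hy
    · refine (BD.singleton (x := x)).sub ?_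
      intro y hy
      rw [mem_singleton]
      by_cases hyC : y ∈ C
      · simp [hxC, hyC] at hy
      · simp [hxC, hyC] at hy
        exact hy.2
  · intro x hx y hy hxy
    have hyC : y ∉ C := by
      intro hyC; exact hxy (by simp [hx, hyC])
    have hyR : y ∈ R := by
      simp only [mem_union, mem_sdiff] at hy; tauto
    simp only [decide_eq_true_eq]
    constructor
    · intro h; exact ⟨x, hx, h.symm⟩
    · rintro ⟨c, hc, h⟩; exact (h3 y hyR hyC c hc x hx h).symm

/-! ### local facts -/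

variable {G : SimpleGraph V} {v0 v1 v2 v3 : V}

abbrev t01 (G : SimpleGraph V) (v0 v1 v2 v3 x : V) : Prop :=
  G.Adj v0 x ∧ G.Adj v1 x ∧ ¬ G.Adj v2 x ∧ ¬ G.Adj v3 x
abbrev t23 (G : SimpleGraph V) (v0 v1 v2 v3 x : V) : Prop :=
  ¬ G.Adj v0 x ∧ ¬ G.Adj v1 x ∧ G.Adj v2 x ∧ G.Adj v3 x
abbrev t02 (G : SimpleGraph V) (v0 v1 v2 v3 x : V) : Prop :=
  G.Adj v0 x ∧ ¬ G.Adj v1 x ∧ G.Adj v2 x ∧ ¬ G.Adj v3 x
abbrev t03 (G : SimpleGraph V) (v0 v1 v2 v3 x : V) : Prop :=
  G.Adj v0 x ∧ ¬ G.Adj v1 x ∧ ¬ G.Adj v2 x ∧ G.Adj v3 x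
abbrev t12 (G : SimpleGraph V) (v0 v1 v2 v3 x : V) : Prop :=
  ¬ G.Adj v0 x ∧ G.Adj v1 x ∧ G.Adj v2 x ∧ ¬ G.Adj v3 x
abbrev t13 (G : SimpleGraph V) (v0 v1 v2 v3 x : V) : Prop :=
  ¬ G.Adj v0 x ∧ G.Adj v1 x ∧ ¬ G.Adj v2 x ∧ G.Adj v3 x
abbrev t012 (G : SimpleGraph V) (v0 v1 v2 v3 x : V) : Prop :=
  G.Adj v0 x ∧ G.Adj v1 x ∧ G.Adj v2 x ∧ ¬ G.Adj v3 x
abbrev t013 (G : SimpleGraph V) (v0 v1 v2 v3 x : V) : Prop :=
  G.Adj v0 x ∧ G.Adj v1 x ∧ ¬ G.Adj v2 x ∧ G.Adj v3 x
abbrev t023 (G : SimpleGraph V) (v0 v1 v2 v3 x : V) : Prop :=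
  G.Adj v0 x ∧ ¬ G.Adj v1 x ∧ G.Adj v2 x ∧ G.Adj v3 x
abbrev t123 (G : SimpleGraph V) (v0 v1 v2 v3 x : V) : Prop :=
  ¬ G.Adj v0 x ∧ G.Adj v1 x ∧ G.Adj v2 x ∧ G.Adj v3 x

/-- the module property of `F₂` if `G₀ ∪ G₁` is nonempty -/
lemma modF (hg : NoGem G) (hp : NoP23 G) (hc : NoC5 G) (h : C22 G v0 v1 v2 v3) {f f' g y : V}
    (hf : t012 G v0 v1 v2 v3 f) (hf' : t012 G v0 v1 v2 v3 f') (g2 : G.Adj v2 g) (g3 : G.Adj v3 g)
    (g01 : (G.Adj v0 g ∧ ¬ G.Adj v1 g) ∨ (¬ G.Adj v0 g ∧ G.Adj v1 g))
    (hy : ¬ t012 G v0 v1 v2 v3 y) (y0 : v0 ≠ y) (y1 : v1 ≠ y) (y2 : v2 ≠ y) (y3 : v3 ≠ y)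
    (h1 : G.Adj y f) : G.Adj y f' := by
  by_contra h2
  have hff' : f ≠ f' := by rintro rfl; exact h2 h1
  (by_cases hh0 : G.Adj v0 y <;> by_cases hh1 : G.Adj v1 y <;> by_cases hh2 : G.Adj v2 y <;> by_cases hh3 : G.Adj v3 y) <;> rcases g01 with g01 | g01 <;>
    first
    | (exfalso; refine hy ⟨?_, ?_, ?_, ?_⟩ <;> assumption)
    | (first | exact (hg v0 f v2 v3 y (SimpleGraph.Adj.symm hh0) h1 (SimpleGraph.Adj.symm hh2) (SimpleGraph.Adj.symm hh3) (And.left hf) (SimpleGraph.Adj.symm (And.left (And.right (And.right hf)))) (And.left (And.right h)) (And.left (And.right (And.right h))) (not_symm' (And.right (And.right (And.right hf)))) (And.left (And.right (And.right (And.right h))))) | exact (hc v0 f' v2 v3 y (And.left hf') (SimpleGraph.Adj.symm (And.left (And.right (And.right hf')))) (And.left (And.right h)) hh3 (SimpleGraph.Adj.symm hh0) (And.left (And.right (And.right h))) (And.left (And.right (And.right (And.right h)))) (not_symm' (And.right (And.right (And.right hf')))) (not_symm'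 h2) hh2) | exact (hp g v3 f' v1 f (SimpleGraph.Adj.symm g3) (SimpleGraph.Adj.symm (And.left (And.right hf'))) (And.left (And.right hf)) (Ne.symm hff') (not_symm' (id fun (h_1 : SimpleGraph.Adj G f f') => hg v2 f' v0 y f (SimpleGraph.Adj.symm (And.left (And.right (And.right hf)))) h_1 (SimpleGraph.Adj.symm (And.left hf)) (SimpleGraph.Adj.symm h1) (And.left (And.right (And.right hf'))) (SimpleGraph.Adj.symm (And.left hf')) hh0 (not_symm' (And.left (And.right (And.right h)))) (not_symm' h2) hh2)) (not_symm' (id fun (h_1 : SimpleGraph.Adj G f' g) => hg v1 v0 g v2 f' (SimpleGraph.Adj.symm (And.left (And.right hf'))) (SimpleGraph.Adj.symm (And.left hf')) h_1 (SimpleGraph.Adj.symm (And.left (And.right (And.right hf')))) (SimpleGraph.Adj.symm (And.left h)) (And.left g01) (SimpleGraph.Adj.symm g2) (And.right g01) (And.left (And.right (And.right h))) (And.left (And.right (And.right (And.right (And.right h))))))) (not_symm' (And.right g01)) (not_symm' (id fun (h_1 : SimpleGraph.Adj G f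 g) => hg v1 v0 g v2 f (SimpleGraph.Adj.symm (And.left (And.right hf))) (SimpleGraph.Adj.symm (And.left hf)) h_1 (SimpleGraph.Adj.symm (And.left (And.right (And.right hf)))) (SimpleGraph.Adj.symm (And.left h)) (And.left g01) (SimpleGraph.Adj.symm g2) (And.right g01) (And.left (And.right (And.right h))) (And.left (And.right (And.right (And.right (And.right h))))))) (And.right (And.right (And.right hf'))) (not_symm' (And.right (And.right (And.right (And.right (And.right h)))))) (And.right (And.right (And.right hf)))) | exact (hp g v3 f' v0 f (SimpleGraph.Adj.symm g3) (SimpleGraph.Adj.symm (And.left hf')) (And.left hf) (Ne.symm hff') (not_symm' (id fun (h_1 : SimpleGraph.Adj G f f') => hg v2 f' v0 y f (SimpleGraph.Adj.symm (And.left (And.right (And.right hf)))) h_1 (SimpleGraph.Adj.symm (And.left hf)) (SimpleGraph.Adj.symm h1) (And.left (And.right (And.right hf'))) (SimpleGraph.Adj.symm (And.left hf')) hh0 (not_symm' (And.left (And.right (And.right h)))) (not_symm' h2) hh2)) (not_symm'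 (id fun (h_1 : SimpleGraph.Adj G f' g) => hg v0 v1 g v2 f' (SimpleGraph.Adj.symm (And.left hf')) (SimpleGraph.Adj.symm (And.left (And.right hf'))) h_1 (SimpleGraph.Adj.symm (And.left (And.right (And.right hf')))) (And.left h) (And.right g01) (SimpleGraph.Adj.symm g2) (And.left g01) (And.left (And.right (And.right (And.right (And.right h))))) (And.left (And.right (And.right h))))) (not_symm' (And.left g01)) (not_symm' (id fun (h_1 : SimpleGraph.Adj G f g) => hg v0 v1 g v2 f (SimpleGraph.Adj.symm (And.left hf)) (SimpleGraph.Adj.symm (And.left (And.right hf))) h_1 (SimpleGraph.Adj.symm (And.left (And.right (And.right hf)))) (And.left h) (And.right g01) (SimpleGraph.Adj.symm g2) (And.left g01) (And.left (And.right (And.right (And.right (And.right h))))) (And.left (And.right (And.right h))))) (And.right (And.right (And.right hf'))) (not_symm' (And.left (And.right (And.right (And.right h))))) (And.right (And.right (And.right hf)))) | exact (hg v1 v0 y v2 f (SimpleGraph.Adj.symm (And.left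 (And.right hf))) (SimpleGraph.Adj.symm (And.left hf)) (SimpleGraph.Adj.symm h1) (SimpleGraph.Adj.symm (And.left (And.right (And.right hf)))) (SimpleGraph.Adj.symm (And.left h)) hh0 (SimpleGraph.Adj.symm hh2) hh1 (And.left (And.right (And.right h))) (And.left (And.right (And.right (And.right (And.right h)))))) | exact (hp v2 v3 v1 v0 y (And.left (And.right h)) (SimpleGraph.Adj.symm (And.left h)) hh0 y1 hh1 (not_symm' (And.left (And.right (And.right (And.right (And.right h)))))) (not_symm' (And.left (And.right (And.right h)))) hh2 (not_symm' (And.right (And.right (And.right (And.right (And.right h)))))) (not_symm' (And.left (And.right (And.right (And.right h))))) hh3) | exact (hg v0 v1 y v2 f (SimpleGraph.Adj.symm (And.left hf)) (SimpleGraph.Adj.symm (And.left (And.right hf))) (SimpleGraph.Adj.symm h1) (SimpleGraph.Adj.symm (And.left (And.right (And.right hf)))) (And.left h) hh1 (SimpleGraph.Adj.symm hh2) hh0 (And.left (And.right (And.right (And.right (And.right h))))) (And.left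 (And.right (And.right h)))) | exact (hc v1 f' v2 v3 y (And.left (And.right hf')) (SimpleGraph.Adj.symm (And.left (And.right (And.right hf')))) (And.left (And.right h)) hh3 (SimpleGraph.Adj.symm hh1) (And.left (And.right (And.right (And.right (And.right h))))) (And.right (And.right (And.right (And.right (And.right h))))) (not_symm' (And.right (And.right (And.right hf')))) (not_symm' h2) hh2) | exact (hp v2 v3 v0 v1 y (And.left (And.right h)) (And.left h) hh1 y0 hh0 (not_symm' (And.left (And.right (And.right h)))) (not_symm' (And.left (And.right (And.right (And.right (And.right h)))))) hh2 (not_symm' (And.left (And.right (And.right (And.right h))))) (not_symm' (And.right (And.right (And.right (And.right (And.right h)))))) hh3) | exact (hp g v3 f' v1 f (SimpleGraph.Adj.symm g3) (SimpleGraph.Adj.symm (And.left (And.right hf'))) (And.left (And.right hf)) (Ne.symm hff') (not_symm' (id fun (h_1 : SimpleGraph.Adj G f f') => hg v0 f' v2 y f (SimpleGraph.Adj.symm (And.left hf)) h_1 (SimpleGraph.Adj.symm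 (And.left (And.right (And.right hf)))) (SimpleGraph.Adj.symm h1) (And.left hf') (SimpleGraph.Adj.symm (And.left (And.right (And.right hf')))) hh2 (And.left (And.right (And.right h))) (not_symm' h2) hh0)) (not_symm' (id fun (h_1 : SimpleGraph.Adj G f' g) => hg v1 v0 g v2 f' (SimpleGraph.Adj.symm (And.left (And.right hf'))) (SimpleGraph.Adj.symm (And.left hf')) h_1 (SimpleGraph.Adj.symm (And.left (And.right (And.right hf')))) (SimpleGraph.Adj.symm (And.left h)) (And.left g01) (SimpleGraph.Adj.symm g2) (And.right g01) (And.left (And.right (And.right h))) (And.left (And.right (And.right (And.right (And.right h))))))) (not_symm' (And.right g01)) (not_symm' (id fun (h_1 : SimpleGraph.Adj G f g) => hg v1 v0 g v2 f (SimpleGraph.Adj.symm (And.left (And.right hf))) (SimpleGraph.Adj.symm (And.left hf)) h_1 (SimpleGraph.Adj.symm (And.left (And.right (And.right hf)))) (SimpleGraph.Adj.symm (And.left h)) (And.left g01) (SimpleGraph.Adj.symm g2) (And.right g01) (And.left (And.right (And.right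 h))) (And.left (And.right (And.right (And.right (And.right h))))))) (And.right (And.right (And.right hf'))) (not_symm' (And.right (And.right (And.right (And.right (And.right h)))))) (And.right (And.right (And.right hf)))) | exact (hp g v3 f' v0 f (SimpleGraph.Adj.symm g3) (SimpleGraph.Adj.symm (And.left hf')) (And.left hf) (Ne.symm hff') (not_symm' (id fun (h_1 : SimpleGraph.Adj G f f') => hg v0 f' v2 y f (SimpleGraph.Adj.symm (And.left hf)) h_1 (SimpleGraph.Adj.symm (And.left (And.right (And.right hf)))) (SimpleGraph.Adj.symm h1) (And.left hf') (SimpleGraph.Adj.symm (And.left (And.right (And.right hf')))) hh2 (And.left (And.right (And.right h))) (not_symm' h2) hh0)) (not_symm' (id fun (h_1 : SimpleGraph.Adj G f' g) => hg v0 v1 g v2 f' (SimpleGraph.Adj.symm (And.left hf')) (SimpleGraph.Adj.symm (And.left (And.right hf'))) h_1 (SimpleGraph.Adj.symm (And.left (And.right (And.right hf')))) (And.left h) (And.right g01) (SimpleGraph.Adj.symm g2) (And.left g01) (And.left (And.right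 (And.right (And.right (And.right h))))) (And.left (And.right (And.right h))))) (not_symm' (And.left g01)) (not_symm' (id fun (h_1 : SimpleGraph.Adj G f g) => hg v0 v1 g v2 f (SimpleGraph.Adj.symm (And.left hf)) (SimpleGraph.Adj.symm (And.left (And.right hf))) h_1 (SimpleGraph.Adj.symm (And.left (And.right (And.right hf)))) (And.left h) (And.right g01) (SimpleGraph.Adj.symm g2) (And.left g01) (And.left (And.right (And.right (And.right (And.right h))))) (And.left (And.right (And.right h))))) (And.right (And.right (And.right hf'))) (not_symm' (And.left (And.right (And.right (And.right h))))) (And.right (And.right (And.right hf)))) | exact (hp v0 v1 v3 v2 y (And.left h) (SimpleGraph.Adj.symm (And.left (And.right h))) hh2 y3 hh3 (And.left (And.right (And.right (And.right h)))) (And.left (And.right (And.right h))) hh0 (And.right (And.right (And.right (And.right (And.right h))))) (And.left (And.right (And.right (And.right (And.right h))))) hh1) | exact (hp v0 v1 v2 v3 y (And.left h)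 (And.left (And.right h)) hh3 y2 hh2 (And.left (And.right (And.right h))) (And.left (And.right (And.right (And.right h)))) hh0 (And.left (And.right (And.right (And.right (And.right h))))) (And.right (And.right (And.right (And.right (And.right h))))) hh1) | exact (hp g v3 y f v1 (SimpleGraph.Adj.symm g3) h1 (SimpleGraph.Adj.symm (And.left (And.right hf))) (Ne.symm y1) (not_symm' hh1) (id fun (h_1 : SimpleGraph.Adj G g y) => hp v1 f' y g v3 (And.left (And.right hf')) (SimpleGraph.Adj.symm h_1) (SimpleGraph.Adj.symm g3) (Ne.symm y3) (not_symm' hh3) hh1 (And.right g01) (And.right (And.right (And.right (And.right (And.right h))))) (not_symm' h2) (id fun (h_2 : SimpleGraph.Adj G f' g) => hg v1 v0 g v2 f' (SimpleGraph.Adj.symm (And.left (And.right hf'))) (SimpleGraph.Adj.symm (And.left hf')) h_2 (SimpleGraph.Adj.symm (And.left (And.right (And.right hf')))) (SimpleGraph.Adj.symm (And.left h)) (And.left g01) (SimpleGraph.Adj.symm g2) (And.right g01) (And.left (And.right (And.right h)))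 (And.left (And.right (And.right (And.right (And.right h)))))) (not_symm' (And.right (And.right (And.right hf'))))) (not_symm' (id fun (h_1 : SimpleGraph.Adj G f g) => hg v1 v0 g v2 f (SimpleGraph.Adj.symm (And.left (And.right hf))) (SimpleGraph.Adj.symm (And.left hf)) h_1 (SimpleGraph.Adj.symm (And.left (And.right (And.right hf)))) (SimpleGraph.Adj.symm (And.left h)) (And.left g01) (SimpleGraph.Adj.symm g2) (And.right g01) (And.left (And.right (And.right h))) (And.left (And.right (And.right (And.right (And.right h))))))) (not_symm' (And.right g01)) hh3 (And.right (And.right (And.right hf))) (not_symm' (And.right (And.right (And.right (And.right (And.right h))))))) | exact (hp g v3 y f v0 (SimpleGraph.Adj.symm g3) h1 (SimpleGraph.Adj.symm (And.left hf)) (Ne.symm y0) (not_symm' hh0) (id fun (h_1 : SimpleGraph.Adj G g y) => hp v0 f' y g v3 (And.left hf') (SimpleGraph.Adj.symm h_1) (SimpleGraph.Adj.symm g3) (Ne.symm y3) (not_symm' hh3) hh0 (And.left g01) (And.left (And.right (And.right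 (And.right h)))) (not_symm' h2) (id fun (h_2 : SimpleGraph.Adj G f' g) => hg v0 v1 g v2 f' (SimpleGraph.Adj.symm (And.left hf')) (SimpleGraph.Adj.symm (And.left (And.right hf'))) h_2 (SimpleGraph.Adj.symm (And.left (And.right (And.right hf')))) (And.left h) (And.right g01) (SimpleGraph.Adj.symm g2) (And.left g01) (And.left (And.right (And.right (And.right (And.right h))))) (And.left (And.right (And.right h)))) (not_symm' (And.right (And.right (And.right hf'))))) (not_symm' (id fun (h_1 : SimpleGraph.Adj G f g) => hg v0 v1 g v2 f (SimpleGraph.Adj.symm (And.left hf)) (SimpleGraph.Adj.symm (And.left (And.right hf))) h_1 (SimpleGraph.Adj.symm (And.left (And.right (And.right hf)))) (And.left h) (And.right g01) (SimpleGraph.Adj.symm g2) (And.left g01) (And.left (And.right (And.right (And.right (And.right h))))) (And.left (And.right (And.right h))))) (not_symm' (And.left g01)) hh3 (And.right (And.right (And.right hf))) (not_symm' (And.left (And.right (And.right (And.right h)))))))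

lemma clqF (hg : NoGem G) (hp : NoP23 G) (hc : NoC5 G) (h : C22 G v0 v1 v2 v3) {f f' g : V}
    (hf : t012 G v0 v1 v2 v3 f) (hf' : t012 G v0 v1 v2 v3 f') (g2 : G.Adj v2 g) (g3 : G.Adj v3 g)
    (g01 : (G.Adj v0 g ∧ ¬ G.Adj v1 g) ∨ (¬ G.Adj v0 g ∧ G.Adj v1 g)) (hff' : f ≠ f') :
    G.Adj f f' := by
  by_contra h2
  rcases g01 with g01 | g01 <;> (first | exact (hp g v3 f' v1 f (SimpleGraph.Adj.symm g3) (SimpleGraph.Adj.symm (And.left (And.right hf'))) (And.left (And.right hf)) (Ne.symm hff') (not_symm' h2) (not_symm' (id fun (h_1 : SimpleGraph.Adj G f' g) => hg v1 v0 g v2 f' (SimpleGraph.Adj.symm (And.left (And.right hf'))) (SimpleGraph.Adj.symm (And.left hf')) h_1 (SimpleGraph.Adj.symm (And.left (And.right (And.right hf')))) (SimpleGraph.Adj.symm (And.left h)) (And.left g01) (SimpleGraph.Adj.symm g2) (And.right g01) (And.left (And.right (And.right h))) (And.left (And.right (And.right (And.right (And.right h))))))) (not_symm' (And.right g01)) (not_symm' (id fun (h_1 : SimpleGraph.Adj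 G f g) => hg v1 v0 g v2 f (SimpleGraph.Adj.symm (And.left (And.right hf))) (SimpleGraph.Adj.symm (And.left hf)) h_1 (SimpleGraph.Adj.symm (And.left (And.right (And.right hf)))) (SimpleGraph.Adj.symm (And.left h)) (And.left g01) (SimpleGraph.Adj.symm g2) (And.right g01) (And.left (And.right (And.right h))) (And.left (And.right (And.right (And.right (And.right h))))))) (And.right (And.right (And.right hf'))) (not_symm' (And.right (And.right (And.right (And.right (And.right h)))))) (And.right (And.right (And.right hf)))) | exact (hp g v3 f' v0 f (SimpleGraph.Adj.symm g3) (SimpleGraph.Adj.symm (And.left hf')) (And.left hf) (Ne.symm hff') (not_symm' h2) (not_symm' (id fun (h_1 : SimpleGraph.Adj G f' g) => hg v0 v1 g v2 f' (SimpleGraph.Adj.symm (And.left hf')) (SimpleGraph.Adj.symm (And.left (And.right hf'))) h_1 (SimpleGraph.Adj.symm (And.left (And.right (And.right hf')))) (And.left h) (And.right g01) (SimpleGraph.Adj.symm g2) (And.left g01) (And.left (And.right (And.right (And.right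 (And.right h))))) (And.left (And.right (And.right h))))) (not_symm' (And.left g01)) (not_symm' (id fun (h_1 : SimpleGraph.Adj G f g) => hg v0 v1 g v2 f (SimpleGraph.Adj.symm (And.left hf)) (SimpleGraph.Adj.symm (And.left (And.right hf))) h_1 (SimpleGraph.Adj.symm (And.left (And.right (And.right hf)))) (And.left h) (And.right g01) (SimpleGraph.Adj.symm g2) (And.left g01) (And.left (And.right (And.right (And.right (And.right h))))) (And.left (And.right (And.right h))))) (And.right (And.right (And.right hf'))) (not_symm' (And.left (And.right (And.right (And.right h))))) (And.right (And.right (And.right hf)))))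

lemma triple (hg : NoGem G) (hp : NoP23 G) (hc : NoC5 G) (h : C22 G v0 v1 v2 v3) {x y z z' : V}
    (hx : t02 G v0 v1 v2 v3 x) (hy : t12 G v0 v1 v2 v3 y) (hz : t03 G v0 v1 v2 v3 z)
    (hz' : t03 G v0 v1 v2 v3 z') (hzz' : z ≠ z') : False := by
  exact hp v2 y z v0 z' (And.left (And.right (And.right hy))) (SimpleGraph.Adj.symm (And.left hz)) (And.left hz') hzz' (id fun (h_1 : SimpleGraph.Adj G z z') => hp z z' v1 y v2 h_1 (And.left (And.right hy)) (SimpleGraph.Adj.symm (And.left (And.right (And.right hy)))) (ne_of_wit (And.left h) (And.left (And.right (And.right h)))) (And.left (And.right (And.right (And.right (And.right h))))) (not_symm' (And.left (And.right hz))) (not_symm' (id fun (h_2 : SimpleGraph.Adj G y z) => hg v0 z y v2 x (SimpleGraph.Adj.symm (And.left hx)) (byContradiction fun (h_3 : ¬SimpleGraph.Adj G x z) => hc x v0 z v3 v2 (SimpleGraph.Adj.symm (And.left hx)) (And.left hz) (SimpleGraph.Adj.symm (And.right (And.right (And.right hz)))) (SimpleGraph.Adj.symm (And.left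 (And.right h))) (And.left (And.right (And.right hx))) h_3 (not_symm' (And.right (And.right (And.right hx)))) (And.left (And.right (And.right (And.right h)))) (And.left (And.right (And.right h))) (not_symm' (And.left (And.right (And.right hz))))) (byContradiction fun (h_3 : ¬SimpleGraph.Adj G x y) => hc x v0 v1 y v2 (SimpleGraph.Adj.symm (And.left hx)) (And.left h) (And.left (And.right hy)) (SimpleGraph.Adj.symm (And.left (And.right (And.right hy)))) (And.left (And.right (And.right hx))) (not_symm' (And.left (And.right hx))) h_3 (And.left hy) (And.left (And.right (And.right h))) (And.left (And.right (And.right (And.right (And.right h)))))) (SimpleGraph.Adj.symm (And.left (And.right (And.right hx)))) (And.left hz) (SimpleGraph.Adj.symm h_2) (SimpleGraph.Adj.symm (And.left (And.right (And.right hy)))) (And.left hy) (not_symm' (And.left (And.right (And.right hz)))) (And.left (And.right (And.right h))))) (not_symm' (And.left (And.right (And.right hz)))) (not_symm' (And.left (And.right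 hz'))) (not_symm' (id fun (h_2 : SimpleGraph.Adj G y z') => hg v0 z' y v2 x (SimpleGraph.Adj.symm (And.left hx)) (byContradiction fun (h_3 : ¬SimpleGraph.Adj G x z') => hc x v0 z' v3 v2 (SimpleGraph.Adj.symm (And.left hx)) (And.left hz') (SimpleGraph.Adj.symm (And.right (And.right (And.right hz')))) (SimpleGraph.Adj.symm (And.left (And.right h))) (And.left (And.right (And.right hx))) h_3 (not_symm' (And.right (And.right (And.right hx)))) (And.left (And.right (And.right (And.right h)))) (And.left (And.right (And.right h))) (not_symm' (And.left (And.right (And.right hz'))))) (byContradiction fun (h_3 : ¬SimpleGraph.Adj G x y) => hc x v0 v1 y v2 (SimpleGraph.Adj.symm (And.left hx)) (And.left h) (And.left (And.right hy)) (SimpleGraph.Adj.symm (And.left (And.right (And.right hy)))) (And.left (And.right (And.right hx))) (not_symm' (And.left (And.right hx))) h_3 (And.left hy) (And.left (And.right (And.right h))) (And.left (And.right (And.right (And.right (And.right h)))))) (SimpleGraph.Adj.symm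 (And.left (And.right (And.right hx)))) (And.left hz') (SimpleGraph.Adj.symm h_2) (SimpleGraph.Adj.symm (And.left (And.right (And.right hy)))) (And.left hy) (not_symm' (And.left (And.right (And.right hz')))) (And.left (And.right (And.right h))))) (not_symm' (And.left (And.right (And.right hz'))))) (And.left (And.right (And.right hz))) (not_symm' (And.left (And.right (And.right h)))) (And.left (And.right (And.right hz'))) (id fun (h_1 : SimpleGraph.Adj G y z) => hg v0 z y v2 x (SimpleGraph.Adj.symm (And.left hx)) (byContradiction fun (h_2 : ¬SimpleGraph.Adj G x z) => hc x v0 z v3 v2 (SimpleGraph.Adj.symm (And.left hx)) (And.left hz) (SimpleGraph.Adj.symm (And.right (And.right (And.right hz)))) (SimpleGraph.Adj.symm (And.left (And.right h))) (And.left (And.right (And.right hx))) h_2 (not_symm' (And.right (And.right (And.right hx)))) (And.left (And.right (And.right (And.right h)))) (And.left (And.right (And.right h))) (not_symm' (And.left (And.right (And.right hz))))) (byContradiction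 fun (h_2 : ¬SimpleGraph.Adj G x y) => hc x v0 v1 y v2 (SimpleGraph.Adj.symm (And.left hx)) (And.left h) (And.left (And.right hy)) (SimpleGraph.Adj.symm (And.left (And.right (And.right hy)))) (And.left (And.right (And.right hx))) (not_symm' (And.left (And.right hx))) h_2 (And.left hy) (And.left (And.right (And.right h))) (And.left (And.right (And.right (And.right (And.right h)))))) (SimpleGraph.Adj.symm (And.left (And.right (And.right hx)))) (And.left hz) (SimpleGraph.Adj.symm h_1) (SimpleGraph.Adj.symm (And.left (And.right (And.right hy)))) (And.left hy) (not_symm' (And.left (And.right (And.right hz)))) (And.left (And.right (And.right h)))) (not_symm' (And.left hy)) (id fun (h_1 : SimpleGraph.Adj G y z') => hg v0 z' y v2 x (SimpleGraph.Adj.symm (And.left hx)) (byContradiction fun (h_2 : ¬SimpleGraph.Adj G x z') => hc x v0 z' v3 v2 (SimpleGraph.Adj.symm (And.left hx)) (And.left hz') (SimpleGraph.Adj.symm (And.right (And.right (And.right hz')))) (SimpleGraph.Adj.symm (And.left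 (And.right h))) (And.left (And.right (And.right hx))) h_2 (not_symm' (And.right (And.right (And.right hx)))) (And.left (And.right (And.right (And.right h)))) (And.left (And.right (And.right h))) (not_symm' (And.left (And.right (And.right hz'))))) (byContradiction fun (h_2 : ¬SimpleGraph.Adj G x y) => hc x v0 v1 y v2 (SimpleGraph.Adj.symm (And.left hx)) (And.left h) (And.left (And.right hy)) (SimpleGraph.Adj.symm (And.left (And.right (And.right hy)))) (And.left (And.right (And.right hx))) (not_symm' (And.left (And.right hx))) h_2 (And.left hy) (And.left (And.right (And.right h))) (And.left (And.right (And.right (And.right (And.right h)))))) (SimpleGraph.Adj.symm (And.left (And.right (And.right hx)))) (And.left hz') (SimpleGraph.Adj.symm h_1) (SimpleGraph.Adj.symm (And.left (And.right (And.right hy)))) (And.left hy) (not_symm' (And.left (And.right (And.right hz')))) (And.left (And.right (And.right h))))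

lemma w_empty (hg : NoGem G) (hp : NoP23 G) (hc : NoC5 G) (h : C22 G v0 v1 v2 v3) {w x x' y : V}
    (hx : t02 G v0 v1 v2 v3 x) (hx' : t02 G v0 v1 v2 v3 x') (hy : t13 G v0 v1 v2 v3 y)
    (w0 : G.Adj v0 w) (w1 : G.Adj v1 w) (w2 : G.Adj v2 w) (w3 : G.Adj v3 w) (hxx' : x ≠ x') :
    False := by
  exact hp y v3 x' v0 x (SimpleGraph.Adj.symm (And.right (And.right (And.right hy)))) (SimpleGraph.Adj.symm (And.left hx')) (And.left hx) (Ne.symm hxx') (not_symm' (id fun (h_1 : SimpleGraph.Adj G x x') => hp x x' v1 w v3 h_1 w1 (SimpleGraph.Adj.symm w3) (ne_of_wit (And.left h) (And.left (And.right (And.right (And.right h))))) (And.right (And.right (And.right (And.right (And.right h))))) (not_symm' (And.left (And.right hx))) (id fun (h_2 : SimpleGraph.Adj G x w) => hg v1 v0 x v2 w (SimpleGraph.Adj.symm w1) (SimpleGraph.Adj.symm w0) (SimpleGraph.Adj.symm h_2) (SimpleGraph.Adj.symm w2) (SimpleGraph.Adj.symm (And.left h)) (And.left hx) (SimpleGraph.Adj.symm (And.left (And.right (And.right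 hx)))) (And.left (And.right hx)) (And.left (And.right (And.right h))) (And.left (And.right (And.right (And.right (And.right h)))))) (not_symm' (And.right (And.right (And.right hx)))) (not_symm' (And.left (And.right hx'))) (id fun (h_2 : SimpleGraph.Adj G x' w) => hg v1 v0 x' v2 w (SimpleGraph.Adj.symm w1) (SimpleGraph.Adj.symm w0) (SimpleGraph.Adj.symm h_2) (SimpleGraph.Adj.symm w2) (SimpleGraph.Adj.symm (And.left h)) (And.left hx') (SimpleGraph.Adj.symm (And.left (And.right (And.right hx')))) (And.left (And.right hx')) (And.left (And.right (And.right h))) (And.left (And.right (And.right (And.right (And.right h)))))) (not_symm' (And.right (And.right (And.right hx')))))) (not_symm' (id fun (h_1 : SimpleGraph.Adj G x' y) => hc x' y v3 w v0 h_1 (SimpleGraph.Adj.symm (And.right (And.right (And.right hy)))) w3 (SimpleGraph.Adj.symm w0) (And.left hx') (not_symm' (And.right (And.right (And.right hx')))) (id fun (h_2 : SimpleGraph.Adj G x' w) => hg v1 v0 x' v2 w (SimpleGraph.Adj.symm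 w1) (SimpleGraph.Adj.symm w0) (SimpleGraph.Adj.symm h_2) (SimpleGraph.Adj.symm w2) (SimpleGraph.Adj.symm (And.left h)) (And.left hx') (SimpleGraph.Adj.symm (And.left (And.right (And.right hx')))) (And.left (And.right hx')) (And.left (And.right (And.right h))) (And.left (And.right (And.right (And.right (And.right h)))))) (id fun (h_2 : SimpleGraph.Adj G y w) => hg v0 v1 y v3 w (SimpleGraph.Adj.symm w0) (SimpleGraph.Adj.symm w1) (SimpleGraph.Adj.symm h_2) (SimpleGraph.Adj.symm w3) (And.left h) (And.left (And.right hy)) (SimpleGraph.Adj.symm (And.right (And.right (And.right hy)))) (And.left hy) (And.right (And.right (And.right (And.right (And.right h))))) (And.left (And.right (And.right (And.right h))))) (not_symm' (And.left hy)) (not_symm' (And.left (And.right (And.right (And.right h))))))) (not_symm' (And.left hy)) (not_symm' (id fun (h_1 : SimpleGraph.Adj G x y) => hc x y v3 w v0 h_1 (SimpleGraph.Adj.symm (And.right (And.right (And.right hy)))) w3 (SimpleGraph.Adj.symm w0) (And.left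 hx) (not_symm' (And.right (And.right (And.right hx)))) (id fun (h_2 : SimpleGraph.Adj G x w) => hg v1 v0 x v2 w (SimpleGraph.Adj.symm w1) (SimpleGraph.Adj.symm w0) (SimpleGraph.Adj.symm h_2) (SimpleGraph.Adj.symm w2) (SimpleGraph.Adj.symm (And.left h)) (And.left hx) (SimpleGraph.Adj.symm (And.left (And.right (And.right hx)))) (And.left (And.right hx)) (And.left (And.right (And.right h))) (And.left (And.right (And.right (And.right (And.right h)))))) (id fun (h_2 : SimpleGraph.Adj G y w) => hg v0 v1 y v3 w (SimpleGraph.Adj.symm w0) (SimpleGraph.Adj.symm w1) (SimpleGraph.Adj.symm h_2) (SimpleGraph.Adj.symm w3) (And.left h) (And.left (And.right hy)) (SimpleGraph.Adj.symm (And.right (And.right (And.right hy)))) (And.left hy) (And.right (And.right (And.right (And.right (And.right h))))) (And.left (And.right (And.right (And.right h))))) (not_symm' (And.left hy)) (not_symm' (And.left (And.right (And.right (And.right h))))))) (And.right (And.right (And.right hx'))) (not_symm' (And.left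 (And.right (And.right (And.right h))))) (And.right (And.right (And.right hx)))

/-- the vertices of `R` are of types `∅, 01, 23, 02, 03, 12, 13, 012, 013, 0123` -/
def RCfg (G : SimpleGraph V) (v0 v1 v2 v3 : V) (R : Finset V) : Prop :=
  (∀ x ∈ R, v0 ≠ x ∧ v1 ≠ x ∧ v2 ≠ x ∧ v3 ≠ x) ∧
  (∀ x ∈ R, G.Adj v2 x → G.Adj v3 x → (G.Adj v0 x ↔ G.Adj v1 x))

lemma clus0 (hg : NoGem G) (hp : NoP23 G) (hc : NoC5 G) (h : C22 G v0 v1 v2 v3) {R : Finset V}
    (hR : RCfg G v0 v1 v2 v3 R) (h12 : ∀ x ∈ R, ¬ t12 G v0 v1 v2 v3 x)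
    (h13 : ∀ x ∈ R, ¬ t13 G v0 v1 v2 v3 x) : Clus G (R.filter (fun x => ¬ G.Adj v0 x)) := by
  intro x hx y hy z hz hxy hyz hxz
  rw [mem_filter] at hx hy hz
  obtain ⟨x0, x1, x2, x3⟩ := hR.1 x hx.1
  obtain ⟨y0, y1, y2, y3⟩ := hR.1 y hy.1
  obtain ⟨z0, z1, z2, z3⟩ := hR.1 z hz.1
  have hx' := hx.2
  have hy' := hy.2
  have hz' := hz.2
  by_contra hcon
  have key : ∀ w ∈ R, ¬ G.Adj v0 w → ¬ G.Adj v1 w := by
    intro w hw hw0 hw1
    have h12 := h12 w hw
    have h13 := h13 w hw
    have h23 := hR.2 w hw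
    obtain ⟨w0, w1, w2, w3⟩ := hR.1 w hw
    by_cases hw2 : G.Adj v2 w
    · by_cases hw3 : G.Adj v3 w
      · exact hw0 ((h23 hw2 hw3).2 hw1)
      · exact h12 ⟨hw0, hw1, hw2, hw3⟩
    · by_cases hw3 : G.Adj v3 w
      · exact h13 ⟨hw0, hw1, hw2, hw3⟩
      · clear h12 h13 h23; exact hp v2 v3 v0 v1 w (And.left (And.right h)) (And.left h) hw1 w0 hw0 (not_symm' (And.left (And.right (And.right h)))) (not_symm' (And.left (And.right (And.right (And.right (And.right h)))))) hw2 (not_symm' (And.left (And.right (And.right (And.right h))))) (not_symm' (And.right (And.right (And.right (And.right (And.right h)))))) hw3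
  have kx := key x hx.1 hx.2
  have ky := key y hy.1 hy.2
  have kz := key z hz.1 hz.2
  exact hp v0 v1 x y z (And.left h) hxy hyz hxz hcon (And.right hx) (And.right hy) (And.right hz) kx ky kz

lemma clus2 (hg : NoGem G) (hp : NoP23 G) (hc : NoC5 G) (h : C22 G v0 v1 v2 v3) {R : Finset V}
    (hR : RCfg G v0 v1 v2 v3 R) (h03 : ∀ x ∈ R, ¬ t03 G v0 v1 v2 v3 x)
    (h13 : ∀ x ∈ R, ¬ t13 G v0 v1 v2 v3 x) {a b : V} (ha : t02 G v0 v1 v2 v3 a)
    (hb : t12 G v0 v1 v2 v3 b) : Clus G (R.filter (fun x => ¬ G.Adj v2 x)) := by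
  intro x hx y hy z hz hxy hyz hxz
  rw [mem_filter] at hx hy hz
  obtain ⟨x0, x1, x2, x3⟩ := hR.1 x hx.1
  obtain ⟨y0, y1, y2, y3⟩ := hR.1 y hy.1
  obtain ⟨z0, z1, z2, z3⟩ := hR.1 z hz.1
  have hx' := hx.2
  have hy' := hy.2
  have hz' := hz.2
  by_contra hcon
  have key : ∀ w ∈ R, ¬ G.Adj v2 w → ¬ G.Adj v3 w := by
    intro w hw hw0 hw1
    have h03 := h03 w hw
    have h13 := h13 w hw
    obtain ⟨w0, w1, w2, w3⟩ := hR.1 w hw
    by_cases hw2 : G.Adj v0 w
    · by_cases hw3 : G.Adj v1 w
      · clear h03 h13; exact hc b v1 w v3 v2 (SimpleGraph.Adj.symm (And.left (And.right hb))) hw3 (SimpleGraph.Adj.symm hw1) (SimpleGraph.Adj.symm (And.left (And.right h))) (And.left (And.right (And.right hb))) (id fun (h_1 : SimpleGraph.Adj G b w) => hg v0 w b v2 a (SimpleGraph.Adj.symm (And.left ha)) (byContradiction fun (h_2 : ¬SimpleGraph.Adj G a w) => hc a v0 w v3 v2 (SimpleGraph.Adj.symm (And.left ha)) hw2 (SimpleGraph.Adj.symm hw1) (SimpleGraph.Adj.symm (And.left (And.right h))) (And.left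 (And.right (And.right ha))) h_2 (not_symm' (And.right (And.right (And.right ha)))) (And.left (And.right (And.right (And.right h)))) (And.left (And.right (And.right h))) (not_symm' hw0)) (byContradiction fun (h_2 : ¬SimpleGraph.Adj G a b) => hc a v0 v1 b v2 (SimpleGraph.Adj.symm (And.left ha)) (And.left h) (And.left (And.right hb)) (SimpleGraph.Adj.symm (And.left (And.right (And.right hb)))) (And.left (And.right (And.right ha))) (not_symm' (And.left (And.right ha))) h_2 (And.left hb) (And.left (And.right (And.right h))) (And.left (And.right (And.right (And.right (And.right h)))))) (SimpleGraph.Adj.symm (And.left (And.right (And.right ha)))) hw2 (SimpleGraph.Adj.symm h_1) (SimpleGraph.Adj.symm (And.left (And.right (And.right hb)))) (And.left hb) (not_symm' hw0) (And.left (And.right (And.right h)))) (not_symm' (And.right (And.right (And.right hb)))) (And.right (And.right (And.right (And.right (And.right h))))) (And.left (And.right (And.right (And.right (And.right h))))) (not_symm'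 hw0)
      · exact h03 ⟨hw2, hw3, hw0, hw1⟩
    · by_cases hw3 : G.Adj v1 w
      · exact h13 ⟨hw2, hw3, hw0, hw1⟩
      · clear h03 h13; exact hp v0 v1 v2 v3 w (And.left h) (And.left (And.right h)) hw1 w2 hw0 (And.left (And.right (And.right h))) (And.left (And.right (And.right (And.right h)))) hw2 (And.left (And.right (And.right (And.right (And.right h))))) (And.right (And.right (And.right (And.right (And.right h))))) hw3
  have kx := key x hx.1 hx.2
  have ky := key y hy.1 hy.2
  have kz := key z hz.1 hz.2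
  exact hp v2 v3 x y z (And.left (And.right h)) hxy hyz hxz hcon (And.right hx) (And.right hy) (And.right hz) kx ky kz

/-- `K₁` is a module in the crossing case -/
lemma modK1 (hg : NoGem G) (hp : NoP23 G) (hc : NoC5 G) (h : C22 G v0 v1 v2 v3) {R : Finset V}
    (hR : RCfg G v0 v1 v2 v3 R) (h03 : ∀ x ∈ R, ¬ t03 G v0 v1 v2 v3 x)
    (h12 : ∀ x ∈ R, ¬ t12 G v0 v1 v2 v3 x) (hW : ∀ x ∈ R, ¬ (G.Adj v0 x ∧ G.Adj v1 x ∧ G.Adj v2 x ∧
      G.Adj v3 x)) {a b k k' y : V} (ha : t02 G v0 v1 v2 v3 a)
    (hb : t13 G v0 v1 v2 v3 b) (hy : y ∈ R) (hy' : ¬ t01 G v0 v1 v2 v3 y)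
    (hk : t01 G v0 v1 v2 v3 k) (hk' : t01 G v0 v1 v2 v3 k') (h1 : G.Adj y k) : G.Adj y k' := by
  by_contra h2
  have hkk' : k ≠ k' := by rintro rfl; exact h2 h1
  have h03 := h03 y hy
  have h12 := h12 y hy
  have hW := hW y hy
  have h23 := hR.2 y hy
  have h23a : ¬ t023 G v0 v1 v2 v3 y := fun t => t.2.1 ((h23 t.2.2.1 t.2.2.2).1 t.1)
  have h23b : ¬ t123 G v0 v1 v2 v3 y := fun t => t.1 ((h23 t.2.2.1 t.2.2.2).2 t.2.1)
  obtain ⟨y0, y1, y2, y3⟩ := hR.1 y hy
  (by_cases hh0 : G.Adj v0 y <;> by_cases hh1 : G.Adj v1 y <;> by_cases hh2 : G.Adj v2 y <;> by_cases hh3 : G.Adj v3 y) <;>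
    first
    | (exfalso; refine hy' ⟨?_, ?_, ?_, ?_⟩ <;> assumption)
    | (exfalso; refine h03 ⟨?_, ?_, ?_, ?_⟩ <;> assumption)
    | (exfalso; refine h12 ⟨?_, ?_, ?_, ?_⟩ <;> assumption)
    | (exfalso; refine hW ⟨?_, ?_, ?_, ?_⟩ <;> assumption)
    | (exfalso; refine h23a ⟨?_, ?_, ?_, ?_⟩ <;> assumption)
    | (exfalso; refine h23b ⟨?_, ?_, ?_, ?_⟩ <;> assumption)
    | (clear h03 h12 hW h23 hy' h23a h23b; (first | exact (hg a k' v1 y v0 (And.left ha) (And.left hk') (And.left h) hh0 (byContradiction fun (h_1 : ¬SimpleGraph.Adj G a k') => hp k' v1 a v2 v3 (SimpleGraph.Adj.symm (And.left (And.right hk'))) (SimpleGraph.Adj.symm (And.left (And.right (And.right ha)))) (And.left (And.right h)) (ne_of_wit (And.left ha) (And.left (And.right (And.right (And.right h))))) (not_symm' (And.right (And.right (And.right ha)))) (not_symm' h_1) (not_symm' (And.left (And.right (And.right hk')))) (not_symm' (And.right (And.right (And.right hk')))) (And.left (And.right ha)) (And.left (And.right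 (And.right (And.right (And.right h))))) (And.right (And.right (And.right (And.right (And.right h)))))) (SimpleGraph.Adj.symm (And.left (And.right hk'))) hh1 (not_symm' (And.left (And.right ha))) (not_symm' h2) (id fun (h_1 : SimpleGraph.Adj G a y) => hg v1 v0 a v2 y (SimpleGraph.Adj.symm hh1) (SimpleGraph.Adj.symm hh0) (SimpleGraph.Adj.symm h_1) (SimpleGraph.Adj.symm hh2) (SimpleGraph.Adj.symm (And.left h)) (And.left ha) (SimpleGraph.Adj.symm (And.left (And.right (And.right ha)))) (And.left (And.right ha)) (And.left (And.right (And.right h))) (And.left (And.right (And.right (And.right (And.right h))))))) | exact (hg b k' v0 y v1 (And.left (And.right hb)) (And.left (And.right hk')) (SimpleGraph.Adj.symm (And.left h)) hh1 (byContradiction fun (h_1 : ¬SimpleGraph.Adj G b k') => hp k' v0 b v3 v2 (SimpleGraph.Adj.symm (And.left hk')) (SimpleGraph.Adj.symm (And.right (And.right (And.right hb)))) (SimpleGraph.Adj.symm (And.left (And.right h))) (ne_of_wit (And.left (And.right hb)) (And.left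 (And.right (And.right (And.right (And.right h)))))) (not_symm' (And.left (And.right (And.right hb)))) (not_symm' h_1) (not_symm' (And.right (And.right (And.right hk')))) (not_symm' (And.left (And.right (And.right hk')))) (And.left hb) (And.left (And.right (And.right (And.right h)))) (And.left (And.right (And.right h)))) (SimpleGraph.Adj.symm (And.left hk')) hh0 (not_symm' (And.left hb)) (not_symm' h2) (id fun (h_1 : SimpleGraph.Adj G b y) => hg v0 v1 b v3 y (SimpleGraph.Adj.symm hh0) (SimpleGraph.Adj.symm hh1) (SimpleGraph.Adj.symm h_1) (SimpleGraph.Adj.symm hh3) (And.left h) (And.left (And.right hb)) (SimpleGraph.Adj.symm (And.right (And.right (And.right hb)))) (And.left hb) (And.right (And.right (And.right (And.right (And.right h))))) (And.left (And.right (And.right (And.right h)))))) | exact (hp v1 k' v3 v2 y (And.left (And.right hk')) (SimpleGraph.Adj.symm (And.left (And.right h))) hh2 y3 hh3 (And.right (And.right (And.right (And.right (And.right h))))) (And.left (And.right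 (And.right (And.right (And.right h))))) hh1 (not_symm' (And.right (And.right (And.right hk')))) (not_symm' (And.left (And.right (And.right hk')))) (not_symm' h2)) | exact (hp v2 v3 v1 v0 y (And.left (And.right h)) (SimpleGraph.Adj.symm (And.left h)) hh0 y1 hh1 (not_symm' (And.left (And.right (And.right (And.right (And.right h)))))) (not_symm' (And.left (And.right (And.right h)))) hh2 (not_symm' (And.right (And.right (And.right (And.right (And.right h)))))) (not_symm' (And.left (And.right (And.right (And.right h))))) hh3) | exact (hp v0 k' v2 v3 y (And.left hk') (And.left (And.right h)) hh3 y2 hh2 (And.left (And.right (And.right h))) (And.left (And.right (And.right (And.right h)))) hh0 (not_symm' (And.left (And.right (And.right hk')))) (not_symm' (And.right (And.right (And.right hk')))) (not_symm' h2)) | exact (hp v2 v3 v0 v1 y (And.left (And.right h)) (And.left h) hh1 y0 hh0 (not_symm' (And.left (And.right (And.right h)))) (not_symm' (And.left (And.right (And.right (And.right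 (And.right h)))))) hh2 (not_symm' (And.left (And.right (And.right (And.right h))))) (not_symm' (And.right (And.right (And.right (And.right (And.right h)))))) hh3) | exact (hp y v3 a v0 v1 (SimpleGraph.Adj.symm hh3) (SimpleGraph.Adj.symm (And.left ha)) (And.left h) (ne_of_wit (And.left (And.right (And.right ha))) (not_symm' (And.left (And.right (And.right (And.right (And.right h))))))) (not_symm' (And.left (And.right ha))) (not_symm' (id fun (h_1 : SimpleGraph.Adj G a y) => hg y a v0 v1 k (SimpleGraph.Adj.symm h1) (SimpleGraph.Adj.symm (byContradiction fun (h_2 : ¬SimpleGraph.Adj G a k) => hp k v1 a v2 v3 (SimpleGraph.Adj.symm (And.left (And.right hk))) (SimpleGraph.Adj.symm (And.left (And.right (And.right ha)))) (And.left (And.right h)) (ne_of_wit (And.left ha) (And.left (And.right (And.right (And.right h))))) (not_symm' (And.right (And.right (And.right ha)))) (not_symm' h_2) (not_symm' (And.left (And.right (And.right hk)))) (not_symm' (And.right (And.right (And.right hk))))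 (And.left (And.right ha)) (And.left (And.right (And.right (And.right (And.right h))))) (And.right (And.right (And.right (And.right (And.right h))))))) (SimpleGraph.Adj.symm (And.left hk)) (SimpleGraph.Adj.symm (And.left (And.right hk))) (SimpleGraph.Adj.symm h_1) (SimpleGraph.Adj.symm (And.left ha)) (And.left h) (not_symm' hh0) (not_symm' (And.left (And.right ha))) (not_symm' hh1))) (not_symm' hh0) (not_symm' hh1) (And.right (And.right (And.right ha))) (not_symm' (And.left (And.right (And.right (And.right h))))) (not_symm' (And.right (And.right (And.right (And.right (And.right h))))))) | exact (hp v0 v1 v3 v2 y (And.left h) (SimpleGraph.Adj.symm (And.left (And.right h))) hh2 y3 hh3 (And.left (And.right (And.right (And.right h)))) (And.left (And.right (And.right h))) hh0 (And.right (And.right (And.right (And.right (And.right h))))) (And.left (And.right (And.right (And.right (And.right h))))) hh1) | exact (hp v0 v1 v2 v3 y (And.left h) (And.left (And.right h)) hh3 y2 hh2 (And.left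 (And.right (And.right h))) (And.left (And.right (And.right (And.right h)))) hh0 (And.left (And.right (And.right (And.right (And.right h))))) (And.right (And.right (And.right (And.right (And.right h))))) hh1) | exact (hp v2 v3 v0 k y (And.left (And.right h)) (And.left hk) (SimpleGraph.Adj.symm h1) y0 hh0 (not_symm' (And.left (And.right (And.right h)))) (And.left (And.right (And.right hk))) hh2 (not_symm' (And.left (And.right (And.right (And.right h))))) (And.right (And.right (And.right hk))) hh3)))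

/-- `K₂` is a module in the crossing case -/
lemma modK2 (hg : NoGem G) (hp : NoP23 G) (hc : NoC5 G) (h : C22 G v0 v1 v2 v3) {R : Finset V}
    (hR : RCfg G v0 v1 v2 v3 R) (h03 : ∀ x ∈ R, ¬ t03 G v0 v1 v2 v3 x)
    (h12 : ∀ x ∈ R, ¬ t12 G v0 v1 v2 v3 x) (hW : ∀ x ∈ R, ¬ (G.Adj v0 x ∧ G.Adj v1 x ∧ G.Adj v2 x ∧
      G.Adj v3 x)) {a b k k' y : V} (ha : t02 G v0 v1 v2 v3 a)
    (hb : t13 G v0 v1 v2 v3 b) (hy : y ∈ R) (hy' : ¬ t23 G v0 v1 v2 v3 y)
    (hk : t23 G v0 v1 v2 v3 k) (hk' : t23 G v0 v1 v2 v3 k') (h1 : G.Adj y k) : G.Adj y k' := by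
  by_contra h2
  have hkk' : k ≠ k' := by rintro rfl; exact h2 h1
  have h03 := h03 y hy
  have h12 := h12 y hy
  have hW := hW y hy
  have h23 := hR.2 y hy
  have h23a : ¬ t023 G v0 v1 v2 v3 y := fun t => t.2.1 ((h23 t.2.2.1 t.2.2.2).1 t.1)
  have h23b : ¬ t123 G v0 v1 v2 v3 y := fun t => t.1 ((h23 t.2.2.1 t.2.2.2).2 t.2.1)
  obtain ⟨y0, y1, y2, y3⟩ := hR.1 y hy
  (by_cases hh0 : G.Adj v0 y <;> by_cases hh1 : G.Adj v1 y <;> by_cases hh2 : G.Adj v2 y <;> by_cases hh3 : G.Adj v3 y) <;>
    first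
    | (exfalso; refine hy' ⟨?_, ?_, ?_, ?_⟩ <;> assumption)
    | (exfalso; refine h03 ⟨?_, ?_, ?_, ?_⟩ <;> assumption)
    | (exfalso; refine h12 ⟨?_, ?_, ?_, ?_⟩ <;> assumption)
    | (exfalso; refine hW ⟨?_, ?_, ?_, ?_⟩ <;> assumption)
    | (exfalso; refine h23a ⟨?_, ?_, ?_, ?_⟩ <;> assumption)
    | (exfalso; refine h23b ⟨?_, ?_, ?_, ?_⟩ <;> assumption)
    | (clear h03 h12 hW h23 hy' h23a h23b; (first | exact (hp y v1 a k' v3 (SimpleGraph.Adj.symm hh1) (byContradiction fun (h_1 : ¬SimpleGraph.Adj G a k') => hp k' v3 a v0 v1 (SimpleGraph.Adj.symm (And.right (And.right (And.right hk')))) (SimpleGraph.Adj.symm (And.left ha)) (And.left h) (ne_of_wit (And.left (And.right (And.right ha))) (not_symm' (And.left (And.right (And.right (And.right (And.right h))))))) (not_symm' (And.left (And.right ha))) (not_symm' h_1) (not_symm' (And.left hk')) (not_symm' (And.left (And.right hk'))) (And.right (And.right (And.right ha))) (not_symm' (And.left (And.right (And.right (And.right h)))))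 (not_symm' (And.right (And.right (And.right (And.right (And.right h))))))) (SimpleGraph.Adj.symm (And.right (And.right (And.right hk')))) (ne_of_wit (And.left ha) (And.left (And.right (And.right (And.right h))))) (not_symm' (And.right (And.right (And.right ha)))) (not_symm' (id fun (h_1 : SimpleGraph.Adj G a y) => hg v1 v0 a v2 y (SimpleGraph.Adj.symm hh1) (SimpleGraph.Adj.symm hh0) (SimpleGraph.Adj.symm h_1) (SimpleGraph.Adj.symm hh2) (SimpleGraph.Adj.symm (And.left h)) (And.left ha) (SimpleGraph.Adj.symm (And.left (And.right (And.right ha)))) (And.left (And.right ha)) (And.left (And.right (And.right h))) (And.left (And.right (And.right (And.right (And.right h))))))) h2 (not_symm' hh3) (And.left (And.right ha)) (And.left (And.right hk')) (And.right (And.right (And.right (And.right (And.right h)))))) | exact (hc a v0 y v3 v2 (SimpleGraph.Adj.symm (And.left ha)) hh0 (SimpleGraph.Adj.symm hh3) (SimpleGraph.Adj.symm (And.left (And.right h))) (And.left (And.right (And.right ha)))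 (id fun (h_1 : SimpleGraph.Adj G a y) => hg v1 v0 a k y (SimpleGraph.Adj.symm hh1) (SimpleGraph.Adj.symm hh0) (SimpleGraph.Adj.symm h_1) h1 (SimpleGraph.Adj.symm (And.left h)) (And.left ha) (byContradiction fun (h_2 : ¬SimpleGraph.Adj G a k) => hp k v3 a v0 v1 (SimpleGraph.Adj.symm (And.right (And.right (And.right hk)))) (SimpleGraph.Adj.symm (And.left ha)) (And.left h) (ne_of_wit (And.left (And.right (And.right ha))) (not_symm' (And.left (And.right (And.right (And.right (And.right h))))))) (not_symm' (And.left (And.right ha))) (not_symm' h_2) (not_symm' (And.left hk)) (not_symm' (And.left (And.right hk))) (And.right (And.right (And.right ha))) (not_symm' (And.left (And.right (And.right (And.right h))))) (not_symm' (And.right (And.right (And.right (And.right (And.right h))))))) (And.left (And.right ha)) (And.left hk) (And.left (And.right hk))) (not_symm' (And.right (And.right (And.right ha)))) (And.left (And.right (And.right (And.right h)))) (And.left (And.right (And.right h)))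 (not_symm' hh2)) | exact (hp y v1 a v2 v3 (SimpleGraph.Adj.symm hh1) (SimpleGraph.Adj.symm (And.left (And.right (And.right ha)))) (And.left (And.right h)) (ne_of_wit (And.left ha) (And.left (And.right (And.right (And.right h))))) (not_symm' (And.right (And.right (And.right ha)))) (not_symm' (id fun (h_1 : SimpleGraph.Adj G a y) => hg v1 v0 a k y (SimpleGraph.Adj.symm hh1) (SimpleGraph.Adj.symm hh0) (SimpleGraph.Adj.symm h_1) h1 (SimpleGraph.Adj.symm (And.left h)) (And.left ha) (byContradiction fun (h_2 : ¬SimpleGraph.Adj G a k) => hp k v3 a v0 v1 (SimpleGraph.Adj.symm (And.right (And.right (And.right hk)))) (SimpleGraph.Adj.symm (And.left ha)) (And.left h) (ne_of_wit (And.left (And.right (And.right ha))) (not_symm' (And.left (And.right (And.right (And.right (And.right h))))))) (not_symm' (And.left (And.right ha))) (not_symm' h_2) (not_symm' (And.left hk)) (not_symm' (And.left (And.right hk))) (And.right (And.right (And.right ha))) (not_symm' (And.left (And.right (And.right (And.right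 h))))) (not_symm' (And.right (And.right (And.right (And.right (And.right h))))))) (And.left (And.right ha)) (And.left hk) (And.left (And.right hk)))) (not_symm' hh2) (not_symm' hh3) (And.left (And.right ha)) (And.left (And.right (And.right (And.right (And.right h))))) (And.right (And.right (And.right (And.right (And.right h)))))) | exact (hp v3 k' v1 v0 y (And.right (And.right (And.right hk'))) (SimpleGraph.Adj.symm (And.left h)) hh0 y1 hh1 (not_symm' (And.right (And.right (And.right (And.right (And.right h)))))) (not_symm' (And.left (And.right (And.right (And.right h))))) hh3 (not_symm' (And.left (And.right hk'))) (not_symm' (And.left hk')) (not_symm' h2)) | exact (hp v2 v3 v1 v0 y (And.left (And.right h)) (SimpleGraph.Adj.symm (And.left h)) hh0 y1 hh1 (not_symm' (And.left (And.right (And.right (And.right (And.right h)))))) (not_symm' (And.left (And.right (And.right h)))) hh2 (not_symm' (And.right (And.right (And.right (And.right (And.right h)))))) (not_symm' (And.left (And.right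 (And.right (And.right h))))) hh3) | exact (hp v2 k' v0 v1 y (And.left (And.right (And.right hk'))) (And.left h) hh1 y0 hh0 (not_symm' (And.left (And.right (And.right h)))) (not_symm' (And.left (And.right (And.right (And.right (And.right h)))))) hh2 (not_symm' (And.left hk')) (not_symm' (And.left (And.right hk'))) (not_symm' h2)) | exact (hp v2 v3 v0 v1 y (And.left (And.right h)) (And.left h) hh1 y0 hh0 (not_symm' (And.left (And.right (And.right h)))) (not_symm' (And.left (And.right (And.right (And.right (And.right h)))))) hh2 (not_symm' (And.left (And.right (And.right (And.right h))))) (not_symm' (And.right (And.right (And.right (And.right (And.right h)))))) hh3) | exact (hp v0 v1 v3 v2 y (And.left h) (SimpleGraph.Adj.symm (And.left (And.right h))) hh2 y3 hh3 (And.left (And.right (And.right (And.right h)))) (And.left (And.right (And.right h))) hh0 (And.right (And.right (And.right (And.right (And.right h))))) (And.left (And.right (And.right (And.right (And.right h))))) hh1) |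 exact (hp v0 v1 v2 v3 y (And.left h) (And.left (And.right h)) hh3 y2 hh2 (And.left (And.right (And.right h))) (And.left (And.right (And.right (And.right h)))) hh0 (And.left (And.right (And.right (And.right (And.right h))))) (And.right (And.right (And.right (And.right (And.right h))))) hh1) | exact (hp v0 v1 v2 k y (And.left h) (And.left (And.right (And.right hk))) (SimpleGraph.Adj.symm h1) y2 hh2 (And.left (And.right (And.right h))) (And.left hk) hh0 (And.left (And.right (And.right (And.right (And.right h))))) (And.left (And.right hk)) hh1)))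

lemma clqK1 (hg : NoGem G) (hp : NoP23 G) (hc : NoC5 G) (h : C22 G v0 v1 v2 v3) {k k' : V}
    (hk : t01 G v0 v1 v2 v3 k) (hk' : t01 G v0 v1 v2 v3 k') (hkk : k ≠ k') : G.Adj k k' := by
  by_contra h2
  exact hp v2 v3 k v0 k' (And.left (And.right h)) (SimpleGraph.Adj.symm (And.left hk)) (And.left hk') hkk h2 (And.left (And.right (And.right hk))) (not_symm' (And.left (And.right (And.right h)))) (And.left (And.right (And.right hk'))) (And.right (And.right (And.right hk))) (not_symm' (And.left (And.right (And.right (And.right h))))) (And.right (And.right (And.right hk')))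

lemma clqK2 (hg : NoGem G) (hp : NoP23 G) (hc : NoC5 G) (h : C22 G v0 v1 v2 v3) {k k' : V}
    (hk : t23 G v0 v1 v2 v3 k) (hk' : t23 G v0 v1 v2 v3 k') (hkk : k ≠ k') : G.Adj k k' := by
  by_contra h2
  exact hp v0 v1 k v2 k' (And.left h) (SimpleGraph.Adj.symm (And.left (And.right (And.right hk)))) (And.left (And.right (And.right hk'))) hkk h2 (And.left hk) (And.left (And.right (And.right h))) (And.left hk') (And.left (And.right hk)) (And.left (And.right (And.right (And.right (And.right h))))) (And.left (And.right hk'))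


/-! ### symmetries -/

lemma s01 (h : C22 G v0 v1 v2 v3) : C22 G v1 v0 v2 v3 :=
  ⟨h.1.symm, h.2.1, h.2.2.2.2.1, h.2.2.2.2.2, h.2.2.1, h.2.2.2.1⟩

lemma s23 (h : C22 G v0 v1 v2 v3) : C22 G v0 v1 v3 v2 :=
  ⟨h.1, h.2.1.symm, h.2.2.2.1, h.2.2.1, h.2.2.2.2.2, h.2.2.2.2.1⟩

lemma sw (h : C22 G v0 v1 v2 v3) : C22 G v2 v3 v0 v1 :=
  ⟨h.2.1, h.1, fun h' => h.2.2.1 h'.symm, fun h' => h.2.2.2.2.1 h'.symm,
    fun h' => h.2.2.2.1 h'.symm, fun h' => h.2.2.2.2.2 h'.symm⟩

lemma RCfg.s01 {R : Finset V} (h : RCfg G v0 v1 v2 v3 R) : RCfg G v1 v0 v2 v3 R :=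
  ⟨fun x hx => ⟨(h.1 x hx).2.1, (h.1 x hx).1, (h.1 x hx).2.2⟩,
    fun x hx h2 h3 => (h.2 x hx h2 h3).symm⟩

lemma RCfg.s23 {R : Finset V} (h : RCfg G v0 v1 v2 v3 R) : RCfg G v0 v1 v3 v2 R :=
  ⟨fun x hx => ⟨(h.1 x hx).1, (h.1 x hx).2.1, (h.1 x hx).2.2.2, (h.1 x hx).2.2.1⟩,
    fun x hx h2 h3 => h.2 x hx h3 h2⟩

lemma prop_aux (r a b c d : Prop) (hr : r) (h1 : ¬ (a ∧ b ∧ ¬ c ∧ ¬ d)) (h2 : ¬ (¬ a ∧ ¬ b ∧ c ∧ d))
    (h03 : ¬ (a ∧ ¬ b ∧ ¬ c ∧ d)) (h12 : ¬ (¬ a ∧ b ∧ c ∧ ¬ d)) (hW : ¬ (a ∧ b ∧ c ∧ d))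
    (h23 : c → d → (a ↔ b)) (s0 : ¬ (a ∧ ¬ b ∧ ¬ c ∧ ¬ d)) (s1 : ¬ (¬ a ∧ b ∧ ¬ c ∧ ¬ d))
    (s2 : ¬ (¬ a ∧ ¬ b ∧ c ∧ ¬ d)) (s3 : ¬ (¬ a ∧ ¬ b ∧ ¬ c ∧ d)) :
    ((r ∧ a ∧ c ∧ ¬ d) ∨ (r ∧ b ∧ d ∧ ¬ c)) ∨ (r ∧ ¬ a ∧ ¬ b ∧ ¬ c ∧ ¬ d) := by
  by_cases ha : a <;> by_cases hb : b <;> by_cases hc : c <;> by_cases hd : d <;> simp_all

/-- the crossing case -/
lemma cross {M : ℕ → ℕ} (hM : ∀ (V : Type) (G : SimpleGraph V) (K : ℕ)
    (R C : Finset V), BD G K (R \ C) → BD G 1 C →
    (∀ x ∈ R, x ∉ C → ∀ c ∈ C, ∀ c' ∈ C, G.Adj x c → G.Adj x c') → BD G (M K) R) {KC : ℕ}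
    (hC : ∀ (V : Type) (G : SimpleGraph V), NoGem G → NoP23 G → NoC5 G →
    ∀ (v0 v1 v2 v3 : V), C22 G v0 v1 v2 v3 → ∀ (P Q A : Finset V),
    (∀ x ∈ P, G.Adj v0 x ∧ G.Adj v2 x ∧ ¬ G.Adj v3 x) →
    (∀ x ∈ Q, G.Adj v1 x ∧ G.Adj v3 x ∧ ¬ G.Adj v2 x) →
    (∀ x ∈ A, ¬ G.Adj v0 x ∧ ¬ G.Adj v1 x ∧ ¬ G.Adj v2 x ∧ ¬ G.Adj v3 x) →
    (∃ x ∈ P, ¬ G.Adj v1 x) → (∃ x ∈ Q, ¬ G.Adj v0 x) →
    BD G KC (P ∪ Q ∪ A))
    (hg : NoGem G) (hp : NoP23 G) (hc : NoC5 G) (h : C22 G v0 v1 v2 v3) {R : Finset V}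
    (hR : RCfg G v0 v1 v2 v3 R) (h03 : ∀ x ∈ R, ¬ t03 G v0 v1 v2 v3 x)
    (h12 : ∀ x ∈ R, ¬ t12 G v0 v1 v2 v3 x) (h02 : ∃ x ∈ R, t02 G v0 v1 v2 v3 x)
    (h02' : ∀ x ∈ R, t02 G v0 v1 v2 v3 x → ∃ y ∈ R, x ≠ y ∧ t02 G v0 v1 v2 v3 y)
    (h13 : ∃ x ∈ R, t13 G v0 v1 v2 v3 x) : BD G (M (M KC)) R := by
  obtain ⟨a, haR, ha⟩ := h02
  obtain ⟨b, hbR, hb⟩ := h13
  obtain ⟨a', haR', haa', ha'⟩ := h02' a haR ha
  have hW : ∀ x ∈ R, ¬ (G.Adj v0 x ∧ G.Adj v1 x ∧ G.Adj v2 x ∧ G.Adj v3 x) := fun x hx hw =>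
    w_empty hg hp hc h ha ha' hb hw.1 hw.2.1 hw.2.2.1 hw.2.2.2 haa'
  apply hM V G (M KC) R (R.filter (fun x => t01 G v0 v1 v2 v3 x))
  · apply hM V G KC _ (R.filter (fun x => t23 G v0 v1 v2 v3 x))
    · refine (hC V G hg hp hc v0 v1 v2 v3 h
        (R.filter (fun x => G.Adj v0 x ∧ G.Adj v2 x ∧ ¬ G.Adj v3 x))
        (R.filter (fun x => G.Adj v1 x ∧ G.Adj v3 x ∧ ¬ G.Adj v2 x))
        (R.filter (fun x => ¬ G.Adj v0 x ∧ ¬ G.Adj v1 x ∧ ¬ G.Adj v2 x ∧ ¬ G.Adj v3 x))
        (fun x hx => (mem_filter.1 hx).2) (fun x hx => (mem_filter.1 hx).2)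
        (fun x hx => (mem_filter.1 hx).2)
        ⟨a, mem_filter.2 ⟨haR, ha.1, ha.2.2.1, ha.2.2.2⟩, ha.2.1⟩
        ⟨b, mem_filter.2 ⟨hbR, hb.2.1, hb.2.2.2, hb.2.2.1⟩, hb.1⟩).sub ?_
      intro x hx
      simp only [mem_filter, mem_union]
      rw [mem_sdiff, mem_filter, mem_sdiff, mem_filter] at hx
      obtain ⟨⟨hxR, h1⟩, h2⟩ := hx
      have h1 : ¬ t01 G v0 v1 v2 v3 x := fun t => h1 ⟨hxR, t⟩
      have h2 : ¬ t23 G v0 v1 v2 v3 x := fun t => h2 ⟨hxR, t⟩
      have h03 := h03 x hxR
      have h12 := h12 x hxR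
      have hW := hW x hxR
      have h23 := hR.2 x hxR
      obtain ⟨x0, x1, x2, x3⟩ := hR.1 x hxR
      have hs0 : ¬ (G.Adj v0 x ∧ ¬ G.Adj v1 x ∧ ¬ G.Adj v2 x ∧ ¬ G.Adj v3 x) := by
        rintro ⟨hh0, hh1, hh2, hh3⟩
        clear h1 h2 h03 h12 hW h23 haR hbR haR' haa' ha' ha hb
        exact hp v2 v3 v1 v0 x (And.left (And.right h)) (SimpleGraph.Adj.symm (And.left h)) hh0 x1 hh1 (not_symm' (And.left (And.right (And.right (And.right (And.right h)))))) (not_symm' (And.left (And.right (And.right h)))) hh2 (not_symm' (And.right (And.right (And.right (And.right (And.right h)))))) (not_symm' (And.left (And.right (And.right (And.right h))))) hh3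
      have hs1 : ¬ (¬ G.Adj v0 x ∧ G.Adj v1 x ∧ ¬ G.Adj v2 x ∧ ¬ G.Adj v3 x) := by
        rintro ⟨hh0, hh1, hh2, hh3⟩
        clear h1 h2 h03 h12 hW h23 haR hbR haR' haa' ha' ha hb
        exact hp v2 v3 v0 v1 x (And.left (And.right h)) (And.left h) hh1 x0 hh0 (not_symm' (And.left (And.right (And.right h)))) (not_symm' (And.left (And.right (And.right (And.right (And.right h)))))) hh2 (not_symm' (And.left (And.right (And.right (And.right h))))) (not_symm' (And.right (And.right (And.right (And.right (And.right h)))))) hh3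
      have hs2 : ¬ (¬ G.Adj v0 x ∧ ¬ G.Adj v1 x ∧ G.Adj v2 x ∧ ¬ G.Adj v3 x) := by
        rintro ⟨hh0, hh1, hh2, hh3⟩
        clear h1 h2 h03 h12 hW h23 haR hbR haR' haa' ha' ha hb
        exact hp v0 v1 v3 v2 x (And.left h) (SimpleGraph.Adj.symm (And.left (And.right h))) hh2 x3 hh3 (And.left (And.right (And.right (And.right h)))) (And.left (And.right (And.right h))) hh0 (And.right (And.right (And.right (And.right (And.right h))))) (And.left (And.right (And.right (And.right (And.right h))))) hh1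
      have hs3 : ¬ (¬ G.Adj v0 x ∧ ¬ G.Adj v1 x ∧ ¬ G.Adj v2 x ∧ G.Adj v3 x) := by
        rintro ⟨hh0, hh1, hh2, hh3⟩
        clear h1 h2 h03 h12 hW h23 haR hbR haR' haa' ha' ha hb
        exact hp v0 v1 v2 v3 x (And.left h) (And.left (And.right h)) hh3 x2 hh2 (And.left (And.right (And.right h))) (And.left (And.right (And.right (And.right h)))) hh0 (And.left (And.right (And.right (And.right (And.right h))))) (And.right (And.right (And.right (And.right (And.right h))))) hh1
      exact prop_aux _ _ _ _ _ hxR h1 h2 h03 h12 hW h23 hs0 hs1 hs2 hs3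
    · apply BD.clq
      intro x hx y hy hxy
      exact clqK2 hg hp hc h (mem_filter.1 hx).2 (mem_filter.1 hy).2 hxy
    · intro x hx hx' c hc1 c' hc2 hxc
      rw [mem_filter] at hc1 hc2
      have hxR := (mem_sdiff.1 hx).1
      exact modK2 hg hp hc h hR h03 h12 hW ha hb hxR
        (fun t => hx' (mem_filter.2 ⟨hxR, t⟩)) hc1.2 hc2.2 hxc
  · apply BD.clq
    intro x hx y hy hxy
    exact clqK1 hg hp hc h (mem_filter.1 hx).2 (mem_filter.1 hy).2 hxy
  · intro x hx hx' c hc1 c' hc2 hxc
    rw [mem_filter] at hc1 hc2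
    exact modK1 hg hp hc h hR h03 h12 hW ha hb hx
      (fun t => hx' (mem_filter.2 ⟨hx, t⟩)) hc1.2 hc2.2 hxc


/-- `G₀ = G₁ = ∅`, every `E` type empty or with at least two elements -/
lemma stepA {M : ℕ → ℕ} (hM : ∀ (V : Type) (G : SimpleGraph V) (K : ℕ)
    (R C : Finset V), BD G K (R \ C) → BD G 1 C →
    (∀ x ∈ R, x ∉ C → ∀ c ∈ C, ∀ c' ∈ C, G.Adj x c → G.Adj x c') → BD G (M K) R) {KC KZ : ℕ}
    (hC : ∀ (V : Type) (G : SimpleGraph V), NoGem G → NoP23 G → NoC5 G →
    ∀ (v0 v1 v2 v3 : V), C22 G v0 v1 v2 v3 → ∀ (P Q A : Finset V),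
    (∀ x ∈ P, G.Adj v0 x ∧ G.Adj v2 x ∧ ¬ G.Adj v3 x) →
    (∀ x ∈ Q, G.Adj v1 x ∧ G.Adj v3 x ∧ ¬ G.Adj v2 x) →
    (∀ x ∈ A, ¬ G.Adj v0 x ∧ ¬ G.Adj v1 x ∧ ¬ G.Adj v2 x ∧ ¬ G.Adj v3 x) →
    (∃ x ∈ P, ¬ G.Adj v1 x) → (∃ x ∈ Q, ¬ G.Adj v0 x) →
    BD G KC (P ∪ Q ∪ A))
    (hZ : ∀ (V : Type) (G : SimpleGraph V), NoGem G → NoP23 G → NoC5 G → ∀ (v : V) (R : Finset V),
      Clus G (R.filter (fun x => ¬ G.Adj v x)) → BD G KZ R)
    (hg : NoGem G) (hp : NoP23 G) (hc : NoC5 G) (h : C22 G v0 v1 v2 v3) {R : Finset V}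
    (hR : RCfg G v0 v1 v2 v3 R)
    (h02' : ∀ x ∈ R, t02 G v0 v1 v2 v3 x → ∃ y ∈ R, x ≠ y ∧ t02 G v0 v1 v2 v3 y)
    (h03' : ∀ x ∈ R, t03 G v0 v1 v2 v3 x → ∃ y ∈ R, x ≠ y ∧ t03 G v0 v1 v2 v3 y)
    (h12' : ∀ x ∈ R, t12 G v0 v1 v2 v3 x → ∃ y ∈ R, x ≠ y ∧ t12 G v0 v1 v2 v3 y)
    (h13' : ∀ x ∈ R, t13 G v0 v1 v2 v3 x → ∃ y ∈ R, x ≠ y ∧ t13 G v0 v1 v2 v3 y) :
    BD G (max KZ (M (M KC))) R := by
  have c01 : ∀ x, t02 G v1 v0 v2 v3 x ↔ t12 G v0 v1 v2 v3 x := fun x =>
    ⟨fun t => ⟨t.2.1, t.1, t.2.2⟩, fun t => ⟨t.2.1, t.1, t.2.2⟩⟩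
  have c02 : ∀ x, t03 G v1 v0 v2 v3 x ↔ t13 G v0 v1 v2 v3 x := fun x =>
    ⟨fun t => ⟨t.2.1, t.1, t.2.2⟩, fun t => ⟨t.2.1, t.1, t.2.2⟩⟩
  have c03 : ∀ x, t12 G v1 v0 v2 v3 x ↔ t02 G v0 v1 v2 v3 x := fun x =>
    ⟨fun t => ⟨t.2.1, t.1, t.2.2⟩, fun t => ⟨t.2.1, t.1, t.2.2⟩⟩
  have c04 : ∀ x, t13 G v1 v0 v2 v3 x ↔ t03 G v0 v1 v2 v3 x := fun x =>
    ⟨fun t => ⟨t.2.1, t.1, t.2.2⟩, fun t => ⟨t.2.1, t.1, t.2.2⟩⟩
  have d01 : ∀ x, t02 G v0 v1 v3 v2 x ↔ t03 G v0 v1 v2 v3 x := fun x =>
    ⟨fun t => ⟨t.1, t.2.1, t.2.2.2, t.2.2.1⟩, fun t => ⟨t.1, t.2.1, t.2.2.2, t.2.2.1⟩⟩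
  have d02 : ∀ x, t03 G v0 v1 v3 v2 x ↔ t02 G v0 v1 v2 v3 x := fun x =>
    ⟨fun t => ⟨t.1, t.2.1, t.2.2.2, t.2.2.1⟩, fun t => ⟨t.1, t.2.1, t.2.2.2, t.2.2.1⟩⟩
  have d03 : ∀ x, t12 G v0 v1 v3 v2 x ↔ t13 G v0 v1 v2 v3 x := fun x =>
    ⟨fun t => ⟨t.1, t.2.1, t.2.2.2, t.2.2.1⟩, fun t => ⟨t.1, t.2.1, t.2.2.2, t.2.2.1⟩⟩
  have d04 : ∀ x, t13 G v0 v1 v3 v2 x ↔ t12 G v0 v1 v2 v3 x := fun x =>
    ⟨fun t => ⟨t.1, t.2.1, t.2.2.2, t.2.2.1⟩, fun t => ⟨t.1, t.2.1, t.2.2.2, t.2.2.1⟩⟩
  by_cases e02 : ∃ x ∈ R, t02 G v0 v1 v2 v3 x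
  · by_cases e12 : ∃ x ∈ R, t12 G v0 v1 v2 v3 x
    · -- `E₀₂, E₁₂`
      have n03 : ∀ x ∈ R, ¬ t03 G v0 v1 v2 v3 x := by
        intro z hz hz'
        obtain ⟨x, _, hx⟩ := e02
        obtain ⟨y, _, hy⟩ := e12
        obtain ⟨z', _, hzz', hz''⟩ := h03' z hz hz'
        exact triple hg hp hc h hx hy hz' hz'' hzz'
      have n13 : ∀ x ∈ R, ¬ t13 G v0 v1 v2 v3 x := by
        intro z hz hz'
        obtain ⟨x, _, hx⟩ := e02
        obtain ⟨y, _, hy⟩ := e12
        obtain ⟨z', _, hzz', hz''⟩ := h13' z hz hz'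
        exact triple hg hp hc (s01 h) ((c01 y).2 hy) ((c03 x).2 hx) ((c02 z).2 hz')
          ((c02 z').2 hz'') hzz'
      obtain ⟨x, _, hx⟩ := e02
      obtain ⟨y, _, hy⟩ := e12
      exact (hZ V G hg hp hc v2 R (clus2 hg hp hc h hR n03 n13 hx hy)).mono (le_max_left _ _)
    · have n12 : ∀ x ∈ R, ¬ t12 G v0 v1 v2 v3 x := fun x hx hx' => e12 ⟨x, hx, hx'⟩
      by_cases e13 : ∃ x ∈ R, t13 G v0 v1 v2 v3 x
      · -- `E₀₂, E₁₃`
        have n03 : ∀ x ∈ R, ¬ t03 G v0 v1 v2 v3 x := by
          intro z hz hz'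
          obtain ⟨x, hxR, hx⟩ := e02
          obtain ⟨y, _, hy⟩ := e13
          obtain ⟨x', _, hxx', hx'⟩ := h02' x hxR hx
          exact triple hg hp hc (s23 h) ((d01 z).2 hz') ((d03 y).2 hy) ((d02 x).2 hx)
            ((d02 x').2 hx') hxx'
        exact (cross hM hC hg hp hc h hR n03 n12 e02 h02' e13).mono (le_max_right _ _)
      · have n13 : ∀ x ∈ R, ¬ t13 G v0 v1 v2 v3 x := fun x hx hx' => e13 ⟨x, hx, hx'⟩
        exact (hZ V G hg hp hc v0 R (clus0 hg hp hc h hR n12 n13)).mono (le_max_left _ _)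
  · have n02 : ∀ x ∈ R, ¬ t02 G v0 v1 v2 v3 x := fun x hx hx' => e02 ⟨x, hx, hx'⟩
    by_cases e03 : ∃ x ∈ R, t03 G v0 v1 v2 v3 x
    · by_cases e13 : ∃ x ∈ R, t13 G v0 v1 v2 v3 x
      · -- `E₀₃, E₁₃`
        have n12 : ∀ x ∈ R, ¬ t12 G v0 v1 v2 v3 x := by
          intro z hz hz'
          obtain ⟨x, _, hx⟩ := e03
          obtain ⟨y, _, hy⟩ := e13
          obtain ⟨z', _, hzz', hz''⟩ := h12' z hz hz'
          have hx2 : t12 G v1 v0 v3 v2 x := ⟨hx.2.1, hx.1, hx.2.2.2, hx.2.2.1⟩
          have hy2 : t02 G v1 v0 v3 v2 y := ⟨hy.2.1, hy.1, hy.2.2.2, hy.2.2.1⟩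
          have hz2 : t03 G v1 v0 v3 v2 z := ⟨hz'.2.1, hz'.1, hz'.2.2.2, hz'.2.2.1⟩
          have hz3 : t03 G v1 v0 v3 v2 z' := ⟨hz''.2.1, hz''.1, hz''.2.2.2, hz''.2.2.1⟩
          exact triple hg hp hc (s01 (s23 h)) hy2 hx2 hz2 hz3 hzz'
        obtain ⟨x, _, hx⟩ := e03
        obtain ⟨y, _, hy⟩ := e13
        exact (hZ V G hg hp hc v3 R (clus2 hg hp hc (s23 h) hR.s23
          (fun x hx hx' => n02 x hx ((d02 x).1 hx')) (fun x hx hx' => n12 x hx ((d04 x).1 hx'))
          ((d01 x).2 hx) ((d03 y).2 hy))).mono (le_max_left _ _)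
      · have n13 : ∀ x ∈ R, ¬ t13 G v0 v1 v2 v3 x := fun x hx hx' => e13 ⟨x, hx, hx'⟩
        by_cases e12 : ∃ x ∈ R, t12 G v0 v1 v2 v3 x
        · -- `E₀₃, E₁₂`
          refine (cross hM hC hg hp hc (s01 h) hR.s01 (fun x hx hx' => n13 x hx ((c02 x).1 hx'))
            (fun x hx hx' => n02 x hx ((c03 x).1 hx')) ?_ ?_ ?_).mono (le_max_right _ _)
          · obtain ⟨x, hx, hx'⟩ := e12
            exact ⟨x, hx, (c01 x).2 hx'⟩
          · intro x hx hx'
            obtain ⟨y, hy, hxy, hy'⟩ := h12' x hx ((c01 x).1 hx')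
            exact ⟨y, hy, hxy, (c01 y).2 hy'⟩
          · obtain ⟨x, hx, hx'⟩ := e03
            exact ⟨x, hx, (c04 x).2 hx'⟩
        · have n12 : ∀ x ∈ R, ¬ t12 G v0 v1 v2 v3 x := fun x hx hx' => e12 ⟨x, hx, hx'⟩
          exact (hZ V G hg hp hc v0 R (clus0 hg hp hc h hR n12 n13)).mono (le_max_left _ _)
    · have n03 : ∀ x ∈ R, ¬ t03 G v0 v1 v2 v3 x := fun x hx hx' => e03 ⟨x, hx, hx'⟩
      exact (hZ V G hg hp hc v1 R (clus0 hg hp hc (s01 h) hR.s01
        (fun x hx hx' => n02 x hx ((c03 x).1 hx'))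
        (fun x hx hx' => n03 x hx ((c04 x).1 hx')))).mono (le_max_left _ _)


/-- data of the two bounds -/
structure Dat (M : ℕ → ℕ) (KC KZ : ℕ) : Prop where
  hM : ∀ (V : Type) (G : SimpleGraph V) (K : ℕ)
    (R C : Finset V), BD G K (R \ C) → BD G 1 C →
    (∀ x ∈ R, x ∉ C → ∀ c ∈ C, ∀ c' ∈ C, G.Adj x c → G.Adj x c') → BD G (M K) R
  hC : ∀ (V : Type) (G : SimpleGraph V), NoGem G → NoP23 G → NoC5 G →
    ∀ (v0 v1 v2 v3 : V), C22 G v0 v1 v2 v3 → ∀ (P Q A : Finset V),
    (∀ x ∈ P, G.Adj v0 x ∧ G.Adj v2 x ∧ ¬ G.Adj v3 x) →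
    (∀ x ∈ Q, G.Adj v1 x ∧ G.Adj v3 x ∧ ¬ G.Adj v2 x) →
    (∀ x ∈ A, ¬ G.Adj v0 x ∧ ¬ G.Adj v1 x ∧ ¬ G.Adj v2 x ∧ ¬ G.Adj v3 x) →
    (∃ x ∈ P, ¬ G.Adj v1 x) → (∃ x ∈ Q, ¬ G.Adj v0 x) →
    BD G KC (P ∪ Q ∪ A)
  hZ : ∀ (V : Type) (G : SimpleGraph V), NoGem G → NoP23 G → NoC5 G → ∀ (v : V) (R : Finset V),
      Clus G (R.filter (fun x => ¬ G.Adj v x)) → BD G KZ R

lemma stepB {M : ℕ → ℕ} {KC KZ : ℕ} (D : Dat M KC KZ)
    (hg : NoGem G) (hp : NoP23 G) (hc : NoC5 G) (h : C22 G v0 v1 v2 v3) {R : Finset V}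
    (hR : RCfg G v0 v1 v2 v3 R) : BD G ((max KZ (M (M KC)) + 1) * 2 ^ 4) R := by
  set X1 := R.filter (fun x => t02 G v0 v1 v2 v3 x ∧ ∀ y ∈ R, t02 G v0 v1 v2 v3 y → x = y) with hX1
  set X2 := R.filter (fun x => t03 G v0 v1 v2 v3 x ∧ ∀ y ∈ R, t03 G v0 v1 v2 v3 y → x = y) with hX2
  set X3 := R.filter (fun x => t12 G v0 v1 v2 v3 x ∧ ∀ y ∈ R, t12 G v0 v1 v2 v3 y → x = y) with hX3
  set X4 := R.filter (fun x => t13 G v0 v1 v2 v3 x ∧ ∀ y ∈ R, t13 G v0 v1 v2 v3 y → x = y) with hX4
  have k1 : X1.card ≤ 1 := by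
    rw [card_le_one]
    intro a ha b hb
    rw [hX1, mem_filter] at ha hb
    exact ha.2.2 b hb.1 hb.2.1
  have k2 : X2.card ≤ 1 := by
    rw [card_le_one]
    intro a ha b hb
    rw [hX2, mem_filter] at ha hb
    exact ha.2.2 b hb.1 hb.2.1
  have k3 : X3.card ≤ 1 := by
    rw [card_le_one]
    intro a ha b hb
    rw [hX3, mem_filter] at ha hb
    exact ha.2.2 b hb.1 hb.2.1
  have k4 : X4.card ≤ 1 := by
    rw [card_le_one]
    intro a ha b hb
    rw [hX4, mem_filter] at ha hb
    exact ha.2.2 b hb.1 hb.2.1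
  apply BD.of_sdiff (X := X1 ∪ X2 ∪ X3 ∪ X4)
  · have sub : ∀ x ∈ R \ (X1 ∪ X2 ∪ X3 ∪ X4), x ∈ R := fun x hx => (mem_sdiff.1 hx).1
    apply stepA D.hM D.hC D.hZ hg hp hc h
    · exact ⟨fun x hx => hR.1 x (sub x hx), fun x hx => hR.2 x (sub x hx)⟩
    · intro x hx hx'
      by_contra hcon
      push Not at hcon
      have hne : ¬ ∀ y ∈ R, t02 G v0 v1 v2 v3 y → x = y := by
        intro hall
        have : x ∈ X1 := by rw [hX1, mem_filter]; exact ⟨sub x hx, hx', hall⟩
        exact (mem_sdiff.1 hx).2 (by simp only [mem_union]; tauto)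
      push Not at hne
      obtain ⟨y, hy, hy', hxy⟩ := hne
      have hyX : y ∈ R \ (X1 ∪ X2 ∪ X3 ∪ X4) := by
        rw [mem_sdiff]
        refine ⟨hy, ?_⟩
        simp only [mem_union, hX1, hX2, hX3, hX4, mem_filter]
        rintro (((⟨_, _, h3⟩ | ⟨_, h2, _⟩) | ⟨_, h2, _⟩) | ⟨_, h2, _⟩)
        · exact hxy (h3 x (sub x hx) hx').symm
        · exact h2.2.2.1 hy'.2.2.1
        · exact h2.1 hy'.1
        · exact h2.1 hy'.1
      exact hcon y hyX hxy hy'
    · intro x hx hx'
      by_contra hcon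
      push Not at hcon
      have hne : ¬ ∀ y ∈ R, t03 G v0 v1 v2 v3 y → x = y := by
        intro hall
        have : x ∈ X2 := by rw [hX2, mem_filter]; exact ⟨sub x hx, hx', hall⟩
        exact (mem_sdiff.1 hx).2 (by simp only [mem_union]; tauto)
      push Not at hne
      obtain ⟨y, hy, hy', hxy⟩ := hne
      have hyX : y ∈ R \ (X1 ∪ X2 ∪ X3 ∪ X4) := by
        rw [mem_sdiff]
        refine ⟨hy, ?_⟩
        simp only [mem_union, hX1, hX2, hX3, hX4, mem_filter]
        rintro (((⟨_, h2, _⟩ | ⟨_, _, h3⟩) | ⟨_, h2, _⟩) | ⟨_, h2, _⟩)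
        · exact hy'.2.2.1 h2.2.2.1
        · exact hxy (h3 x (sub x hx) hx').symm
        · exact h2.1 hy'.1
        · exact h2.1 hy'.1
      exact hcon y hyX hxy hy'
    · intro x hx hx'
      by_contra hcon
      push Not at hcon
      have hne : ¬ ∀ y ∈ R, t12 G v0 v1 v2 v3 y → x = y := by
        intro hall
        have : x ∈ X3 := by rw [hX3, mem_filter]; exact ⟨sub x hx, hx', hall⟩
        exact (mem_sdiff.1 hx).2 (by simp only [mem_union]; tauto)
      push Not at hne
      obtain ⟨y, hy, hy', hxy⟩ := hne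
      have hyX : y ∈ R \ (X1 ∪ X2 ∪ X3 ∪ X4) := by
        rw [mem_sdiff]
        refine ⟨hy, ?_⟩
        simp only [mem_union, hX1, hX2, hX3, hX4, mem_filter]
        rintro (((⟨_, h2, _⟩ | ⟨_, h2, _⟩) | ⟨_, _, h3⟩) | ⟨_, h2, _⟩)
        · exact hy'.1 h2.1
        · exact hy'.1 h2.1
        · exact hxy (h3 x (sub x hx) hx').symm
        · exact h2.2.2.1 hy'.2.2.1
      exact hcon y hyX hxy hy'
    · intro x hx hx'
      by_contra hcon
      push Not at hcon
      have hne : ¬ ∀ y ∈ R, t13 G v0 v1 v2 v3 y → x = y := by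
        intro hall
        have : x ∈ X4 := by rw [hX4, mem_filter]; exact ⟨sub x hx, hx', hall⟩
        exact (mem_sdiff.1 hx).2 (by simp only [mem_union]; tauto)
      push Not at hne
      obtain ⟨y, hy, hy', hxy⟩ := hne
      have hyX : y ∈ R \ (X1 ∪ X2 ∪ X3 ∪ X4) := by
        rw [mem_sdiff]
        refine ⟨hy, ?_⟩
        simp only [mem_union, hX1, hX2, hX3, hX4, mem_filter]
        rintro (((⟨_, h2, _⟩ | ⟨_, h2, _⟩) | ⟨_, h2, _⟩) | ⟨_, _, h3⟩)
        · exact hy'.1 h2.1
        · exact hy'.1 h2.1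
        · exact hy'.2.2.1 h2.2.2.1
        · exact hxy (h3 x (sub x hx) hx').symm
      exact hcon y hyX hxy hy'
  · have a1 := card_union_le (X1 ∪ X2 ∪ X3) X4
    have a2 := card_union_le (X1 ∪ X2) X3
    have a3 := card_union_le X1 X2
    omega

lemma stepC {M : ℕ → ℕ} {KC KZ K2 : ℕ} (D : Dat M KC KZ) (hK2 : K2 = (max KZ (M (M KC)) + 1) * 2 ^ 4)
    (hg : NoGem G) (hp : NoP23 G) (hc : NoC5 G) (h : C22 G v0 v1 v2 v3) {R : Finset V}
    (hR : ∀ x ∈ R, v0 ≠ x ∧ v1 ≠ x ∧ v2 ≠ x ∧ v3 ≠ x) :
    BD G (max K2 (M (M (M (M K2))))) R := by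
  by_cases hG : ∃ g ∈ R, G.Adj v2 g ∧ G.Adj v3 g ∧
      ((G.Adj v0 g ∧ ¬ G.Adj v1 g) ∨ (¬ G.Adj v0 g ∧ G.Adj v1 g))
  · by_cases hF : ∃ f ∈ R, G.Adj v0 f ∧ G.Adj v1 f ∧
      ((G.Adj v2 f ∧ ¬ G.Adj v3 f) ∨ (¬ G.Adj v2 f ∧ G.Adj v3 f))
    · obtain ⟨g, hgR, g2, g3, g01⟩ := hG
      obtain ⟨f, hfR, f0, f1, f23⟩ := hF
      refine BD.mono ?_ (le_max_right _ _)
      -- remove the four modules
      apply D.hM V G _ R (R.filter (fun x => t012 G v0 v1 v2 v3 x))
      · apply D.hM V G _ _ (R.filter (fun x => t012 G v0 v1 v3 v2 x))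
        · apply D.hM V G _ _ (R.filter (fun x => t012 G v2 v3 v0 v1 x))
          · apply D.hM V G _ _ (R.filter (fun x => t012 G v2 v3 v1 v0 x))
            · rw [hK2]
              apply stepB D hg hp hc h
              refine ⟨?_, ?_⟩
              · intro x hx
                simp only [mem_sdiff] at hx
                exact hR x hx.1.1.1.1
              · intro x hx x2 x3
                rw [mem_sdiff, mem_sdiff, mem_sdiff, mem_sdiff] at hx
                obtain ⟨⟨⟨⟨hxR, h1⟩, h2⟩, h3⟩, h4⟩ := hx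
                constructor
                · intro x0
                  by_contra x1
                  exact h3 (mem_filter.2 ⟨hxR, x2, x3, x0, x1⟩)
                · intro x1
                  by_contra x0
                  exact h4 (mem_filter.2 ⟨hxR, x2, x3, x1, x0⟩)
            · apply BD.clq
              intro x hx y hy hxy
              exact clqF hg hp hc (s23 (sw h)) (mem_filter.1 hx).2 (mem_filter.1 hy).2 f1 f0 f23 hxy
            · intro x hx hx' c hc1 c' hc2 hxc
              simp only [mem_sdiff] at hx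
              obtain ⟨q0, q1, q2, q3⟩ := hR x hx.1.1.1
              exact modF hg hp hc (s23 (sw h)) (mem_filter.1 hc1).2 (mem_filter.1 hc2).2 f1 f0 f23
                (fun t => hx' (mem_filter.2 ⟨hx.1.1.1, t⟩)) q2 q3 q1 q0 hxc
          · apply BD.clq
            intro x hx y hy hxy
            exact clqF hg hp hc (sw h) (mem_filter.1 hx).2 (mem_filter.1 hy).2 f0 f1 f23 hxy
          · intro x hx hx' c hc1 c' hc2 hxc
            simp only [mem_sdiff] at hx
            obtain ⟨q0, q1, q2, q3⟩ := hR x hx.1.1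
            exact modF hg hp hc (sw h) (mem_filter.1 hc1).2 (mem_filter.1 hc2).2 f0 f1 f23
              (fun t => hx' (mem_filter.2 ⟨hx.1.1, t⟩)) q2 q3 q0 q1 hxc
        · apply BD.clq
          intro x hx y hy hxy
          exact clqF hg hp hc (s23 h) (mem_filter.1 hx).2 (mem_filter.1 hy).2 g3 g2 g01 hxy
        · intro x hx hx' c hc1 c' hc2 hxc
          simp only [mem_sdiff] at hx
          obtain ⟨q0, q1, q2, q3⟩ := hR x hx.1
          exact modF hg hp hc (s23 h) (mem_filter.1 hc1).2 (mem_filter.1 hc2).2 g3 g2 g01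
            (fun t => hx' (mem_filter.2 ⟨hx.1, t⟩)) q0 q1 q3 q2 hxc
      · apply BD.clq
        intro x hx y hy hxy
        exact clqF hg hp hc h (mem_filter.1 hx).2 (mem_filter.1 hy).2 g2 g3 g01 hxy
      · intro x hx hx' c hc1 c' hc2 hxc
        obtain ⟨q0, q1, q2, q3⟩ := hR x hx
        exact modF hg hp hc h (mem_filter.1 hc1).2 (mem_filter.1 hc2).2 g2 g3 g01
          (fun t => hx' (mem_filter.2 ⟨hx, t⟩)) q0 q1 q2 q3 hxc
    · refine BD.mono ?_ (le_max_left _ _)
      rw [hK2]
      apply stepB D hg hp hc (sw h)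
      refine ⟨fun x hx => ?_, fun x hx x0 x1 => ?_⟩
      · obtain ⟨q0, q1, q2, q3⟩ := hR x hx
        exact ⟨q2, q3, q0, q1⟩
      · constructor
        · intro x2
          by_contra x3
          exact hF ⟨x, hx, x0, x1, Or.inl ⟨x2, x3⟩⟩
        · intro x3
          by_contra x2
          exact hF ⟨x, hx, x0, x1, Or.inr ⟨x2, x3⟩⟩
  · refine BD.mono ?_ (le_max_left _ _)
    rw [hK2]
    apply stepB D hg hp hc h
    refine ⟨hR, fun x hx x2 x3 => ?_⟩
    constructor
    · intro x0
      by_contra x1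
      exact hG ⟨x, hx, x2, x3, Or.inl ⟨x0, x1⟩⟩
    · intro x1
      by_contra x0
      exact hG ⟨x, hx, x2, x3, Or.inr ⟨x0, x1⟩⟩

end Pool.Agent.H175G.N5

namespace Pool.Agent.H175G

open Finset Classical

theorem noc5_stmt (hA : AttachStmt) (hZp : ZpStmt) (hBase : BaseStmt) (hCr : CrossStmt) :
    NoC5Stmt := by
  obtain ⟨M, hM⟩ := N5.mod_of_attach hA
  obtain ⟨KZ, hZ⟩ := hZp
  obtain ⟨KB, hB⟩ := hBase
  obtain ⟨KC, hC⟩ := hCr
  have D : N5.Dat M KC KZ := ⟨hM, hC, hZ⟩
  obtain ⟨K2, hK2⟩ : ∃ K2, K2 = (max KZ (M (M KC)) + 1) * 2 ^ 4 := ⟨_, rfl⟩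
  refine ⟨max KB ((max K2 (M (M (M (M K2)))) + 1) * 2 ^ 4), ?_⟩
  intro V G hg hp hc R
  by_cases h2 : No2K2 G
  · exact (hB V G hg h2 hc R).mono (le_max_left _ _)
  · unfold No2K2 at h2
    push Not at h2
    obtain ⟨v0, v1, v2, v3, h01, h23, h02, h03, h12, h13, _⟩ := h2
    have h : C22 G v0 v1 v2 v3 := ⟨h01, h23, h02, h03, h12, h13⟩
    refine BD.mono ?_ (le_max_right _ _)
    apply BD.of_sdiff (X := {v0, v1, v2, v3})
    · apply N5.stepC D hK2 hg hp hc h
      intro x hx
      simp only [mem_sdiff, mem_insert, mem_singleton, not_or] at hx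
      exact ⟨Ne.symm hx.2.1, Ne.symm hx.2.2.1, Ne.symm hx.2.2.2.1, Ne.symm hx.2.2.2.2⟩
    · exact Finset.card_le_four

end Pool.Agent.H175G
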