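import Pool.Agent.H175F.Stmts2

/-! The case `N`, `D₀`, `D₁`. -/

namespace Pool.Agent.H488R2.CW

open Finset Classical
open Pool.Agent.H175G
open Pool.Agent.H175R2 (P4Free)

variable {V : Type} {G : SimpleGraph V}

/-- the combinatorial facts -/
structure Fct (G : SimpleGraph V) (N D0 D1 : Finset V) : Prop where
  hN : Ind G N
  c0 : Clus G D0
  c1 : Clus G D1
  dN0 : ∀ x ∈ N, x ∉ D0
  dN1 : ∀ x ∈ N, x ∉ D1
  d01 : ∀ x ∈ D0, x ∉ D1
  u0 : ∀ d ∈ D0, ∀ n ∈ N, ∀ n' ∈ N, G.Adj n d → G.Adj n' d → n = n'
  u1 : ∀ d ∈ D1, ∀ n ∈ N, ∀ n' ∈ N, G.Adj n d → G.Adj n' d → n = n'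
  p0 : ∀ n ∈ N, ∀ d ∈ D0, ∀ d' ∈ D0, G.Adj n d → G.Adj d d' → G.Adj n d'
  p1 : ∀ n ∈ N, ∀ d ∈ D1, ∀ d' ∈ D1, G.Adj n d → G.Adj d d' → G.Adj n d'
  q0 : ∀ n ∈ N, ∀ d ∈ D0, ∀ d' ∈ D0, G.Adj n d → G.Adj n d' → d ≠ d' → G.Adj d d'
  q1 : ∀ n ∈ N, ∀ d ∈ D1, ∀ d' ∈ D1, G.Adj n d → G.Adj n d' → d ≠ d' → G.Adj d d'
  m0 : ∀ x ∈ D0, ∀ y ∈ D1, ∀ y' ∈ D1, ¬ G.Adj x y → ¬ G.Adj x y' → y = y'
  m1 : ∀ x ∈ D0, ∀ x' ∈ D0, ∀ y ∈ D1, ¬ G.Adj x y → ¬ G.Adj x' y → x = x'
  l0 : ∀ x ∈ D0, ∀ y ∈ D1, ∀ n ∈ N, ¬ G.Adj x y → G.Adj n x → G.Adj n y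
  l1 : ∀ x ∈ D0, ∀ y ∈ D1, ∀ n ∈ N, ¬ G.Adj x y → G.Adj n y → G.Adj n x
  k : ∀ x ∈ D0, ∀ x' ∈ D0, ∀ y ∈ D1, ∀ y' ∈ D1, ¬ G.Adj x' y → G.Adj x x' → G.Adj y y' →
    ¬ G.Adj x y'

lemma fct_of {c0 c1 c2 c3 c4 : V} {N D0 D1 : Finset V} (hg : NoGem G) (hp : NoP23 G)
    (h : NDCfg G c0 c1 c2 c3 c4 N D0 D1 ∅ ∅ ∅) : Fct G N D0 D1 := by
  obtain ⟨hC, hN, h0, h1, -, -, -⟩ := h
  constructor
  · intro x hx y hy h
    have a := hN x hx
    have b := hN y hy
    exact hp x y c0 c1 c2 h (And.left hC) (And.left (And.right hC)) (Ne.symm (ne_of_wit (SimpleGraph.Adj.symm (And.left (And.right (And.right hC)))) (not_symm' (And.left (And.right (And.right (And.right (And.right (And.right (And.right hC)))))))))) (And.left (And.right (And.right (And.right (And.right (And.right hC)))))) (not_symm' (And.left a)) (not_symm' (And.left (And.right a))) (not_symm' (And.left (And.right (And.right a)))) (not_symm' (And.left b)) (not_symm' (And.left (And.right b))) (not_symm' (And.left (And.right (And.right b))))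
  · intro x hx y hy z hz hxy hyz hne
    have a := h0 x hx
    have b := h0 y hy
    have c := h0 z hz
    by_contra h
    exact hp c2 c3 x y z (And.left (And.right (And.right hC))) hxy hyz hne h (And.left (And.right (And.right a))) (And.left (And.right (And.right b))) (And.left (And.right (And.right c))) (And.left (And.right (And.right (And.right a)))) (And.left (And.right (And.right (And.right b)))) (And.left (And.right (And.right (And.right c))))
  · intro x hx y hy z hz hxy hyz hne
    have a := h1 x hx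
    have b := h1 y hy
    have c := h1 z hz
    by_contra h
    exact hp c3 c4 x y z (And.left (And.right (And.right (And.right hC)))) hxy hyz hne h (And.left (And.right (And.right a))) (And.left (And.right (And.right b))) (And.left (And.right (And.right c))) (And.left (And.right (And.right (And.right a)))) (And.left (And.right (And.right (And.right b)))) (And.left (And.right (And.right (And.right c))))
  · intro x hx hx'
    have a := hN x hx
    have b := h0 x hx'
    exact a.2.1 b.2.1
  · intro x hx hx'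
    have a := hN x hx
    have b := h1 x hx'
    exact a.2.2.1 b.2.1
  · intro x hx hx'
    have a := h0 x hx
    have b := h1 x hx'
    exact b.1 a.2.1
  · intro d hd n hn n' hn' h h'
    have a := h0 d hd
    have b := hN n hn
    have c := hN n' hn'
    by_contra hne
    exact hp c2 c3 n d n' (And.left (And.right (And.right hC))) h (SimpleGraph.Adj.symm h') hne (id fun (h : SimpleGraph.Adj G n n') => hp n n' c0 c1 c2 h (And.left hC) (And.left (And.right hC)) (Ne.symm (ne_of_wit (SimpleGraph.Adj.symm (And.left (And.right (And.right hC)))) (not_symm' (And.left (And.right (And.right (And.right (And.right (And.right (And.right hC)))))))))) (And.left (And.right (And.right (And.right (And.right (And.right hC)))))) (not_symm' (And.left b)) (not_symm' (And.left (And.right b))) (not_symm' (And.left (And.right (And.right b)))) (not_symm' (And.left c)) (not_symm' (And.left (And.right c))) (not_symm' (And.left (And.right (And.right c))))) (And.left (And.right (And.right b))) (And.left (And.right (And.right a)))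 (And.left (And.right (And.right c))) (And.left (And.right (And.right (And.right b)))) (And.left (And.right (And.right (And.right a)))) (And.left (And.right (And.right (And.right c))))
  · intro d hd n hn n' hn' h h'
    have a := h1 d hd
    have b := hN n hn
    have c := hN n' hn'
    by_contra hne
    exact hp c3 c4 n d n' (And.left (And.right (And.right (And.right hC)))) h (SimpleGraph.Adj.symm h') hne (id fun (h : SimpleGraph.Adj G n n') => hp n n' c0 c1 c2 h (And.left hC) (And.left (And.right hC)) (Ne.symm (ne_of_wit (SimpleGraph.Adj.symm (And.left (And.right (And.right hC)))) (not_symm' (And.left (And.right (And.right (And.right (And.right (And.right (And.right hC)))))))))) (And.left (And.right (And.right (And.right (And.right (And.right hC)))))) (not_symm' (And.left b)) (not_symm' (And.left (And.right b))) (not_symm' (And.left (And.right (And.right b)))) (not_symm' (And.left c)) (not_symm' (And.left (And.right c))) (not_symm' (And.left (And.right (And.right c))))) (And.left (And.right (And.right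 (And.right b)))) (And.left (And.right (And.right a))) (And.left (And.right (And.right (And.right c)))) (And.right (And.right (And.right (And.right b)))) (And.left (And.right (And.right (And.right a)))) (And.right (And.right (And.right (And.right c))))
  · intro n hn d hd d' hd' h h'
    have a := h0 d hd
    have b := h0 d' hd'
    have c := hN n hn
    have hne : n ≠ d' := by rintro rfl; tauto
    by_contra h''
    exact hp c2 c3 n d d' (And.left (And.right (And.right hC))) h h' hne h'' (And.left (And.right (And.right c))) (And.left (And.right (And.right a))) (And.left (And.right (And.right b))) (And.left (And.right (And.right (And.right c)))) (And.left (And.right (And.right (And.right a)))) (And.left (And.right (And.right (And.right b))))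
  · intro n hn d hd d' hd' h h'
    have a := h1 d hd
    have b := h1 d' hd'
    have c := hN n hn
    have hne : n ≠ d' := by rintro rfl; tauto
    by_contra h''
    exact hp c3 c4 n d d' (And.left (And.right (And.right (And.right hC)))) h h' hne h'' (And.left (And.right (And.right (And.right c)))) (And.left (And.right (And.right a))) (And.left (And.right (And.right b))) (And.right (And.right (And.right (And.right c)))) (And.left (And.right (And.right (And.right a)))) (And.left (And.right (And.right (And.right b))))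
  · intro n hn d hd d' hd' h h' hne
    have a := h0 d hd
    have b := h0 d' hd'
    have c := hN n hn
    by_contra h''
    exact hp c2 c3 d n d' (And.left (And.right (And.right hC))) (SimpleGraph.Adj.symm h) h' hne h'' (And.left (And.right (And.right a))) (And.left (And.right (And.right c))) (And.left (And.right (And.right b))) (And.left (And.right (And.right (And.right a)))) (And.left (And.right (And.right (And.right c)))) (And.left (And.right (And.right (And.right b))))
  · intro n hn d hd d' hd' h h' hne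
    have a := h1 d hd
    have b := h1 d' hd'
    have c := hN n hn
    by_contra h''
    exact hp c3 c4 d n d' (And.left (And.right (And.right (And.right hC)))) (SimpleGraph.Adj.symm h) h' hne h'' (And.left (And.right (And.right a))) (And.left (And.right (And.right (And.right c)))) (And.left (And.right (And.right b))) (And.left (And.right (And.right (And.right a)))) (And.right (And.right (And.right (And.right c)))) (And.left (And.right (And.right (And.right b))))
  · intro x hx y hy y' hy' h h'
    have a := h0 x hx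
    have b := h1 y hy
    have c := h1 y' hy'
    by_contra hne
    exact hp c4 x y c2 y' (And.left (And.right (And.right (And.right (And.right a))))) (SimpleGraph.Adj.symm (And.left (And.right b))) (And.left (And.right c)) hne (id fun (h_1 : SimpleGraph.Adj G y y') => hp y y' c1 x c4 h_1 (And.left (And.right a)) (SimpleGraph.Adj.symm (And.left (And.right (And.right (And.right (And.right a)))))) (ne_of_wit (SimpleGraph.Adj.symm (And.left (And.right hC))) (And.right (And.right (And.right (And.right (And.right (And.right (And.right (And.right (And.right hC)))))))))) (And.left (And.right (And.right (And.right (And.right (And.right (And.right (And.right (And.right hC))))))))) (not_symm' (And.left b)) (not_symm' h) (not_symm' (And.left (And.right (And.right (And.right b))))) (not_symm' (And.left c)) (not_symm' h') (not_symm' (And.left (And.right (And.right (And.right c)))))) (And.left (And.right (And.right (And.right b)))) (not_symm' (And.right (And.right (And.right (And.right (And.right (And.right (And.right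 (And.right (And.right hC)))))))))) (And.left (And.right (And.right (And.right c)))) h (not_symm' (And.left (And.right (And.right a)))) h'
  · intro x hx x' hx' y hy h h'
    have a := h0 x hx
    have b := h0 x' hx'
    have c := h1 y hy
    by_contra hne
    exact hp c2 y x c4 x' (And.left (And.right c)) (SimpleGraph.Adj.symm (And.left (And.right (And.right (And.right (And.right a)))))) (And.left (And.right (And.right (And.right (And.right b))))) hne (id fun (h_1 : SimpleGraph.Adj G x x') => hp x x' c0 y c2 h_1 (And.left (And.right (And.right (And.right (And.right c))))) (SimpleGraph.Adj.symm (And.left (And.right c))) (Ne.symm (ne_of_wit (SimpleGraph.Adj.symm (And.left (And.right (And.right hC)))) (not_symm' (And.left (And.right (And.right (And.right (And.right (And.right (And.right hC)))))))))) (And.left (And.right (And.right (And.right (And.right (And.right hC)))))) (not_symm' (And.left a)) h (not_symm' (And.left (And.right (And.right a)))) (not_symm' (And.left b)) h' (not_symm' (And.left (And.right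 (And.right b))))) (And.left (And.right (And.right a))) (And.right (And.right (And.right (And.right (And.right (And.right (And.right (And.right (And.right hC))))))))) (And.left (And.right (And.right b))) (not_symm' h) (not_symm' (And.left (And.right (And.right (And.right c))))) (not_symm' h')
  · intro x hx y hy n hn h h'
    have a := h0 x hx
    have b := h1 y hy
    have c := hN n hn
    have hne : n ≠ y := by rintro rfl; tauto
    by_contra h''
    exact hp x n c0 y c2 (SimpleGraph.Adj.symm h') (And.left (And.right (And.right (And.right (And.right b))))) (SimpleGraph.Adj.symm (And.left (And.right b))) (Ne.symm (ne_of_wit (SimpleGraph.Adj.symm (And.left (And.right (And.right hC)))) (not_symm' (And.left (And.right (And.right (And.right (And.right (And.right (And.right hC)))))))))) (And.left (And.right (And.right (And.right (And.right (And.right hC)))))) (not_symm' (And.left a)) h (not_symm' (And.left (And.right (And.right a)))) (not_symm' (And.left c)) h'' (not_symm' (And.left (And.right (And.right c))))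
  · intro x hx y hy n hn h h'
    have a := h0 x hx
    have b := h1 y hy
    have c := hN n hn
    have hne : n ≠ x := by rintro rfl; tauto
    by_contra h''
    exact hp y n c1 x c4 (SimpleGraph.Adj.symm h') (And.left (And.right a)) (SimpleGraph.Adj.symm (And.left (And.right (And.right (And.right (And.right a)))))) (ne_of_wit (SimpleGraph.Adj.symm (And.left (And.right hC))) (And.right (And.right (And.right (And.right (And.right (And.right (And.right (And.right (And.right hC)))))))))) (And.left (And.right (And.right (And.right (And.right (And.right (And.right (And.right (And.right hC))))))))) (not_symm' (And.left b)) (not_symm' h) (not_symm' (And.left (And.right (And.right (And.right b))))) (not_symm' (And.left (And.right c))) h'' (not_symm' (And.right (And.right (And.right (And.right c)))))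
  · intro x hx x' hx' y hy y' hy' h h' h'' h'''
    have a := h0 x hx
    have b := h0 x' hx'
    have c := h1 y hy
    have d := h1 y' hy'
    have hne : x ≠ x' := G.ne_of_adj h'
    have hne' : y ≠ y' := G.ne_of_adj h''
    exact hp x x' c0 y c2 h' (And.left (And.right (And.right (And.right (And.right c))))) (SimpleGraph.Adj.symm (And.left (And.right c))) (Ne.symm (ne_of_wit (SimpleGraph.Adj.symm (And.left (And.right (And.right hC)))) (not_symm' (And.left (And.right (And.right (And.right (And.right (And.right (And.right hC)))))))))) (And.left (And.right (And.right (And.right (And.right (And.right hC)))))) (not_symm' (And.left a)) (not_symm' (id fun (h_1 : SimpleGraph.Adj G y x) => hg c0 y x x' y' (SimpleGraph.Adj.symm (And.left (And.right (And.right (And.right (And.right d)))))) (SimpleGraph.Adj.symm h'') (SimpleGraph.Adj.symm h''') (SimpleGraph.Adj.symm (byContradiction fun (h_2 : ¬SimpleGraph.Adj G x' y') => hp y' y c1 x' c4 (SimpleGraph.Adj.symm h'') (And.left (And.right b)) (SimpleGraph.Adj.symm (And.left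 (And.right (And.right (And.right (And.right b)))))) (ne_of_wit (SimpleGraph.Adj.symm (And.left (And.right hC))) (And.right (And.right (And.right (And.right (And.right (And.right (And.right (And.right (And.right hC)))))))))) (And.left (And.right (And.right (And.right (And.right (And.right (And.right (And.right (And.right hC))))))))) (not_symm' (And.left d)) (not_symm' h_2) (not_symm' (And.left (And.right (And.right (And.right d))))) (not_symm' (And.left c)) (not_symm' h) (not_symm' (And.left (And.right (And.right (And.right c))))))) (And.left (And.right (And.right (And.right (And.right c))))) h_1 h' (And.left a) (not_symm' h) (And.left b))) (not_symm' (And.left (And.right (And.right a)))) (not_symm' (And.left b)) h (not_symm' (And.left (And.right (And.right b))))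


/-- non-isolated in its part -/
def NI (G : SimpleGraph V) (D : Finset V) (x : V) : Prop := ∃ y ∈ D, G.Adj x y

/-- closed neighbourhood in the part -/
noncomputable def comp (G : SimpleGraph V) (D : Finset V) (x : V) : Finset V :=
  D.filter (fun y => y = x ∨ G.Adj x y)

/-- block of an `N`-free vertex of `D₀` -/
noncomputable def b0 (G : SimpleGraph V) (D0 D1 : Finset V) (x : V) : Finset V :=
  if ∃ y ∈ D1, ¬ G.Adj x y ∧ NI G D1 y then comp G D0 x else {x}

/-- block of an `N`-free vertex of `D₁` -/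
noncomputable def b1 (G : SimpleGraph V) (D0 D1 : Finset V) (y : V) : Finset V :=
  if h : ∃ x ∈ D0, ¬ G.Adj x y then (if NI G D1 y then comp G D0 h.choose else {h.choose}) else {y}

/-- block -/
noncomputable def bb (G : SimpleGraph V) (N D0 D1 : Finset V) (v : V) : Finset V :=
  if v ∈ N then {v} else if (nb G N v).Nonempty then nb G N v else
    if v ∈ D0 then b0 G D0 D1 v else b1 G D0 D1 v

section
variable {N D0 D1 : Finset V} (F : Fct G N D0 D1)
include F

lemma bN {v : V} (h : v ∈ N) : bb G N D0 D1 v = {v} := by simp [bb, h]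

lemma bnb {v n : V} (h : v ∈ D0 ∨ v ∈ D1) (hn : n ∈ N) (hnv : G.Adj n v) :
    bb G N D0 D1 v = {n} := by
  have h0 : v ∉ N := by
    intro h'
    rcases h with h | h
    · exact F.dN0 v h' h
    · exact F.dN1 v h' h
  have h1 : nb G N v = {n} := by
    ext z
    rw [mem_nb, mem_singleton]
    constructor
    · rintro ⟨hz, hz'⟩
      rcases h with h | h
      · exact F.u0 v h z hz n hn hz'.symm hnv
      · exact F.u1 v h z hz n hn hz'.symm hnv
    · rintro rfl; exact ⟨hn, hnv.symm⟩
  rw [bb, if_neg h0, if_pos (by rw [h1]; simp), h1]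

lemma bD0 {v : V} (h : v ∈ D0) (hn : ∀ n ∈ N, ¬ G.Adj n v) : bb G N D0 D1 v = b0 G D0 D1 v := by
  have h1 : ¬ (nb G N v).Nonempty := by
    rintro ⟨z, hz⟩
    rw [mem_nb] at hz
    exact hn z hz.1 hz.2.symm
  rw [bb, if_neg (fun h' => F.dN0 v h' h), if_neg h1, if_pos h]

lemma bD1 {v : V} (h : v ∈ D1) (hn : ∀ n ∈ N, ¬ G.Adj n v) : bb G N D0 D1 v = b1 G D0 D1 v := by
  have h1 : ¬ (nb G N v).Nonempty := by
    rintro ⟨z, hz⟩
    rw [mem_nb] at hz
    exact hn z hz.1 hz.2.symm
  rw [bb, if_neg (fun h' => F.dN1 v h' h), if_neg h1, if_neg (fun h' => F.d01 v h' h)]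

/-- the block of a vertex of `D₁` linked to `x` -/
lemma b1_of {x y : V} (hx : x ∈ D0) (hy : y ∈ D1) (h : ¬ G.Adj x y) :
    b1 G D0 D1 y = if NI G D1 y then comp G D0 x else {x} := by
  have h' : ∃ x ∈ D0, ¬ G.Adj x y := ⟨x, hx, h⟩
  have e : h'.choose = x := F.m1 _ h'.choose_spec.1 _ hx y hy h'.choose_spec.2 h
  rw [b1, dif_pos h', e]

lemma b1_no {y : V} (h : ∀ x ∈ D0, G.Adj x y) : b1 G D0 D1 y = {y} := by
  have h' : ¬ ∃ x ∈ D0, ¬ G.Adj x y := by
    rintro ⟨x, hx, hxy⟩; exact hxy (h x hx)
  rw [b1, dif_neg h']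

lemma b0_of {x y : V} (hx : x ∈ D0) (hy : y ∈ D1) (h : ¬ G.Adj x y) :
    b0 G D0 D1 x = if NI G D1 y then comp G D0 x else {x} := by
  by_cases hi : NI G D1 y
  · rw [b0, if_pos ⟨y, hy, h, hi⟩, if_pos hi]
  · rw [b0, if_neg, if_neg hi]
    rintro ⟨y', hy', h', hi'⟩
    rw [F.m0 x hx y' hy' y hy h' h] at hi'
    exact hi hi'

lemma self_mem_comp {x : V} (hx : x ∈ D0) : x ∈ comp G D0 x := by simp [comp, hx]

lemma self_mem_b0 {x : V} (hx : x ∈ D0) : x ∈ b0 G D0 D1 x := by
  rw [b0]; split_ifs
  · exact self_mem_comp F hx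
  · simp

lemma b0_sub {x z : V} (hz : z ∈ b0 G D0 D1 x) : z = x ∨ (G.Adj x z ∧ ∃ y ∈ D1, ¬ G.Adj x y ∧ NI G D1 y) := by
  rw [b0] at hz; split_ifs at hz with h
  · simp only [comp, mem_filter] at hz
    exact hz.2.imp id (fun h' => ⟨h', h⟩)
  · left; simpa using hz

lemma b0_sub' {x : V} (hx : x ∈ D0) : b0 G D0 D1 x ⊆ D0 := by
  rw [b0]; split_ifs with h
  · exact filter_subset _ _
  · simpa using hx

lemma comp_eq {x x' : V} (hx : x ∈ D0) (hx' : x' ∈ D0) (h : G.Adj x x') :
    comp G D0 x = comp G D0 x' := by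
  ext z
  simp only [comp, mem_filter, and_congr_right_iff]
  intro hz
  constructor
  · rintro (rfl | h1)
    · exact Or.inr h.symm
    · by_cases he : z = x'
      · exact Or.inl he
      · exact Or.inr (F.c0 x' hx' x hx z hz h.symm h1 (Ne.symm he))
  · rintro (rfl | h1)
    · exact Or.inr h
    · by_cases he : z = x
      · exact Or.inl he
      · exact Or.inr (F.c0 x hx x' hx' z hz h h1 (Ne.symm he))

/-- blocks of linked vertices agree -/
lemma b_link {x y : V} (hx : x ∈ D0) (hy : y ∈ D1) (h : ¬ G.Adj x y) :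
    bb G N D0 D1 x = bb G N D0 D1 y := by
  by_cases hn : ∃ n ∈ N, G.Adj n x
  · obtain ⟨n, hn, hnx⟩ := hn
    rw [bnb F (Or.inl hx) hn hnx, bnb F (Or.inr hy) hn (F.l0 x hx y hy n hn h hnx)]
  · push Not at hn
    have hn' : ∀ n ∈ N, ¬ G.Adj n y := fun n hn1 h' => hn n hn1 (F.l1 x hx y hy n hn1 h h')
    rw [bD0 F hx hn, bD1 F hy hn', b1_of F hx hy h, b0_of F hx hy h]

/-- adjacent vertices of `D₀`, one of them in a nontrivial block -/
lemma b_adj0 {x x' : V} (hx : x ∈ D0) (hx' : x' ∈ D0) (h : G.Adj x x')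
    (hW : (∃ n ∈ N, G.Adj n x) ∨ ∃ y ∈ D1, ¬ G.Adj x y ∧ NI G D1 y) :
    bb G N D0 D1 x = bb G N D0 D1 x' := by
  by_cases hn : ∃ n ∈ N, G.Adj n x
  · obtain ⟨n, hn, hnx⟩ := hn
    rw [bnb F (Or.inl hx) hn hnx, bnb F (Or.inl hx') hn (F.p0 n hn x hx x' hx' hnx h)]
  · obtain ⟨y, hy, hxy, y', hy', hyy⟩ := hW.resolve_left hn
    push Not at hn
    have hn' : ∀ n ∈ N, ¬ G.Adj n x' := fun n hn1 h' => hn n hn1 (F.p0 n hn1 x' hx' x hx h' h.symm)
    have h2 : ¬ G.Adj x' y' := F.k x' hx' x hx y hy y' hy' hxy h.symm hyy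
    rw [bD0 F hx hn, bD0 F hx' hn', b0_of F hx hy hxy, b0_of F hx' hy' h2, if_pos ⟨y', hy', hyy⟩,
      if_pos ⟨y, hy, hyy.symm⟩, comp_eq F hx hx' h]

/-- adjacent vertices of `D₁`, one of them in a nontrivial block -/
lemma b_adj1 {y y' : V} (hy : y ∈ D1) (hy' : y' ∈ D1) (h : G.Adj y y')
    (hW : (∃ n ∈ N, G.Adj n y) ∨ ∃ x ∈ D0, ¬ G.Adj x y ∧ NI G D0 x) :
    bb G N D0 D1 y = bb G N D0 D1 y' := by
  by_cases hn : ∃ n ∈ N, G.Adj n y
  · obtain ⟨n, hn, hnx⟩ := hn
    rw [bnb F (Or.inr hy) hn hnx, bnb F (Or.inr hy') hn (F.p1 n hn y hy y' hy' hnx h)]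
  · obtain ⟨x, hx, hxy, x', hx', hxx⟩ := hW.resolve_left hn
    push Not at hn
    have hn' : ∀ n ∈ N, ¬ G.Adj n y' := fun n hn1 h' => hn n hn1 (F.p1 n hn1 y' hy' y hy h' h.symm)
    have h2 : ¬ G.Adj x' y' := F.k x' hx' x hx y hy y' hy' hxy hxx.symm h
    rw [bD1 F hy hn, bD1 F hy' hn', b1_of F hx hy hxy, b1_of F hx' hy' h2, if_pos ⟨y', hy', h⟩,
      if_pos ⟨y, hy, h.symm⟩, comp_eq F hx hx' hxx]

lemma bb_sub0 {x : V} (hx : x ∈ D0) (hn : ∀ n ∈ N, ¬ G.Adj n x) : bb G N D0 D1 x ⊆ D0 := by
  rw [bD0 F hx hn]; exact b0_sub' F hx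

/-- in a block: `D₀` -/
lemma same0 {x x' : V} (hx : x ∈ D0) (hx' : x' ∈ D0) (h : bb G N D0 D1 x = bb G N D0 D1 x')
    (hne : x ≠ x') : G.Adj x x' ∧ ((∃ n ∈ N, G.Adj n x) ∨ ∃ y ∈ D1, ¬ G.Adj x y ∧ NI G D1 y) := by
  by_cases hn : ∃ n ∈ N, G.Adj n x
  · obtain ⟨n, hn, hnx⟩ := hn
    by_cases hn' : ∃ n ∈ N, G.Adj n x'
    · obtain ⟨n', hn', hnx'⟩ := hn'
      rw [bnb F (Or.inl hx) hn hnx, bnb F (Or.inl hx') hn' hnx', singleton_inj] at h
      subst h
      exact ⟨F.q0 n hn x hx x' hx' hnx hnx' hne, Or.inl ⟨n, hn, hnx⟩⟩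
    · push Not at hn'
      have h1 := bb_sub0 F hx' hn'
      rw [← h, bnb F (Or.inl hx) hn hnx] at h1
      exact absurd (h1 (mem_singleton_self n)) (F.dN0 n hn)
  · push Not at hn
    by_cases hn' : ∃ n ∈ N, G.Adj n x'
    · obtain ⟨n, hn1, hnx⟩ := hn'
      have h1 := bb_sub0 F hx hn
      rw [h, bnb F (Or.inl hx') hn1 hnx] at h1
      exact absurd (h1 (mem_singleton_self n)) (F.dN0 n hn1)
    · push Not at hn'
      rw [bD0 F hx hn, bD0 F hx' hn'] at h
      have h1 := self_mem_b0 F hx'
      rw [← h] at h1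
      rcases b0_sub F h1 with h2 | h2
      · exact absurd h2.symm hne
      · exact ⟨h2.1, Or.inr h2.2⟩

/-- in a block: `D₁` -/
lemma same1 {y y' : V} (hy : y ∈ D1) (hy' : y' ∈ D1) (h : bb G N D0 D1 y = bb G N D0 D1 y')
    (hne : y ≠ y') : G.Adj y y' ∧ ((∃ n ∈ N, G.Adj n y) ∨ ∃ x ∈ D0, ¬ G.Adj x y ∧ NI G D0 x) := by
  have key : ∀ y ∈ D1, (∀ n ∈ N, ¬ G.Adj n y) → ∀ n ∈ N, bb G N D0 D1 y ≠ {n} := by
    intro y hy hn n hn1 he
    rw [bD1 F hy hn] at he
    by_cases hl : ∃ x ∈ D0, ¬ G.Adj x y
    · obtain ⟨x, hx, hxy⟩ := hl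
      rw [b1_of F hx hy hxy] at he
      have h1 : x ∈ ({n} : Finset V) := by
        rw [← he]; split_ifs
        · exact self_mem_comp F hx
        · simp
      rw [mem_singleton] at h1
      exact F.dN0 n hn1 (h1 ▸ hx)
    · push Not at hl
      rw [b1_no F hl, singleton_inj] at he
      exact F.dN1 n hn1 (he ▸ hy)
  by_cases hn : ∃ n ∈ N, G.Adj n y
  · obtain ⟨n, hn, hnx⟩ := hn
    by_cases hn' : ∃ n ∈ N, G.Adj n y'
    · obtain ⟨n', hn', hnx'⟩ := hn'
      rw [bnb F (Or.inr hy) hn hnx, bnb F (Or.inr hy') hn' hnx', singleton_inj] at h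
      subst h
      exact ⟨F.q1 n hn y hy y' hy' hnx hnx' hne, Or.inl ⟨n, hn, hnx⟩⟩
    · push Not at hn'
      rw [bnb F (Or.inr hy) hn hnx] at h
      exact absurd h.symm (key y' hy' hn' n hn)
  · push Not at hn
    by_cases hn' : ∃ n ∈ N, G.Adj n y'
    · obtain ⟨n, hn1, hnx⟩ := hn'
      rw [bnb F (Or.inr hy') hn1 hnx] at h
      exact absurd h (key y hy hn n hn1)
    · push Not at hn'
      rw [bD1 F hy hn, bD1 F hy' hn'] at h
      by_cases hl : ∃ x ∈ D0, ¬ G.Adj x y
      · obtain ⟨x, hx, hxy⟩ := hl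
        by_cases hl' : ∃ x ∈ D0, ¬ G.Adj x y'
        · obtain ⟨x', hx', hxy'⟩ := hl'
          have hxx : x ≠ x' := by
            rintro rfl; exact hne (F.m0 x hx y hy y' hy' hxy hxy')
          rw [b1_of F hx hy hxy, b1_of F hx' hy' hxy'] at h
          have h1 : x ∈ (if NI G D1 y' then comp G D0 x' else {x'}) := by
            rw [← h]; split_ifs
            · exact self_mem_comp F hx
            · simp
          split_ifs at h1 with h2
          · simp only [comp, mem_filter] at h1
            have h3 : G.Adj x' x := h1.2.resolve_left hxx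
            obtain ⟨z, hz, hyz⟩ := h2
            have h4 : ¬ G.Adj x z := F.k x hx x' hx' y' hy' z hz hxy' h3.symm hyz
            have h5 : y = z := F.m0 x hx y hy z hz hxy h4
            subst h5
            exact ⟨hyz.symm, Or.inr ⟨x, hx, hxy, x', hx', h3.symm⟩⟩
          · rw [mem_singleton] at h1; exact absurd h1 hxx
        · push Not at hl'
          exfalso
          rw [b1_of F hx hy hxy, b1_no F hl'] at h
          have h1 : x ∈ ({y'} : Finset V) := by
            rw [← h]; split_ifs
            · exact self_mem_comp F hx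
            · simp
          rw [mem_singleton] at h1
          exact F.d01 x hx (h1 ▸ hy')
      · push Not at hl
        exfalso
        rw [b1_no F hl] at h
        by_cases hl' : ∃ x ∈ D0, ¬ G.Adj x y'
        · obtain ⟨x', hx', hxy'⟩ := hl'
          rw [b1_of F hx' hy' hxy'] at h
          have h1 : x' ∈ ({y} : Finset V) := by
            rw [h]; split_ifs
            · exact self_mem_comp F hx'
            · simp
          rw [mem_singleton] at h1
          exact F.d01 x' hx' (h1 ▸ hy)
        · push Not at hl'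
          rw [b1_no F hl', singleton_inj] at h
          exact hne h

/-- in a block: `N` and `D₀ ∪ D₁` -/
lemma sameN {n d : V} (hn : n ∈ N) (hd : d ∈ D0 ∨ d ∈ D1) (h : bb G N D0 D1 n = bb G N D0 D1 d) :
    G.Adj n d := by
  rw [bN F hn] at h
  by_cases hn' : ∃ n ∈ N, G.Adj n d
  · obtain ⟨n', hn', hnx'⟩ := hn'
    rw [bnb F hd hn' hnx', singleton_inj] at h
    rw [h]; exact hnx'
  · exfalso
    push Not at hn'
    rcases hd with hd | hd
    · have := bb_sub0 F hd hn'
      rw [← h] at this
      exact F.dN0 n hn (this (mem_singleton_self n))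
    · rw [bD1 F hd hn'] at h
      by_cases hl : ∃ x ∈ D0, ¬ G.Adj x d
      · obtain ⟨x, hx, hxy⟩ := hl
        rw [b1_of F hx hd hxy] at h
        have h1 : x ∈ ({n} : Finset V) := by
          rw [h]; split_ifs
          · exact self_mem_comp F hx
          · simp
        rw [mem_singleton] at h1
        exact F.dN0 n hn (h1 ▸ hx)
      · push Not at hl
        rw [b1_no F hl, singleton_inj] at h
        exact F.dN1 n hn (h ▸ hd)

end

/-- label -/
noncomputable def lb (N D0 : Finset V) (v : V) : Fin 3 := if v ∈ N then 0 else if v ∈ D0 then 1 else 2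

/-- adjacency of labels -/
def FF (a b : Fin 3) : Prop := (a = 1 ∧ b = 2) ∨ (a = 2 ∧ b = 1)

noncomputable def W0 (G : SimpleGraph V) (N D0 D1 : Finset V) : Finset V :=
  D0.filter (fun x => (∃ n ∈ N, G.Adj n x) ∨ ∃ y ∈ D1, ¬ G.Adj x y ∧ NI G D1 y)

noncomputable def W1 (G : SimpleGraph V) (N D0 D1 : Finset V) : Finset V :=
  D1.filter (fun y => (∃ n ∈ N, G.Adj n y) ∨ ∃ x ∈ D0, ¬ G.Adj x y ∧ (¬ NI G D1 y ∨ NI G D0 x))

noncomputable def VV (G : SimpleGraph V) (N D0 D1 : Finset V) : Finset V :=
  N ∪ (D0 \ W0 G N D0 D1) ∪ (D1 \ W1 G N D0 D1)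

lemma mem_VV {N D0 D1 : Finset V} {x : V} : x ∈ VV G N D0 D1 ↔
    x ∈ N ∨ (x ∈ D0 ∧ (∀ n ∈ N, ¬ G.Adj n x) ∧ ∀ y ∈ D1, ¬ G.Adj x y → ¬ NI G D1 y) ∨
    (x ∈ D1 ∧ (∀ n ∈ N, ¬ G.Adj n x) ∧ ∀ y ∈ D0, ¬ G.Adj y x → (NI G D1 x ∧ ¬ NI G D0 y)) := by
  simp only [VV, W0, W1, mem_union, mem_sdiff, mem_filter]
  constructor
  · rintro ((h | ⟨h1, h2⟩) | ⟨h1, h2⟩)
    · exact Or.inl h
    · refine Or.inr (Or.inl ⟨h1, fun n hn h => h2 ⟨h1, Or.inl ⟨n, hn, h⟩⟩, fun y hy h h' =>
        h2 ⟨h1, Or.inr ⟨y, hy, h, h'⟩⟩⟩)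
    · refine Or.inr (Or.inr ⟨h1, fun n hn h => h2 ⟨h1, Or.inl ⟨n, hn, h⟩⟩, fun y hy h => ?_⟩)
      by_contra hc
      exact h2 ⟨h1, Or.inr ⟨y, hy, h, by tauto⟩⟩
  · rintro (h | ⟨h1, h2, h3⟩ | ⟨h1, h2, h3⟩)
    · exact Or.inl (Or.inl h)
    · refine Or.inl (Or.inr ⟨h1, ?_⟩)
      rintro ⟨-, (⟨n, hn, h⟩ | ⟨y, hy, h, h'⟩)⟩
      · exact h2 n hn h
      · exact h3 y hy h h'
    · refine Or.inr ⟨h1, ?_⟩
      rintro ⟨-, (⟨n, hn, h⟩ | ⟨y, hy, h, h'⟩)⟩
      · exact h2 n hn h
      · have := h3 y hy h
        tauto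

theorem comb (B : ℕ → ℕ → ℕ → ℕ)
    (hB : ∀ (V : Type) (G : SimpleGraph V) (Λ β : Type) [Fintype Λ] (K K' : ℕ)
    (V0 W : Finset V) (lab : V → Λ) (F : Λ → Λ → Prop) (b : V → β),
    BD G K V0 → (∀ x ∈ V0, ∀ y ∈ V0, b x = b y → x = y) →
    (∀ x ∈ V0 ∪ W, BD G K' ((V0 ∪ W).filter (fun y => b y = b x))) →
    (∀ x ∈ W, ∀ y ∈ V0 ∪ W, b x ≠ b y → (G.Adj x y ↔ F (lab x) (lab y))) →
    BD G (B K K' (Fintype.card Λ)) (V0 ∪ W))
    {N D0 D1 : Finset V} (F : Fct G N D0 D1) : BD G (B 1 1 3) (N ∪ D0 ∪ D1) := by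
  have hW0 : W0 G N D0 D1 ⊆ D0 := filter_subset _ _
  have hW1 : W1 G N D0 D1 ⊆ D1 := filter_subset _ _
  have hU : VV G N D0 D1 ∪ (W0 G N D0 D1 ∪ W1 G N D0 D1) = N ∪ D0 ∪ D1 := by
    ext z
    have a := @hW0 z
    have b := @hW1 z
    simp only [VV, mem_union, mem_sdiff]
    tauto
  have lN : ∀ x ∈ N, lb N D0 x = 0 := fun x hx => by simp [lb, hx]
  have l0 : ∀ x ∈ D0, lb N D0 x = 1 := fun x hx => by
    have : x ∉ N := fun h => F.dN0 x h hx
    simp [lb, hx, this]
  have l1 : ∀ x ∈ D1, lb N D0 x = 2 := fun x hx => by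
    have h1 : x ∉ N := fun h => F.dN1 x h hx
    have h2 : x ∉ D0 := fun h => F.d01 x h hx
    simp [lb, h1, h2]
  -- the base
  have h1 : BD G 1 (VV G N D0 D1) := by
    apply BD.cograph
    have nn : ∀ n ∈ N, ∀ u ∈ VV G N D0 D1, ¬ G.Adj n u := by
      intro n hn u hu
      rw [mem_VV] at hu
      rcases hu with h | h | h
      · exact F.hN n hn u h
      · exact h.2.1 n hn
      · exact h.2.1 n hn
    have cc : ∀ x ∈ VV G N D0 D1, x ∈ D0 → ∀ y ∈ VV G N D0 D1, y ∈ D1 → G.Adj x y := by
      intro x hx hx' y hy hy'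
      rw [mem_VV] at hx hy
      have hxN : x ∉ N := fun h => F.dN0 x h hx'
      have hx1 : x ∉ D1 := fun h => F.d01 x hx' h
      have hyN : y ∉ N := fun h => F.dN1 y h hy'
      have hy1 : y ∉ D0 := fun h => F.d01 y h hy'
      by_contra hxy
      rcases hx with h | h | h
      · exact hxN h
      · rcases hy with h' | h' | h'
        · exact hyN h'
        · exact hy1 h'.1
        · exact h.2.2 y hy' hxy (h'.2.2 x hx' hxy).1
      · exact hx1 h.1
    have ty : ∀ u ∈ VV G N D0 D1, ∀ w ∈ VV G N D0 D1, G.Adj u w → u ∈ D0 ∨ u ∈ D1 := by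
      intro u hu w hw h
      have hu' := hu
      rw [mem_VV] at hu
      rcases hu with h' | h' | h'
      · exact absurd h (nn u h' w hw)
      · exact Or.inl h'.1
      · exact Or.inr h'.1
    intro a ha b hb c hc d hd hac had hbd hab hbc hcd
    by_contra hcon
    push Not at hcon
    obtain ⟨nac, nad, nbd⟩ := hcon
    have ta := ty a ha b hb hab
    have tb := ty b hb a ha hab.symm
    have tc := ty c hc b hb hbc.symm
    have td := ty d hd c hc hcd.symm
    rcases ta with ta | ta
    · have tc' : c ∈ D0 := tc.resolve_right fun h => nac (cc a ha ta c hc h)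
      have td' : d ∈ D0 := td.resolve_right fun h => nad (cc a ha ta d hd h)
      rcases tb with tb | tb
      · exact nac (F.c0 a ta b tb c tc' hab hbc hac)
      · exact nbd (cc d hd td' b hb tb).symm
    · have tc' : c ∈ D1 := tc.resolve_left fun h => nac (cc c hc h a ha ta).symm
      have td' : d ∈ D1 := td.resolve_left fun h => nad (cc d hd h a ha ta).symm
      rcases tb with tb | tb
      · exact nbd (cc b hb tb d hd td')
      · exact nac (F.c1 a ta b tb c tc' hab hbc hac)
  -- anchors
  have h2 : ∀ x ∈ VV G N D0 D1, ∀ y ∈ VV G N D0 D1, bb G N D0 D1 x = bb G N D0 D1 y → x = y := by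
    have c01 : ∀ x ∈ D0, (∀ n ∈ N, ¬ G.Adj n x) → (∀ y ∈ D1, ¬ G.Adj x y → ¬ NI G D1 y) →
        ∀ y ∈ D1, (∀ n ∈ N, ¬ G.Adj n y) → (∀ z ∈ D0, ¬ G.Adj z y → (NI G D1 y ∧ ¬ NI G D0 z)) →
        bb G N D0 D1 x ≠ bb G N D0 D1 y := by
      intro x hx hn hl y hy hn' hl' he
      rw [bD0 F hx hn, bD1 F hy hn', b0, if_neg] at he
      · by_cases hz : ∃ z ∈ D0, ¬ G.Adj z y
        · obtain ⟨z, hz, hzy⟩ := hz
          rw [b1_of F hz hy hzy] at he
          have h3 : z ∈ ({x} : Finset V) := by
            rw [he]; split_ifs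
            · exact self_mem_comp F hz
            · simp
          rw [mem_singleton] at h3
          subst h3
          exact hl y hy hzy (hl' z hz hzy).1
        · push Not at hz
          rw [b1_no F hz, singleton_inj] at he
          exact F.d01 x hx (he ▸ hy)
      · rintro ⟨z, hz, h3, h4⟩
        exact hl z hz h3 h4
    intro x hx y hy he
    rw [mem_VV] at hx hy
    rcases hx with hx | hx | hx
    · rcases hy with hy | hy | hy
      · rw [bN F hx, bN F hy, singleton_inj] at he; exact he
      · exact absurd (sameN F hx (Or.inl hy.1) he) (hy.2.1 x hx)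
      · exact absurd (sameN F hx (Or.inr hy.1) he) (hy.2.1 x hx)
    · rcases hy with hy | hy | hy
      · exact absurd (sameN F hy (Or.inl hx.1) he.symm) (hx.2.1 y hy)
      · by_contra hne
        rcases (same0 F hx.1 hy.1 he hne).2 with ⟨n, hn, h⟩ | ⟨z, hz, h, h'⟩
        · exact hx.2.1 n hn h
        · exact hx.2.2 z hz h h'
      · exact absurd he (c01 x hx.1 hx.2.1 hx.2.2 y hy.1 hy.2.1 hy.2.2)
    · rcases hy with hy | hy | hy
      · exact absurd (sameN F hy (Or.inr hx.1) he.symm) (hx.2.1 y hy)
      · exact absurd he.symm (c01 y hy.1 hy.2.1 hy.2.2 x hx.1 hx.2.1 hx.2.2)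
      · by_contra hne
        rcases (same1 F hx.1 hy.1 he hne).2 with ⟨n, hn, h⟩ | ⟨z, hz, h, h'⟩
        · exact hx.2.1 n hn h
        · exact (hx.2.2 z hz h).2 h'
  -- blocks
  have h3 : ∀ x ∈ N ∪ D0 ∪ D1, BD G 1 ((N ∪ D0 ∪ D1).filter
      (fun y => bb G N D0 D1 y = bb G N D0 D1 x)) := by
    intro x _
    apply BD.cograph
    have key : ∀ u ∈ (N ∪ D0 ∪ D1).filter (fun y => bb G N D0 D1 y = bb G N D0 D1 x),
        ∀ v ∈ (N ∪ D0 ∪ D1).filter (fun y => bb G N D0 D1 y = bb G N D0 D1 x), u ≠ v →
        ¬ G.Adj u v → (u ∈ D0 ∧ v ∈ D1) ∨ (v ∈ D0 ∧ u ∈ D1) := by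
      intro u hu v hv hne hnuv
      simp only [mem_filter, mem_union] at hu hv
      have he := hu.2.trans hv.2.symm
      rcases hu.1 with (h | h) | h
      · rcases hv.1 with (h' | h') | h'
        · rw [bN F h, bN F h', singleton_inj] at he
          exact absurd he hne
        · exact absurd (sameN F h (Or.inl h') he) hnuv
        · exact absurd (sameN F h (Or.inr h') he) hnuv
      · rcases hv.1 with (h' | h') | h'
        · exact absurd (sameN F h' (Or.inl h) he.symm).symm hnuv
        · exact absurd (same0 F h h' he hne).1 hnuv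
        · exact Or.inl ⟨h, h'⟩
      · rcases hv.1 with (h' | h') | h'
        · exact absurd (sameN F h' (Or.inr h) he.symm).symm hnuv
        · exact Or.inr ⟨h', h⟩
        · exact absurd (same1 F h h' he hne).1 hnuv
    intro a ha b hb c hc d hd hac had hbd hab hbc hcd
    by_contra hcon
    push Not at hcon
    obtain ⟨nac, nad, nbd⟩ := hcon
    have k1 := key a ha c hc hac nac
    have k2 := key a ha d hd had nad
    have hcd' := G.ne_of_adj hcd
    rcases k1 with ⟨k1, k1'⟩ | ⟨k1, k1'⟩
    · rcases k2 with ⟨k2, k2'⟩ | ⟨k2, k2'⟩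
      · exact hcd' (F.m0 a k1 c k1' d k2' nac nad)
      · exact F.d01 a k1 k2'
    · rcases k2 with ⟨k2, k2'⟩ | ⟨k2, k2'⟩
      · exact F.d01 a k2 k1'
      · exact hcd' (F.m1 c k1 d k2 a k1' (fun h => nac h.symm) (fun h => nad h.symm))
  -- labels
  have h4 : ∀ x ∈ W0 G N D0 D1 ∪ W1 G N D0 D1, ∀ y ∈ N ∪ D0 ∪ D1,
      bb G N D0 D1 x ≠ bb G N D0 D1 y → (G.Adj x y ↔ FF (lb N D0 x) (lb N D0 y)) := by
    intro x hx y hy hne
    simp only [mem_union] at hx hy
    rcases hx with hx | hx
    · have hx0 := hW0 hx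
      simp only [W0, mem_filter] at hx
      rcases hy with (hy | hy) | hy
      · rw [l0 x hx0, lN y hy]
        constructor
        · intro h
          exact absurd ((bnb F (Or.inl hx0) hy h.symm).trans (bN F hy).symm) hne
        · intro h; simp [FF] at h
      · rw [l0 x hx0, l0 y hy]
        constructor
        · intro h
          exact absurd (b_adj0 F hx0 hy h hx.2) hne
        · intro h; simp [FF] at h
      · rw [l0 x hx0, l1 y hy]
        constructor
        · intro _; simp [FF]
        · intro _; by_contra h; exact hne (b_link F hx0 hy h)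
    · have hx0 := hW1 hx
      simp only [W1, mem_filter] at hx
      rcases hy with (hy | hy) | hy
      · rw [l1 x hx0, lN y hy]
        constructor
        · intro h
          exact absurd ((bnb F (Or.inr hx0) hy h.symm).trans (bN F hy).symm) hne
        · intro h; simp [FF] at h
      · rw [l1 x hx0, l0 y hy]
        constructor
        · intro _; simp [FF]
        · intro _; by_contra h; exact hne (b_link F hy hx0 (fun h' => h h'.symm)).symm
      · rw [l1 x hx0, l1 y hy]
        constructor
        · intro h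
          refine absurd (b_adj1 F hx0 hy h ?_) hne
          rcases hx.2 with h' | ⟨z, hz, h5, h6⟩
          · exact Or.inl h'
          · exact Or.inr ⟨z, hz, h5, h6.resolve_left (fun h7 => h7 ⟨y, hy, h⟩)⟩
        · intro h; simp [FF] at h
  have := hB V G (Fin 3) (Finset V) 1 1 (VV G N D0 D1) (W0 G N D0 D1 ∪ W1 G N D0 D1) (lb N D0) FF
    (bb G N D0 D1) h1 h2 (by rw [hU]; intro x hx; convert h3 x hx) (by rw [hU]; exact h4)
  rw [Fintype.card_fin, hU] at this
  exact this

theorem nd01_stmt (hA : AttachStmt) : ND01Stmt := by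
  obtain ⟨B, hB⟩ := hA
  refine ⟨B 1 1 3, ?_⟩
  intro V G hg hp c0 c1 c2 c3 c4 N D0 D1 h
  exact comb B hB (fct_of hg hp h)

end Pool.Agent.H488R2.CW
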