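import Pool.Agent.H175F.Frame0

/-! Task T04 (helper497): split decomposition. -/

namespace Pool.Agent.H175G

open Finset Classical
open Pool.Agent.H175R2 (DT nt on cpt Cn P4Free mem_on nt_le_of_label nt_le_of_inj nt_module nt_closed
  dt_cograph nt_le_pow)

namespace T04

variable {V : Type} {G : SimpleGraph V}

lemma nt_erase (R Z : Finset V) (b : V) : nt G R (Z.erase b) ≤ 2 * nt G R Z + 1 := by
  set I := (Z.image (on G R Z)).erase ∅ with hI
  have hsub : ((Z.erase b).image (on G R (Z.erase b))).erase ∅ ⊆
      (I ∪ I.image (fun s => insert b s)) ∪ {{b}} := by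
    intro s hs
    rw [mem_erase, mem_image] at hs
    obtain ⟨hne, x, hx, rfl⟩ := hs
    have hxZ : x ∈ Z := mem_of_mem_erase hx
    -- the row to the complement of `Z`
    have key : on G R (Z.erase b) x = on G R Z x ∨
        on G R (Z.erase b) x = insert b (on G R Z x) := by
      by_cases hb : b ∈ on G R (Z.erase b) x
      · right
        ext z
        rw [mem_insert]
        constructor
        · intro hz
          by_cases hzb : z = b
          · exact Or.inl hzb
          · right
            rw [mem_on] at hz ⊢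
            exact ⟨⟨hz.1.1, fun h => hz.1.2 (mem_erase.2 ⟨hzb, h⟩)⟩, hz.2⟩
        · rintro (rfl | hz)
          · exact hb
          · rw [mem_on] at hz ⊢
            exact ⟨⟨hz.1.1, fun h => hz.1.2 (mem_of_mem_erase h)⟩, hz.2⟩
      · left
        ext z
        constructor
        · intro hz
          have hzb : z ≠ b := fun h => hb (h ▸ hz)
          rw [mem_on] at hz ⊢
          exact ⟨⟨hz.1.1, fun h => hz.1.2 (mem_erase.2 ⟨hzb, h⟩)⟩, hz.2⟩
        · intro hz
          rw [mem_on] at hz ⊢
          exact ⟨⟨hz.1.1, fun h => hz.1.2 (mem_of_mem_erase h)⟩, hz.2⟩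
    by_cases h0 : on G R Z x = ∅
    · rcases key with h | h
      · exact absurd (h.trans h0) hne
      · rw [h, h0]
        apply mem_union_right
        rw [mem_singleton]
        rfl
    · have hmem : on G R Z x ∈ I := mem_erase.2 ⟨h0, mem_image_of_mem _ hxZ⟩
      apply mem_union_left
      rcases key with h | h
      · rw [h]; exact mem_union_left _ hmem
      · rw [h]; exact mem_union_right _ (mem_image.2 ⟨_, hmem, rfl⟩)
  have h1 := card_le_card hsub
  have h2 : (I ∪ I.image (fun s => insert b s) ∪ {{b}}).card ≤ (I.card + I.card) + 1 := by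
    refine (card_union_le _ _).trans (Nat.add_le_add ?_ (by simp))
    exact (card_union_le _ _).trans (Nat.add_le_add_left card_image_le _)
  unfold nt
  rw [← hI]
  omega

lemma dt_erase {K : ℕ} {R A : Finset V} (b : V) (h : DT G K R A) :
    (A.erase b).Nonempty → DT G (2 * K + 1) R (A.erase b) := by
  induction h with
  | leaf x =>
    intro hne
    have hxb : x ≠ b := by
      rintro rfl
      rw [erase_singleton] at hne
      simp at hne
    rw [erase_eq_of_notMem (by rw [mem_singleton]; exact fun h => hxb h.symm)]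
    exact DT.leaf x
  | @node A B hd _ _ h iA iB =>
    intro hne
    have e : (A ∪ B).erase b = A.erase b ∪ B.erase b := by
      ext z; simp only [mem_erase, mem_union]; tauto
    by_cases hA : (A.erase b).Nonempty
    · by_cases hB : (B.erase b).Nonempty
      · rw [e]
        refine DT.node ?_ (iA hA) (iB hB) ?_
        · exact Finset.disjoint_of_subset_left (erase_subset _ _)
            (Finset.disjoint_of_subset_right (erase_subset _ _) hd)
        · rw [← e]
          exact (nt_erase R _ b).trans (by omega)
      · rw [not_nonempty_iff_eq_empty] at hB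
        rw [e, hB, union_empty]; exact iA hA
    · rw [not_nonempty_iff_eq_empty] at hA
      rw [e, hA, empty_union]
      rw [e, hA, empty_union] at hne
      exact iB hne

/-- `a0` represents `A` seen from `B` -/
def Sp (G : SimpleGraph V) (A B : Finset V) (a0 : V) : Prop :=
  Disjoint A B ∧ a0 ∈ A ∧ ∀ x ∈ A, (∀ y ∈ B, (G.Adj x y ↔ G.Adj a0 y)) ∨ (∀ y ∈ B, ¬ G.Adj x y)

lemma f1 {A B Y : Finset V} {a0 : V} (h : Sp G A B a0) (hY : Y ⊆ B) :
    nt G (A ∪ B) Y ≤ nt G (insert a0 B) Y := by
  obtain ⟨hd, ha0, hx⟩ := h
  have hAY : ∀ z ∈ A, z ∉ Y := fun z hz hzY => Finset.disjoint_left.1 hd hz (hY hzY)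
  have ha0B : a0 ∉ B := Finset.disjoint_left.1 hd ha0
  refine nt_le_of_label ((Y.image (on G (insert a0 B) Y)).erase ∅) (on G (insert a0 B) Y) ?_ ?_
  · intro y hy hne
    refine mem_erase.2 ⟨?_, mem_image_of_mem _ hy⟩
    obtain ⟨z, hz⟩ := nonempty_iff_ne_empty.2 hne
    rw [mem_on, mem_union] at hz
    apply nonempty_iff_ne_empty.1
    rcases hz.1.1 with hzA | hzB
    · refine ⟨a0, ?_⟩
      rw [mem_on]
      refine ⟨⟨mem_insert_self _ _, hAY a0 ha0⟩, ?_⟩
      rcases hx z hzA with h1 | h1
      · exact ((h1 y (hY hy)).1 hz.2.symm).symm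
      · exact absurd hz.2.symm (h1 y (hY hy))
    · refine ⟨z, ?_⟩
      rw [mem_on]
      exact ⟨⟨mem_insert_of_mem hzB, hz.1.2⟩, hz.2⟩
  · intro y hy y' hy' _ _ he
    have hrow : ∀ z ∈ insert a0 B, z ∉ Y → (G.Adj y z ↔ G.Adj y' z) := by
      intro z hz hzY
      have h1 : z ∈ on G (insert a0 B) Y y ↔ z ∈ on G (insert a0 B) Y y' := by rw [he]
      rw [mem_on, mem_on] at h1
      constructor
      · intro h2; exact (h1.1 ⟨⟨hz, hzY⟩, h2⟩).2
      · intro h2; exact (h1.2 ⟨⟨hz, hzY⟩, h2⟩).2
    have ha : G.Adj y a0 ↔ G.Adj y' a0 := hrow a0 (mem_insert_self _ _) (hAY a0 ha0)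
    ext z
    rw [mem_on, mem_on, mem_union]
    have hAdj : (z ∈ A ∨ z ∈ B) → z ∉ Y → (G.Adj y z ↔ G.Adj y' z) := by
      rintro (hzA | hzB) hzY
      · rcases hx z hzA with h1 | h1
        · rw [G.adj_comm y z, G.adj_comm y' z, h1 y (hY hy), h1 y' (hY hy'), G.adj_comm a0 y,
            G.adj_comm a0 y']
          exact ha
        · exact iff_of_false (fun h => h1 y (hY hy) h.symm) (fun h => h1 y' (hY hy') h.symm)
      · exact hrow z (mem_insert_of_mem hzB) hzY
    constructor
    · rintro ⟨h1, h2⟩; exact ⟨h1, (hAdj h1.1 h1.2).1 h2⟩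
    · rintro ⟨h1, h2⟩; exact ⟨h1, (hAdj h1.1 h1.2).2 h2⟩

lemma f2 {A B Y : Finset V} {a0 : V} (h : Sp G A B a0) (hY : Y ⊆ insert a0 B) (ha : a0 ∈ Y) :
    nt G (A ∪ B) (Y.erase a0 ∪ A) ≤ nt G (insert a0 B) Y := by
  obtain ⟨hd, ha0, hx⟩ := h
  have ha0B : a0 ∉ B := Finset.disjoint_left.1 hd ha0
  -- outside of the new node set
  have hout : ∀ z, (z ∈ A ∪ B ∧ z ∉ Y.erase a0 ∪ A) ↔ (z ∈ insert a0 B ∧ z ∉ Y) := by
    intro z
    simp only [mem_union, mem_erase, mem_insert]
    constructor
    · rintro ⟨h1, h2⟩
      rw [not_or] at h2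
      have hzB : z ∈ B := h1.resolve_left h2.2
      have hza : z ≠ a0 := fun h => ha0B (h ▸ hzB)
      exact ⟨Or.inr hzB, fun h => h2.1 ⟨hza, h⟩⟩
    · rintro ⟨h1, h2⟩
      have hza : z ≠ a0 := fun h => h2 (h ▸ ha)
      have hzB := h1.resolve_left hza
      refine ⟨Or.inr hzB, ?_⟩
      rintro (h3 | h3)
      · exact h2 h3.2
      · exact Finset.disjoint_left.1 hd h3 hzB
  set ph : V → V := fun x => if x ∈ A then a0 else x with hph
  have hrowph : ∀ x ∈ Y.erase a0 ∪ A, on G (A ∪ B) (Y.erase a0 ∪ A) x ≠ ∅ →
      on G (A ∪ B) (Y.erase a0 ∪ A) x = on G (insert a0 B) Y (ph x) := by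
    intro x hxm hne
    have hout' : ∀ z, z ∈ insert a0 B ∧ z ∉ Y → z ∈ B := by
      rintro z ⟨h1, h2⟩
      rcases mem_insert.1 h1 with h3 | h3
      · exact absurd (h3 ▸ ha) h2
      · exact h3
    by_cases hxA : x ∈ A
    · have e : ph x = a0 := by simp only [hph, hxA, if_true]
      rw [e]
      rcases hx x hxA with h1 | h1
      · ext z
        rw [mem_on, mem_on, hout z]
        constructor
        · rintro ⟨h2, h3⟩; exact ⟨h2, (h1 z (hout' z h2)).1 h3⟩
        · rintro ⟨h2, h3⟩; exact ⟨h2, (h1 z (hout' z h2)).2 h3⟩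
      · exfalso
        obtain ⟨z, hz⟩ := nonempty_iff_ne_empty.2 hne
        rw [mem_on, hout z] at hz
        exact h1 z (hout' z hz.1) hz.2
    · have e : ph x = x := by simp only [hph, hxA, if_false]
      rw [e]
      ext z
      rw [mem_on, mem_on, hout z]
  have hphY : ∀ x ∈ Y.erase a0 ∪ A, ph x ∈ Y := by
    intro x hxm
    by_cases hxA : x ∈ A
    · have e : ph x = a0 := by simp only [hph, hxA, if_true]
      rw [e]; exact ha
    · have e : ph x = x := by simp only [hph, hxA, if_false]
      rw [e]
      rcases mem_union.1 hxm with h1 | h1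
      · exact mem_of_mem_erase h1
      · exact absurd h1 hxA
  refine nt_le_of_label ((Y.image (on G (insert a0 B) Y)).erase ∅)
    (fun x => on G (insert a0 B) Y (ph x)) ?_ ?_
  · intro x hxm hne
    refine mem_erase.2 ⟨?_, mem_image_of_mem _ (hphY x hxm)⟩
    rw [← hrowph x hxm hne]
    exact hne
  · intro x hxm y hym hne hne' he
    rw [hrowph x hxm hne, hrowph y hym hne']
    exact he

/-- replacing the leaf `a0` by a tree of `A` -/
lemma surg {K : ℕ} {A B X : Finset V} {a0 : V} (h : Sp G A B a0) (hA : DT G K (A ∪ B) A)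
    (hX : DT G K (insert a0 B) X) : X ⊆ insert a0 B →
    (a0 ∉ X → DT G K (A ∪ B) X) ∧ (a0 ∈ X → DT G K (A ∪ B) (X.erase a0 ∪ A)) := by
  induction hX with
  | leaf x =>
    intro _
    refine ⟨fun _ => DT.leaf x, fun h1 => ?_⟩
    rw [mem_singleton] at h1
    subst h1
    rw [erase_singleton, empty_union]
    exact hA
  | @node X1 X2 hd _ _ hn i1 i2 =>
    intro hsub
    have s1 : X1 ⊆ insert a0 B := subset_union_left.trans hsub
    have s2 : X2 ⊆ insert a0 B := subset_union_right.trans hsub
    have inB : ∀ X ⊆ insert a0 B, a0 ∉ X → X ⊆ B := by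
      intro X hX1 hX2 z hz
      rcases mem_insert.1 (hX1 hz) with h1 | h1
      · exact absurd (h1 ▸ hz) hX2
      · exact h1
    refine ⟨fun h1 => ?_, fun h1 => ?_⟩
    · rw [mem_union, not_or] at h1
      refine DT.node hd ((i1 s1).1 h1.1) ((i2 s2).1 h1.2) ?_
      exact (f1 h (inB _ hsub (by rw [mem_union, not_or]; exact h1))).trans hn
    · have key : ∀ P Q : Finset V, Disjoint P Q → a0 ∈ P → P ⊆ insert a0 B → Q ⊆ insert a0 B →
          DT G K (A ∪ B) (P.erase a0 ∪ A) → (a0 ∉ Q → DT G K (A ∪ B) Q) →
          nt G (insert a0 B) (P ∪ Q) ≤ K → DT G K (A ∪ B) ((P ∪ Q).erase a0 ∪ A) := by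
        intro P Q hPQ hP hPs hQs h2 h3 h4
        have hQ : a0 ∉ Q := Finset.disjoint_left.1 hPQ hP
        have e : (P ∪ Q).erase a0 ∪ A = (P.erase a0 ∪ A) ∪ Q := by
          ext z
          simp only [mem_union, mem_erase]
          constructor
          · rintro (⟨h5, h6 | h6⟩ | h5)
            · exact Or.inl (Or.inl ⟨h5, h6⟩)
            · exact Or.inr h6
            · exact Or.inl (Or.inr h5)
          · rintro ((⟨h5, h6⟩ | h5) | h5)
            · exact Or.inl ⟨h5, Or.inl h6⟩
            · exact Or.inr h5
            · exact Or.inl ⟨fun h => hQ (h ▸ h5), Or.inr h5⟩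
        have hn2 := f2 h (Y := P ∪ Q) (union_subset hPs hQs) (mem_union_left _ hP)
        rw [e] at hn2 ⊢
        refine DT.node ?_ h2 (h3 hQ) (hn2.trans h4)
        rw [disjoint_union_left]
        refine ⟨Finset.disjoint_of_subset_left (erase_subset _ _) hPQ, ?_⟩
        rw [Finset.disjoint_left]
        intro z hz hzQ
        exact Finset.disjoint_left.1 h.1 hz (inB Q hQs hQ hzQ)
      by_cases h2 : a0 ∈ X1
      · exact key X1 X2 hd h2 s1 s2 ((i1 s1).2 h2) (i2 s2).1 hn
      · have h3 : a0 ∈ X2 := (mem_union.1 h1).resolve_left h2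
        have := key X2 X1 hd.symm h3 s2 s1 ((i2 s2).2 h3) (i1 s1).1 (by rw [union_comm]; exact hn)
        rwa [union_comm X2 X1] at this

/-- trees of independent sets represented by one vertex -/
lemma dt_ind {A B : Finset V} {a0 : V} (h : Sp G A B a0)
    (hI : ∀ x ∈ A, ∀ y ∈ A, ¬ G.Adj x y) :
    ∀ Z : Finset V, Z ⊆ A → Z.Nonempty → DT G 1 (A ∪ B) Z := by
  have hn : ∀ Z ⊆ A, nt G (A ∪ B) Z ≤ 1 := by
    intro Z hZ
    have h1 := nt_le_of_label (G := G) (R := A ∪ B) (A := Z) ({()} : Finset Unit) (fun _ => ())
      (fun _ _ _ => by simp) (fun x hx y hy hne hne' _ => ?_)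
    · simpa using h1
    · -- both rows are the row of `a0`
      have row : ∀ x ∈ Z, on G (A ∪ B) Z x ≠ ∅ → ∀ z, z ∈ on G (A ∪ B) Z x ↔
          (z ∈ B ∧ z ∉ Z ∧ G.Adj a0 z) := by
        intro x hx hne z
        obtain ⟨w, hw⟩ := nonempty_iff_ne_empty.2 hne
        rw [mem_on, mem_union] at hw
        have hwB : w ∈ B := hw.1.1.resolve_left (fun h => hI x (hZ hx) w h hw.2)
        rcases h.2.2 x (hZ hx) with h1 | h1
        · rw [mem_on, mem_union]
          constructor
          · rintro ⟨⟨h2, h3⟩, h4⟩
            have hzB := h2.resolve_left (fun h => hI x (hZ hx) z h h4)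
            exact ⟨hzB, h3, (h1 z hzB).1 h4⟩
          · rintro ⟨h2, h3, h4⟩
            exact ⟨⟨Or.inr h2, h3⟩, (h1 z h2).2 h4⟩
        · exact absurd hw.2 (h1 w hwB)
      ext z
      rw [row x hx hne, row y hy hne']
  intro Z
  induction Z using Finset.induction_on with
  | empty => intro _ hne; simp at hne
  | insert a s ha ih =>
    intro hs _
    by_cases hne : s.Nonempty
    · rw [Finset.insert_eq]
      refine DT.node (by simpa using ha) (DT.leaf a) (ih ((subset_insert _ _).trans hs) hne) ?_
      rw [← Finset.insert_eq]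
      exact hn _ hs
    · rw [not_nonempty_iff_eq_empty] at hne
      subst hne
      exact DT.leaf a

end T04

open T04 in
theorem split_stmt : SplitStmt := by
  intro V G v K C hher hv hns
  -- the main claim
  have main : ∀ n : ℕ, ∀ R : Finset V, R.card ≤ n → C R → ∀ b ∈ R, (R.erase b).Nonempty →
      DT G (2 * K + 1) R (R.erase b) := by
    intro n
    induction n with
    | zero =>
      intro R hn _ b hb _
      rw [Nat.le_zero, card_eq_zero] at hn
      rw [hn] at hb
      simp at hb
    | succ n ih =>
      intro R hn hC b hb hne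
      obtain ⟨hvR, hvI⟩ := hv R hC
      by_cases hsp : NoSplit G R
      · exact dt_erase b (hns R hC hsp ⟨b, hb⟩) hne
      · -- a split
        unfold NoSplit at hsp
        push Not at hsp
        obtain ⟨A₀, hA₀, hA₀2, hB₀2, A₁, B₁, hAB₀⟩ := hsp
        -- orientation
        obtain ⟨A, B, A', B', hR, hd, hA2, hB2, hvB, hAB⟩ : ∃ A B A' B' : Finset V, R = A ∪ B ∧
            Disjoint A B ∧ 2 ≤ A.card ∧ 2 ≤ B.card ∧ v ∈ B ∧
            ∀ x ∈ A, ∀ y ∈ B, (G.Adj x y ↔ x ∈ A' ∧ y ∈ B') := by
          by_cases hvA : v ∈ A₀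
          · refine ⟨R \ A₀, A₀, B₁, A₁, (sdiff_union_of_subset hA₀).symm, sdiff_disjoint, hB₀2,
              hA₀2, hvA, ?_⟩
            intro x hx y hy
            rw [G.adj_comm, hAB₀ y hy x hx, and_comm]
          · exact ⟨A₀, R \ A₀, A₁, B₁, (union_sdiff_of_subset hA₀).symm, disjoint_sdiff, hA₀2,
              hB₀2, mem_sdiff.2 ⟨hvR, hvA⟩, hAB₀⟩
        -- the representative of `A`
        obtain ⟨a0, ha0⟩ : ∃ a0, Sp G A B a0 := by
          by_cases hA' : ∃ x ∈ A, x ∈ A'
          · obtain ⟨a0, h1, h2⟩ := hA'
            refine ⟨a0, hd, h1, fun x hx => ?_⟩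
            by_cases hxA : x ∈ A'
            · left
              intro y hy
              rw [hAB x hx y hy, hAB a0 h1 y hy]
              exact ⟨fun h => ⟨h2, h.2⟩, fun h => ⟨hxA, h.2⟩⟩
            · right
              intro y hy h
              exact hxA ((hAB x hx y hy).1 h).1
          · obtain ⟨a0, h1⟩ : A.Nonempty := card_pos.1 (by omega)
            refine ⟨a0, hd, h1, fun x hx => Or.inr fun y hy h => hA' ⟨x, hx, ?_⟩⟩
            exact ((hAB x hx y hy).1 h).1
        have ha0A := ha0.2.1
        have ha0B : a0 ∉ B := Finset.disjoint_left.1 hd ha0A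
        have hvA : v ∉ A := Finset.disjoint_right.1 hd hvB
        have hcard : R.card = A.card + B.card := by rw [hR, card_union_of_disjoint hd]
        -- the smaller set `R1`
        have hR1c : (insert a0 B).card ≤ n := by
          rw [card_insert_of_notMem ha0B]; omega
        have hR1C : C (insert a0 B) := by
          refine hher R _ hC ?_ (mem_insert_of_mem hvB)
          rw [hR]
          exact insert_subset (mem_union_left _ ha0A) subset_union_right
        have hBR : DT G (2 * K + 1) (A ∪ B) B := by
          have h1 := ih (insert a0 B) hR1c hR1C a0 (mem_insert_self _ _) (by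
            rw [erase_insert ha0B]; exact ⟨v, hvB⟩)
          rw [erase_insert ha0B] at h1
          exact h1.transfer fun Y hY hn => (f1 ha0 hY).trans hn
        by_cases hvad : ∃ x ∈ A, G.Adj v x
        · -- both sides have a representative
          have hSB : Sp G B A v := by
            refine ⟨hd.symm, hvB, fun y hy => ?_⟩
            obtain ⟨x0, hx0, hvx0⟩ := hvad
            have hvB' : v ∈ B' := ((hAB x0 hx0 v hvB).1 hvx0.symm).2
            by_cases hyB : y ∈ B'
            · left
              intro x hx
              rw [G.adj_comm y x, G.adj_comm v x, hAB x hx y hy, hAB x hx v hvB]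
              exact ⟨fun h => ⟨h.1, hvB'⟩, fun h => ⟨h.1, hyB⟩⟩
            · right
              intro x hx h
              exact hyB ((hAB x hx y hy).1 h.symm).2
          have hR2c : (insert v A).card ≤ n := by
            rw [card_insert_of_notMem hvA]; omega
          have hR2C : C (insert v A) := by
            refine hher R _ hC ?_ (mem_insert_self _ _)
            rw [hR]
            exact insert_subset (mem_union_right _ hvB) subset_union_left
          have hAR : DT G (2 * K + 1) (A ∪ B) A := by
            have h1 := ih (insert v A) hR2c hR2C v (mem_insert_self _ _) (by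
              rw [erase_insert hvA]; exact ⟨a0, ha0A⟩)
            rw [erase_insert hvA] at h1
            rw [union_comm]
            exact h1.transfer fun Y hY hn => (f1 hSB hY).trans hn
          by_cases hbB : b ∈ B
          · have hba : b ≠ a0 := fun h => ha0B (h ▸ hbB)
            have hbA : b ∉ A := Finset.disjoint_right.1 hd hbB
            have hmem : a0 ∈ (insert a0 B).erase b := mem_erase.2 ⟨hba.symm, mem_insert_self _ _⟩
            have h1 := ih (insert a0 B) hR1c hR1C b (mem_insert_of_mem hbB) ⟨a0, hmem⟩
            have h2 := (surg ha0 hAR h1 (erase_subset _ _)).2 hmem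
            have e : ((insert a0 B).erase b).erase a0 ∪ A = (A ∪ B).erase b := by
              ext z
              simp only [mem_union, mem_erase, mem_insert]
              constructor
              · rintro (⟨h3, h4, h5⟩ | h3)
                · exact ⟨h4, Or.inr (h5.resolve_left h3)⟩
                · exact ⟨fun h => hbA (h ▸ h3), Or.inl h3⟩
              · rintro ⟨h3, h4 | h4⟩
                · exact Or.inr h4
                · exact Or.inl ⟨fun h => ha0B (h ▸ h4), h3, Or.inr h4⟩
            rw [hR, ← e]
            exact h2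
          · have hbA : b ∈ A := by
              rw [hR, mem_union] at hb
              exact hb.resolve_right hbB
            have hbv : b ≠ v := fun h => hbB (h ▸ hvB)
            have hmem : v ∈ (insert v A).erase b := mem_erase.2 ⟨hbv.symm, mem_insert_self _ _⟩
            have h1 := ih (insert v A) hR2c hR2C b (mem_insert_of_mem hbA) ⟨v, hmem⟩
            have hBR' : DT G (2 * K + 1) (B ∪ A) B := by rw [union_comm]; exact hBR
            have h2 := (surg hSB hBR' h1 (erase_subset _ _)).2 hmem
            have e : ((insert v A).erase b).erase v ∪ B = (A ∪ B).erase b := by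
              ext z
              simp only [mem_union, mem_erase, mem_insert]
              constructor
              · rintro (⟨h3, h4, h5⟩ | h3)
                · exact ⟨h4, Or.inl (h5.resolve_left h3)⟩
                · exact ⟨fun h => hbB (h ▸ h3), Or.inr h3⟩
              · rintro ⟨h3, h4 | h4⟩
                · exact Or.inl ⟨fun h => hvA (h ▸ h4), h3, Or.inr h4⟩
                · exact Or.inr h4
            rw [hR, ← e, union_comm A B]
            exact h2
        · -- `A` is independent
          push Not at hvad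
          have hAR' : ∀ x ∈ A, x ∈ R := fun x hx => by rw [hR]; exact mem_union_left _ hx
          have hI : ∀ x ∈ A, ∀ y ∈ A, ¬ G.Adj x y := fun x hx y hy =>
            hvI x (hAR' x hx) y (hAR' y hy) (hvad x hx) (hvad y hy)
          have hdt := dt_ind ha0 hI
          by_cases hbB : b ∈ B
          · have hba : b ≠ a0 := fun h => ha0B (h ▸ hbB)
            have hbA : b ∉ A := Finset.disjoint_right.1 hd hbB
            have hmem : a0 ∈ (insert a0 B).erase b := mem_erase.2 ⟨hba.symm, mem_insert_self _ _⟩
            have h1 := ih (insert a0 B) hR1c hR1C b (mem_insert_of_mem hbB) ⟨a0, hmem⟩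
            have hAR : DT G (2 * K + 1) (A ∪ B) A :=
              (hdt A (Subset.refl _) ⟨a0, ha0A⟩).mono (by omega)
            have h2 := (surg ha0 hAR h1 (erase_subset _ _)).2 hmem
            have e : ((insert a0 B).erase b).erase a0 ∪ A = (A ∪ B).erase b := by
              ext z
              simp only [mem_union, mem_erase, mem_insert]
              constructor
              · rintro (⟨h3, h4, h5⟩ | h3)
                · exact ⟨h4, Or.inr (h5.resolve_left h3)⟩
                · exact ⟨fun h => hbA (h ▸ h3), Or.inl h3⟩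
              · rintro ⟨h3, h4 | h4⟩
                · exact Or.inr h4
                · exact Or.inl ⟨fun h => ha0B (h ▸ h4), h3, Or.inr h4⟩
            rw [hR, ← e]
            exact h2
          · have hbA : b ∈ A := by
              rw [hR, mem_union] at hb
              exact hb.resolve_right hbB
            have hAb : (A.erase b).Nonempty := by
              rw [← card_pos, card_erase_of_mem hbA]; omega
            have h1 : DT G (2 * K + 1) (A ∪ B) (A.erase b) :=
              (hdt _ (erase_subset _ _) hAb).mono (by omega)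
            have e : (A ∪ B).erase b = A.erase b ∪ B := by
              ext z
              simp only [mem_union, mem_erase]
              constructor
              · rintro ⟨h3, h4 | h4⟩
                · exact Or.inl ⟨h3, h4⟩
                · exact Or.inr h4
              · rintro (⟨h3, h4⟩ | h3)
                · exact ⟨h3, Or.inl h4⟩
                · exact ⟨fun h => hbB (h ▸ h3), Or.inr h3⟩
            rw [hR, e]
            refine DT.node (Finset.disjoint_of_subset_left (erase_subset _ _) hd) h1 hBR ?_
            rw [← e]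
            have h2 := nt_erase (G := G) (A ∪ B) (A ∪ B) b
            rw [nt_closed (G := G) (R := A ∪ B) (A := A ∪ B) (fun _ _ z hz hz' => absurd hz hz')]
              at h2
            omega
  intro R hC hne
  obtain ⟨b, hb⟩ := hne
  by_cases h1 : (R.erase b).Nonempty
  · have h2 := main R.card R le_rfl hC b hb h1
    have e : R = {b} ∪ R.erase b := by
      rw [← Finset.insert_eq, insert_erase hb]
    have h3 : DT G (2 * K + 2) R ({b} ∪ R.erase b) := by
      refine DT.node (by simp) (DT.leaf b) (h2.mono (by omega)) ?_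
      rw [← e, nt_closed (fun _ _ z hz hz' => absurd hz hz')]
      omega
    rw [← e] at h3
    exact h3
  · rw [not_nonempty_iff_eq_empty] at h1
    have e : R = {b} := by
      have := insert_erase hb
      rw [h1] at this
      exact this.symm
    rw [e]
    exact DT.leaf b

end Pool.Agent.H175G
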