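import Pool.Agent.H175F.Frame0

/-! Task ALPHA: `M` is a clique plus isolated vertices. -/

namespace Pool.Agent.H503R2.GP

open Finset Classical
open Pool.Agent.H175G

variable {V : Type}

theorem alpha_lam {G : SimpleGraph V} (hg : NoGem G) {Q N : Finset V} (hQ : Clq G Q)
    (hN : Ind G N) : ∀ n ∈ N, ∀ n' ∈ N, nb G Q n ⊆ nb G Q n' ∨ nb G Q n' ⊆ nb G Q n ∨
      Disjoint (nb G Q n) (nb G Q n') := by
  intro n hn n' hn'
  by_contra hcon
  push Not at hcon
  obtain ⟨h1, h2, h3⟩ := hcon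
  rw [Finset.not_subset] at h1 h2
  rw [Finset.not_disjoint_iff] at h3
  obtain ⟨a, ha, ha'⟩ := h1
  obtain ⟨b, hb, hb'⟩ := h2
  obtain ⟨c, hc, hc'⟩ := h3
  simp only [mem_nb, not_and] at ha ha' hb hb' hc hc'
  have ha2 := ha' ha.1
  have hb2 := hb' hb.1
  have hnn : ¬ G.Adj n n' := hN n hn n' hn'
  have hab : a ≠ b := fun h => hb2 (h ▸ ha.2)
  have hac : a ≠ c := fun h => ha2 (h ▸ hc'.2)
  have hbc : b ≠ c := fun h => hb2 (h ▸ hc.2)
  have e1 := hQ a ha.1 b hb.1 hab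
  have e2 := hQ a ha.1 c hc.1 hac
  have e3 := hQ b hb.1 c hc.1 hbc
  have f1 := ha.2
  have f2 := hb.2
  have f3 := hc.2
  have f4 := hc'.2
  clear ha hb hc hc' ha' hb'
  exact hg n' b a n c (SimpleGraph.Adj.symm f4) (SimpleGraph.Adj.symm e3) (SimpleGraph.Adj.symm e2) (SimpleGraph.Adj.symm f3) f2 (SimpleGraph.Adj.symm e1) (SimpleGraph.Adj.symm f1) ha2 (not_symm' hb2) (not_symm' hnn)

theorem alpha_bip {G : SimpleGraph V} (hp : NoP23 G) {I N : Finset V} (hI : Ind G I)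
    (hN : Ind G N) : ∀ m ∈ I, ∀ m' ∈ I, 2 ≤ (nb G N m \ nb G N m').card →
      nb G N m' ⊆ nb G N m := by
  intro m hm m' hm' hcard x hx
  by_contra hcon
  obtain ⟨a, ha, b, hb, hab⟩ := Finset.one_lt_card.mp (show 1 < _ from hcard)
  simp only [mem_sdiff, mem_nb, not_and] at ha hb hx hcon
  have h1 := hcon hx.1
  have h2 := ha.1.2
  have h3 := ha.2 ha.1.1
  have h4 := hb.1.2
  have h5 := hb.2 hb.1.1
  have h6 := hx.2
  have h7 := hI m hm m' hm'
  have h8 := hN a ha.1.1 b hb.1.1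
  have h9 := hN a ha.1.1 x hx.1
  have h10 := hN b hb.1.1 x hx.1
  clear ha hb hx hcon
  exact hp x m' a m b (SimpleGraph.Adj.symm h6) (SimpleGraph.Adj.symm h2) h4 hab h8 (not_symm' h9) (not_symm' h1) (not_symm' h10) h3 (not_symm' h7) h5

theorem alpha_q {G : SimpleGraph V} (hg : NoGem G) (hp : NoP23 G) {Q I N : Finset V}
    (hQ : Clq G Q) (hI : Ind G I) (hQI : Anti G Q I) (hN : Ind G N) (hc : 3 ≤ Q.card) :
    ∃ q : V, ∀ n ∈ N, (∃ i ∈ I, ∃ j ∈ I, i ≠ j ∧ G.Adj n i ∧ G.Adj n j) →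
      ∀ m ∈ Q, m ≠ q → G.Adj n m := by
  have hb : ∀ n ∈ N, (∃ i ∈ I, ∃ j ∈ I, i ≠ j ∧ G.Adj n i ∧ G.Adj n j) →
      ∀ m ∈ Q, ∀ m' ∈ Q, m ≠ m' → ¬ G.Adj n m → G.Adj n m' := by
    rintro n hn ⟨i, hi, j, hj, hij, hni, hnj⟩ m hm m' hm' hne h1
    by_contra h2
    have e1 := hQ m hm m' hm' hne
    have e2 := hI i hi j hj
    have e3 := hQI m hm i hi
    have e4 := hQI m hm j hj
    have e5 := hQI m' hm' i hi
    have e6 := hQI m' hm' j hj
    exact hp m m' i n j e1 (SimpleGraph.Adj.symm hni) hnj hij e2 e3 (not_symm' h1) e4 e5 (not_symm' h2) e6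
  by_cases h : ∃ n ∈ N, (∃ i ∈ I, ∃ j ∈ I, i ≠ j ∧ G.Adj n i ∧ G.Adj n j) ∧
      ∃ m ∈ Q, ¬ G.Adj n m
  · obtain ⟨n, hn, hnij, q, hq, hnq⟩ := h
    refine ⟨q, ?_⟩
    intro n' hn' hnij' m hm hmq
    by_contra hcon
    have h1 : G.Adj n m := hb n hn hnij q hq m hm hmq.symm hnq
    have h2 : G.Adj n' q := hb n' hn' hnij' m hm q hq hmq hcon
    obtain ⟨c, hcQ, hc2⟩ : ∃ c ∈ Q, c ∉ ({q, m} : Finset V) := by
      by_contra hno
      push Not at hno
      have := Finset.card_le_card (s := Q) (t := {q, m}) (fun c hcQ => hno c hcQ)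
      have h3 : ({q, m} : Finset V).card ≤ 2 := Finset.card_le_two
      omega
    simp only [mem_insert, mem_singleton, not_or] at hc2
    have h3 : G.Adj n c := hb n hn hnij q hq c hcQ (Ne.symm hc2.1) hnq
    have h4 : G.Adj n' c := hb n' hn' hnij' m hm c hcQ (Ne.symm hc2.2) hcon
    have h5 := hN n hn n' hn'
    have h6 := hQ q hq m hm hmq.symm
    have h7 := hQ q hq c hcQ (Ne.symm hc2.1)
    have h8 := hQ m hm c hcQ (Ne.symm hc2.2)
    clear hnij hnij' hb
    exact hg n m q n' c (SimpleGraph.Adj.symm h3) (SimpleGraph.Adj.symm h8) (SimpleGraph.Adj.symm h7) (SimpleGraph.Adj.symm h4) h1 (SimpleGraph.Adj.symm h6) (SimpleGraph.Adj.symm h2) hnq (not_symm' hcon) h5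
  · push Not at h
    obtain ⟨q, hq⟩ : Q.Nonempty := by
      rw [← Finset.card_pos]; omega
    exact ⟨q, fun n hn hnij m hm _ => h n hn hnij m hm⟩

theorem alpha_T {G : SimpleGraph V} (hp : NoP23 G) {Q I N : Finset V} (v : V)
    (hd : Disjoint Q I) (hI : Ind G I) (hQI : Anti G Q I) (hN : Ind G N) :
    ∃ (i0 : V) (T : Finset V), ∀ n ∈ N, (∃ i ∈ I, i ≠ i0 ∧ G.Adj n i) →
      (∃ i ∈ I, ∃ j ∈ I, i ≠ j ∧ G.Adj n i ∧ G.Adj n j) ∨ ∀ m ∈ Q, (G.Adj n m ↔ m ∈ T) := by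
  have key : ∀ n ∈ N, ∀ n' ∈ N, ∀ i ∈ I, ∀ i' ∈ I, i ≠ i' → G.Adj n i → G.Adj n' i' →
      ¬ G.Adj n i' → ¬ G.Adj n' i → ∀ m ∈ Q, G.Adj n m → G.Adj n' m := by
    intro n hn n' hn' i hi i' hi' hne h1 h2 h3 h4 m hm h5
    by_contra h6
    have e1 := hI i hi i' hi'
    have e2 := hQI m hm i hi
    have e3 := hQI m hm i' hi'
    have e4 := hN n hn n' hn'
    have hmi : m ≠ i := fun h => Finset.disjoint_left.mp hd hm (h ▸ hi)
    exact hp n' i' i n m h2 (SimpleGraph.Adj.symm h1) h5 (Ne.symm hmi) (not_symm' e2) h4 (not_symm' e4) h6 (not_symm' e1) (not_symm' h3) (not_symm' e3)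
  by_cases h : ∃ n ∈ N, ∃ i ∈ I, G.Adj n i ∧ ∀ j ∈ I, G.Adj n j → j = i
  · obtain ⟨n1, hn1, i1, hi1, h1, h2⟩ := h
    refine ⟨i1, nb G Q n1, ?_⟩
    rintro n hn ⟨i, hi, hne, hni⟩
    by_cases h3 : ∃ j ∈ I, i ≠ j ∧ G.Adj n j
    · obtain ⟨j, hj, hij, hnj⟩ := h3
      exact Or.inl ⟨i, hi, j, hj, hij, hni, hnj⟩
    · right
      push Not at h3
      intro m hm
      have h4 : ¬ G.Adj n i1 := h3 i1 hi1 hne
      have h5 : ¬ G.Adj n1 i := fun h6 => hne (h2 i hi h6)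
      rw [mem_nb]
      constructor
      · intro h6
        exact ⟨hm, key n hn n1 hn1 i hi i1 hi1 hne hni h1 h4 h5 m hm h6⟩
      · rintro ⟨_, h6⟩
        exact key n1 hn1 n hn i1 hi1 i hi hne.symm h1 hni h5 h4 m hm h6
  · push Not at h
    refine ⟨v, ∅, ?_⟩
    rintro n hn ⟨i, hi, _, hni⟩
    obtain ⟨j, hj, hnj, hji⟩ := h n hn i hi hni
    exact Or.inl ⟨i, hi, j, hj, hji.symm, hni, hnj⟩

theorem alpha_stmt (hT : TwoStmt) (hB : BipStmt) (hL : LamStmt) : AlphaStmt := by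
  obtain ⟨BT, hT⟩ := hT
  obtain ⟨KB, hB⟩ := hB
  obtain ⟨KL, hL⟩ := hL
  refine ⟨(KB + 1) * 2 ^ 2 + (BT KL KB (Fintype.card (Prop × Prop × Prop × Prop)) + 1) * 2 ^ 2, ?_⟩
  intro V G hg hp v Q I N hZ hQ hI hQI
  obtain ⟨hvM, hvN, hN, hvNn⟩ := hZ
  have hQN : Disjoint Q N := Finset.disjoint_left.mpr fun x hx hx' =>
    hvN x hx' (hvM x (mem_union_left _ hx))
  have hIN : Disjoint I N := Finset.disjoint_left.mpr fun x hx hx' =>
    hvN x hx' (hvM x (mem_union_right _ hx))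
  by_cases hc : Q.card ≤ 2
  · refine BD.mono ?_ (Nat.le_add_right _ _)
    refine BD.of_sdiff (X := Q) ?_ hc
    have h1 : BD G KB (I ∪ N) := hB V G I N hIN hI hN (alpha_bip hp hI hN)
    refine h1.sub ?_
    intro x hx
    simp only [mem_sdiff, mem_union] at hx ⊢
    tauto
  · push Not at hc
    refine BD.mono ?_ (Nat.le_add_left _ _)
    have hd : Disjoint Q I := by
      rw [Finset.disjoint_left]
      intro x hx hx'
      obtain ⟨y, hy, hyx⟩ : ∃ y ∈ Q, y ≠ x := by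
        by_contra hno
        push Not at hno
        have h1 := Finset.card_le_card (s := Q) (t := {x}) (fun y hy => by
          rw [mem_singleton]; exact hno y hy)
        rw [Finset.card_singleton] at h1
        omega
      exact hQI y hy x hx' (hQ y hy x hx hyx)
    obtain ⟨q, hq⟩ := alpha_q hg hp hQ hI hQI hN hc
    obtain ⟨i0, T, hT0⟩ := alpha_T hp v hd hI hQI hN
    set Q' := Q.erase q with hQ'
    set I' := I.erase i0 with hI'
    set N1 := N.filter (fun n => ∃ i ∈ I', G.Adj n i) with hN1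
    set N0 := N.filter (fun n => ¬ ∃ i ∈ I', G.Adj n i) with hN0
    have hQ'Q : Q' ⊆ Q := Finset.erase_subset _ _
    have hI'I : I' ⊆ I := Finset.erase_subset _ _
    have hN1N : N1 ⊆ N := Finset.filter_subset _ _
    have hN0N : N0 ⊆ N := Finset.filter_subset _ _
    have hA : BD G KL (Q' ∪ N0) := hL V G Q' N0
      (Finset.disjoint_of_subset_left hQ'Q (Finset.disjoint_of_subset_right hN0N hQN))
      (hQ.sub hQ'Q) (hN.sub hN0N) (alpha_lam hg (hQ.sub hQ'Q) (hN.sub hN0N))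
    have hC : BD G KB (I' ∪ N1) := hB V G I' N1
      (Finset.disjoint_of_subset_left hI'I (Finset.disjoint_of_subset_right hN1N hIN))
      (hI.sub hI'I) (hN.sub hN1N) (alpha_bip hp (hI.sub hI'I) (hN.sub hN1N))
    have hdAC : Disjoint (Q' ∪ N0) (I' ∪ N1) := by
      rw [Finset.disjoint_left]
      intro x hx hx'
      rw [mem_union] at hx hx'
      rcases hx with hx | hx <;> rcases hx' with hx' | hx'
      · exact Finset.disjoint_left.mp hd (hQ'Q hx) (hI'I hx')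
      · exact Finset.disjoint_left.mp hQN (hQ'Q hx) (hN1N hx')
      · exact Finset.disjoint_left.mp hIN (hI'I hx') (hN0N hx)
      · rw [hN0, mem_filter] at hx
        rw [hN1, mem_filter] at hx'
        exact hx.2 hx'.2
    have hmain := hT V G (Prop × Prop × Prop × Prop) KL KB (Q' ∪ N0) (I' ∪ N1)
      (fun x => (x ∈ Q', x ∈ T, x ∈ I', ∀ m ∈ Q', G.Adj x m))
      (fun l l' => l.1 ∧ ¬ l'.2.2.1 ∧ (l'.2.2.2 ∨ l.2.1)) hdAC hA hC ?_
    · refine BD.of_sdiff (X := {q, i0}) ?_ Finset.card_le_two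
      refine hmain.sub ?_
      intro x hx
      simp only [mem_sdiff, mem_union, mem_insert, mem_singleton, not_or] at hx
      rw [mem_union, mem_union, mem_union, hQ', hI', mem_erase, mem_erase]
      rcases hx with ⟨(hx | hx) | hx, h1, h2⟩
      · exact Or.inl (Or.inl ⟨h1, hx⟩)
      · exact Or.inr (Or.inl ⟨h2, hx⟩)
      · by_cases h3 : ∃ i ∈ I', G.Adj x i
        · exact Or.inr (Or.inr (by rw [hN1, mem_filter]; exact ⟨hx, h3⟩))
        · exact Or.inl (Or.inr (by rw [hN0, mem_filter]; exact ⟨hx, h3⟩))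
    · intro x hx y hy
      dsimp only
      rw [mem_union] at hx hy
      rcases hx with hx | hx
      · have hxQ := hQ'Q hx
        rcases hy with hy | hy
        · constructor
          · intro h; exact absurd h (hQI x hxQ y (hI'I hy))
          · rintro ⟨_, h, _⟩; exact absurd hy h
        · have hyN := hN1N hy
          have hyI : y ∉ I' := fun h => Finset.disjoint_left.mp hIN (hI'I h) hyN
          rw [hN1, mem_filter] at hy
          obtain ⟨_, i, hi, hyi⟩ := hy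
          rw [hI', mem_erase] at hi
          have h2 : ∀ m ∈ Q', m ≠ q := fun m hm => by
            rw [hQ', mem_erase] at hm; exact hm.1
          rcases hT0 y hyN ⟨i, hi.2, hi.1, hyi⟩ with h1 | h1
          · have h3 : ∀ m ∈ Q', G.Adj y m := fun m hm => hq y hyN h1 m (hQ'Q hm) (h2 m hm)
            exact ⟨fun _ => ⟨hx, hyI, Or.inl h3⟩, fun _ => (h3 x hx).symm⟩
          · constructor
            · intro h
              exact ⟨hx, hyI, Or.inr ((h1 x hxQ).mp h.symm)⟩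
            · rintro ⟨_, _, h | h⟩
              · exact (h x hx).symm
              · exact ((h1 x hxQ).mpr h).symm
      · have hxN := hN0N hx
        have hxQ : x ∉ Q' := fun h => Finset.disjoint_left.mp hQN (hQ'Q h) hxN
        constructor
        · intro h
          exfalso
          rcases hy with hy | hy
          · rw [hN0, mem_filter] at hx
            exact hx.2 ⟨y, hy, h⟩
          · exact hN x hxN y (hN1N hy) h
        · rintro ⟨h, _⟩; exact absurd h hxQ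

end Pool.Agent.H503R2.GP
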