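import Pool.Agent.H175F.Stmts2

/-! Task T11b of h175g (helper551): ZP-B, `C₅`-free, at least two nontrivial cliques. -/

namespace Pool.Agent.H551R2.GP

open Finset Classical
open Pool.Agent.H175R2 (DT nt on cpt Cn P4Free)
open Pool.Agent.H175G

variable {V : Type} {G : SimpleGraph V} {v : V} {M A : Finset V}

/-- the configuration -/
structure Cx (G : SimpleGraph V) (v : V) (M A : Finset V) : Prop where
  hg : NoGem G
  hp : NoP23 G
  hc : NoC5 G
  hM : ∀ m ∈ M, G.Adj v m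
  hA : ∀ x ∈ A, ¬ G.Adj v x
  hv : v ∉ A
  cl : Clus G A
  ex : ∃ a ∈ A, ∃ a' ∈ A, ∃ b ∈ A, ∃ b' ∈ A, G.Adj a a' ∧ G.Adj b b' ∧ ¬ G.Adj a b ∧ a ≠ b

/-- `m` has a neighbour in `A` -/
def inT (G : SimpleGraph V) (A : Finset V) (m : V) : Prop := ∃ a ∈ A, G.Adj m a

/-- the vertices of `M` with a neighbour in `A` -/
noncomputable def TT (G : SimpleGraph V) (M A : Finset V) : Finset V := M.filter (inT G A)

/-- the vertices of `M` without neighbours in `A` -/
noncomputable def KK (G : SimpleGraph V) (M A : Finset V) : Finset V :=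
  M.filter (fun m => ¬ inT G A m)

lemma mem_TT {m : V} : m ∈ TT G M A ↔ m ∈ M ∧ inT G A m := by simp [TT]

lemma mem_KK {m : V} : m ∈ KK G M A ↔ m ∈ M ∧ ¬ inT G A m := by simp [KK]

lemma KK_anti {k x : V} (hk : k ∈ KK G M A) (hx : x ∈ A) : ¬ G.Adj k x :=
  fun h => (mem_KK.mp hk).2 ⟨x, hx, h⟩

/-- different components of `A` -/
lemma step (h : Cx G v M A) {b d d' : V} (hb : b ∈ A) (hd : d ∈ A) (hd' : d' ∈ A)
    (h1 : ¬ G.Adj b d) (h2 : b ≠ d) (h3 : G.Adj d d') : ¬ G.Adj b d' ∧ b ≠ d' := by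
  constructor
  · intro h4
    exact h1 (h.cl b hb d' hd' d hd h4 h3.symm h2)
  · rintro rfl
    exact h1 h3.symm

lemma other (h : Cx G v M A) {b : V} (hb : b ∈ A) : ∃ d ∈ A, ∃ d' ∈ A, G.Adj d d' ∧
    ¬ G.Adj b d ∧ b ≠ d ∧ ¬ G.Adj b d' ∧ b ≠ d' := by
  obtain ⟨a, ha, a', ha', c, hc, c', hc', h1, h2, h3, h4⟩ := h.ex
  by_cases hba : b = a ∨ G.Adj b a
  · have h5 : ¬ G.Adj b c ∧ b ≠ c := by
      rcases hba with rfl | hba
      · exact ⟨h3, h4⟩
      · constructor
        · intro h5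
          exact h3 (h.cl a ha b hb c hc hba.symm h5 h4)
        · rintro rfl
          exact h3 hba.symm
    have h6 := step h hb hc hc' h5.1 h5.2 h2
    exact ⟨c, hc, c', hc', h2, h5.1, h5.2, h6.1, h6.2⟩
  · push Not at hba
    have h6 := step h hb ha ha' hba.2 hba.1 h1
    exact ⟨a, ha, a', ha', h1, hba.2, hba.1, h6.1, h6.2⟩

lemma L1 (h : Cx G v M A) {m x b c : V} (hm : m ∈ M) (hx : x ∈ A) (hb : b ∈ A) (hc : c ∈ A)
    (h1 : G.Adj m x) (h2 : G.Adj b c) (h3 : ¬ G.Adj x b) (h4 : x ≠ b) :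
    G.Adj m b ∨ G.Adj m c := by
  obtain ⟨h5, h6⟩ := step h hx hb hc h3 h4 h2
  obtain ⟨hg, hp, hcc, hM, hA, hv, cl, -⟩ := h
  have e1 := hM m hm
  have e2 := hA x hx
  have e3 := hA b hb
  have e4 := hA c hc
  by_contra hcon
  push Not at hcon
  obtain ⟨e5, e6⟩ := hcon
  have e7 : v ≠ x := fun h => hv (h ▸ hx)
  exact hp b c x m v h2 (SimpleGraph.Adj.symm h1) (SimpleGraph.Adj.symm e1) (Ne.symm e7) (not_symm' e2) (not_symm' h3) (not_symm' e5) (not_symm' e3) (not_symm' h5) (not_symm' e6) (not_symm' e4)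

lemma L2 (h : Cx G v M A) {m b c : V} (hm : m ∈ TT G M A) (hb : b ∈ A) (hc : c ∈ A)
    (h2 : G.Adj b c) : G.Adj m b ∨ G.Adj m c := by
  obtain ⟨hmM, x, hx, hmx⟩ := mem_TT.mp hm
  by_cases h3 : x = b ∨ G.Adj x b
  · obtain ⟨d, hd, d', hd', h4, h5, h6, h7, h8⟩ := other h hb
    have h9 : ¬ G.Adj x d ∧ x ≠ d := by
      rcases h3 with rfl | h3
      · exact ⟨h5, h6⟩
      · constructor
        · intro h9
          exact h5 (h.cl b hb x hx d hd h3.symm h9 h6)
        · rintro rfl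
          exact h5 h3.symm
    rcases L1 h hmM hx hd hd' hmx h4 h9.1 h9.2 with h10 | h10
    · exact L1 h hmM hd hb hc h10 h2 (fun h => h5 h.symm) h6.symm
    · exact L1 h hmM hd' hb hc h10 h2 (fun h => h7 h.symm) h8.symm
  · push Not at h3
    exact L1 h hmM hx hb hc hmx h2 h3.2 h3.1

lemma KK_clq (h : Cx G v M A) : Clq G (KK G M A) := by
  intro k1 h1 k2 h2 hne
  obtain ⟨a, ha, a', ha', c, hc, c', hc', e1, e2, e3, e4⟩ := h.ex
  have f1 := KK_anti h1 ha
  have f2 := KK_anti h1 ha'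
  have f3 := KK_anti h2 ha
  have f4 := KK_anti h2 ha'
  obtain ⟨hg, hp, hcc, hM, hA, hv, cl, -⟩ := h
  have g1 := hM k1 (mem_KK.mp h1).1
  have g2 := hM k2 (mem_KK.mp h2).1
  have g3 := hA a ha
  have g4 := hA a' ha'
  by_contra hcon
  exact hp a a' k1 v k2 e1 (SimpleGraph.Adj.symm g1) g2 hne hcon (not_symm' f1) (not_symm' g3) (not_symm' f3) (not_symm' f2) (not_symm' g4) (not_symm' f4)

lemma L3 (h : Cx G v M A) {m k1 k2 : V} (hm : m ∈ TT G M A) (h1 : k1 ∈ KK G M A)
    (h2 : k2 ∈ KK G M A) (hne : k1 ≠ k2) : G.Adj m k1 ∨ G.Adj m k2 := by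
  obtain ⟨a, ha, a', ha', c, hc, c', hc', e1, e2, e3, e4⟩ := h.ex
  have hk := KK_clq h k1 h1 k2 h2 hne
  obtain ⟨e5, e6⟩ := step h ha hc hc' e3 e4 e2
  obtain ⟨e7, e8⟩ := step h hc ha ha' (fun h => e3 h.symm) e4.symm e1
  have hmaa := L2 h hm ha ha' e1
  have hmcc := L2 h hm hc hc' e2
  obtain ⟨e9, e10⟩ := step h hc' ha ha' (fun h => e5 h.symm) e6.symm e1
  have key : ∀ x ∈ A, ∀ y ∈ A, G.Adj m x → G.Adj m y → ¬ G.Adj x y → x ≠ y →
      G.Adj m k1 ∨ G.Adj m k2 := by
    intro x hx y hy i1 i2 i3 i4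
    have f1 := KK_anti h1 hx
    have f2 := KK_anti h1 hy
    have f3 := KK_anti h2 hx
    have f4 := KK_anti h2 hy
    obtain ⟨hg, hp, hcc, -, -, -, -, -⟩ := h
    by_contra hcon
    push Not at hcon
    obtain ⟨j1, j2⟩ := hcon
    exact hp k1 k2 x m y hk (SimpleGraph.Adj.symm i1) i2 i4 i3 f1 (not_symm' j1) f2 f3 (not_symm' j2) f4
  rcases hmaa with i1 | i1 <;> rcases hmcc with i2 | i2
  · exact key a ha c hc i1 i2 e3 e4
  · exact key a ha c' hc' i1 i2 e5 e6
  · exact key a' ha' c hc i1 i2 (fun h => e7 h.symm) e8.symm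
  · exact key a' ha' c' hc' i1 i2 (fun h => e9 h.symm) e10.symm

lemma L4 (h : Cx G v M A) {m1 m2 x y : V} (h1 : m1 ∈ M) (h2 : m2 ∈ M) (hx : x ∈ A) (hy : y ∈ A)
    (e1 : G.Adj m1 m2) (e2 : G.Adj x y) (e3 : G.Adj m1 x) (e4 : G.Adj m2 x)
    (e5 : G.Adj m1 y) : G.Adj m2 y := by
  obtain ⟨hg, hp, hcc, hM, hA, hv, cl, -⟩ := h
  have f1 := hM m1 h1
  have f2 := hM m2 h2
  have f3 := hA x hx
  have f4 := hA y hy
  by_contra hcon
  exact hg y x m2 v m1 e5 e3 e1 (SimpleGraph.Adj.symm f1) (SimpleGraph.Adj.symm e2) (SimpleGraph.Adj.symm e4) (SimpleGraph.Adj.symm f2) (not_symm' hcon) (not_symm' f3) (not_symm' f4)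

lemma L5 (h : Cx G v M A) {m1 m2 x y : V} (h1 : m1 ∈ TT G M A) (h2 : m2 ∈ TT G M A)
    (hx : x ∈ A) (hy : y ∈ A) (e2 : G.Adj x y) (e3 : ¬ G.Adj m1 x) (e4 : ¬ G.Adj m2 y) :
    G.Adj m1 m2 := by
  have i1 := (L2 h h1 hx hy e2).resolve_left e3
  have i2 := (L2 h h2 hx hy e2).resolve_right e4
  obtain ⟨hg, hp, hcc, hM, hA, hv, cl, -⟩ := h
  have f1 := hM m1 (mem_TT.mp h1).1
  have f2 := hM m2 (mem_TT.mp h2).1
  have f3 := hA x hx
  have f4 := hA y hy
  by_contra hcon
  exact hcc x y m1 v m2 e2 (SimpleGraph.Adj.symm i1) (SimpleGraph.Adj.symm f1) f2 i2 (not_symm' e3) (not_symm' f3) (not_symm' f4) (not_symm' e4) hcon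

/-- the component of two missed vertices has size two -/
lemma L6 (h : Cx G v M A) {m1 m2 x y z : V} (h1 : m1 ∈ TT G M A) (h2 : m2 ∈ TT G M A)
    (hx : x ∈ A) (hy : y ∈ A) (hz : z ∈ A) (e2 : G.Adj x y) (e3 : ¬ G.Adj m1 x)
    (e4 : ¬ G.Adj m2 y) (e5 : G.Adj x z) : z = y := by
  by_contra hne
  have e1 := L5 h h1 h2 hx hy e2 e3 e4
  have e6 : G.Adj y z := h.cl y hy x hx z hz e2.symm e5 (Ne.symm hne)
  have i1 := (L2 h h1 hx hy e2).resolve_left e3
  have i2 := (L2 h h1 hx hz e5).resolve_left e3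
  have i3 := (L2 h h2 hy hz e6).resolve_left e4
  exact e4 (L4 h (mem_TT.mp h1).1 (mem_TT.mp h2).1 hz hy e1 e6.symm i2 i3 i1)

lemma L7 (h : Cx G v M A) {m1 m2 k1 k2 x : V} (h1 : m1 ∈ TT G M A) (h2 : m2 ∈ TT G M A)
    (h3 : k1 ∈ KK G M A) (h4 : k2 ∈ KK G M A) (hne : k1 ≠ k2) (e1 : ¬ G.Adj m1 k1)
    (e2 : ¬ G.Adj m2 k2) (hx : x ∈ A) (e3 : G.Adj m1 x) (e4 : G.Adj m2 x) : False := by
  have i1 := (L3 h h1 h3 h4 hne).resolve_left e1
  have i2 := (L3 h h2 h3 h4 hne).resolve_right e2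
  have i3 := KK_clq h k1 h3 k2 h4 hne
  have i4 := KK_anti h3 hx
  have i5 := KK_anti h4 hx
  obtain ⟨hg, hp, hcc, hM, hA, hv, cl, -⟩ := h
  have f1 := hM m1 (mem_TT.mp h1).1
  have f2 := hM m2 (mem_TT.mp h2).1
  have f3 := hA x hx
  have f4 := hM k1 (mem_KK.mp h3).1
  have f5 := hM k2 (mem_KK.mp h4).1
  exact hcc m1 k2 k1 m2 x i1 (SimpleGraph.Adj.symm i3) (SimpleGraph.Adj.symm i2) e4 (SimpleGraph.Adj.symm e3) e1 (id fun (h : SimpleGraph.Adj G m1 m2) => hg k1 v m1 x m2 i2 (SimpleGraph.Adj.symm f2) (SimpleGraph.Adj.symm h) e4 (SimpleGraph.Adj.symm f4) f1 e3 (not_symm' e1) f3 i4) (not_symm' e2) i5 i4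

/-- the missed vertices of `KK` -/
noncomputable def KM (G : SimpleGraph V) (M A : Finset V) : Finset V :=
  (KK G M A).filter (fun k => ∃ m ∈ TT G M A, ¬ G.Adj m k)

lemma KM_card (h : Cx G v M A) : (KM G M A).card ≤ 2 := by
  by_contra hcon
  push Not at hcon
  obtain ⟨k1, h1, k2, h2, k3, h3, n12, n13, n23⟩ := Finset.two_lt_card.mp hcon
  simp only [KM, mem_filter] at h1 h2 h3
  obtain ⟨h1, m1, g1, f1⟩ := h1
  obtain ⟨h2, m2, g2, f2⟩ := h2
  obtain ⟨h3, m3, g3, f3⟩ := h3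
  obtain ⟨a, ha, a', ha', c, hc, c', hc', e1, e2, e3, e4⟩ := h.ex
  rcases L2 h g1 ha ha' e1 with i1 | i1 <;> rcases L2 h g2 ha ha' e1 with i2 | i2 <;>
    rcases L2 h g3 ha ha' e1 with i3 | i3
  · exact L7 h g1 g2 h1 h2 n12 f1 f2 ha i1 i2
  · exact L7 h g1 g2 h1 h2 n12 f1 f2 ha i1 i2
  · exact L7 h g1 g3 h1 h3 n13 f1 f3 ha i1 i3
  · exact L7 h g2 g3 h2 h3 n23 f2 f3 ha' i2 i3
  · exact L7 h g2 g3 h2 h3 n23 f2 f3 ha i2 i3
  · exact L7 h g1 g3 h1 h3 n13 f1 f3 ha' i1 i3
  · exact L7 h g1 g2 h1 h2 n12 f1 f2 ha' i1 i2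
  · exact L7 h g1 g2 h1 h2 n12 f1 f2 ha' i1 i2

/-! ### kind 2 -/

/-- missed by a vertex of `TT` -/
def mis (G : SimpleGraph V) (M A : Finset V) (x : V) : Prop := ∃ m ∈ TT G M A, ¬ G.Adj m x

/-- vertices of `A` in a component with two missed vertices -/
def k2 (G : SimpleGraph V) (M A : Finset V) (x : V) : Prop :=
  x ∈ A ∧ mis G M A x ∧ ∃ y ∈ A, G.Adj x y ∧ mis G M A y

lemma partner (h : Cx G v M A) {x : V} (hx : k2 G M A x) : ∃ y, k2 G M A y ∧ G.Adj x y ∧
    (∀ z ∈ A, G.Adj x z → z = y) ∧ (∀ z ∈ A, G.Adj y z → z = x) := by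
  obtain ⟨hxA, ⟨m1, h1, e1⟩, y, hy, e2, m2, h2, e3⟩ := hx
  refine ⟨y, ⟨hy, ⟨m2, h2, e3⟩, x, hxA, e2.symm, m1, h1, e1⟩, e2, ?_, ?_⟩
  · intro z hz e4
    exact L6 h h1 h2 hxA hy hz e2 e1 e3 e4
  · intro z hz e4
    exact L6 h h2 h1 hy hxA hz e2.symm e3 e1 e4

/-- the vertices of `TT` missing a vertex of the component of `x` -/
noncomputable def CS (G : SimpleGraph V) (M A : Finset V) (x : V) : Finset V :=
  (TT G M A).filter (fun m => ∃ z ∈ A, (z = x ∨ G.Adj x z) ∧ ¬ G.Adj m z)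

lemma mem_CS {x m : V} : m ∈ CS G M A x ↔
    m ∈ TT G M A ∧ ∃ z ∈ A, (z = x ∨ G.Adj x z) ∧ ¬ G.Adj m z := by
  simp only [CS, mem_filter]

lemma CS_congr (h : Cx G v M A) {x y : V} (hx : x ∈ A) (hy : y ∈ A) (hxy : G.Adj x y) :
    CS G M A x = CS G M A y := by
  ext m
  rw [mem_CS, mem_CS]
  constructor
  · rintro ⟨h1, z, hz, h2, h3⟩
    refine ⟨h1, z, hz, ?_, h3⟩
    rcases h2 with rfl | h2
    · exact Or.inr hxy.symm
    · by_cases hzy : z = y
      · exact Or.inl hzy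
      · exact Or.inr (h.cl y hy x hx z hz hxy.symm h2 (Ne.symm hzy))
  · rintro ⟨h1, z, hz, h2, h3⟩
    refine ⟨h1, z, hz, ?_, h3⟩
    rcases h2 with rfl | h2
    · exact Or.inr hxy
    · by_cases hzx : z = x
      · exact Or.inl hzx
      · exact Or.inr (h.cl x hx y hy z hz hxy h2 (Ne.symm hzx))

/-- an element of `CS x` misses `x` or its partner -/
lemma CS_cases (h : Cx G v M A) {x m : V} (hx : k2 G M A x) (hm : m ∈ CS G M A x) :
    ∃ z w, k2 G M A z ∧ k2 G M A w ∧ G.Adj z w ∧ (z = x ∨ G.Adj x z) ∧ (w = x ∨ G.Adj x w) ∧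
      ¬ G.Adj m z ∧ G.Adj m w := by
  obtain ⟨y, hy, hxy, u1, u2⟩ := partner h hx
  obtain ⟨hmT, z, hz, h1, h2⟩ := mem_CS.mp hm
  rcases h1 with rfl | h1
  · exact ⟨z, y, hx, hy, hxy, Or.inl rfl, Or.inr hxy, h2,
      (L2 h hmT hx.1 hy.1 hxy).resolve_left h2⟩
  · obtain rfl := u1 z hz h1
    exact ⟨z, x, hy, hx, hxy.symm, Or.inr hxy, Or.inl rfl, h2,
      (L2 h hmT hx.1 hy.1 hxy).resolve_right h2⟩

lemma adj_of_not_CS {x m z : V} (hm : m ∈ TT G M A) (hm' : m ∉ CS G M A x) (hz : z ∈ A)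
    (hzx : z = x ∨ G.Adj x z) : G.Adj m z := by
  by_contra hcon
  exact hm' (mem_CS.mpr ⟨hm, z, hz, hzx, hcon⟩)

lemma C1 (h : Cx G v M A) {x m m' : V} (hx : k2 G M A x) (hm : m ∈ CS G M A x)
    (hm' : m' ∈ TT G M A) (hn : m' ∉ CS G M A x) : ¬ G.Adj m m' := by
  intro hadj
  obtain ⟨z, w, hz, hw, hzw, h1, h2, h3, h4⟩ := CS_cases h hx hm
  have e1 := adj_of_not_CS hm' hn hz.1 h1
  have e2 := adj_of_not_CS hm' hn hw.1 h2
  exact h3 (L4 h (mem_TT.mp hm').1 (mem_TT.mp (mem_CS.mp hm).1).1 hw.1 hz.1 hadj.symm hzw.symm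
    e2 h4 e1)

lemma C2 (h : Cx G v M A) {x m m' : V} (hx : k2 G M A x) (hm : m ∈ CS G M A x)
    (hm' : m' ∈ CS G M A x) : G.Adj m m' ∨ ∃ m'' ∈ CS G M A x, G.Adj m m'' ∧ G.Adj m'' m' := by
  obtain ⟨z, w, hz, hw, hzw, h1, h2, h3, h4⟩ := CS_cases h hx hm
  by_cases h5 : G.Adj m' z
  · -- `m'` misses `w`
    obtain ⟨z', w', hz', hw', hzw', h1', h2', h3', h4'⟩ := CS_cases h hx hm'
    obtain ⟨y, hy, hxy, u1, u2⟩ := partner h hx
    have hzz : z' = w := by
      rcases h1 with rfl | h1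
      · rcases h1' with rfl | h1'
        · exact absurd h5 h3'
        · rw [u1 z' hz'.1 h1', u1 w hw.1 hzw]
      · have e1 := u1 z hz.1 h1
        rcases h2 with rfl | h2
        · rcases h1' with h1' | h1'
          · exact h1'
          · exact absurd (u1 z' hz'.1 h1' ▸ e1 ▸ h5) h3'
        · have e2 := u1 w hw.1 h2
          rw [e1, e2] at hzw
          exact absurd hzw (G.irrefl)
    subst hzz
    exact Or.inl (L5 h (mem_CS.mp hm).1 (mem_CS.mp hm').1 hz.1 hw.1 hzw h3 h3')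
  · obtain ⟨m'', hm'', h6⟩ := hw.2.1
    refine Or.inr ⟨m'', mem_CS.mpr ⟨hm'', w, hw.1, h2, h6⟩, ?_, ?_⟩
    · exact L5 h (mem_CS.mp hm).1 hm'' hz.1 hw.1 hzw h3 h6
    · exact (L5 h (mem_CS.mp hm').1 hm'' hz.1 hw.1 hzw h5 h6).symm

lemma C3 (h : Cx G v M A) {x y m : V} (hx : k2 G M A x) (hy : k2 G M A y)
    (hmx : m ∈ CS G M A x) (hmy : m ∈ CS G M A y) : CS G M A x ⊆ CS G M A y := by
  intro m' hm'
  have key : ∀ p ∈ CS G M A y, ∀ q ∈ TT G M A, G.Adj p q → q ∈ CS G M A y := by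
    intro p hp q hq hpq
    by_contra hn
    exact C1 h hy hp hq hn hpq
  rcases C2 h hx hmx hm' with h1 | ⟨m'', h2, h3, h4⟩
  · exact key m hmy m' (mem_CS.mp hm').1 h1
  · exact key m'' (key m hmy m'' (mem_CS.mp h2).1 h3) m' (mem_CS.mp hm').1 h4

lemma CS_disj (h : Cx G v M A) {x y m : V} (hx : k2 G M A x) (hy : k2 G M A y)
    (hne : CS G M A x ≠ CS G M A y) (hmx : m ∈ CS G M A x) : m ∉ CS G M A y := fun hmy =>
  hne (Subset.antisymm (C3 h hx hy hmx hmy) (C3 h hy hx hmy hmx))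

/-- the gem lemma -/
lemma I1 (h : Cx G v M A) {a b a2 b2 m1 m1' m2 : V} (ha : a ∈ A) (hb : b ∈ A) (hab : G.Adj a b)
    (ha2 : a2 ∈ A) (hb2 : b2 ∈ A) (hab2 : G.Adj a2 b2) (hbb : ¬ G.Adj b b2)
    (h1 : m1 ∈ TT G M A) (h1' : m1' ∈ TT G M A) (h2 : m2 ∈ TT G M A)
    (e1 : ¬ G.Adj m1 a) (e2 : ¬ G.Adj m1 a2) (e3 : ¬ G.Adj m1' a) (e4 : ¬ G.Adj m1' b2)
    (e5 : ¬ G.Adj m2 b) (e6 : ¬ G.Adj m2 a2) : False := by
  have f1 := (L2 h h1 ha hb hab).resolve_left e1
  have f2 := (L2 h h1 ha2 hb2 hab2).resolve_left e2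
  have f3 := (L2 h h1' ha hb hab).resolve_left e3
  have f5 := (L2 h h2 ha2 hb2 hab2).resolve_left e6
  have f6 := L5 h h1 h1' ha2 hb2 hab2 e2 e4
  have f7 := L5 h h1 h2 ha hb hab e1 e5
  have f8 := L5 h h1' h2 ha hb hab e3 e5
  obtain ⟨hg, hp, hcc, -, -, -, -, -⟩ := h
  exact hg b m1' m2 b2 m1 f1 f6 f7 f2 (SimpleGraph.Adj.symm f3) f8 f5 (not_symm' e5) e4 hbb

/-- vertices of `TT` missing `x` -/
noncomputable def Tm (G : SimpleGraph V) (M A : Finset V) (x : V) : Finset V :=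
  (TT G M A).filter (fun m => ¬ G.Adj m x)

lemma mem_Tm {x m : V} : m ∈ Tm G M A x ↔ m ∈ TT G M A ∧ ¬ G.Adj m x := by
  simp only [Tm, mem_filter]

/-- case I: all components of kind 2 give the same bipartition -/
lemma caseI (h : Cx G v M A) (hI : ∀ x y, k2 G M A x → k2 G M A y → CS G M A x = CS G M A y) :
    ∃ C1 C2 : Finset V, ∀ x, k2 G M A x → Tm G M A x = C1 ∨ Tm G M A x = C2 := by
  by_cases hex : ∃ a, k2 G M A a
  · obtain ⟨a, ha⟩ := hex
    obtain ⟨b, hb, hab, ua, ub⟩ := partner h ha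
    refine ⟨Tm G M A a, Tm G M A b, fun x hx => ?_⟩
    obtain ⟨y, hy, hxy, ux, uy⟩ := partner h hx
    by_cases hxa : x = a
    · rw [hxa]; exact Or.inl rfl
    by_cases hxb : x = b
    · rw [hxb]; exact Or.inr rfl
    have n1 : ¬ G.Adj a x := fun e => hxb (ua x hx.1 e)
    have n2 : ¬ G.Adj b x := fun e => hxa (ub x hx.1 e)
    have hya : y ≠ a := by
      rintro rfl
      exact n1 hxy.symm
    have hyb : y ≠ b := by
      rintro rfl
      exact n2 hxy.symm
    have n3 : ¬ G.Adj a y := fun e => hyb (ua y hy.1 e)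
    have n4 : ¬ G.Adj b y := fun e => hya (ub y hy.1 e)
    have hCS := hI x a hx ha
    -- union of the bipartitions
    have hun : ∀ m ∈ TT G M A, (¬ G.Adj m x ∨ ¬ G.Adj m y) → (¬ G.Adj m a ∨ ¬ G.Adj m b) := by
      intro m hm hmm
      have h1 : m ∈ CS G M A x := by
        rcases hmm with h1 | h1
        · exact mem_CS.mpr ⟨hm, x, hx.1, Or.inl rfl, h1⟩
        · exact mem_CS.mpr ⟨hm, y, hy.1, Or.inr hxy, h1⟩
      rw [hCS] at h1
      obtain ⟨-, z, hz, h2, h3⟩ := mem_CS.mp h1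
      rcases h2 with rfl | h2
      · exact Or.inl h3
      · rw [ua z hz h2] at h3
        exact Or.inr h3
    have hun' : ∀ m ∈ TT G M A, (¬ G.Adj m a ∨ ¬ G.Adj m b) → (¬ G.Adj m x ∨ ¬ G.Adj m y) := by
      intro m hm hmm
      have h1 : m ∈ CS G M A a := by
        rcases hmm with h1 | h1
        · exact mem_CS.mpr ⟨hm, a, ha.1, Or.inl rfl, h1⟩
        · exact mem_CS.mpr ⟨hm, b, hb.1, Or.inr hab, h1⟩
      rw [← hCS] at h1
      obtain ⟨-, z, hz, h2, h3⟩ := mem_CS.mp h1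
      rcases h2 with rfl | h2
      · exact Or.inl h3
      · rw [ux z hz h2] at h3
        exact Or.inr h3
    obtain ⟨ma, hma, ea⟩ := ha.2.1
    obtain ⟨mb, hmb, eb⟩ := hb.2.1
    obtain ⟨mx, hmx, ex⟩ := hx.2.1
    obtain ⟨my, hmy, ey⟩ := hy.2.1
    have sym : ∀ {p q : V}, ¬ G.Adj p q → ¬ G.Adj q p := fun hpq e => hpq e.symm
    by_cases c1 : ∃ p ∈ TT G M A, ¬ G.Adj p x ∧ ¬ G.Adj p a
    · obtain ⟨p, hp, p1, p2⟩ := c1
      by_cases c2 : ∃ q ∈ TT G M A, ¬ G.Adj q x ∧ ¬ G.Adj q b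
      · obtain ⟨q, hq, q1, q2⟩ := c2
        exfalso
        rcases hun my hmy (Or.inr ey) with r1 | r1
        · exact I1 h hx.1 hy.1 hxy ha.1 hb.1 hab (sym n4) hp hq hmy p1 p2 q1 q2 ey r1
        · exact I1 h hx.1 hy.1 hxy hb.1 ha.1 hab.symm (sym n3) hq hp hmy q1 q2 p1 p2 ey r1
      · left
        push Not at c2
        ext m
        rw [mem_Tm, mem_Tm]
        constructor
        · rintro ⟨hm, m1⟩
          refine ⟨hm, ?_⟩
          rcases hun m hm (Or.inl m1) with r1 | r1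
          · exact r1
          · exact absurd (c2 m hm m1) r1
        · rintro ⟨hm, m1⟩
          refine ⟨hm, ?_⟩
          by_contra hmx'
          have m2 : ¬ G.Adj m y := (hun' m hm (Or.inl m1)).resolve_left (fun e => e hmx')
          -- `mb` misses `b`, so it does not miss `x`; it misses `y`
          have b1 : G.Adj mb x := by
            by_contra b1
            exact eb (c2 mb hmb b1)
          have b2 : ¬ G.Adj mb y := (hun' mb hmb (Or.inr eb)).resolve_left (fun e => e b1)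
          exact I1 h hy.1 hx.1 hxy.symm ha.1 hb.1 hab (sym n2) hm hmb hp m2 m1 b2 eb p1 p2
    · push Not at c1
      right
      ext m
      rw [mem_Tm, mem_Tm]
      constructor
      · rintro ⟨hm, m1⟩
        refine ⟨hm, ?_⟩
        rcases hun m hm (Or.inl m1) with r1 | r1
        · exact absurd (c1 m hm m1) r1
        · exact r1
      · rintro ⟨hm, m1⟩
        refine ⟨hm, ?_⟩
        by_contra hmx'
        have m2 : ¬ G.Adj m y := (hun' m hm (Or.inr m1)).resolve_left (fun e => e hmx')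
        have a1 : G.Adj ma x := by
          by_contra a1
          exact ea (c1 ma hma a1)
        have a2 : ¬ G.Adj ma y := (hun' ma hma (Or.inl ea)).resolve_left (fun e => e a1)
        have x1 : ¬ G.Adj mx b := by
          rcases hun mx hmx (Or.inl ex) with r1 | r1
          · exact absurd (c1 mx hmx ex) r1
          · exact r1
        exact I1 h hy.1 hx.1 hxy.symm hb.1 ha.1 hab.symm (sym n1) hm hma hmx m2 m1 a2 ea ex x1
  · push Not at hex
    exact ⟨∅, ∅, fun x hx => absurd hx (hex x)⟩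

/-! ### case II -/

lemma CS_nonempty {x : V} (hx : k2 G M A x) : ∃ m, m ∈ CS G M A x := by
  obtain ⟨m, hm, e⟩ := hx.2.1
  exact ⟨m, mem_CS.mpr ⟨hm, x, hx.1, Or.inl rfl, e⟩⟩

lemma II1 (h : Cx G v M A) {x y m1 m2 z : V} (hx : k2 G M A x) (hy : k2 G M A y)
    (hne : CS G M A x ≠ CS G M A y) (h1 : m1 ∈ CS G M A x) (h2 : m2 ∈ CS G M A y) (hz : z ∈ A)
    (z1 : z ≠ x) (z2 : ¬ G.Adj x z) (z3 : z ≠ y) (z4 : ¬ G.Adj y z) (e : G.Adj m1 z) :
    G.Adj m2 z := by
  have d1 := CS_disj h hx hy hne h1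
  have d2 := CS_disj h hy hx (Ne.symm hne) h2
  have t1 := (mem_CS.mp h1).1
  have t2 := (mem_CS.mp h2).1
  have e0 : ¬ G.Adj m1 m2 := C1 h hx h1 t2 d2
  obtain ⟨-, a, ha, a1, a2⟩ := mem_CS.mp h1
  obtain ⟨-, b, hb, b1, b2⟩ := mem_CS.mp h2
  have e1 := adj_of_not_CS t1 d1 hb b1
  have e2 := adj_of_not_CS t2 d2 ha a1
  have hxy : x ≠ y := fun hh => hne (by rw [hh])
  have hxy' : ¬ G.Adj x y := fun hh => hne (CS_congr h hx.1 hy.1 hh)
  -- components
  have trans : ∀ {p q r : V}, p ∈ A → q ∈ A → r ∈ A → (q = p ∨ G.Adj p q) →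
      (r = q ∨ G.Adj q r) → (r = p ∨ G.Adj p r) := by
    intro p q r hp hq hr e3 e4
    rcases e3 with rfl | e3
    · exact e4
    · rcases e4 with rfl | e4
      · exact Or.inr e3
      · by_cases hrp : r = p
        · exact Or.inl hrp
        · exact Or.inr (h.cl p hp q hq r hr e3 e4 (Ne.symm hrp))
  have syc : ∀ {p q : V}, (q = p ∨ G.Adj p q) → (p = q ∨ G.Adj q p) := by
    intro p q e3
    rcases e3 with rfl | e3
    · exact Or.inl rfl
    · exact Or.inr e3.symm
  have n1 : ¬ (b = a ∨ G.Adj a b) := by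
    intro e3
    have e4 := trans hx.1 ha hb a1 e3
    have e5 := trans hx.1 hb hy.1 e4 (syc b1)
    rcases e5 with e5 | e5
    · exact hxy e5.symm
    · exact hxy' e5
  have n2 : ¬ (z = a ∨ G.Adj a z) := by
    intro e3
    rcases trans hx.1 ha hz a1 e3 with e5 | e5
    · exact z1 e5
    · exact z2 e5
  have n3 : ¬ (z = b ∨ G.Adj b z) := by
    intro e3
    rcases trans hy.1 hb hz b1 e3 with e5 | e5
    · exact z3 e5
    · exact z4 e5
  push Not at n1 n2 n3
  obtain ⟨n11, n12⟩ := n1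
  obtain ⟨n21, n22⟩ := n2
  obtain ⟨n31, n32⟩ := n3
  obtain ⟨hg, hp, hcc, -, -, -, -, -⟩ := h
  by_contra hcon
  exact hp m2 a z m1 b e2 (SimpleGraph.Adj.symm e) e1 n31 (not_symm' n32) hcon (not_symm' e0) b2 n22 (not_symm' a2) n12

lemma exists_third {X : Type} {a p q : X} (h : p ≠ q) : p ≠ a ∨ q ≠ a := by
  by_contra hcon
  push Not at hcon
  exact h (hcon.1.trans hcon.2.symm)

/-- in case II different components have different `CS` -/
lemma II2 (h : Cx G v M A) {p q : V} (hp : k2 G M A p) (hq : k2 G M A q)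
    (hpq : CS G M A p ≠ CS G M A q) {x y : V} (hx : k2 G M A x) (hy : k2 G M A y) (hxy : x ≠ y)
    (hxy' : ¬ G.Adj x y) : CS G M A x ≠ CS G M A y := by
  intro heq
  obtain ⟨r, hr, hrx⟩ : ∃ r, k2 G M A r ∧ CS G M A r ≠ CS G M A x := by
    rcases exists_third (a := CS G M A x) hpq with h1 | h1
    · exact ⟨p, hp, h1⟩
    · exact ⟨q, hq, h1⟩
  obtain ⟨m1, hm1, e1⟩ := hx.2.1
  have c1 : m1 ∈ CS G M A x := mem_CS.mpr ⟨hm1, x, hx.1, Or.inl rfl, e1⟩
  obtain ⟨m2, c2⟩ := CS_nonempty hr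
  have d2 := CS_disj h hr hx hrx c2
  have e2 : G.Adj m2 x := adj_of_not_CS (mem_CS.mp c2).1 d2 hx.1 (Or.inl rfl)
  rw [heq] at c1
  refine e1 (II1 h hr hy (by rw [← heq]; exact hrx) c2 c1 hx.1 ?_ ?_ hxy (fun e => hxy' e.symm) e2)
  · rintro rfl
    exact hrx rfl
  · intro e
    exact hrx (CS_congr h hr.1 hx.1 e)

/-- in case II the vertices of the `CS` have the same neighbours outside kind 2 -/
lemma II5 (h : Cx G v M A) {p q : V} (hp : k2 G M A p) (hq : k2 G M A q)
    (hpq : CS G M A p ≠ CS G M A q) {x y m m' z : V} (hx : k2 G M A x) (hy : k2 G M A y)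
    (hm : m ∈ CS G M A x) (hm' : m' ∈ CS G M A y) (hz : z ∈ A) (hz2 : ¬ k2 G M A z)
    (e : G.Adj m z) : G.Adj m' z := by
  have out : ∀ {w : V}, k2 G M A w → z ≠ w ∧ ¬ G.Adj w z := by
    intro w hw
    constructor
    · rintro rfl
      exact hz2 hw
    · intro e
      obtain ⟨w', hw', -, u1, -⟩ := partner h hw
      rw [u1 z hz e] at hz2
      exact hz2 hw'
  have key : ∀ {x y m m' : V}, k2 G M A x → k2 G M A y → CS G M A x ≠ CS G M A y →
      m ∈ CS G M A x → m' ∈ CS G M A y → G.Adj m z → G.Adj m' z := by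
    intro x y m m' hx hy hne hm hm' e
    exact II1 h hx hy hne hm hm' hz (out hx).1 (out hx).2 (out hy).1 (out hy).2 e
  by_cases hxy : CS G M A x = CS G M A y
  · obtain ⟨r, hr, hrx⟩ : ∃ r, k2 G M A r ∧ CS G M A r ≠ CS G M A x := by
      rcases exists_third (a := CS G M A x) hpq with h1 | h1
      · exact ⟨p, hp, h1⟩
      · exact ⟨q, hq, h1⟩
    obtain ⟨m2, c2⟩ := CS_nonempty hr
    have e2 := key hx hr (Ne.symm hrx) hm c2 e
    exact key hr hy (by rw [← hxy]; exact hrx) c2 hm' e2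
  · exact key hx hy hxy hm hm' e

/-! ### assembly -/

/-- component of `x` in `A` -/
noncomputable def cp (G : SimpleGraph V) (A : Finset V) (x : V) : Finset V :=
  A.filter (fun y => y = x ∨ G.Adj x y)

lemma mem_cp {x y : V} : y ∈ cp G A x ↔ y ∈ A ∧ (y = x ∨ G.Adj x y) := by
  simp only [cp, mem_filter]

lemma self_cp {x : V} (hx : x ∈ A) : x ∈ cp G A x := mem_cp.mpr ⟨hx, Or.inl rfl⟩

lemma cp_eq (h : Cx G v M A) {x y : V} (hx : x ∈ A) (hy : y ∈ A) (hxy : G.Adj x y) :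
    cp G A x = cp G A y := by
  ext z
  rw [mem_cp, mem_cp]
  constructor
  · rintro ⟨hz, h1⟩
    refine ⟨hz, ?_⟩
    rcases h1 with rfl | h1
    · exact Or.inr hxy.symm
    · by_cases hzy : z = y
      · exact Or.inl hzy
      · exact Or.inr (h.cl y hy x hx z hz hxy.symm h1 (Ne.symm hzy))
  · rintro ⟨hz, h1⟩
    refine ⟨hz, ?_⟩
    rcases h1 with rfl | h1
    · exact Or.inr hxy
    · by_cases hzx : z = x
      · exact Or.inl hzx
      · exact Or.inr (h.cl x hx y hy z hz hxy h1 (Ne.symm hzx))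

lemma cp_eq_iff (h : Cx G v M A) {x y : V} (hx : x ∈ A) (hy : y ∈ A) :
    cp G A x = cp G A y ↔ (y = x ∨ G.Adj x y) := by
  constructor
  · intro e
    have h1 : y ∈ cp G A x := by rw [e]; exact self_cp hy
    exact (mem_cp.mp h1).2
  · rintro (rfl | e)
    · rfl
    · exact cp_eq h hx hy e

lemma k2_of_cp (h : Cx G v M A) {x y : V} (hx : k2 G M A x) (hy : y ∈ cp G A x) :
    k2 G M A y := by
  obtain ⟨z, hz, hxz, u1, u2⟩ := partner h hx
  obtain ⟨h1, h2⟩ := mem_cp.mp hy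
  rcases h2 with rfl | h2
  · exact hx
  · rw [u1 y h1 h2]
    exact hz

/-- kind 2 components have two elements -/
lemma cp_card (h : Cx G v M A) {x : V} (hx : k2 G M A x) : (cp G A x).card ≤ 2 := by
  obtain ⟨z, hz, hxz, u1, u2⟩ := partner h hx
  have h1 : cp G A x ⊆ {x, z} := by
    intro y hy
    obtain ⟨h1, h2⟩ := mem_cp.mp hy
    simp only [mem_insert, mem_singleton]
    rcases h2 with rfl | h2
    · exact Or.inl rfl
    · exact Or.inr (u1 y h1 h2)
  exact (card_le_card h1).trans card_le_two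

/-- the blocks -/
noncomputable def bl (G : SimpleGraph V) (M A CC : Finset V) (rp : V → V) (x : V) :
    Option V × Finset V :=
  if x ∈ TT G M A ∧ x ∉ CC then (some x, ∅) else if x ∈ CC then (none, cp G A (rp x))
  else if x ∈ A then (none, cp G A x) else (none, ∅)

/-- the vertices of `KK` that are complete to `TT` -/
noncomputable def K1 (G : SimpleGraph V) (M A : Finset V) : Finset V := KK G M A \ KM G M A

/-- the vertices of `A` that are treated as isolated -/
noncomputable def A0 (G : SimpleGraph V) (M A : Finset V) : Finset V :=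
  A.filter (fun x => ¬ k2 G M A x ∧ (mis G M A x ∨ ∀ y ∈ A, ¬ G.Adj x y))

lemma mem_A0 {x : V} : x ∈ A0 G M A ↔ x ∈ A ∧ ¬ k2 G M A x ∧
    (mis G M A x ∨ ∀ y ∈ A, ¬ G.Adj x y) := by
  simp only [A0, mem_filter]

lemma A0_ind : Ind G (A0 G M A) := by
  intro x hx y hy hxy
  obtain ⟨h1, h2, h3⟩ := mem_A0.mp hx
  obtain ⟨g1, g2, g3⟩ := mem_A0.mp hy
  rcases h3 with h3 | h3
  · rcases g3 with g3 | g3
    · exact h2 ⟨h1, h3, y, g1, hxy, g3⟩
    · exact g3 x h1 hxy.symm
  · exact h3 y g1 hxy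

lemma K1_adj {k m : V} (hk : k ∈ K1 G M A) (hm : m ∈ TT G M A) : G.Adj k m := by
  simp only [K1, mem_sdiff, KM, mem_filter, not_and, not_exists] at hk
  by_contra hcon
  exact hk.2 hk.1 m hm (fun e => hcon e.symm)

lemma K1_KK {k : V} (hk : k ∈ K1 G M A) : k ∈ KK G M A := (mem_sdiff.mp hk).1

lemma notA_of_M (h : Cx G v M A) {m : V} (hm : m ∈ M) : m ∉ A := fun hx => h.hA m hx (h.hM m hm)

lemma bl_TT {CC : Finset V} {rp : V → V} {x : V} (hx : x ∈ TT G M A) (hx' : x ∉ CC) :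
    bl G M A CC rp x = (some x, ∅) := by
  unfold bl
  rw [if_pos ⟨hx, hx'⟩]

lemma bl_CC {CC : Finset V} {rp : V → V} {x : V} (hx' : x ∈ CC) :
    bl G M A CC rp x = (none, cp G A (rp x)) := by
  unfold bl
  rw [if_neg (fun e => e.2 hx'), if_pos hx']

lemma bl_A (h : Cx G v M A) {CC : Finset V} {rp : V → V} (hCC : CC ⊆ TT G M A) {x : V}
    (hx : x ∈ A) : bl G M A CC rp x = (none, cp G A x) := by
  have h1 : x ∉ TT G M A := fun e => notA_of_M h (mem_TT.mp e).1 hx
  unfold bl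
  rw [if_neg (fun e => h1 e.1), if_neg (fun e => h1 (hCC e)), if_pos hx]

lemma bl_K1 (h : Cx G v M A) {CC : Finset V} {rp : V → V} (hCC : CC ⊆ TT G M A) {x : V}
    (hx : x ∈ K1 G M A) : bl G M A CC rp x = (none, ∅) := by
  have h0 := mem_KK.mp (K1_KK hx)
  have h1 : x ∉ TT G M A := fun e => h0.2 (mem_TT.mp e).2
  have h2 : x ∉ A := notA_of_M h h0.1
  unfold bl
  rw [if_neg (fun e => h1 e.1), if_neg (fun e => h1 (hCC e)), if_neg h2]

lemma asm (hA : AttachStmt) (hZ : ZStmt) (Λ : Type) [Fintype Λ] :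
    ∃ K : ℕ, ∀ (V : Type) (G : SimpleGraph V) (v : V) (M A CC : Finset V) (rp : V → V)
      (lab : V → Λ) (F : Λ → Λ → Prop), Cx G v M A → CC ⊆ TT G M A →
      (∀ m ∈ CC, k2 G M A (rp m)) →
      (∀ x ∈ CC ∪ K1 G M A ∪ (A \ A0 G M A), ∀ y ∈ TT G M A ∪ K1 G M A ∪ A,
        bl G M A CC rp x ≠ bl G M A CC rp y → (G.Adj x y ↔ F (lab x) (lab y))) →
      BD G K (TT G M A ∪ K1 G M A ∪ A) := by
  obtain ⟨B, hB⟩ := hA
  obtain ⟨Kz, hKz⟩ := hZ
  refine ⟨B Kz 8 (Fintype.card Λ), ?_⟩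
  intro V G v M A CC rp lab F h hCC hrp hF
  have hu : (TT G M A \ CC ∪ A0 G M A) ∪ (CC ∪ K1 G M A ∪ (A \ A0 G M A)) =
      TT G M A ∪ K1 G M A ∪ A := by
    ext x
    simp only [mem_union, mem_sdiff]
    constructor
    · rintro ((h1 | h1) | ((h1 | h1) | h1))
      · exact Or.inl (Or.inl h1.1)
      · exact Or.inr (mem_A0.mp h1).1
      · exact Or.inl (Or.inl (hCC h1))
      · exact Or.inl (Or.inr h1)
      · exact Or.inr h1.1
    · rintro ((h1 | h1) | h1)
      · by_cases h2 : x ∈ CC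
        · exact Or.inr (Or.inl (Or.inl h2))
        · exact Or.inl (Or.inl ⟨h1, h2⟩)
      · exact Or.inr (Or.inl (Or.inr h1))
      · by_cases h2 : x ∈ A0 G M A
        · exact Or.inl (Or.inr h2)
        · exact Or.inr (Or.inr ⟨h1, h2⟩)
  have main := hB V G Λ (Option V × Finset V) Kz 8 (TT G M A \ CC ∪ A0 G M A)
    (CC ∪ K1 G M A ∪ (A \ A0 G M A)) lab F (bl G M A CC rp) ?_ ?_ ?_ ?_
  · rwa [hu] at main
  · -- width of `V0`
    refine hKz V G h.hg h.hp v _ _ ⟨?_, ?_, A0_ind, ?_⟩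
    · intro m hm
      exact h.hM m (mem_TT.mp (mem_sdiff.mp hm).1).1
    · intro n hn
      exact h.hA n (mem_A0.mp hn).1
    · intro hn
      exact h.hv (mem_A0.mp hn).1
  · -- one vertex per block
    intro x hx y hy hxy
    rw [mem_union] at hx hy
    rcases hx with hx | hx
    · rw [mem_sdiff] at hx
      rw [bl_TT hx.1 hx.2] at hxy
      rcases hy with hy | hy
      · rw [mem_sdiff] at hy
        rw [bl_TT hy.1 hy.2] at hxy
        simpa using hxy
      · rw [bl_A h hCC (mem_A0.mp hy).1] at hxy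
        simp at hxy
    · rw [bl_A h hCC (mem_A0.mp hx).1] at hxy
      rcases hy with hy | hy
      · rw [mem_sdiff] at hy
        rw [bl_TT hy.1 hy.2] at hxy
        simp at hxy
      · rw [bl_A h hCC (mem_A0.mp hy).1] at hxy
        simp only [Prod.mk.injEq, true_and] at hxy
        rcases (cp_eq_iff h (mem_A0.mp hx).1 (mem_A0.mp hy).1).mp hxy with h1 | h1
        · exact h1.symm
        · exact absurd h1 (A0_ind x hx y hy)
  · -- width of the blocks
    rw [hu]
    -- description of the elements of the blocks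
    have hcc : ∀ m ∈ CC, ∀ S : Finset V, (∀ y ∈ S, y ∈ TT G M A ∪ K1 G M A ∪ A ∧
        bl G M A CC rp y = (none, cp G A (rp m))) → BD G 8 S := by
      intro m hm S hS
      have h1 : BD G ((1 + 1) * 2 ^ 2) S := by
        apply BD.of_sdiff (X := cp G A (rp m)) _ (cp_card h (hrp m hm))
        apply BD.cograph
        apply p4free_of_nb h.hg (v := v)
        intro y hy
        rw [mem_sdiff] at hy
        obtain ⟨hy, h3⟩ := hy
        obtain ⟨h1, h2⟩ := hS y hy
        rw [mem_union, mem_union] at h1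
        rcases h1 with (h1 | h1) | h1
        · exact h.hM y (mem_TT.mp h1).1
        · exact h.hM y (mem_KK.mp (K1_KK h1)).1
        · exfalso
          rw [bl_A h hCC h1] at h2
          simp only [Prod.mk.injEq, true_and] at h2
          apply h3
          rw [← h2]
          exact self_cp h1
      exact h1
    have key : ∀ x ∈ TT G M A ∪ K1 G M A ∪ A, ∀ S : Finset V, (∀ y ∈ S,
        y ∈ TT G M A ∪ K1 G M A ∪ A ∧ bl G M A CC rp y = bl G M A CC rp x) → BD G 8 S := by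
      intro x hx S hS
      rw [mem_union, mem_union] at hx
      by_cases hxC : x ∈ CC
      · rw [bl_CC hxC] at hS
        exact hcc x hxC S hS
      rcases hx with (hx | hx) | hx
      · rw [bl_TT hx hxC] at hS
        refine (BD.singleton (x := x)).sub ?_
        intro y hy
        obtain ⟨h1, h2⟩ := hS y hy
        rw [mem_union, mem_union] at h1
        rw [mem_singleton]
        by_cases hyC : y ∈ CC
        · rw [bl_CC hyC] at h2
          simp at h2
        · rcases h1 with (h1 | h1) | h1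
          · rw [bl_TT h1 hyC] at h2
            simpa using h2
          · rw [bl_K1 h hCC h1] at h2
            simp at h2
          · rw [bl_A h hCC h1] at h2
            simp at h2
      · rw [bl_K1 h hCC hx] at hS
        refine ((BD.clq (KK_clq h)).mono (by norm_num)).sub ?_
        intro y hy
        obtain ⟨h1, h2⟩ := hS y hy
        rw [mem_union, mem_union] at h1
        by_cases hyC : y ∈ CC
        · exfalso
          rw [bl_CC hyC] at h2
          simp only [Prod.mk.injEq, true_and] at h2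
          have := self_cp (G := G) (hrp y hyC).1
          rw [h2] at this
          simp at this
        · rcases h1 with (h1 | h1) | h1
          · rw [bl_TT h1 hyC] at h2
            simp at h2
          · exact K1_KK h1
          · exfalso
            rw [bl_A h hCC h1] at h2
            simp only [Prod.mk.injEq, true_and] at h2
            have := self_cp (G := G) h1
            rw [h2] at this
            simp at this
      · rw [bl_A h hCC hx] at hS
        by_cases hk : ∃ m ∈ CC, cp G A (rp m) = cp G A x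
        · obtain ⟨m, hm, e⟩ := hk
          rw [← e] at hS
          exact hcc m hm S hS
        · have hq : Clq G (cp G A x) := by
            intro y hy z hz hne
            obtain ⟨y1, y2⟩ := mem_cp.mp hy
            obtain ⟨z1, z2⟩ := mem_cp.mp hz
            rcases y2 with rfl | y2
            · rcases z2 with rfl | z2
              · exact absurd rfl hne
              · exact z2
            · rcases z2 with rfl | z2
              · exact y2.symm
              · exact h.cl y y1 x hx z z1 y2.symm z2 hne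
          refine ((BD.clq hq).mono (by norm_num)).sub ?_
          intro y hy
          obtain ⟨h1, h2⟩ := hS y hy
          rw [mem_union, mem_union] at h1
          by_cases hyC : y ∈ CC
          · exfalso
            rw [bl_CC hyC] at h2
            simp only [Prod.mk.injEq, true_and] at h2
            exact hk ⟨y, hyC, h2⟩
          · rcases h1 with (h1 | h1) | h1
            · rw [bl_TT h1 hyC] at h2
              simp at h2
            · exfalso
              rw [bl_K1 h hCC h1] at h2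
              simp only [Prod.mk.injEq, true_and] at h2
              have := self_cp (G := G) hx
              rw [← h2] at this
              simp at this
            · rw [bl_A h hCC h1] at h2
              simp only [Prod.mk.injEq, true_and] at h2
              rw [← h2]
              exact self_cp h1
    intro x hx
    exact key x hx _ (fun y hy =>
      (@Finset.mem_filter _ _ (fun a => Classical.propDecidable _) _ _).mp hy)
  · rw [hu]
    exact hF


/-- no missed vertex: complete to `TT` -/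
lemma adj_of_not_mis {x m : V} (hx : ¬ mis G M A x) (hm : m ∈ TT G M A) : G.Adj x m := by
  by_contra hcon
  exact hx ⟨m, hm, fun e => hcon e.symm⟩

/-- the members of different blocks of `A` are not adjacent -/
lemma anti_A (h : Cx G v M A) {CC : Finset V} {rp : V → V} (hCC : CC ⊆ TT G M A) {x y : V}
    (hx : x ∈ A) (hy : y ∈ A) (hne : bl G M A CC rp x ≠ bl G M A CC rp y) : ¬ G.Adj x y := by
  intro hxy
  rw [bl_A h hCC hx, bl_A h hCC hy, cp_eq h hx hy hxy] at hne
  exact hne rfl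

theorem zpB_stmt (hA : AttachStmt) (_hT : TwoStmt) (hZ : ZStmt) : ZpBStmt := by
  obtain ⟨Ka, hKa⟩ := asm hA hZ (Prop × Prop × Prop × Prop × Prop)
  obtain ⟨Kb, hKb⟩ := asm hA hZ (Prop × Prop × Prop)
  refine ⟨(Ka + Kb + 1) * 2 ^ 2, ?_⟩
  intro V G hg hp hc v M A hM hAA hv hcl hex
  have h : Cx G v M A := ⟨hg, hp, hc, hM, hAA, hv, hcl, hex⟩
  apply BD.of_sdiff (X := KM G M A) _ (KM_card h)
  have hsub : (M ∪ A) \ KM G M A ⊆ TT G M A ∪ K1 G M A ∪ A := by
    intro x hx
    rw [mem_sdiff, mem_union] at hx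
    rw [mem_union, mem_union]
    rcases hx.1 with h1 | h1
    · by_cases h2 : inT G A x
      · exact Or.inl (Or.inl (mem_TT.mpr ⟨h1, h2⟩))
      · exact Or.inl (Or.inr (mem_sdiff.mpr ⟨mem_KK.mpr ⟨h1, h2⟩, hx.2⟩))
    · exact Or.inr h1
  refine BD.sub ?_ hsub
  have nTK : ∀ {x : V}, x ∈ K1 G M A → x ∉ TT G M A := fun hx e =>
    (mem_KK.mp (K1_KK hx)).2 (mem_TT.mp e).2
  have nTA : ∀ {x : V}, x ∈ A → x ∉ TT G M A := fun hx e => notA_of_M h (mem_TT.mp e).1 hx
  have nKA : ∀ {x : V}, x ∈ A → x ∉ K1 G M A := fun hx e =>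
    notA_of_M h (mem_KK.mp (K1_KK e)).1 hx
  -- vertices of `A ∖ A0`
  have hW : ∀ {x : V}, x ∈ A → x ∉ A0 G M A → ¬ k2 G M A x → ¬ mis G M A x := by
    intro x h1 h2 h3 h4
    exact h2 (mem_A0.mpr ⟨h1, h3, Or.inl h4⟩)
  by_cases hI : ∀ x y, k2 G M A x → k2 G M A y → CS G M A x = CS G M A y
  · obtain ⟨C1, C2, hC⟩ := caseI h hI
    refine (hKa V G v M A ∅ id (fun x => (x ∈ TT G M A, k2 G M A x ∧ Tm G M A x = C1,
      k2 G M A x ∧ Tm G M A x = C2, x ∈ C1, x ∈ C2))
      (fun l1 l2 => l2.1 ∧ ¬ (l1.2.1 ∧ l2.2.2.2.1) ∧ ¬ (l1.2.2.1 ∧ l2.2.2.2.2)) h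
      (empty_subset _) (by simp) ?_).mono (by omega)
    intro x hx y hy hne
    simp only [notMem_empty, mem_union, false_or, mem_sdiff, empty_union] at hx hy
    rcases hx with hx | ⟨hx, hx0⟩
    · have n1 : ¬ k2 G M A x := fun e => nKA e.1 hx
      rcases hy with (hy | hy) | hy
      · simp only [n1, false_and, not_false_eq_true, and_true, and_self, hy, iff_true]
        exact K1_adj hx hy
      · exfalso
        rw [bl_K1 h (empty_subset _) hx, bl_K1 h (empty_subset _) hy] at hne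
        exact hne rfl
      · simp only [nTA hy, false_and, iff_false]
        exact KK_anti (K1_KK hx) hy
    · rcases hy with (hy | hy) | hy
      · simp only [hy, true_and]
        by_cases h2 : k2 G M A x
        · simp only [h2, true_and]
          constructor
          · intro hxy
            have h3 : y ∉ Tm G M A x := fun e => (mem_Tm.mp e).2 hxy.symm
            constructor
            · rintro ⟨rfl, h4⟩
              exact h3 h4
            · rintro ⟨rfl, h4⟩
              exact h3 h4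
          · rintro ⟨h3, h4⟩
            by_contra hcon
            have h5 : y ∈ Tm G M A x := mem_Tm.mpr ⟨hy, fun e => hcon e.symm⟩
            rcases hC x h2 with h6 | h6
            · exact h3 ⟨h6, h6 ▸ h5⟩
            · exact h4 ⟨h6, h6 ▸ h5⟩
        · simp only [h2, false_and, not_false_eq_true, and_self, iff_true]
          exact adj_of_not_mis (hW hx hx0 h2) hy
      · simp only [nTK hy, false_and, iff_false]
        exact fun e => KK_anti (K1_KK hy) hx e.symm
      · simp only [nTA hy, false_and, iff_false]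
        exact anti_A h (empty_subset _) hx hy hne
  · push Not at hI
    obtain ⟨p, q, hp2, hq2, hpq⟩ := hI
    have hrp : ∀ m : V, ∃ r : V, (∃ x, k2 G M A x ∧ m ∈ CS G M A x) →
        (k2 G M A r ∧ m ∈ CS G M A r) := by
      intro m
      by_cases hm : ∃ x, k2 G M A x ∧ m ∈ CS G M A x
      · obtain ⟨x, hx⟩ := hm
        exact ⟨x, fun _ => hx⟩
      · exact ⟨m, fun e => absurd e hm⟩
    choose rp hrp using hrp
    obtain ⟨CC, hCCd⟩ : ∃ CC : Finset V, CC = (TT G M A).filter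
      (fun m => ∃ x, k2 G M A x ∧ m ∈ CS G M A x) := ⟨_, rfl⟩
    have hCC : CC ⊆ TT G M A := by
      rw [hCCd]
      exact filter_subset _ _
    have mCC : ∀ {m : V}, m ∈ CC ↔ m ∈ TT G M A ∧ ∃ x, k2 G M A x ∧ m ∈ CS G M A x := by
      intro m
      rw [hCCd, mem_filter]
    refine (hKb V G v M A CC rp (fun x => (x ∈ CC, x ∈ TT G M A,
      x ∈ K1 G M A ∨ k2 G M A x ∨ (x ∈ A ∧ ∃ m ∈ CC, G.Adj m x)))
      (fun l1 l2 => (l1.1 ∧ l2.2.2) ∨ (¬ l1.1 ∧ l2.2.1)) h hCC
      (fun m hm => (hrp m (mCC.mp hm).2).1) ?_).mono (by omega)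
    -- different blocks of kind 2
    have hdiff : ∀ {m x : V}, m ∈ CC → k2 G M A x →
        bl G M A CC rp m ≠ (none, cp G A x) → m ∉ CS G M A x := by
      intro m x hm hx hne hmx
      rw [bl_CC hm] at hne
      obtain ⟨h1, h2⟩ := hrp m (mCC.mp hm).2
      have h3 : ¬ (x = rp m ∨ G.Adj (rp m) x) := by
        intro e
        exact hne (by rw [(cp_eq_iff h h1.1 hx.1).mpr e])
      push Not at h3
      exact CS_disj h h1 hx (II2 h hp2 hq2 hpq h1 hx (Ne.symm h3.1) h3.2) h2 hmx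
    intro x hx y hy hne
    simp only [mem_union, mem_sdiff] at hx hy
    by_cases hxC : x ∈ CC
    · simp only [hxC, true_and, not_true_eq_false, false_and, or_false]
      obtain ⟨hxr, hxs⟩ := hrp x (mCC.mp hxC).2
      rcases hy with (hy | hy) | hy
      · have n1 : y ∉ K1 G M A := fun e => nTK e hy
        have n2 : ¬ k2 G M A y := fun e => nTA e.1 hy
        have n3 : y ∉ A := fun e => nTA e hy
        simp only [n1, n2, n3, false_and, or_false, iff_false]
        by_cases hyC : y ∈ CC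
        · obtain ⟨hyr, hys⟩ := hrp y (mCC.mp hyC).2
          have h3 : y ∉ CS G M A (rp x) := by
            apply hdiff hyC hxr
            rw [bl_CC hxC] at hne
            exact fun e => hne e.symm
          exact C1 h hxr hxs hy h3
        · have h3 : y ∉ CS G M A (rp x) := fun e => hyC (mCC.mpr ⟨hy, rp x, hxr, e⟩)
          exact C1 h hxr hxs hy h3
      · simp only [hy, true_or, iff_true]
        exact (K1_adj hy (hCC hxC)).symm
      · have n1 : y ∉ K1 G M A := nKA hy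
        by_cases h2 : k2 G M A y
        · simp only [h2, true_or, or_true, iff_true]
          have h3 : x ∉ CS G M A y := by
            apply hdiff hxC h2
            rw [bl_A h hCC hy] at hne
            exact hne
          exact adj_of_not_CS (hCC hxC) h3 hy (Or.inl rfl)
        · simp only [n1, h2, false_or, hy, true_and]
          constructor
          · intro e
            exact ⟨x, hxC, e⟩
          · rintro ⟨m, hm, e⟩
            obtain ⟨hmr, hms⟩ := hrp m (mCC.mp hm).2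
            exact II5 h hp2 hq2 hpq hmr hxr hms hxs hy h2 e
    · simp only [hxC, false_and, false_or, not_false_eq_true, true_and]
      rcases hx with (hx | hx) | ⟨hx, hx0⟩
      · exact absurd hx hxC
      · rcases hy with (hy | hy) | hy
        · simp only [hy, iff_true]
          exact K1_adj hx hy
        · exfalso
          rw [bl_K1 h hCC hx, bl_K1 h hCC hy] at hne
          exact hne rfl
        · simp only [nTA hy, iff_false]
          exact KK_anti (K1_KK hx) hy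
      · rcases hy with (hy | hy) | hy
        · simp only [hy, iff_true]
          by_cases h2 : k2 G M A x
          · have h3 : y ∉ CS G M A x := by
              by_cases hyC : y ∈ CC
              · apply hdiff hyC h2
                rw [bl_A h hCC hx] at hne
                exact fun e => hne e.symm
              · exact fun e => hyC (mCC.mpr ⟨hy, x, h2, e⟩)
            exact (adj_of_not_CS hy h3 hx (Or.inl rfl)).symm
          · exact adj_of_not_mis (hW hx hx0 h2) hy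
        · simp only [nTK hy, iff_false]
          exact fun e => KK_anti (K1_KK hy) hx e.symm
        · simp only [nTA hy, iff_false]
          exact anti_A h hCC hx hy hne

end Pool.Agent.H551R2.GP
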