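import Pool.Agent.H175F.Frame0

/-! `2K₂`-free and `C₅`-free, gem-free graphs have bounded clique-width (task T12). -/

namespace Pool.Agent.H605R2.CW

open Finset Classical
open Pool.Agent.H175G

variable {V : Type} {G : SimpleGraph V}

lemma noP23_of (h : No2K2 G) : NoP23 G := by
  intro x y a b c hxy hab _ _ _ hxa hxb _ hya hyb _
  exact h x y a b hxy hab hxa hxb hya hyb

/-- the non-neighbours of `a` in `M` -/
noncomputable def xs (G : SimpleGraph V) (M : Finset V) (a : V) : Finset V :=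
  M.filter (fun m => ¬ G.Adj a m)

lemma mem_xs {M : Finset V} {a m : V} : m ∈ xs G M a ↔ m ∈ M ∧ ¬ G.Adj a m := by simp [xs]

/-- the vertices of `M` with a neighbour in `M` -/
noncomputable def cc (G : SimpleGraph V) (M : Finset V) : Finset V :=
  M.filter (fun m => ∃ m' ∈ M, G.Adj m m')

lemma mem_cc {M : Finset V} {m : V} : m ∈ cc G M ↔ m ∈ M ∧ ∃ m' ∈ M, G.Adj m m' := by simp [cc]

/-- hypotheses on `v`, `M`, `A` -/
structure Cf (G : SimpleGraph V) (v : V) (M A : Finset V) : Prop where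
  hg : NoGem G
  h2 : No2K2 G
  hc : NoC5 G
  hM : ∀ m ∈ M, G.Adj v m
  hA : ∀ a ∈ A, ¬ G.Adj v a
  hne : ∀ a ∈ A, (∃ b ∈ A, G.Adj a b) → (xs G M a).Nonempty

variable {v : V} {M A : Finset V}

lemma Cf.cov (h : Cf G v M A) {a b : V} (ha : a ∈ A) (hb : b ∈ A) (hab : G.Adj a b) {m : V}
    (hm : m ∈ M) (hma : ¬ G.Adj a m) : G.Adj b m := by
  by_contra hmb
  exact h.h2 v m a b (h.hM m hm) hab (h.hA a ha) (h.hA b hb) (fun h' => hma h'.symm)
    (fun h' => hmb h'.symm)

lemma Cf.disj (h : Cf G v M A) {a b : V} (ha : a ∈ A) (hb : b ∈ A) (hab : G.Adj a b) {m : V}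
    (hma : m ∈ xs G M a) (hmb : m ∈ xs G M b) : False := by
  rw [mem_xs] at hma hmb
  exact hmb.2 (h.cov ha hb hab hma.1 hma.2)

lemma Cf.comp (h : Cf G v M A) {a b : V} (ha : a ∈ A) (hb : b ∈ A) (hab : G.Adj a b) {x y : V}
    (hx : x ∈ xs G M a) (hy : y ∈ xs G M b) : G.Adj x y := by
  by_contra hxy
  rw [mem_xs] at hx hy
  have h1 := h.cov ha hb hab hx.1 hx.2
  have h2 := h.cov hb ha hab.symm hy.1 hy.2
  exact h.hc v x b a y (h.hM x hx.1) h1.symm hab.symm h2 (h.hM y hy.1).symm (h.hA b hb)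
    (h.hA a ha) (fun h' => hx.2 h'.symm) hxy hy.2

lemma Cf.iso (h : Cf G v M A) {a b : V} (ha : a ∈ A) (hb : b ∈ A) (hab : G.Adj a b) {m x : V}
    (hm : m ∈ M) (hma : G.Adj a m) (hmb : G.Adj b m) (hx : x ∈ xs G M a) : ¬ G.Adj m x := by
  intro hmx
  rw [mem_xs] at hx
  have h1 := h.cov ha hb hab hx.1 hx.2
  exact h.hg v x b a m (h.hM m hm).symm hmx hmb.symm hma.symm (h.hM x hx.1) h1.symm hab.symm
    (h.hA b hb) (fun h' => hx.2 h'.symm) (h.hA a ha)

lemma Cf.cc_eq (h : Cf G v M A) {a b : V} (ha : a ∈ A) (hb : b ∈ A) (hab : G.Adj a b) {m : V} :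
    m ∈ cc G M ↔ m ∈ xs G M a ∨ m ∈ xs G M b := by
  obtain ⟨x, hx⟩ := h.hne a ha ⟨b, hb, hab⟩
  obtain ⟨y, hy⟩ := h.hne b hb ⟨a, ha, hab.symm⟩
  constructor
  · intro hm
    rw [mem_cc] at hm
    obtain ⟨hm, m', hm', hmm⟩ := hm
    by_contra hcon
    push Not at hcon
    rw [mem_xs, mem_xs] at hcon
    have h1 : G.Adj a m := by
      by_contra h'
      exact hcon.1 ⟨hm, h'⟩
    have h2 : G.Adj b m := by
      by_contra h'
      exact hcon.2 ⟨hm, h'⟩
    by_cases h3 : G.Adj a m'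
    · by_cases h4 : G.Adj b m'
      · exact h.h2 m m' x y hmm (h.comp ha hb hab hx hy) (h.iso ha hb hab hm h1 h2 hx)
          (h.iso hb ha hab.symm hm h2 h1 hy) (h.iso ha hb hab hm' h3 h4 hx)
          (h.iso hb ha hab.symm hm' h4 h3 hy)
      · exact h.iso hb ha hab.symm hm h2 h1 (mem_xs.2 ⟨hm', h4⟩) hmm
    · exact h.iso ha hb hab hm h1 h2 (mem_xs.2 ⟨hm', h3⟩) hmm
  · rintro (hm | hm)
    · exact mem_cc.2 ⟨(mem_xs.1 hm).1, y, (mem_xs.1 hy).1, h.comp ha hb hab hm hy⟩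
    · exact mem_cc.2 ⟨(mem_xs.1 hm).1, x, (mem_xs.1 hx).1, (h.comp ha hb hab hx hm).symm⟩

lemma Cf.other (h : Cf G v M A) {a b : V} (ha : a ∈ A) (hb : b ∈ A) (hab : G.Adj a b) {m : V} :
    m ∈ xs G M b ↔ m ∈ cc G M ∧ m ∉ xs G M a := by
  constructor
  · intro hm
    exact ⟨(h.cc_eq ha hb hab).2 (Or.inr hm), fun h' => h.disj ha hb hab h' hm⟩
  · rintro ⟨h1, h2⟩
    exact ((h.cc_eq ha hb hab).1 h1).resolve_left h2

/-- only two sets `xs` occur -/
lemma Cf.two (h : Cf G v M A) {a b : V} (ha : a ∈ A) (hb : b ∈ A) (hab : G.Adj a b) {u w : V}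
    (hu : u ∈ A) (hw : w ∈ A) (huw : G.Adj u w) : xs G M u = xs G M a ∨ xs G M u = xs G M b := by
  by_cases h1 : G.Adj u a
  · right
    ext m
    rw [h.other ha hu h1.symm, h.other ha hb hab]
  by_cases h2 : G.Adj u b
  · left
    ext m
    rw [h.other hb hu h2.symm, h.other hb ha hab.symm]
  by_cases h3 : G.Adj w a
  · left
    ext m
    rw [h.other hw hu huw.symm, h.other hw ha h3]
  by_cases h4 : G.Adj w b
  · right
    ext m
    rw [h.other hw hu huw.symm, h.other hw hb h4]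
  exact absurd (h.h2 u w a b huw hab h1 h2 h3 h4) (fun h => h)

end Pool.Agent.H605R2.CW

namespace Pool.Agent.H605R2.CW

open Finset Classical
open Pool.Agent.H175G

theorem base_stmt (hT : TwoStmt) (hB : BipStmt) (hZ : ZStmt) : BaseStmt := by
  obtain ⟨B, hT⟩ := hT
  obtain ⟨KB, hB⟩ := hB
  obtain ⟨KZ, hZ⟩ := hZ
  refine ⟨(KZ + 1) * 2 ^ 1 +
    B KB ((KZ + 1) * 2 ^ 1) (Fintype.card (Bool × Bool × Bool × Bool)),
    fun V G hg h2 hc R => ?_⟩
  by_cases hR : R.Nonempty
  swap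
  · intro h; exact absurd h hR
  have hp := noP23_of h2
  obtain ⟨v, hv, hmax⟩ := Finset.exists_max_image R (fun x => (nb G R x).card) hR
  obtain ⟨M, hMdef⟩ : ∃ M : Finset V, M = nb G R v := ⟨_, rfl⟩
  obtain ⟨A, hAdef⟩ : ∃ A : Finset V, A = R.filter (fun x => ¬ G.Adj v x ∧ x ≠ v) := ⟨_, rfl⟩
  have hM : ∀ x, x ∈ M ↔ x ∈ R ∧ G.Adj v x := by intro x; rw [hMdef, mem_nb]
  have hA : ∀ x, x ∈ A ↔ x ∈ R ∧ ¬ G.Adj v x ∧ x ≠ v := by intro x; rw [hAdef, mem_filter]
  have cf : Cf G v M A := by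
    refine ⟨hg, h2, hc, fun m hm => ((hM m).1 hm).2, fun a ha => ((hA a).1 ha).2.1, ?_⟩
    rintro a ha ⟨b, hb, hab⟩
    by_contra hne
    rw [not_nonempty_iff_eq_empty] at hne
    have h1 : insert b M ⊆ nb G R a := by
      intro x hx
      rw [mem_insert] at hx
      rw [mem_nb]
      rcases hx with rfl | hx
      · exact ⟨((hA _).1 hb).1, hab⟩
      · refine ⟨((hM x).1 hx).1, ?_⟩
        by_contra h'
        have : x ∈ xs G M a := mem_xs.2 ⟨hx, h'⟩
        rw [hne] at this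
        simp at this
    have h3 : b ∉ M := fun h' => ((hA b).1 hb).2.1 ((hM b).1 h').2
    have h4 := card_le_card h1
    rw [card_insert_of_notMem h3] at h4
    have h5 := hmax a ((hA a).1 ha).1
    rw [← hMdef] at h5
    omega
  -- the class `𝒵` part for independent subsets of `A`
  have hind : ∀ A' ⊆ A, Ind G A' → BD G ((KZ + 1) * 2 ^ 1) ({v} ∪ M ∪ A') := by
    intro A' hA' hI
    have h1 := hZ V G hg hp v M A' ⟨fun m hm => cf.hM m hm, fun n hn => cf.hA n (hA' hn), hI,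
      fun h' => ((hA v).1 (hA' h')).2.2 rfl⟩
    refine BD.of_sdiff (X := {v}) (h1.sub ?_) (by simp)
    intro x hx
    simp only [mem_sdiff, mem_union, mem_singleton] at hx ⊢
    tauto
  have hRM : ∀ x ∈ R, x = v ∨ x ∈ M ∨ x ∈ A := by
    intro x hx
    rw [hM, hA]
    by_cases h1 : G.Adj v x <;> by_cases h2 : x = v <;> tauto
  by_cases hAI : Ind G A
  · refine ((hind A (Finset.Subset.refl _) hAI).sub ?_).mono (Nat.le_add_right _ _)
    intro x hx
    simp only [mem_union, mem_singleton]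
    rcases hRM x hx with h | h | h <;> tauto
  · have : ∃ a ∈ A, ∃ b ∈ A, G.Adj a b := by
      by_contra hcon
      push Not at hcon
      exact hAI fun x hx y hy => hcon x hx y hy
    obtain ⟨a, ha, b, hb, hab⟩ := this
    obtain ⟨H, hH⟩ : ∃ H : Finset V, H = A.filter (fun x => ∃ y ∈ A, G.Adj x y) := ⟨_, rfl⟩
    have hHm : ∀ x, x ∈ H ↔ x ∈ A ∧ ∃ y ∈ A, G.Adj x y := by intro x; rw [hH, mem_filter]
    obtain ⟨HX, hHX⟩ : ∃ HX : Finset V, HX = H.filter (fun x => xs G M x = xs G M a) := ⟨_, rfl⟩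
    obtain ⟨HY, hHY⟩ : ∃ HY : Finset V, HY = H.filter (fun x => ¬ xs G M x = xs G M a) :=
      ⟨_, rfl⟩
    have hX : ∀ x, x ∈ HX ↔ x ∈ H ∧ xs G M x = xs G M a := by intro x; rw [hHX, mem_filter]
    have hY : ∀ x, x ∈ HY ↔ x ∈ H ∧ ¬ xs G M x = xs G M a := by intro x; rw [hHY, mem_filter]
    have hY' : ∀ x ∈ HY, xs G M x = xs G M b := by
      intro x hx
      rw [hY] at hx
      obtain ⟨hxA, w, hw, hxw⟩ := (hHm x).1 hx.1
      exact (cf.two ha hb hab hxA hw hxw).resolve_left hx.2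
    have hsame : ∀ x ∈ H, ∀ y ∈ H, xs G M x = xs G M y → ¬ G.Adj x y := by
      intro x hx y hy hxy hadj
      obtain ⟨hxA, hx'⟩ := (hHm x).1 hx
      obtain ⟨hyA, _⟩ := (hHm y).1 hy
      obtain ⟨z, hz⟩ := cf.hne x hxA hx'
      exact cf.disj hxA hyA hadj hz (hxy ▸ hz)
    have hXI : Ind G HX := by
      intro x hx y hy
      rw [hX] at hx hy
      exact hsame x hx.1 y hy.1 (hx.2.trans hy.2.symm)
    have hYI : Ind G HY := by
      intro x hx y hy
      exact hsame x ((hY x).1 hx).1 y ((hY y).1 hy).1 ((hY' x hx).trans (hY' y hy).symm)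
    have hdXY : Disjoint HX HY := by
      rw [Finset.disjoint_left]
      intro x hx hy
      exact ((hY x).1 hy).2 ((hX x).1 hx).2
    have hHU : H = HX ∪ HY := by
      ext x
      rw [mem_union, hX, hY]
      tauto
    have hBH : BD G KB H := by
      rw [hHU]
      refine hB V G HX HY hdXY hXI hYI ?_
      intro m hm m' hm' hc2 n' hn'
      by_contra hcon
      have h1 : (nb G HY m \ nb G HY m').Nonempty := by
        rw [← Finset.card_pos]; omega
      obtain ⟨n, hn⟩ := h1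
      rw [mem_sdiff, mem_nb, mem_nb] at hn
      rw [mem_nb] at hn' hcon
      exact h2 m n m' n' hn.1.2 hn'.2 (hXI m hm m' hm') (fun h' => hcon ⟨hn'.1, h'⟩)
        (fun h' => hn.2 ⟨hn.1.1, h'.symm⟩) (hYI n hn.1.1 n' hn'.1)
    have hAH : Ind G (A \ H) := by
      intro x hx y hy hxy
      rw [mem_sdiff] at hx hy
      exact hx.2 ((hHm x).2 ⟨hx.1, y, hy.1, hxy⟩)
    have hU2 := hind (A \ H) sdiff_subset hAH
    have hMA : ∀ x, x ∈ M → x ∈ A → False := fun x h1 h3 =>
      ((hA x).1 h3).2.1 ((hM x).1 h1).2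
    have hvA : v ∉ A := fun h' => ((hA v).1 h').2.2 rfl
    have hvM : v ∉ M := fun h' => G.irrefl ((hM v).1 h').2
    have hdis : Disjoint H ({v} ∪ M ∪ (A \ H)) := by
      rw [Finset.disjoint_left]
      intro x hx hx'
      have hxA := ((hHm x).1 hx).1
      simp only [mem_union, mem_singleton, mem_sdiff] at hx'
      rcases hx' with (rfl | h') | h'
      · exact hvA hxA
      · exact hMA x h' hxA
      · exact h'.2 hx
    have key := hT V G (Bool × Bool × Bool × Bool) KB ((KZ + 1) * 2 ^ 1) H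
      ({v} ∪ M ∪ (A \ H))
      (fun x => (decide (x ∈ HX), decide (x ∈ M), decide (x ∈ xs G M a), decide (x ∈ xs G M b)))
      (fun l l' => l'.2.1 = true ∧ (if l.1 = true then l'.2.2.1 = false else l'.2.2.2 = false))
      hdis hBH hU2 ?_
    · refine (key.sub ?_).mono (Nat.le_add_left _ _)
      intro x hx
      simp only [mem_union, mem_singleton, mem_sdiff]
      rcases hRM x hx with h | h | h <;> tauto
    · intro x hx y hy
      simp only [decide_eq_true_eq, decide_eq_false_iff_not]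
      simp only [mem_union, mem_singleton, mem_sdiff] at hy
      obtain ⟨hxA, w, hw, hxw⟩ := (hHm x).1 hx
      have hxs : ∀ y ∈ M, (G.Adj x y ↔ y ∉ xs G M x) := by
        intro y hy
        rw [mem_xs]
        tauto
      rcases hy with (rfl | hy) | hy
      · constructor
        · intro h'; exact absurd h'.symm (cf.hA x hxA)
        · intro h'; exact absurd h'.1 hvM
      · rw [hxs y hy]
        by_cases hxX : x ∈ HX
        · rw [if_pos hxX, ((hX x).1 hxX).2]
          tauto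
        · have hxY : x ∈ HY := by
            have := hx
            rw [hHU, mem_union] at this
            tauto
          rw [if_neg hxX, hY' x hxY]
          tauto
      · constructor
        · intro h'
          exact absurd ((hHm y).2 ⟨hy.1, x, hxA, h'.symm⟩) hy.2
        · intro h'
          exact absurd hy.1 (fun h'' => hMA y h'.1 h'')

end Pool.Agent.H605R2.CW
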