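import Pool.Agent.H175F.Stmts2

/-! Assembly of the statement about the types `N, D₀, …, D₄`. -/

namespace Pool.Agent.H619R2.ND

open Finset Classical
open Pool.Agent.H175G

variable {V : Type} {G : SimpleGraph V}

lemma miss (hp : NoP23 G) {c0 c1 c2 c3 c4 : V} (hc : C5c G c0 c1 c2 c3 c4)
    {d0 d1 d1' : V} (h0 : TD G c0 c1 c2 c3 c4 d0) (h1 : TD G c1 c2 c3 c4 c0 d1)
    (h1' : TD G c1 c2 c3 c4 c0 d1') (hne : d1 ≠ d1') (ha : ¬ G.Adj d0 d1) : G.Adj d0 d1' := by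
  by_contra hn
  exact hp c4 d0 d1 c2 d1' (And.left (And.right (And.right (And.right (And.right h0))))) (SimpleGraph.Adj.symm (And.left (And.right h1))) (And.left (And.right h1')) hne (id fun (h : SimpleGraph.Adj G d1 d1') => hp d1 d1' c1 d0 c4 h (And.left (And.right h0)) (SimpleGraph.Adj.symm (And.left (And.right (And.right (And.right (And.right h0)))))) (ne_of_wit (SimpleGraph.Adj.symm (And.left (And.right hc))) (And.right (And.right (And.right (And.right (And.right (And.right (And.right (And.right (And.right hc)))))))))) (And.left (And.right (And.right (And.right (And.right (And.right (And.right (And.right (And.right hc))))))))) (not_symm' (And.left h1)) (not_symm' ha) (not_symm' (And.left (And.right (And.right (And.right h1))))) (not_symm' (And.left h1')) (not_symm' hn) (not_symm' (And.left (And.right (And.right (And.right h1')))))) (And.left (And.right (And.right (And.right h1))))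 (not_symm' (And.right (And.right (And.right (And.right (And.right (And.right (And.right (And.right (And.right hc)))))))))) (And.left (And.right (And.right (And.right h1')))) ha (not_symm' (And.left (And.right (And.right h0)))) hn

lemma miss' (hp : NoP23 G) {c0 c1 c2 c3 c4 : V} (hc : C5c G c0 c1 c2 c3 c4)
    {d0 d0' d1 : V} (h0 : TD G c0 c1 c2 c3 c4 d0) (h0' : TD G c0 c1 c2 c3 c4 d0')
    (h1 : TD G c1 c2 c3 c4 c0 d1) (hne : d0 ≠ d0') (ha : ¬ G.Adj d0 d1) : G.Adj d0' d1 := by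
  by_contra hn
  exact hp c2 d1 d0 c4 d0' (And.left (And.right h1)) (SimpleGraph.Adj.symm (And.left (And.right (And.right (And.right (And.right h0)))))) (And.left (And.right (And.right (And.right (And.right h0'))))) hne (id fun (h : SimpleGraph.Adj G d0 d0') => hp d0 d0' c0 d1 c2 h (And.left (And.right (And.right (And.right (And.right h1))))) (SimpleGraph.Adj.symm (And.left (And.right h1))) (Ne.symm (ne_of_wit (SimpleGraph.Adj.symm (And.left (And.right (And.right hc)))) (not_symm' (And.left (And.right (And.right (And.right (And.right (And.right (And.right hc)))))))))) (And.left (And.right (And.right (And.right (And.right (And.right hc)))))) (not_symm' (And.left h0)) ha (not_symm' (And.left (And.right (And.right h0)))) (not_symm' (And.left h0')) hn (not_symm' (And.left (And.right (And.right h0'))))) (And.left (And.right (And.right h0))) (And.right (And.right (And.right (And.right (And.right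 (And.right (And.right (And.right (And.right hc))))))))) (And.left (And.right (And.right h0'))) (not_symm' ha) (not_symm' (And.left (And.right (And.right (And.right h1))))) (not_symm' hn)

lemma same (hp : NoP23 G) {c0 c1 c2 c3 c4 : V} (hc : C5c G c0 c1 c2 c3 c4)
    {d0 d1 d4 : V} (h0 : TD G c0 c1 c2 c3 c4 d0) (h1 : TD G c1 c2 c3 c4 c0 d1)
    (h4 : TD G c4 c0 c1 c2 c3 d4) (ha : ¬ G.Adj d0 d1) (hb : G.Adj d4 d0) : G.Adj d4 d1 := by
  by_contra hn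
  exact hp c2 d1 c4 d0 d4 (And.left (And.right h1)) (And.left (And.right (And.right (And.right (And.right h0))))) (SimpleGraph.Adj.symm hb) (Ne.symm (And.right (And.right (And.right (And.right (And.right h4)))))) (And.left h4) (And.right (And.right (And.right (And.right (And.right (And.right (And.right (And.right (And.right hc))))))))) (And.left (And.right (And.right h0))) (And.left (And.right (And.right (And.right h4)))) (not_symm' (And.left (And.right (And.right (And.right h1))))) (not_symm' ha) (not_symm' hn)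

lemma other (hg : NoGem G) (hp : NoP23 G) {c0 c1 c2 c3 c4 : V} (hc : C5c G c0 c1 c2 c3 c4)
    {d0 d1 d1' d4 : V} (h0 : TD G c0 c1 c2 c3 c4 d0) (h1 : TD G c1 c2 c3 c4 c0 d1)
    (h1' : TD G c1 c2 c3 c4 c0 d1') (hne : d1 ≠ d1')
    (h4 : TD G c4 c0 c1 c2 c3 d4) (ha : ¬ G.Adj d0 d1) (hb : G.Adj d4 d0) : ¬ G.Adj d4 d1' := by
  intro hn
  exact byCases (fun (h : SimpleGraph.Adj G d0 d1') => hg d1 c0 d1' d0 d4 (SimpleGraph.Adj.symm (byContradiction fun (h : ¬SimpleGraph.Adj G d1 d4) => hp d1 c2 d4 d0 c4 (SimpleGraph.Adj.symm (And.left (And.right h1))) hb (SimpleGraph.Adj.symm (And.left (And.right (And.right (And.right (And.right h0)))))) (And.right (And.right (And.right (And.right (And.right h4))))) (not_symm' (And.left h4)) h (not_symm' ha) (not_symm' (And.left (And.right (And.right (And.right h1))))) (And.left (And.right (And.right (And.right h4)))) (And.left (And.right (And.right h0)))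 (And.right (And.right (And.right (And.right (And.right (And.right (And.right (And.right (And.right hc))))))))))) (SimpleGraph.Adj.symm (And.left (And.right h4))) hn hb (SimpleGraph.Adj.symm (And.left (And.right (And.right (And.right (And.right h1)))))) (And.left (And.right (And.right (And.right (And.right h1'))))) (SimpleGraph.Adj.symm h) (id fun (h_1 : SimpleGraph.Adj G d1 d1') => hg c2 d1 d4 d0 d1' (SimpleGraph.Adj.symm (And.left (And.right h1'))) (SimpleGraph.Adj.symm h_1) (SimpleGraph.Adj.symm hn) (SimpleGraph.Adj.symm h) (And.left (And.right h1)) (byContradiction fun (h : ¬SimpleGraph.Adj G d1 d4) => hp d1 c2 d4 d0 c4 (SimpleGraph.Adj.symm (And.left (And.right h1))) hb (SimpleGraph.Adj.symm (And.left (And.right (And.right (And.right (And.right h0)))))) (And.right (And.right (And.right (And.right (And.right h4))))) (not_symm' (And.left h4)) h (not_symm' ha) (not_symm' (And.left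 (And.right (And.right (And.right h1))))) (And.left (And.right (And.right (And.right h4)))) (And.left (And.right (And.right h0))) (And.right (And.right (And.right (And.right (And.right (And.right (And.right (And.right (And.right hc)))))))))) hb (And.left (And.right (And.right (And.right h4)))) (not_symm' ha) (And.left (And.right (And.right h0)))) (And.left h0) (not_symm' ha)) fun (h : ¬SimpleGraph.Adj G d0 d1') => hp c4 d0 d1 c2 d1' (And.left (And.right (And.right (And.right (And.right h0))))) (SimpleGraph.Adj.symm (And.left (And.right h1))) (And.left (And.right h1')) hne (id fun (h_1 : SimpleGraph.Adj G d1 d1') => hp d1 d1' c1 d0 c4 h_1 (And.left (And.right h0)) (SimpleGraph.Adj.symm (And.left (And.right (And.right (And.right (And.right h0)))))) (ne_of_wit (SimpleGraph.Adj.symm (And.left (And.right hc))) (And.right (And.right (And.right (And.right (And.right (And.right (And.right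 (And.right (And.right hc)))))))))) (And.left (And.right (And.right (And.right (And.right (And.right (And.right (And.right (And.right hc))))))))) (not_symm' (And.left h1)) (not_symm' ha) (not_symm' (And.left (And.right (And.right (And.right h1))))) (not_symm' (And.left h1')) (not_symm' h) (not_symm' (And.left (And.right (And.right (And.right h1')))))) (And.left (And.right (And.right (And.right h1)))) (not_symm' (And.right (And.right (And.right (And.right (And.right (And.right (And.right (And.right (And.right hc)))))))))) (And.left (And.right (And.right (And.right h1')))) ha (not_symm' (And.left (And.right (And.right h0)))) h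

lemma indN (hp : NoP23 G) {c0 c1 c2 c3 c4 : V} (hc : C5c G c0 c1 c2 c3 c4)
    {x y : V} (h0 : TN G c0 c1 c2 c3 c4 x) (h1 : TN G c0 c1 c2 c3 c4 y) : ¬ G.Adj x y := by
  intro hn
  exact hp x y c0 c1 c2 hn (And.left hc) (And.left (And.right hc)) (Ne.symm (ne_of_wit (SimpleGraph.Adj.symm (And.left (And.right (And.right hc)))) (not_symm' (And.left (And.right (And.right (And.right (And.right (And.right (And.right hc)))))))))) (And.left (And.right (And.right (And.right (And.right (And.right hc)))))) (not_symm' (And.left h0)) (not_symm' (And.left (And.right h0))) (not_symm' (And.left (And.right (And.right h0)))) (not_symm' (And.left h1)) (not_symm' (And.left (And.right h1))) (not_symm' (And.left (And.right (And.right h1))))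

lemma c5rot {c0 c1 c2 c3 c4 : V} (h : C5c G c0 c1 c2 c3 c4) : C5c G c1 c2 c3 c4 c0 := by
  obtain ⟨h1, h2, h3, h4, h5, h6, h7, h8, h9, h10⟩ := h
  exact ⟨h2, h3, h4, h5, h1, h8, h9, h10, fun h => h6 h.symm, fun h => h7 h.symm⟩

lemma c5rfl {c0 c1 c2 c3 c4 : V} (h : C5c G c0 c1 c2 c3 c4) : C5c G c1 c0 c4 c3 c2 := by
  obtain ⟨h1, h2, h3, h4, h5, h6, h7, h8, h9, h10⟩ := h
  exact ⟨h1.symm, h5.symm, h4.symm, h3.symm, h2.symm, h9, h8, h7, h6, fun h => h10 h.symm⟩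

lemma tdrfl {c0 c1 c2 c3 c4 x : V} (h : TD G c0 c1 c2 c3 c4 x) : TD G c0 c4 c3 c2 c1 x := by
  obtain ⟨h1, h2, h3, h4, h5, h6⟩ := h
  exact ⟨h1, h5, h4, h3, h2, h6⟩

lemma rot {c0 c1 c2 c3 c4 : V} {N D0 D1 D2 D3 D4 : Finset V}
    (h : NDCfg G c0 c1 c2 c3 c4 N D0 D1 D2 D3 D4) :
    NDCfg G c1 c2 c3 c4 c0 N D1 D2 D3 D4 D0 := by
  obtain ⟨hc, hN, h0, h1, h2, h3, h4⟩ := h
  refine ⟨c5rot hc, ?_, h1, h2, h3, h4, h0⟩
  intro x hx
  obtain ⟨a0, a1, a2, a3, a4⟩ := hN x hx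
  exact ⟨a1, a2, a3, a4, a0⟩

/-- there is at most one link -/
lemma uniq (hg : NoGem G) (hp : NoP23 G) {c0 c1 c2 c3 c4 : V} (hc : C5c G c0 c1 c2 c3 c4)
    (D4 : Finset V) (h4 : ∀ x ∈ D4, TD G c4 c0 c1 c2 c3 x) (hcard : 3 ≤ D4.card)
    {d0 d0' d1 d1' : V} (h0 : TD G c0 c1 c2 c3 c4 d0) (h0' : TD G c0 c1 c2 c3 c4 d0')
    (h1 : TD G c1 c2 c3 c4 c0 d1) (h1' : TD G c1 c2 c3 c4 c0 d1')
    (ha : ¬ G.Adj d0 d1) (ha' : ¬ G.Adj d0' d1') : d0 = d0' ∧ d1 = d1' := by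
  have hc' : C5c G c4 c0 c1 c2 c3 := c5rot (c5rot (c5rot (c5rot hc)))
  by_cases e0 : d0 = d0'
  · subst e0
    refine ⟨rfl, ?_⟩
    by_contra e1
    exact ha' (miss hp hc h0 h1 h1' e1 ha)
  exfalso
  by_cases e1 : d1 = d1'
  · subst e1
    exact ha' (miss' hp hc h0 h0' h1 e0 ha)
  -- a common neighbour in `D₄`
  have key : ∀ d : V, TD G c0 c1 c2 c3 c4 d → (D4.filter (fun x => ¬ G.Adj x d)).card ≤ 1 := by
    intro d hd
    rw [Finset.card_le_one]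
    intro x hx y hy
    rw [mem_filter] at hx hy
    by_contra hne
    exact hy.2 (miss' hp hc' (h4 x hx.1) (h4 y hy.1) hd hne hx.2)
  have hex : ∃ x ∈ D4, G.Adj x d0 ∧ G.Adj x d0' := by
    by_contra hcon
    push Not at hcon
    have hsub : D4 ⊆ D4.filter (fun x => ¬ G.Adj x d0) ∪ D4.filter (fun x => ¬ G.Adj x d0') := by
      intro x hx
      rw [mem_union, mem_filter, mem_filter]
      by_cases h : G.Adj x d0
      · exact Or.inr ⟨hx, hcon x hx h⟩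
      · exact Or.inl ⟨hx, h⟩
    have := (card_le_card hsub).trans (card_union_le _ _)
    have k1 := key d0 h0
    have k2 := key d0' h0'
    omega
  obtain ⟨d4, hd4, b1, b2⟩ := hex
  exact other hg hp hc h0 h1 h1' e1 (h4 d4 hd4) ha b1 (same hp hc h0' h1' (h4 d4 hd4) ha' b2)

/-- delete one vertex, using `D₄` -/
lemma del4 (hg : NoGem G) (hp : NoP23 G) {c0 c1 c2 c3 c4 : V} {N D0 D1 D2 D3 D4 : Finset V}
    (h : NDCfg G c0 c1 c2 c3 c4 N D0 D1 D2 D3 D4) (hcard : 7 ≤ D4.card) :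
    ∃ z, ∀ x ∈ D0, x ≠ z → ∀ y ∈ D1, G.Adj x y := by
  obtain ⟨hc, hN, h0, h1, h2, h3, h4⟩ := h
  by_cases hl : ∃ x ∈ D0, ∃ y ∈ D1, ¬ G.Adj x y
  · obtain ⟨d0, hd0, d1, hd1, ha⟩ := hl
    refine ⟨d0, fun x hx hxz y hy => ?_⟩
    by_contra hn
    exact hxz (uniq hg hp hc D4 h4 (by omega) (h0 d0 hd0) (h0 x hx) (h1 d1 hd1) (h1 y hy) ha hn).1.symm
  · push Not at hl
    exact ⟨c0, fun x hx _ y hy => hl x hx y hy⟩

/-- delete one vertex, using `D₂` -/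
lemma del2 (hg : NoGem G) (hp : NoP23 G) {c0 c1 c2 c3 c4 : V} {N D0 D1 D2 D3 D4 : Finset V}
    (h : NDCfg G c0 c1 c2 c3 c4 N D0 D1 D2 D3 D4) (hcard : 7 ≤ D2.card) :
    ∃ z, ∀ x ∈ D0, x ≠ z → ∀ y ∈ D1, G.Adj x y := by
  obtain ⟨hc, hN, h0, h1, h2, h3, h4⟩ := h
  by_cases hl : ∃ x ∈ D0, ∃ y ∈ D1, ¬ G.Adj x y
  · obtain ⟨d0, hd0, d1, hd1, ha⟩ := hl
    refine ⟨d0, fun x hx hxz y hy => ?_⟩
    by_contra hn
    have hu := uniq hg hp (c5rfl hc) D2 (fun x hx => tdrfl (h2 x hx)) (by omega)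
      (tdrfl (h1 d1 hd1)) (tdrfl (h1 y hy)) (tdrfl (h0 d0 hd0)) (tdrfl (h0 x hx))
      (fun h => ha h.symm) (fun h => hn h.symm)
    exact hxz hu.2.symm
  · push Not at hl
    exact ⟨c0, fun x hx _ y hy => hl x hx y hy⟩

lemma bdel {K c : ℕ} {A B X : Finset V} (h : BD G K B) (hX : X.card ≤ c) (hs : A \ X ⊆ B) :
    BD G ((K + 1) * 2 ^ c) A := BD.of_sdiff (h.sub hs) hX

lemma cfgsub {c0 c1 c2 c3 c4 : V} {N D0 D1 D2 D3 D4 E0 E1 E2 E3 E4 : Finset V}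
    (h : NDCfg G c0 c1 c2 c3 c4 N D0 D1 D2 D3 D4) (s0 : E0 ⊆ D0) (s1 : E1 ⊆ D1) (s2 : E2 ⊆ D2)
    (s3 : E3 ⊆ D3) (s4 : E4 ⊆ D4) : NDCfg G c0 c1 c2 c3 c4 N E0 E1 E2 E3 E4 := by
  obtain ⟨hc, hN, h0, h1, h2, h3, h4⟩ := h
  exact ⟨hc, hN, fun x hx => h0 x (s0 hx), fun x hx => h1 x (s1 hx), fun x hx => h2 x (s2 hx),
    fun x hx => h3 x (s3 hx), fun x hx => h4 x (s4 hx)⟩

lemma card_er {D : Finset V} {z : V} (h : 7 ≤ D.card) : 3 ≤ (D.erase z).card := by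
  have := Finset.pred_card_le_card_erase (s := D) (a := z)
  omega

lemma comp_er {D E : Finset V} {z w : V} (h : ∀ x ∈ D, x ≠ z → ∀ y ∈ E, G.Adj x y) :
    Comp G (D.erase z) (E.erase w) := by
  intro x hx y hy
  rw [mem_erase] at hx hy
  exact h x hx.2 hx.1 y hy.2

lemma comp_er' {D E : Finset V} {z : V} (h : ∀ x ∈ D, x ≠ z → ∀ y ∈ E, G.Adj x y) :
    Comp G (D.erase z) E := by
  intro x hx y hy
  rw [mem_erase] at hx
  exact h x hx.2 hx.1 y hy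

/-- all five -/
lemma L5 {K : ℕ} (H : ∀ (V : Type) (G : SimpleGraph V), NoGem G → NoP23 G →
    ∀ (c0 c1 c2 c3 c4 : V) (N D0 D1 D2 D3 D4 : Finset V), NDCfg G c0 c1 c2 c3 c4 N D0 D1 D2 D3 D4 →
    3 ≤ D0.card → 3 ≤ D1.card → 3 ≤ D2.card → 3 ≤ D3.card → 3 ≤ D4.card →
    Comp G D0 D1 → Comp G D1 D2 → Comp G D2 D3 → Comp G D3 D4 → Comp G D4 D0 →
    BD G K (N ∪ D0 ∪ D1 ∪ D2 ∪ D3 ∪ D4)) (hg : NoGem G) (hp : NoP23 G) {c0 c1 c2 c3 c4 : V}
    {N D0 D1 D2 D3 D4 : Finset V} (h : NDCfg G c0 c1 c2 c3 c4 N D0 D1 D2 D3 D4)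
    (b0 : 7 ≤ D0.card) (b1 : 7 ≤ D1.card) (b2 : 7 ≤ D2.card) (b3 : 7 ≤ D3.card)
    (b4 : 7 ≤ D4.card) : BD G ((K + 1) * 2 ^ 5) (N ∪ D0 ∪ D1 ∪ D2 ∪ D3 ∪ D4) := by
  obtain ⟨z0, e0⟩ := del4 hg hp h b4
  obtain ⟨z1, e1⟩ := del4 hg hp (rot h) b0
  obtain ⟨z2, e2⟩ := del4 hg hp (rot (rot h)) b1
  obtain ⟨z3, e3⟩ := del4 hg hp (rot (rot (rot h))) b2
  obtain ⟨z4, e4⟩ := del4 hg hp (rot (rot (rot (rot h)))) b3
  have hh := H V G hg hp c0 c1 c2 c3 c4 N (D0.erase z0) (D1.erase z1) (D2.erase z2) (D3.erase z3)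
    (D4.erase z4) (cfgsub h (erase_subset _ _) (erase_subset _ _) (erase_subset _ _)
      (erase_subset _ _) (erase_subset _ _)) (card_er b0) (card_er b1) (card_er b2) (card_er b3)
    (card_er b4) (comp_er e0) (comp_er e1) (comp_er e2) (comp_er e3) (comp_er e4)
  refine bdel (X := {z0, z1, z2, z3, z4}) hh ?_ ?_
  · exact card_le_five
  · intro x hx
    simp only [mem_sdiff, mem_union, mem_insert, mem_singleton, mem_erase] at hx ⊢
    tauto

/-- `D₀, D₁, D₂, D₃` -/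
lemma L4 {K : ℕ} (H : ∀ (V : Type) (G : SimpleGraph V), NoGem G → NoP23 G →
    ∀ (c0 c1 c2 c3 c4 : V) (N D0 D1 D2 D3 : Finset V), NDCfg G c0 c1 c2 c3 c4 N D0 D1 D2 D3 ∅ →
    3 ≤ D0.card → 3 ≤ D1.card → 3 ≤ D2.card → 3 ≤ D3.card →
    Comp G D0 D1 → Comp G D1 D2 → Comp G D2 D3 → BD G K (N ∪ D0 ∪ D1 ∪ D2 ∪ D3))
    (hg : NoGem G) (hp : NoP23 G) {c0 c1 c2 c3 c4 : V}
    {N D0 D1 D2 D3 : Finset V} (h : NDCfg G c0 c1 c2 c3 c4 N D0 D1 D2 D3 ∅)
    (b0 : 7 ≤ D0.card) (b1 : 7 ≤ D1.card) (b2 : 7 ≤ D2.card) (b3 : 7 ≤ D3.card) :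
    BD G ((K + 1) * 2 ^ 5) (N ∪ D0 ∪ D1 ∪ D2 ∪ D3 ∪ ∅) := by
  obtain ⟨z0, e0⟩ := del2 hg hp h b2
  obtain ⟨z1, e1⟩ := del4 hg hp (rot h) b0
  obtain ⟨z2, e2⟩ := del4 hg hp (rot (rot h)) b1
  have hh := H V G hg hp c0 c1 c2 c3 c4 N (D0.erase z0) (D1.erase z1) (D2.erase z2) D3
    (cfgsub h (erase_subset _ _) (erase_subset _ _) (erase_subset _ _)
      (Subset.refl _) (Subset.refl _)) (card_er b0) (card_er b1) (card_er b2) (by omega)
    (comp_er e0) (comp_er e1) (comp_er' e2)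
  refine bdel (X := {z0, z1, z2}) hh (card_le_three.trans (by omega)) ?_
  intro x hx
  simp only [mem_sdiff, mem_union, mem_insert, mem_singleton, mem_erase, notMem_empty,
    or_false] at hx ⊢
  tauto

/-- `D₀, D₁, D₂` -/
lemma L3 {K : ℕ} (H : ∀ (V : Type) (G : SimpleGraph V), NoGem G → NoP23 G →
    ∀ (c0 c1 c2 c3 c4 : V) (N D0 D1 D2 : Finset V), NDCfg G c0 c1 c2 c3 c4 N D0 D1 D2 ∅ ∅ →
    3 ≤ D0.card → 3 ≤ D1.card → 3 ≤ D2.card → Comp G D0 D1 → Comp G D1 D2 →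
    BD G K (N ∪ D0 ∪ D1 ∪ D2))
    (hg : NoGem G) (hp : NoP23 G) {c0 c1 c2 c3 c4 : V}
    {N D0 D1 D2 : Finset V} (h : NDCfg G c0 c1 c2 c3 c4 N D0 D1 D2 ∅ ∅)
    (b0 : 7 ≤ D0.card) (b1 : 7 ≤ D1.card) (b2 : 7 ≤ D2.card) :
    BD G ((K + 1) * 2 ^ 5) (N ∪ D0 ∪ D1 ∪ D2 ∪ ∅ ∪ ∅) := by
  obtain ⟨z0, e0⟩ := del2 hg hp h b2
  obtain ⟨z1, e1⟩ := del4 hg hp (rot h) b0
  have hh := H V G hg hp c0 c1 c2 c3 c4 N (D0.erase z0) (D1.erase z1) D2
    (cfgsub h (erase_subset _ _) (erase_subset _ _) (Subset.refl _)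
      (Subset.refl _) (Subset.refl _)) (card_er b0) (card_er b1) (by omega)
    (comp_er e0) (comp_er' e1)
  refine bdel (X := {z0, z1}) hh (card_le_two.trans (by omega)) ?_
  intro x hx
  simp only [mem_sdiff, mem_union, mem_insert, mem_singleton, mem_erase, notMem_empty,
    or_false] at hx ⊢
  tauto

/-- `D₀` and `D₂` -/
lemma L2 {K : ℕ} (H : ∀ (V : Type) (G : SimpleGraph V), NoGem G → NoP23 G →
    ∀ (v : V) (M N : Finset V), ZCfg G v M N → BD G K (M ∪ N))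
    (hg : NoGem G) (hp : NoP23 G) {c0 c1 c2 c3 c4 : V}
    {N D0 D2 : Finset V} (h : NDCfg G c0 c1 c2 c3 c4 N D0 ∅ D2 ∅ ∅) :
    BD G K (N ∪ D0 ∪ ∅ ∪ D2 ∪ ∅ ∪ ∅) := by
  obtain ⟨hc, hN, h0, h1, h2, h3, h4⟩ := h
  have hh := H V G hg hp c1 (D0 ∪ D2) N ⟨?_, ?_, ?_, ?_⟩
  · refine hh.sub ?_
    intro x hx
    simp only [mem_union, notMem_empty, or_false] at hx ⊢
    tauto
  · intro x hx
    rw [mem_union] at hx
    rcases hx with hx | hx
    · exact (h0 x hx).2.1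
    · exact (h2 x hx).2.2.2.2.1
  · intro x hx
    exact (hN x hx).2.1
  · intro x hx y hy
    exact indN hp hc (hN x hx) (hN y hy)
  · intro hx
    exact (hN c1 hx).1 hc.1

lemma rotS {K : ℕ} {N D0 D1 D2 D3 D4 : Finset V} (h : BD G K (N ∪ D1 ∪ D2 ∪ D3 ∪ D4 ∪ D0)) :
    BD G K (N ∪ D0 ∪ D1 ∪ D2 ∪ D3 ∪ D4) :=
  h.sub (by intro x hx; simp only [mem_union] at hx ⊢; tauto)

/-- every pattern of empty and big sets is a rotation of a canonical one -/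
lemma pattern
    (Cf : V → V → V → V → V → Finset V → Finset V → Finset V → Finset V → Finset V → Prop)
    (P : Finset V → Finset V → Finset V → Finset V → Finset V → Prop) (big : Finset V → Prop)
    (rot : ∀ {c0 c1 c2 c3 c4 : V} {D0 D1 D2 D3 D4 : Finset V},
      Cf c0 c1 c2 c3 c4 D0 D1 D2 D3 D4 → Cf c1 c2 c3 c4 c0 D1 D2 D3 D4 D0)
    (rotS : ∀ {D0 D1 D2 D3 D4 : Finset V}, P D1 D2 D3 D4 D0 → P D0 D1 D2 D3 D4)
    (C5 : ∀ {c0 c1 c2 c3 c4 : V} {D0 D1 D2 D3 D4 : Finset V},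
      Cf c0 c1 c2 c3 c4 D0 D1 D2 D3 D4 → big D0 → big D1 → big D2 → big D3 → big D4 →
      P D0 D1 D2 D3 D4)
    (C4 : ∀ {c0 c1 c2 c3 c4 : V} {D0 D1 D2 D3 : Finset V},
      Cf c0 c1 c2 c3 c4 D0 D1 D2 D3 ∅ → big D0 → big D1 → big D2 → big D3 → P D0 D1 D2 D3 ∅)
    (C3 : ∀ {c0 c1 c2 c3 c4 : V} {D0 D1 D2 : Finset V},
      Cf c0 c1 c2 c3 c4 D0 D1 D2 ∅ ∅ → big D0 → big D1 → big D2 → P D0 D1 D2 ∅ ∅)
    (C3' : ∀ {c0 c1 c2 c3 c4 : V} {D0 D1 D3 : Finset V},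
      Cf c0 c1 c2 c3 c4 D0 D1 ∅ D3 ∅ → big D0 → big D1 → big D3 → P D0 D1 ∅ D3 ∅)
    (C2 : ∀ {c0 c1 c2 c3 c4 : V} {D0 D1 : Finset V},
      Cf c0 c1 c2 c3 c4 D0 D1 ∅ ∅ ∅ → P D0 D1 ∅ ∅ ∅)
    (C2' : ∀ {c0 c1 c2 c3 c4 : V} {D0 D2 : Finset V},
      Cf c0 c1 c2 c3 c4 D0 ∅ D2 ∅ ∅ → P D0 ∅ D2 ∅ ∅)
    {c0 c1 c2 c3 c4 : V} {D0 D1 D2 D3 D4 : Finset V} (h : Cf c0 c1 c2 c3 c4 D0 D1 D2 D3 D4)
    (b0 : D0 = ∅ ∨ big D0) (b1 : D1 = ∅ ∨ big D1) (b2 : D2 = ∅ ∨ big D2) (b3 : D3 = ∅ ∨ big D3)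
    (b4 : D4 = ∅ ∨ big D4) : P D0 D1 D2 D3 D4 := by
  have r1 := rot h
  have r2 := rot r1
  have r3 := rot r2
  have r4 := rot r3
  rcases b0 with rfl | b0 <;> rcases b1 with rfl | b1 <;> rcases b2 with rfl | b2 <;>
    rcases b3 with rfl | b3 <;> rcases b4 with rfl | b4 <;>
    first
    | exact C2' h
    | exact rotS (C2' r1)
    | exact rotS (rotS (C2' r2))
    | exact rotS (rotS (rotS (C2' r3)))
    | exact rotS (rotS (rotS (rotS (C2' r4))))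
    | exact C2 h
    | exact rotS (C2 r1)
    | exact rotS (rotS (C2 r2))
    | exact rotS (rotS (rotS (C2 r3)))
    | exact rotS (rotS (rotS (rotS (C2 r4))))
    | exact C3 h (by assumption) (by assumption) (by assumption)
    | exact rotS (C3 r1 (by assumption) (by assumption) (by assumption))
    | exact rotS (rotS (C3 r2 (by assumption) (by assumption) (by assumption)))
    | exact rotS (rotS (rotS (C3 r3 (by assumption) (by assumption) (by assumption))))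
    | exact rotS (rotS (rotS (rotS (C3 r4 (by assumption) (by assumption) (by assumption)))))
    | exact C3' h (by assumption) (by assumption) (by assumption)
    | exact rotS (C3' r1 (by assumption) (by assumption) (by assumption))
    | exact rotS (rotS (C3' r2 (by assumption) (by assumption) (by assumption)))
    | exact rotS (rotS (rotS (C3' r3 (by assumption) (by assumption) (by assumption))))
    | exact rotS (rotS (rotS (rotS (C3' r4 (by assumption) (by assumption) (by assumption)))))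
    | exact C4 h (by assumption) (by assumption) (by assumption) (by assumption)
    | exact rotS (C4 r1 (by assumption) (by assumption) (by assumption) (by assumption))
    | exact rotS (rotS (C4 r2 (by assumption) (by assumption) (by assumption) (by assumption)))
    | exact rotS (rotS (rotS (C4 r3 (by assumption) (by assumption) (by assumption)
        (by assumption))))
    | exact rotS (rotS (rotS (rotS (C4 r4 (by assumption) (by assumption) (by assumption)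
        (by assumption)))))
    | exact C5 h b0 b1 b2 b3 b4

lemma small (D : Finset V) : ∃ X E : Finset V, X.card ≤ 6 ∧ E ⊆ D ∧ (E = ∅ ∨ 7 ≤ E.card) ∧
    ∀ x ∈ D, x ∈ X ∨ x ∈ E := by
  by_cases hD : D.card ≤ 6
  · exact ⟨D, ∅, hD, empty_subset _, Or.inl rfl, fun x hx => Or.inl hx⟩
  · exact ⟨∅, D, by simp, Subset.refl _, Or.inr (by omega), fun x hx => Or.inr hx⟩

lemma cover {R N D0 D1 D2 D3 D4 X0 X1 X2 X3 X4 E0 E1 E2 E3 E4 : Finset V}
    (hR : ∀ x ∈ R, x ∈ N ∨ x ∈ D0 ∨ x ∈ D1 ∨ x ∈ D2 ∨ x ∈ D3 ∨ x ∈ D4)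
    (m0 : ∀ x ∈ D0, x ∈ X0 ∨ x ∈ E0) (m1 : ∀ x ∈ D1, x ∈ X1 ∨ x ∈ E1)
    (m2 : ∀ x ∈ D2, x ∈ X2 ∨ x ∈ E2) (m3 : ∀ x ∈ D3, x ∈ X3 ∨ x ∈ E3)
    (m4 : ∀ x ∈ D4, x ∈ X4 ∨ x ∈ E4) :
    R \ (X0 ∪ X1 ∪ X2 ∪ X3 ∪ X4) ⊆ N ∪ E0 ∪ E1 ∪ E2 ∪ E3 ∪ E4 := by
  intro x hx
  rw [mem_sdiff] at hx
  obtain ⟨hxR, hxX⟩ := hx
  simp only [mem_union, not_or] at hxX
  obtain ⟨⟨⟨⟨y0, y1⟩, y2⟩, y3⟩, y4⟩ := hxX
  simp only [mem_union]
  rcases hR x hxR with h | h | h | h | h | h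
  · exact Or.inl (Or.inl (Or.inl (Or.inl (Or.inl h))))
  · rcases m0 x h with h | h
    · exact absurd h y0
    · exact Or.inl (Or.inl (Or.inl (Or.inl (Or.inr h))))
  · rcases m1 x h with h | h
    · exact absurd h y1
    · exact Or.inl (Or.inl (Or.inl (Or.inr h)))
  · rcases m2 x h with h | h
    · exact absurd h y2
    · exact Or.inl (Or.inl (Or.inr h))
  · rcases m3 x h with h | h
    · exact absurd h y3
    · exact Or.inl (Or.inr h)
  · rcases m4 x h with h | h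
    · exact absurd h y4
    · exact Or.inr h

theorem nd_stmt (hZ : ZStmt) (h01 : ND01Stmt) (h012 : ND012Stmt) (h013 : ND013Stmt)
    (h0123 : ND0123Stmt) (h5 : ND5Stmt) : NDStmt := by
  obtain ⟨KZ, HZ⟩ := hZ
  obtain ⟨K1, H1⟩ := h01
  obtain ⟨K2, H2⟩ := h012
  obtain ⟨K3, H3⟩ := h013
  obtain ⟨K4, H4⟩ := h0123
  obtain ⟨K5, H5⟩ := h5
  set K := KZ + K1 + (K2 + 1) * 2 ^ 5 + K3 + (K4 + 1) * 2 ^ 5 + (K5 + 1) * 2 ^ 5 with hK
  refine ⟨(K + 1) * 2 ^ 30, ?_⟩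
  intro V G hg hp c0 c1 c2 c3 c4 hc R hR
  -- canonical positions
  have C5 : ∀ {c0 c1 c2 c3 c4 : V} {N D0 D1 D2 D3 D4 : Finset V},
      NDCfg G c0 c1 c2 c3 c4 N D0 D1 D2 D3 D4 → 7 ≤ D0.card → 7 ≤ D1.card → 7 ≤ D2.card →
      7 ≤ D3.card → 7 ≤ D4.card → BD G K (N ∪ D0 ∪ D1 ∪ D2 ∪ D3 ∪ D4) :=
    fun h b0 b1 b2 b3 b4 => (L5 H5 hg hp h b0 b1 b2 b3 b4).mono (by omega)
  have C4 : ∀ {c0 c1 c2 c3 c4 : V} {N D0 D1 D2 D3 : Finset V},
      NDCfg G c0 c1 c2 c3 c4 N D0 D1 D2 D3 ∅ → 7 ≤ D0.card → 7 ≤ D1.card → 7 ≤ D2.card →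
      7 ≤ D3.card → BD G K (N ∪ D0 ∪ D1 ∪ D2 ∪ D3 ∪ ∅) :=
    fun h b0 b1 b2 b3 => (L4 H4 hg hp h b0 b1 b2 b3).mono (by omega)
  have C3 : ∀ {c0 c1 c2 c3 c4 : V} {N D0 D1 D2 : Finset V},
      NDCfg G c0 c1 c2 c3 c4 N D0 D1 D2 ∅ ∅ → 7 ≤ D0.card → 7 ≤ D1.card → 7 ≤ D2.card →
      BD G K (N ∪ D0 ∪ D1 ∪ D2 ∪ ∅ ∪ ∅) :=
    fun h b0 b1 b2 => (L3 H2 hg hp h b0 b1 b2).mono (by omega)
  have C3' : ∀ {c0 c1 c2 c3 c4 : V} {N D0 D1 D3 : Finset V},
      NDCfg G c0 c1 c2 c3 c4 N D0 D1 ∅ D3 ∅ → 7 ≤ D0.card → 7 ≤ D1.card → 7 ≤ D3.card →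
      BD G K (N ∪ D0 ∪ D1 ∪ ∅ ∪ D3 ∪ ∅) :=
    fun {c0 c1 c2 c3 c4 N D0 D1 D3} h b0 b1 b3 =>
      ((H3 V G hg hp c0 c1 c2 c3 c4 N D0 D1 D3 h (by omega) (by omega) (by omega)).mono
        (by omega)).sub (by
          intro x hx; simp only [mem_union, notMem_empty, or_false] at hx ⊢; tauto)
  have C2 : ∀ {c0 c1 c2 c3 c4 : V} {N D0 D1 : Finset V},
      NDCfg G c0 c1 c2 c3 c4 N D0 D1 ∅ ∅ ∅ → BD G K (N ∪ D0 ∪ D1 ∪ ∅ ∪ ∅ ∪ ∅) :=
    fun {c0 c1 c2 c3 c4 N D0 D1} h =>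
      ((H1 V G hg hp c0 c1 c2 c3 c4 N D0 D1 h).mono (by omega)).sub (by
          intro x hx; simp only [mem_union, notMem_empty, or_false] at hx ⊢; tauto)
  have C2' : ∀ {c0 c1 c2 c3 c4 : V} {N D0 D2 : Finset V},
      NDCfg G c0 c1 c2 c3 c4 N D0 ∅ D2 ∅ ∅ → BD G K (N ∪ D0 ∪ ∅ ∪ D2 ∪ ∅ ∪ ∅) :=
    fun h => (L2 HZ hg hp h).mono (by omega)
  -- every pattern is a rotation of a canonical one
  have main : ∀ {N D0 D1 D2 D3 D4 : Finset V}, NDCfg G c0 c1 c2 c3 c4 N D0 D1 D2 D3 D4 →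
      (D0 = ∅ ∨ 7 ≤ D0.card) → (D1 = ∅ ∨ 7 ≤ D1.card) → (D2 = ∅ ∨ 7 ≤ D2.card) →
      (D3 = ∅ ∨ 7 ≤ D3.card) → (D4 = ∅ ∨ 7 ≤ D4.card) →
      BD G K (N ∪ D0 ∪ D1 ∪ D2 ∪ D3 ∪ D4) := by
    intro N D0 D1 D2 D3 D4 h b0 b1 b2 b3 b4
    exact pattern (fun c0 c1 c2 c3 c4 D0 D1 D2 D3 D4 => NDCfg G c0 c1 c2 c3 c4 N D0 D1 D2 D3 D4)
      (fun D0 D1 D2 D3 D4 => BD G K (N ∪ D0 ∪ D1 ∪ D2 ∪ D3 ∪ D4)) (fun D => 7 ≤ D.card)
      (fun h => rot h) (fun h => rotS h) (fun h => C5 h) (fun h => C4 h) (fun h => C3 h)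
      (fun h => C3' h) (fun h => C2 h) (fun h => C2' h) h b0 b1 b2 b3 b4
  -- the small sets are deleted
  obtain ⟨N, hN⟩ : ∃ N : Finset V, ∀ x, x ∈ N ↔ x ∈ R ∧ TN G c0 c1 c2 c3 c4 x :=
    ⟨R.filter (fun x => TN G c0 c1 c2 c3 c4 x), fun x => mem_filter⟩
  obtain ⟨D0, hD0⟩ : ∃ N : Finset V, ∀ x, x ∈ N ↔ x ∈ R ∧ TD G c0 c1 c2 c3 c4 x :=
    ⟨R.filter (fun x => TD G c0 c1 c2 c3 c4 x), fun x => mem_filter⟩
  obtain ⟨D1, hD1⟩ : ∃ N : Finset V, ∀ x, x ∈ N ↔ x ∈ R ∧ TD G c1 c2 c3 c4 c0 x :=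
    ⟨R.filter (fun x => TD G c1 c2 c3 c4 c0 x), fun x => mem_filter⟩
  obtain ⟨D2, hD2⟩ : ∃ N : Finset V, ∀ x, x ∈ N ↔ x ∈ R ∧ TD G c2 c3 c4 c0 c1 x :=
    ⟨R.filter (fun x => TD G c2 c3 c4 c0 c1 x), fun x => mem_filter⟩
  obtain ⟨D3, hD3⟩ : ∃ N : Finset V, ∀ x, x ∈ N ↔ x ∈ R ∧ TD G c3 c4 c0 c1 c2 x :=
    ⟨R.filter (fun x => TD G c3 c4 c0 c1 c2 x), fun x => mem_filter⟩
  obtain ⟨D4, hD4⟩ : ∃ N : Finset V, ∀ x, x ∈ N ↔ x ∈ R ∧ TD G c4 c0 c1 c2 c3 x :=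
    ⟨R.filter (fun x => TD G c4 c0 c1 c2 c3 x), fun x => mem_filter⟩
  have hcfg : NDCfg G c0 c1 c2 c3 c4 N D0 D1 D2 D3 D4 :=
    ⟨hc, fun x hx => ((hN x).1 hx).2, fun x hx => ((hD0 x).1 hx).2, fun x hx => ((hD1 x).1 hx).2,
      fun x hx => ((hD2 x).1 hx).2, fun x hx => ((hD3 x).1 hx).2, fun x hx => ((hD4 x).1 hx).2⟩
  have hR' : ∀ x ∈ R, x ∈ N ∨ x ∈ D0 ∨ x ∈ D1 ∨ x ∈ D2 ∨ x ∈ D3 ∨ x ∈ D4 := by
    intro x hx
    rcases hR x hx with h | h | h | h | h | h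
    · exact Or.inl ((hN x).2 ⟨hx, h⟩)
    · exact Or.inr (Or.inl ((hD0 x).2 ⟨hx, h⟩))
    · exact Or.inr (Or.inr (Or.inl ((hD1 x).2 ⟨hx, h⟩)))
    · exact Or.inr (Or.inr (Or.inr (Or.inl ((hD2 x).2 ⟨hx, h⟩))))
    · exact Or.inr (Or.inr (Or.inr (Or.inr (Or.inl ((hD3 x).2 ⟨hx, h⟩)))))
    · exact Or.inr (Or.inr (Or.inr (Or.inr (Or.inr ((hD4 x).2 ⟨hx, h⟩)))))
  clear hN hD0 hD1 hD2 hD3 hD4 hR
  obtain ⟨X0, E0, x0, s0, b0, m0⟩ := small D0
  obtain ⟨X1, E1, x1, s1, b1, m1⟩ := small D1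
  obtain ⟨X2, E2, x2, s2, b2, m2⟩ := small D2
  obtain ⟨X3, E3, x3, s3, b3, m3⟩ := small D3
  obtain ⟨X4, E4, x4, s4, b4, m4⟩ := small D4
  have hfin := main (cfgsub hcfg s0 s1 s2 s3 s4) b0 b1 b2 b3 b4
  refine bdel (X := X0 ∪ X1 ∪ X2 ∪ X3 ∪ X4) hfin ?_ ?_
  · have e1 := card_union_le (X0 ∪ X1 ∪ X2 ∪ X3) X4
    have e2 := card_union_le (X0 ∪ X1 ∪ X2) X3
    have e3 := card_union_le (X0 ∪ X1) X2
    have e4 := card_union_le X0 X1
    omega
  · exact cover hR' m0 m1 m2 m3 m4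

end Pool.Agent.H619R2.ND
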