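import Pool.Agent.H175F.H676R2_G_T18aFacts

/-! T18a (helper676): `NDMnlStmt`. -/

set_option linter.unusedVariables false

namespace Pool.Agent.H676R2.T18a

open Pool.Agent.H175G
open Finset Classical

variable {V : Type} {G : SimpleGraph V} {c0 c1 c2 c3 c4 : V}

/-- not homogeneous to `M` -/
def NH (G : SimpleGraph V) (M : Finset V) (n : V) : Prop :=
  ∃ m ∈ M, ∃ m' ∈ M, G.Adj n m ∧ ¬ G.Adj n m'

lemma tnrot {x : V} (h : TN G c0 c1 c2 c3 c4 x) : TN G c2 c3 c4 c0 c1 x :=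
  ⟨h.2.2.1, h.2.2.2.1, h.2.2.2.2, h.1, h.2.1⟩

lemma key (hg : NoGem G) (hp : NoP23 G) (hc : C5c G c0 c1 c2 c3 c4)
    {N E0 E1 E2 E3 E4 M : Finset V} (hN : ∀ x ∈ N, TN G c0 c1 c2 c3 c4 x)
    (h0 : ∀ x ∈ E0, TD G c0 c1 c2 c3 c4 x) (h1 : ∀ x ∈ E1, TD G c1 c2 c3 c4 c0 x)
    (h2 : ∀ x ∈ E2, TD G c2 c3 c4 c0 c1 x) (h3 : ∀ x ∈ E3, TD G c3 c4 c0 c1 c2 x)
    (h4 : ∀ x ∈ E4, TD G c4 c0 c1 c2 c3 x) (hM : ∀ x ∈ M, TM G c0 c1 c2 c3 c4 x)
    (hcm : Comp G E0 M) {n : V} (hn : n ∈ N) (hnh : NH G M n) :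
    (∀ d, d ∈ E1 ∨ d ∈ E2 ∨ d ∈ E3 ∨ d ∈ E4 → ¬ G.Adj n d) ∧
    ∀ x ∈ E0, G.Adj n x → (∀ d, d ∈ E1 ∨ d ∈ E2 ∨ d ∈ E3 ∨ d ∈ E4 → G.Adj x d) ∧
      (∀ d ∈ E0, ¬ G.Adj n d → ¬ G.Adj x d) ∧ (∀ n' ∈ N, n ≠ n' → ¬ G.Adj x n') ∧
      (∀ d ∈ E0, G.Adj n d → x ≠ d → G.Adj x d) := by
  obtain ⟨m, hm, m', hm', ha, hna⟩ := hnh
  have tn := hN n hn
  have tm := hM m hm
  have tm' := hM m' hm'
  refine ⟨?_, ?_⟩
  · rintro d (hd | hd | hd | hd) h
    · exact hna (nd1 hg hp hc tn (h1 d hd) tm' h)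
    · exact hna (nd2 hg hp hc tn (h2 d hd) tm tm' h ha)
    · exact hna (nd3 hg hp hc tn (h3 d hd) tm tm' h ha)
    · exact hna (nd4 hg hp hc tn (h4 d hd) tm' h)
  · intro x hx hnx
    have tx := h0 x hx
    refine ⟨?_, ?_, ?_, ?_⟩
    · rintro d (hd | hd | hd | hd)
      · exact x1 hg hp hc tn tx (h1 d hd) tm tm' (hcm x hx m hm) (hcm x hx m' hm') hnx ha hna
      · exact x2 hg hp hc tn tx (h2 d hd) tm tm' (hcm x hx m hm) (hcm x hx m' hm') hnx ha hna
      · exact x3 hg hp hc tn tx (h3 d hd) tm tm' (hcm x hx m hm) (hcm x hx m' hm') hnx ha hna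
      · exact x4 hg hp hc tn tx (h4 d hd) tm tm' (hcm x hx m hm) (hcm x hx m' hm') hnx ha hna
    · intro d hd h
      exact x0 hg hp hc tn tx (h0 d hd) tm tm' (hcm x hx m hm) (hcm x hx m' hm')
        (hcm d hd m hm) (hcm d hd m' hm') hnx ha hna h
    · intro n' hn' hne
      exact xn hg hp hc tn (hN n' hn') tx tm tm' (hcm x hx m hm) (hcm x hx m' hm') hnx ha hna hne
    · intro d hd h hne
      exact x00 hg hp hc tn tx (h0 d hd) tm tm' (hcm x hx m hm) (hcm x hx m' hm')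
        (hcm d hd m hm) (hcm d hd m' hm') hnx ha hna h hne

/-- adjacency vector with the cycle -/
noncomputable def cvec (G : SimpleGraph V) (c0 c1 c2 c3 c4 x : V) : Bool × Bool × Bool × Bool × Bool :=
  (decide (G.Adj c0 x), decide (G.Adj c1 x), decide (G.Adj c2 x), decide (G.Adj c3 x),
    decide (G.Adj c4 x))

lemma cN {x : V} (h : TN G c0 c1 c2 c3 c4 x) :
    cvec G c0 c1 c2 c3 c4 x = (false, false, false, false, false) := by
  obtain ⟨h1, h2, h3, h4, h5⟩ := h
  simp [cvec, h1, h2, h3, h4, h5]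

lemma cD0 {x : V} (h : TD G c0 c1 c2 c3 c4 x) :
    cvec G c0 c1 c2 c3 c4 x = (false, true, false, false, true) := by
  obtain ⟨h1, h2, h3, h4, h5, _⟩ := h
  simp [cvec, h1, h2, h3, h4, h5]

lemma cD1 {x : V} (h : TD G c1 c2 c3 c4 c0 x) :
    cvec G c0 c1 c2 c3 c4 x = (true, false, true, false, false) := by
  obtain ⟨h1, h2, h3, h4, h5, _⟩ := h
  simp [cvec, h1, h2, h3, h4, h5]

lemma cD2 {x : V} (h : TD G c2 c3 c4 c0 c1 x) :
    cvec G c0 c1 c2 c3 c4 x = (false, true, false, true, false) := by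
  obtain ⟨h1, h2, h3, h4, h5, _⟩ := h
  simp [cvec, h1, h2, h3, h4, h5]

lemma cD3 {x : V} (h : TD G c3 c4 c0 c1 c2 x) :
    cvec G c0 c1 c2 c3 c4 x = (false, false, true, false, true) := by
  obtain ⟨h1, h2, h3, h4, h5, _⟩ := h
  simp [cvec, h1, h2, h3, h4, h5]

lemma cD4 {x : V} (h : TD G c4 c0 c1 c2 c3 x) :
    cvec G c0 c1 c2 c3 c4 x = (true, false, false, true, false) := by
  obtain ⟨h1, h2, h3, h4, h5, _⟩ := h
  simp [cvec, h1, h2, h3, h4, h5]

lemma cM0 {x : V} (h : TM G c0 c1 c2 c3 c4 x) :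
    cvec G c0 c1 c2 c3 c4 x = (true, false, true, true, false) := by
  obtain ⟨h1, h2, h3, h4, h5⟩ := h
  simp [cvec, h1, h2, h3, h4, h5]

lemma cM2 {x : V} (h : TM G c2 c3 c4 c0 c1 x) :
    cvec G c0 c1 c2 c3 c4 x = (true, false, true, false, true) := by
  obtain ⟨h1, h2, h3, h4, h5⟩ := h
  simp [cvec, h1, h2, h3, h4, h5]

/-- type predicate on adjacency vectors: `M₀` -/
abbrev kM0 : Bool × Bool × Bool × Bool × Bool := (true, false, true, true, false)
/-- `M₂` -/
abbrev kM2 : Bool × Bool × Bool × Bool × Bool := (true, false, true, false, true)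
/-- `D₀` -/
abbrev kD0 : Bool × Bool × Bool × Bool × Bool := (false, true, false, false, true)
/-- `D₁` -/
abbrev kD1 : Bool × Bool × Bool × Bool × Bool := (true, false, true, false, false)
/-- `D₂` -/
abbrev kD2 : Bool × Bool × Bool × Bool × Bool := (false, true, false, true, false)
/-- `D₃` -/
abbrev kD3 : Bool × Bool × Bool × Bool × Bool := (false, false, true, false, true)
/-- `D₄` -/
abbrev kD4 : Bool × Bool × Bool × Bool × Bool := (true, false, false, true, false)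

/-- labels -/
abbrev La : Type := (Bool × Bool × Bool × Bool × Bool) × Bool × Bool

/-- adjacency between the two parts of `V₀` -/
def F1 (l l' : La) : Prop := (l.1 = kM0 ∧ l'.2.1 = true) ∨ (l.1 = kM2 ∧ l'.2.2 = true)

/-- adjacency between a vertex of `W` and the rest -/
def F2 (l l' : La) : Prop :=
  (l.1 = kD0 ∧ (l'.1 = kM0 ∨ (l'.1 = kM2 ∧ l.2.2 = true) ∨ l'.1 = kD1 ∨ l'.1 = kD2 ∨ l'.1 = kD3 ∨
    l'.1 = kD4)) ∨
  (l.1 = kD2 ∧ (l'.1 = kM2 ∨ (l'.1 = kM0 ∧ l.2.1 = true) ∨ l'.1 = kD0 ∨ l'.1 = kD1 ∨ l'.1 = kD3 ∨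
    l'.1 = kD4))

theorem ndmnl_stmt (hA : AttachStmt) (hT : TwoStmt) (hZ : ZStmt) (hND : NDStmt) : NDMnlStmt := by
  obtain ⟨BA, hA⟩ := hA
  obtain ⟨BT, hT⟩ := hT
  obtain ⟨KZ, hZ⟩ := hZ
  obtain ⟨KD, hND⟩ := hND
  refine ⟨BA (BT KZ KD (Fintype.card La)) 1 (Fintype.card La), ?_⟩
  intro V G hg hp c0 c1 c2 c3 c4 N D0 D1 D2 D3 D4 M0 M2 hcfg hM0 hM2 hcm0 hcm2
  obtain ⟨hc, hN, hD0, hD1, hD2, hD3, hD4⟩ := hcfg
  have hrot := rot hc
  have hNr : ∀ x ∈ N, TN G c2 c3 c4 c0 c1 x := fun x hx => tnrot (hN x hx)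
  have key0 := fun (n : V) (hn : n ∈ N) (h : NH G M0 n) =>
    key hg hp hc hN hD0 hD1 hD2 hD3 hD4 hM0 hcm0 hn h
  have key2 := fun (n : V) (hn : n ∈ N) (h : NH G M2 n) =>
    key hg hp hrot hNr hD2 hD3 hD4 hD0 hD1 hM2 hcm2 hn h
  set D : Finset V := D0 ∪ D1 ∪ D2 ∪ D3 ∪ D4 with hD
  set Nnc : Finset V := N.filter (fun n => NH G M0 n ∨ NH G M2 n) with hNnc
  set W : Finset V := D.filter (fun x => ∃ n ∈ Nnc, G.Adj n x) with hW
  have memD : ∀ x, x ∈ D ↔ x ∈ D0 ∨ x ∈ D1 ∨ x ∈ D2 ∨ x ∈ D3 ∨ x ∈ D4 := by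
    intro x; rw [hD]; simp only [mem_union]; tauto
  have memNnc : ∀ x, x ∈ Nnc ↔ x ∈ N ∧ (NH G M0 x ∨ NH G M2 x) := by
    intro x; rw [hNnc, mem_filter]
  have memW : ∀ x, x ∈ W ↔ x ∈ D ∧ ∃ n ∈ Nnc, G.Adj n x := by
    intro x; rw [hW, mem_filter]
  set cv := cvec G c0 c1 c2 c3 c4 with hcv
  have tD : ∀ x ∈ D, cv x = kD0 ∨ cv x = kD1 ∨ cv x = kD2 ∨ cv x = kD3 ∨ cv x = kD4 := by
    intro x hx
    rcases (memD x).1 hx with h | h | h | h | h
    · left; exact cD0 (hD0 x h)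
    · right; left; exact cD1 (hD1 x h)
    · right; right; left; exact cD2 (hD2 x h)
    · right; right; right; left; exact cD3 (hD3 x h)
    · right; right; right; right; exact cD4 (hD4 x h)
  have tN : ∀ x ∈ N, cv x = (false, false, false, false, false) := fun x hx => cN (hN x hx)
  have tM0 : ∀ x ∈ M0, cv x = kM0 := fun x hx => cM0 (hM0 x hx)
  have tM2 : ∀ x ∈ M2, cv x = kM2 := fun x hx => cM2 (hM2 x hx)
  have hindN : ∀ x ∈ N, ∀ y ∈ N, ¬ G.Adj x y := fun x hx y hy => indN hp hc (hN x hx) (hN y hy)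
  -- homogeneity of the vertices of `D`
  have homD0 : ∀ d ∈ D, ∀ m ∈ M0, ∀ m' ∈ M0, G.Adj d m → G.Adj d m' := by
    intro d hd m hm m' hm' h
    rcases (memD d).1 hd with h' | h' | h' | h' | h'
    · exact hcm0 d h' m' hm'
    · exact absurd h (d1m hg hp hc (hD1 d h') (hM0 m hm))
    · exact d2m hg hp hc (hD2 d h') (hM0 m hm) (hM0 m' hm') h
    · exact d3m hg hp hc (hD3 d h') (hM0 m hm) (hM0 m' hm') h
    · exact absurd h (d4m hg hp hc (hD4 d h') (hM0 m hm))
  have homD2 : ∀ d ∈ D, ∀ m ∈ M2, ∀ m' ∈ M2, G.Adj d m → G.Adj d m' := by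
    intro d hd m hm m' hm' h
    rcases (memD d).1 hd with h' | h' | h' | h' | h'
    · exact d3m hg hp hrot (hD0 d h') (hM2 m hm) (hM2 m' hm') h
    · exact absurd h (d4m hg hp hrot (hD1 d h') (hM2 m hm))
    · exact hcm2 d h' m' hm'
    · exact absurd h (d1m hg hp hrot (hD3 d h') (hM2 m hm))
    · exact d2m hg hp hrot (hD4 d h') (hM2 m hm) (hM2 m' hm') h
  set lab : V → La := fun x =>
    (cv x, decide (∀ m ∈ M0, G.Adj x m), decide (∀ m ∈ M2, G.Adj x m)) with hlab
  -- the part `V₀`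
  have hBDA : BD G KZ (M0 ∪ M2 ∪ Nnc) := by
    refine hZ V G hg hp c0 (M0 ∪ M2) Nnc ⟨?_, ?_, ?_, ?_⟩
    · intro m hm
      rcases mem_union.1 hm with h | h
      · exact (hM0 m h).1
      · exact (hM2 m h).2.2.2.1
    · intro n hn
      exact (hN n ((memNnc n).1 hn).1).1
    · intro x hx y hy
      exact hindN x ((memNnc x).1 hx).1 y ((memNnc y).1 hy).1
    · intro h
      have h1 := hN c0 ((memNnc c0).1 h).1
      exact h1.2.1 hc.1.symm
  have hBDC : BD G KD ((N \ Nnc) ∪ (D \ W)) := by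
    refine hND V G hg hp c0 c1 c2 c3 c4 hc _ ?_
    intro x hx
    rcases mem_union.1 hx with h | h
    · left; exact hN x (mem_sdiff.1 h).1
    · right
      rcases (memD x).1 (mem_sdiff.1 h).1 with h' | h' | h' | h' | h'
      · left; exact hD0 x h'
      · right; left; exact hD1 x h'
      · right; right; left; exact hD2 x h'
      · right; right; right; left; exact hD3 x h'
      · right; right; right; right; exact hD4 x h'
  have memC : ∀ y, y ∈ (N \ Nnc) ∪ (D \ W) ↔ (y ∈ N ∧ y ∉ Nnc) ∨ (y ∈ D ∧ y ∉ W) := by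
    intro y; rw [mem_union, mem_sdiff, mem_sdiff]
  have memA : ∀ y, y ∈ M0 ∪ M2 ∪ Nnc ↔ y ∈ M0 ∨ y ∈ M2 ∨ y ∈ Nnc := by
    intro y; simp only [mem_union]; tauto
  have homC0 : ∀ y ∈ (N \ Nnc) ∪ (D \ W), ∀ m ∈ M0, ∀ m' ∈ M0, G.Adj y m → G.Adj y m' := by
    intro y hy m hm m' hm' h
    rcases (memC y).1 hy with ⟨h1, h2⟩ | ⟨h1, h2⟩
    · by_contra h3
      exact h2 ((memNnc y).2 ⟨h1, Or.inl ⟨m, hm, m', hm', h, h3⟩⟩)
    · exact homD0 y h1 m hm m' hm' h
  have homC2 : ∀ y ∈ (N \ Nnc) ∪ (D \ W), ∀ m ∈ M2, ∀ m' ∈ M2, G.Adj y m → G.Adj y m' := by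
    intro y hy m hm m' hm' h
    rcases (memC y).1 hy with ⟨h1, h2⟩ | ⟨h1, h2⟩
    · by_contra h3
      exact h2 ((memNnc y).2 ⟨h1, Or.inr ⟨m, hm, m', hm', h, h3⟩⟩)
    · exact homD2 y h1 m hm m' hm' h
  have hdisj : Disjoint (M0 ∪ M2 ∪ Nnc) ((N \ Nnc) ∪ (D \ W)) := by
    rw [Finset.disjoint_left]
    intro x hx hy
    rcases (memA x).1 hx with h | h | h
    · have e1 := tM0 x h
      rcases (memC x).1 hy with ⟨h1, _⟩ | ⟨h1, _⟩
      · have e2 := tN x h1; rw [e1] at e2; simp at e2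
      · rcases tD x h1 with e2 | e2 | e2 | e2 | e2 <;> (rw [e1] at e2; simp at e2)
    · have e1 := tM2 x h
      rcases (memC x).1 hy with ⟨h1, _⟩ | ⟨h1, _⟩
      · have e2 := tN x h1; rw [e1] at e2; simp at e2
      · rcases tD x h1 with e2 | e2 | e2 | e2 | e2 <;> (rw [e1] at e2; simp at e2)
    · rcases (memC x).1 hy with ⟨_, h1⟩ | ⟨h1, _⟩
      · exact h1 h
      · have e1 := tN x ((memNnc x).1 h).1
        rcases tD x h1 with e2 | e2 | e2 | e2 | e2 <;> (rw [e1] at e2; simp at e2)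
  have hBDV : BD G (BT KZ KD (Fintype.card La))
      ((M0 ∪ M2 ∪ Nnc) ∪ ((N \ Nnc) ∪ (D \ W))) := by
    refine hT V G La KZ KD _ _ lab F1 hdisj hBDA hBDC ?_
    intro x hx y hy
    rcases (memA x).1 hx with h | h | h
    · have e1 := tM0 x h
      constructor
      · intro hxy
        left
        refine ⟨e1, ?_⟩
        exact decide_eq_true (fun m hm => homC0 y hy x h m hm hxy.symm)
      · rintro (⟨_, h1⟩ | ⟨h1, _⟩)
        · exact (of_decide_eq_true h1 x h).symm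
        · have h1' : cv x = kM2 := h1
          rw [e1] at h1'; simp at h1'
    · have e1 := tM2 x h
      constructor
      · intro hxy
        right
        refine ⟨e1, ?_⟩
        exact decide_eq_true (fun m hm => homC2 y hy x h m hm hxy.symm)
      · rintro (⟨h1, _⟩ | ⟨_, h1⟩)
        · have h1' : cv x = kM0 := h1
          rw [e1] at h1'; simp at h1'
        · exact (of_decide_eq_true h1 x h).symm
    · have e1 := tN x ((memNnc x).1 h).1
      constructor
      · intro hxy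
        exfalso
        rcases (memC y).1 hy with ⟨h1, _⟩ | ⟨h1, h2⟩
        · exact hindN x ((memNnc x).1 h).1 y h1 hxy
        · exact h2 ((memW y).2 ⟨h1, x, h, hxy⟩)
      · rintro (⟨h1, _⟩ | ⟨h1, _⟩)
        · have h1' : cv x = kM0 := h1
          rw [e1] at h1'; simp at h1'
        · have h1' : cv x = kM2 := h1
          rw [e1] at h1'; simp at h1'
  set V0 : Finset V := (M0 ∪ M2 ∪ Nnc) ∪ ((N \ Nnc) ∪ (D \ W)) with hV0
  have memV0 : ∀ y, y ∈ V0 → (y ∈ M0 ∨ y ∈ M2 ∨ y ∈ N ∨ y ∈ D) ∧ y ∉ W := by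
    intro y hy
    have hnW : ∀ z, z ∈ W → z ∈ D := fun z hz => ((memW z).1 hz).1
    rcases mem_union.1 hy with h | h
    · rcases (memA y).1 h with h' | h' | h'
      · refine ⟨Or.inl h', fun hw => ?_⟩
        have e1 := tM0 y h'
        rcases tD y (hnW y hw) with e2 | e2 | e2 | e2 | e2 <;> (rw [e1] at e2; simp at e2)
      · refine ⟨Or.inr (Or.inl h'), fun hw => ?_⟩
        have e1 := tM2 y h'
        rcases tD y (hnW y hw) with e2 | e2 | e2 | e2 | e2 <;> (rw [e1] at e2; simp at e2)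
      · refine ⟨Or.inr (Or.inr (Or.inl ((memNnc y).1 h').1)), fun hw => ?_⟩
        have e1 := tN y ((memNnc y).1 h').1
        rcases tD y (hnW y hw) with e2 | e2 | e2 | e2 | e2 <;> (rw [e1] at e2; simp at e2)
    · rcases (memC y).1 h with ⟨h1, _⟩ | ⟨h1, h2⟩
      · refine ⟨Or.inr (Or.inr (Or.inl h1)), fun hw => ?_⟩
        have e1 := tN y h1
        rcases tD y (hnW y hw) with e2 | e2 | e2 | e2 | e2 <;> (rw [e1] at e2; simp at e2)
      · exact ⟨Or.inr (Or.inr (Or.inr h1)), h2⟩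
  -- anchors
  have hex : ∀ x, ∃ n, x ∈ W → (n ∈ Nnc ∧ G.Adj n x) := by
    intro x
    by_cases hx : x ∈ W
    · obtain ⟨n, hn, hnx⟩ := ((memW x).1 hx).2
      exact ⟨n, fun _ => ⟨hn, hnx⟩⟩
    · exact ⟨x, fun h => absurd h hx⟩
  choose anc hanc using hex
  set b : V → V := fun x => if x ∈ W then anc x else x with hb
  have bW : ∀ x ∈ W, b x ∈ Nnc ∧ G.Adj (b x) x := by
    intro x hx
    have : b x = anc x := if_pos hx
    rw [this]; exact hanc x hx
  have bnW : ∀ x, x ∉ W → b x = x := fun x hx => if_neg hx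
  -- local structure
  have dsj0 : ∀ x ∈ D0, cv x = kD0 := fun x hx => cD0 (hD0 x hx)
  have dsj2 : ∀ x ∈ D2, cv x = kD2 := fun x hx => cD2 (hD2 x hx)
  have loc : ∀ x ∈ W, (x ∈ D0 ∧ NH G M0 (b x)) ∨ (x ∈ D2 ∧ NH G M2 (b x)) := by
    intro x hx
    obtain ⟨h1, h2⟩ := bW x hx
    obtain ⟨h3, h4⟩ := (memNnc _).1 h1
    have hxD := (memD x).1 ((memW x).1 hx).1
    rcases h4 with h4 | h4
    · left
      refine ⟨?_, h4⟩
      have k := (key0 _ h3 h4).1 x
      rcases hxD with h | h | h | h | h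
      · exact h
      · exact absurd h2 (k (Or.inl h))
      · exact absurd h2 (k (Or.inr (Or.inl h)))
      · exact absurd h2 (k (Or.inr (Or.inr (Or.inl h))))
      · exact absurd h2 (k (Or.inr (Or.inr (Or.inr h))))
    · right
      refine ⟨?_, h4⟩
      have k := (key2 _ h3 h4).1 x
      rcases hxD with h | h | h | h | h
      · exact absurd h2 (k (Or.inr (Or.inr (Or.inl h))))
      · exact absurd h2 (k (Or.inr (Or.inr (Or.inr h))))
      · exact h
      · exact absurd h2 (k (Or.inl h))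
      · exact absurd h2 (k (Or.inr (Or.inl h)))
  have hNncW : ∀ n ∈ Nnc, n ∉ W := by
    intro n hn hw
    have e1 := tN n ((memNnc n).1 hn).1
    rcases tD n ((memW n).1 hw).1 with e2 | e2 | e2 | e2 | e2 <;> (rw [e1] at e2; simp at e2)
  have hres := hA V G La V (BT KZ KD (Fintype.card La)) 1 V0 W lab F2 b hBDV ?_ ?_ ?_
  · refine hres.sub ?_
    intro x hx
    rw [mem_union]
    by_cases hxW : x ∈ W
    · exact Or.inr hxW
    · left
      rw [hV0, mem_union]
      have hx' : x ∈ N ∨ x ∈ D ∨ x ∈ M0 ∨ x ∈ M2 := by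
        rw [memD]; simp only [mem_union] at hx; tauto
      rcases hx' with h | h | h | h
      · by_cases hn : x ∈ Nnc
        · left; exact (memA x).2 (Or.inr (Or.inr hn))
        · right; exact (memC x).2 (Or.inl ⟨h, hn⟩)
      · right; exact (memC x).2 (Or.inr ⟨h, hxW⟩)
      · left; exact (memA x).2 (Or.inl h)
      · left; exact (memA x).2 (Or.inr (Or.inl h))
  · intro x hx y hy h
    rw [bnW x (memV0 x hx).2, bnW y (memV0 y hy).2] at h
    exact h
  · intro x hx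
    apply BD.clq
    intro y hy z hz hne
    obtain ⟨hy1, hy2⟩ := mem_filter.1 hy
    obtain ⟨hz1, hz2⟩ := mem_filter.1 hz
    have hyz : b y = b z := hy2.trans hz2.symm
    by_cases hyW : y ∈ W
    · by_cases hzW : z ∈ W
      · obtain ⟨k1, k2⟩ := bW y hyW
        obtain ⟨k3, k4⟩ := bW z hzW
        rw [← hyz] at k3 k4
        have k5 := ((memNnc _).1 k1).1
        have hzl := loc z hzW
        rw [← hyz] at hzl
        rcases loc y hyW with ⟨h1, h2⟩ | ⟨h1, h2⟩
        · have kk := (key0 _ k5 h2).2 y h1 k2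
          rcases hzl with ⟨h3, _⟩ | ⟨h3, _⟩
          · exact kk.2.2.2 z h3 k4 hne
          · exact absurd k4 ((key0 _ k5 h2).1 z (Or.inr (Or.inl h3)))
        · have kk := (key2 _ k5 h2).2 y h1 k2
          rcases hzl with ⟨h3, _⟩ | ⟨h3, _⟩
          · exact absurd k4 ((key2 _ k5 h2).1 z (Or.inr (Or.inr (Or.inl h3))))
          · exact kk.2.2.2 z h3 k4 hne
      · have h1 := (bW y hyW).2
        rw [hyz, bnW z hzW] at h1
        exact h1.symm
    · by_cases hzW : z ∈ W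
      · have h1 := (bW z hzW).2
        rw [← hyz, bnW y hyW] at h1
        exact h1
      · rw [bnW y hyW, bnW z hzW] at hyz
        exact absurd hyz hne
  · intro x hx y hy hxy
    obtain ⟨k1, k2⟩ := bW x hx
    have k5 := ((memNnc _).1 k1).1
    have hxD : x ∈ D := ((memW x).1 hx).1
    have hycat : y ∈ M0 ∨ y ∈ M2 ∨ y ∈ N ∨ y ∈ D := by
      rcases mem_union.1 hy with h | h
      · exact (memV0 y h).1
      · exact Or.inr (Or.inr (Or.inr ((memW y).1 h).1))
    have hyn : y ∈ N → b x ≠ y := by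
      intro h1 h2
      apply hxy
      have h3 : y ∉ W := by
        intro hw
        have e1 := tN y h1
        rcases tD y ((memW y).1 hw).1 with e2 | e2 | e2 | e2 | e2 <;> (rw [e1] at e2; simp at e2)
      rw [bnW y h3, h2]
    rcases loc x hx with ⟨h1, h2⟩ | ⟨h1, h2⟩
    · -- `x ∈ D₀`
      have e1 : cv x = kD0 := dsj0 x h1
      obtain ⟨f1, f2, f3, f4⟩ := (key0 _ k5 h2).2 x h1 k2
      rcases hycat with h | h | h | h
      · have e2 : cv y = kM0 := tM0 y h
        constructor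
        · intro _; left; exact ⟨e1, Or.inl e2⟩
        · intro _; exact hcm0 x h1 y h
      · have e2 : cv y = kM2 := tM2 y h
        constructor
        · intro hadj; left
          exact ⟨e1, Or.inr (Or.inl ⟨e2, decide_eq_true fun m hm => homD2 x hxD y h m hm hadj⟩)⟩
        · rintro (⟨_, h3 | ⟨_, h3⟩ | h3 | h3 | h3 | h3⟩ | ⟨h3, _⟩)
          · have h3' : cv y = kM0 := h3
            rw [e2] at h3'; simp at h3'
          · exact of_decide_eq_true h3 y h
          · have h3' : cv y = kD1 := h3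
            rw [e2] at h3'; simp at h3'
          · have h3' : cv y = kD2 := h3
            rw [e2] at h3'; simp at h3'
          · have h3' : cv y = kD3 := h3
            rw [e2] at h3'; simp at h3'
          · have h3' : cv y = kD4 := h3
            rw [e2] at h3'; simp at h3'
          · have h3' : cv x = kD2 := h3
            rw [e1] at h3'; simp at h3'
      · have e2 : cv y = (false, false, false, false, false) := tN y h
        constructor
        · intro hadj; exact absurd hadj (f3 y h (hyn h))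
        · intro hF
          exfalso
          change (cv x = kD0 ∧ (cv y = kM0 ∨ (cv y = kM2 ∧ _) ∨ cv y = kD1 ∨ cv y = kD2 ∨
            cv y = kD3 ∨ cv y = kD4)) ∨ (cv x = kD2 ∧ _) at hF
          rw [e1, e2] at hF
          simp at hF
      · rcases (memD y).1 h with h' | h' | h' | h' | h'
        · have e2 : cv y = kD0 := dsj0 y h'
          have hny : ¬ G.Adj (b x) y := by
            intro hadj
            have hyW : y ∈ W := (memW y).2 ⟨h, b x, k1, hadj⟩
            obtain ⟨q1, q2⟩ := bW y hyW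
            obtain ⟨_, _, g3, _⟩ := (key0 _ k5 h2).2 y h' hadj
            by_contra _
            exact g3 (b y) ((memNnc _).1 q1).1 hxy q2.symm
          constructor
          · intro hadj; exact absurd hadj (f2 y h' hny)
          · intro hF
            exfalso
            change (cv x = kD0 ∧ (cv y = kM0 ∨ (cv y = kM2 ∧ _) ∨ cv y = kD1 ∨ cv y = kD2 ∨
              cv y = kD3 ∨ cv y = kD4)) ∨ (cv x = kD2 ∧ _) at hF
            rw [e1, e2] at hF
            simp at hF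
        · exact ⟨fun _ => Or.inl ⟨e1, Or.inr (Or.inr (Or.inl (cD1 (hD1 y h'))))⟩,
            fun _ => f1 y (Or.inl h')⟩
        · exact ⟨fun _ => Or.inl ⟨e1, Or.inr (Or.inr (Or.inr (Or.inl (cD2 (hD2 y h')))))⟩,
            fun _ => f1 y (Or.inr (Or.inl h'))⟩
        · exact ⟨fun _ => Or.inl ⟨e1, Or.inr (Or.inr (Or.inr (Or.inr (Or.inl (cD3 (hD3 y h'))))))⟩,
            fun _ => f1 y (Or.inr (Or.inr (Or.inl h')))⟩
        · exact ⟨fun _ => Or.inl ⟨e1, Or.inr (Or.inr (Or.inr (Or.inr (Or.inr (cD4 (hD4 y h'))))))⟩,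
            fun _ => f1 y (Or.inr (Or.inr (Or.inr h')))⟩
    · -- `x ∈ D₂`
      have e1 : cv x = kD2 := dsj2 x h1
      obtain ⟨f1, f2, f3, f4⟩ := (key2 _ k5 h2).2 x h1 k2
      rcases hycat with h | h | h | h
      · have e2 : cv y = kM0 := tM0 y h
        constructor
        · intro hadj; right
          exact ⟨e1, Or.inr (Or.inl ⟨e2, decide_eq_true fun m hm => homD0 x hxD y h m hm hadj⟩)⟩
        · rintro (⟨h3, _⟩ | ⟨_, h3 | ⟨_, h3⟩ | h3 | h3 | h3 | h3⟩)
          · have h3' : cv x = kD0 := h3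
            rw [e1] at h3'; simp at h3'
          · have h3' : cv y = kM2 := h3
            rw [e2] at h3'; simp at h3'
          · exact of_decide_eq_true h3 y h
          · have h3' : cv y = kD0 := h3
            rw [e2] at h3'; simp at h3'
          · have h3' : cv y = kD1 := h3
            rw [e2] at h3'; simp at h3'
          · have h3' : cv y = kD3 := h3
            rw [e2] at h3'; simp at h3'
          · have h3' : cv y = kD4 := h3
            rw [e2] at h3'; simp at h3'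
      · have e2 : cv y = kM2 := tM2 y h
        constructor
        · intro _; right; exact ⟨e1, Or.inl e2⟩
        · intro _; exact hcm2 x h1 y h
      · have e2 : cv y = (false, false, false, false, false) := tN y h
        constructor
        · intro hadj; exact absurd hadj (f3 y h (hyn h))
        · intro hF
          exfalso
          change (cv x = kD0 ∧ _) ∨ (cv x = kD2 ∧ (cv y = kM2 ∨ (cv y = kM0 ∧ _) ∨ cv y = kD0 ∨
            cv y = kD1 ∨ cv y = kD3 ∨ cv y = kD4)) at hF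
          rw [e1, e2] at hF
          simp at hF
      · rcases (memD y).1 h with h' | h' | h' | h' | h'
        · exact ⟨fun _ => Or.inr ⟨e1, Or.inr (Or.inr (Or.inl (cD0 (hD0 y h'))))⟩,
            fun _ => f1 y (Or.inr (Or.inr (Or.inl h')))⟩
        · exact ⟨fun _ => Or.inr ⟨e1, Or.inr (Or.inr (Or.inr (Or.inl (cD1 (hD1 y h')))))⟩,
            fun _ => f1 y (Or.inr (Or.inr (Or.inr h')))⟩
        · have e2 : cv y = kD2 := dsj2 y h'
          have hny : ¬ G.Adj (b x) y := by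
            intro hadj
            have hyW : y ∈ W := (memW y).2 ⟨h, b x, k1, hadj⟩
            obtain ⟨q1, q2⟩ := bW y hyW
            obtain ⟨_, _, g3, _⟩ := (key2 _ k5 h2).2 y h' hadj
            exact g3 (b y) ((memNnc _).1 q1).1 hxy q2.symm
          constructor
          · intro hadj; exact absurd hadj (f2 y h' hny)
          · intro hF
            exfalso
            change (cv x = kD0 ∧ _) ∨ (cv x = kD2 ∧ (cv y = kM2 ∨ (cv y = kM0 ∧ _) ∨ cv y = kD0 ∨
              cv y = kD1 ∨ cv y = kD3 ∨ cv y = kD4)) at hF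
            rw [e1, e2] at hF
            simp at hF
        · exact ⟨fun _ => Or.inr ⟨e1, Or.inr (Or.inr (Or.inr (Or.inr (Or.inl (cD3 (hD3 y h'))))))⟩,
            fun _ => f1 y (Or.inl h')⟩
        · exact ⟨fun _ => Or.inr ⟨e1, Or.inr (Or.inr (Or.inr (Or.inr (Or.inr (cD4 (hD4 y h'))))))⟩,
            fun _ => f1 y (Or.inr (Or.inl h'))⟩

end Pool.Agent.H676R2.T18a
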