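import Pool.Agent.H175F.Stmts2

/-! `ND012Stmt`, `ND0123Stmt`, `ND5Stmt`. -/

set_option linter.unusedVariables false

namespace Pool.Agent.H797R2.ND17b

open Finset Classical
open Pool.Agent.H175G
open Pool.Agent.H175R2 (DT nt on cpt Cn P4Free)

lemma mf {α : Type} {p : α → Prop} {inst : DecidablePred p} {s : Finset α} {a : α}
    (h : a ∈ @Finset.filter α p inst s) : a ∈ s ∧ p a := by
  rwa [Finset.mem_filter] at h

section Facts

variable {V : Type} {G : SimpleGraph V} {c0 c1 c2 c3 c4 : V}

/-- each `D₀` is a cluster -/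
lemma f1 (hg : NoGem G) (hp : NoP23 G) (hC : C5c G c0 c1 c2 c3 c4) {x y z : V}
    (hx : TD G c0 c1 c2 c3 c4 x) (hy : TD G c0 c1 c2 c3 c4 y) (hz : TD G c0 c1 c2 c3 c4 z)
    (h1 : G.Adj x y) (h2 : G.Adj y z) (h3 : x ≠ z) : G.Adj x z := by
  by_contra h
  exact hp c2 c3 x y z (And.left (And.right (And.right hC))) h1 h2 h3 h (And.left (And.right (And.right hx))) (And.left (And.right (And.right hy))) (And.left (And.right (And.right hz))) (And.left (And.right (And.right (And.right hx)))) (And.left (And.right (And.right (And.right hy)))) (And.left (And.right (And.right (And.right hz))))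

lemma f2 (hg : NoGem G) (hp : NoP23 G) (hC : C5c G c0 c1 c2 c3 c4) {x y : V}
    (hx : TN G c0 c1 c2 c3 c4 x) (hy : TN G c0 c1 c2 c3 c4 y) : ¬ G.Adj x y := by
  intro h
  exact hp x y c0 c1 c2 h (And.left hC) (And.left (And.right hC)) (Ne.symm (ne_of_wit (SimpleGraph.Adj.symm (And.left (And.right (And.right hC)))) (not_symm' (And.left (And.right (And.right (And.right (And.right (And.right (And.right hC)))))))))) (And.left (And.right (And.right (And.right (And.right (And.right hC)))))) (not_symm' (And.left hx)) (not_symm' (And.left (And.right hx))) (not_symm' (And.left (And.right (And.right hx)))) (not_symm' (And.left hy)) (not_symm' (And.left (And.right hy))) (not_symm' (And.left (And.right (And.right hy))))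

lemma f3 (hg : NoGem G) (hp : NoP23 G) (hC : C5c G c0 c1 c2 c3 c4) {x y d : V}
    (hx : TN G c0 c1 c2 c3 c4 x) (hy : TN G c0 c1 c2 c3 c4 y) (hd : TD G c0 c1 c2 c3 c4 d)
    (h1 : G.Adj x d) (h2 : G.Adj y d) : x = y := by
  by_contra h
  have h0 := f2 hg hp hC hx hy
  exact hp c2 c3 x d y (And.left (And.right (And.right hC))) h1 (SimpleGraph.Adj.symm h2) h h0 (And.left (And.right (And.right hx))) (And.left (And.right (And.right hd))) (And.left (And.right (And.right hy))) (And.left (And.right (And.right (And.right hx)))) (And.left (And.right (And.right (And.right hd)))) (And.left (And.right (And.right (And.right hy))))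

lemma f4 (hg : NoGem G) (hp : NoP23 G) (hC : C5c G c0 c1 c2 c3 c4) {x d d' : V}
    (hx : TN G c0 c1 c2 c3 c4 x) (hd : TD G c0 c1 c2 c3 c4 d) (hd' : TD G c0 c1 c2 c3 c4 d')
    (h1 : G.Adj x d) (h2 : G.Adj d d') : G.Adj x d' := by
  by_contra h
  exact hp c2 c3 x d d' (And.left (And.right (And.right hC))) h1 h2 (Ne.symm (ne_of_wit (And.left (And.right hd')) (And.left (And.right hx)))) h (And.left (And.right (And.right hx))) (And.left (And.right (And.right hd))) (And.left (And.right (And.right hd'))) (And.left (And.right (And.right (And.right hx)))) (And.left (And.right (And.right (And.right hd)))) (And.left (And.right (And.right (And.right hd'))))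

lemma f5 (hg : NoGem G) (hp : NoP23 G) (hC : C5c G c0 c1 c2 c3 c4) {x d d' : V}
    (hx : TN G c0 c1 c2 c3 c4 x) (hd : TD G c0 c1 c2 c3 c4 d) (hd' : TD G c0 c1 c2 c3 c4 d')
    (h1 : G.Adj x d) (h2 : G.Adj x d') (h3 : d ≠ d') : G.Adj d d' := by
  by_contra h
  exact hp c2 c3 d x d' (And.left (And.right (And.right hC))) (SimpleGraph.Adj.symm h1) h2 h3 h (And.left (And.right (And.right hd))) (And.left (And.right (And.right hx))) (And.left (And.right (And.right hd'))) (And.left (And.right (And.right (And.right hd)))) (And.left (And.right (And.right (And.right hx)))) (And.left (And.right (And.right (And.right hd'))))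

lemma f6 (hg : NoGem G) (hp : NoP23 G) (hC : C5c G c0 c1 c2 c3 c4) {n d e : V}
    (hx : TN G c0 c1 c2 c3 c4 n) (hd : TD G c0 c1 c2 c3 c4 d) (he : TD G c2 c3 c4 c0 c1 e)
    (h1 : G.Adj n d) (h2 : ¬ G.Adj d e) : G.Adj n e := by
  by_contra h
  exact hp n d c2 c3 e h1 (And.left (And.right (And.right hC))) (And.left (And.right he)) (Ne.symm (And.right (And.right (And.right (And.right (And.right he)))))) (And.left he) (not_symm' (And.left (And.right (And.right hx)))) (not_symm' (And.left (And.right (And.right (And.right hx))))) h (not_symm' (And.left (And.right (And.right hd)))) (not_symm' (And.left (And.right (And.right (And.right hd))))) h2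

lemma f6' (hg : NoGem G) (hp : NoP23 G) (hC : C5c G c0 c1 c2 c3 c4) {n d e : V}
    (hx : TN G c0 c1 c2 c3 c4 n) (hd : TD G c0 c1 c2 c3 c4 d) (he : TD G c3 c4 c0 c1 c2 e)
    (h1 : G.Adj n d) (h2 : ¬ G.Adj d e) : G.Adj n e := by
  by_contra h
  exact hp n d c3 c2 e h1 (SimpleGraph.Adj.symm (And.left (And.right (And.right hC)))) (And.left (And.right (And.right (And.right (And.right he))))) (Ne.symm (And.right (And.right (And.right (And.right (And.right he)))))) (And.left he) (not_symm' (And.left (And.right (And.right (And.right hx))))) (not_symm' (And.left (And.right (And.right hx)))) h (not_symm' (And.left (And.right (And.right (And.right hd))))) (not_symm' (And.left (And.right (And.right hd)))) h2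

lemma f7 (hg : NoGem G) (hp : NoP23 G) (hC : C5c G c0 c1 c2 c3 c4) {d d' e : V}
    (hd : TD G c0 c1 c2 c3 c4 d) (hd' : TD G c0 c1 c2 c3 c4 d') (he : TD G c2 c3 c4 c0 c1 e)
    (h1 : G.Adj d d') : G.Adj d e := by
  by_contra h
  exact hp d' d e c3 c2 (SimpleGraph.Adj.symm h1) (SimpleGraph.Adj.symm (And.left (And.right he))) (SimpleGraph.Adj.symm (And.left (And.right (And.right hC)))) (And.right (And.right (And.right (And.right (And.right he))))) (not_symm' (And.left he)) (id fun (h_1 : SimpleGraph.Adj G d' e) => hg e c1 d c4 d' h_1 (SimpleGraph.Adj.symm (And.left (And.right hd'))) (SimpleGraph.Adj.symm h1) (SimpleGraph.Adj.symm (And.left (And.right (And.right (And.right (And.right hd')))))) (SimpleGraph.Adj.symm (And.left (And.right (And.right (And.right (And.right he)))))) (And.left (And.right hd)) (SimpleGraph.Adj.symm (And.left (And.right (And.right (And.right (And.right hd)))))) (not_symm' h) (And.left (And.right (And.right (And.right (And.right (And.right (And.right (And.right (And.right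 hC))))))))) (not_symm' (And.left (And.right (And.right he))))) (not_symm' (And.left (And.right (And.right (And.right hd'))))) (not_symm' (And.left (And.right (And.right hd')))) h (not_symm' (And.left (And.right (And.right (And.right hd))))) (not_symm' (And.left (And.right (And.right hd))))

lemma f7' (hg : NoGem G) (hp : NoP23 G) (hC : C5c G c0 c1 c2 c3 c4) {d d' e : V}
    (hd : TD G c0 c1 c2 c3 c4 d) (hd' : TD G c0 c1 c2 c3 c4 d') (he : TD G c3 c4 c0 c1 c2 e)
    (h1 : G.Adj d d') : G.Adj d e := by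
  by_contra h
  exact hp d' d e c2 c3 (SimpleGraph.Adj.symm h1) (SimpleGraph.Adj.symm (And.left (And.right (And.right (And.right (And.right he)))))) (And.left (And.right (And.right hC))) (And.right (And.right (And.right (And.right (And.right he))))) (not_symm' (And.left he)) (id fun (h_1 : SimpleGraph.Adj G d' e) => hg e c4 d c1 d' h_1 (SimpleGraph.Adj.symm (And.left (And.right (And.right (And.right (And.right hd')))))) (SimpleGraph.Adj.symm h1) (SimpleGraph.Adj.symm (And.left (And.right hd'))) (SimpleGraph.Adj.symm (And.left (And.right he))) (And.left (And.right (And.right (And.right (And.right hd))))) (SimpleGraph.Adj.symm (And.left (And.right hd))) (not_symm' h) (not_symm' (And.left (And.right (And.right (And.right (And.right (And.right (And.right (And.right (And.right hC)))))))))) (not_symm' (And.left (And.right (And.right (And.right he)))))) (not_symm' (And.left (And.right (And.right hd')))) (not_symm' (And.left (And.right (And.right (And.right hd'))))) h (not_symm' (And.left (And.right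 (And.right hd)))) (not_symm' (And.left (And.right (And.right (And.right hd)))))

lemma f8 (hg : NoGem G) (hp : NoP23 G) (hC : C5c G c0 c1 c2 c3 c4) {x y z : V}
    (hx : TD G c0 c1 c2 c3 c4 x) (hy : TD G c2 c3 c4 c0 c1 y) (hz : TD G c3 c4 c0 c1 c2 z)
    (h1 : G.Adj x y) (h2 : G.Adj x z) (h3 : G.Adj y z) : False := by
  exact hg c1 y z c4 x (SimpleGraph.Adj.symm (And.left (And.right hx))) h1 h2 (SimpleGraph.Adj.symm (And.left (And.right (And.right (And.right (And.right hx)))))) (And.left (And.right (And.right (And.right (And.right hy))))) h3 (SimpleGraph.Adj.symm (And.left (And.right hz))) (And.left (And.right (And.right (And.right hz)))) (not_symm' (And.left (And.right (And.right hy)))) (And.left (And.right (And.right (And.right (And.right (And.right (And.right (And.right (And.right hC)))))))))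

end Facts

section Indexed

variable {V : Type} {G : SimpleGraph V}

lemma e21 (i : Fin 5) : i + 2 + 1 = i + 3 := by revert i; decide
lemma e22 (i : Fin 5) : i + 2 + 2 = i + 4 := by revert i; decide
lemma e23 (i : Fin 5) : i + 2 + 3 = i := by revert i; decide
lemma e24 (i : Fin 5) : i + 2 + 4 = i + 1 := by revert i; decide
lemma e31 (i : Fin 5) : i + 3 + 1 = i + 4 := by revert i; decide
lemma e32 (i : Fin 5) : i + 3 + 2 = i := by revert i; decide
lemma e33 (i : Fin 5) : i + 3 + 3 = i + 1 := by revert i; decide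
lemma e34 (i : Fin 5) : i + 3 + 4 = i + 2 := by revert i; decide
lemma e41 (i : Fin 5) : i + 4 + 1 = i := by revert i; decide
lemma exk (i k : Fin 5) : ∃ j, k = i + j := by revert i k; decide
lemma unq : ∀ i j : Fin 5, (∀ k : Fin 5, (k = i + 1 ∨ k = i + 4) ↔ (k = j + 1 ∨ k = j + 4)) → i = j := by
  decide
lemma e00 (i : Fin 5) : i + 0 = i := by revert i; decide

/-- indexed configuration -/
structure Cfg (G : SimpleGraph V) (c : Fin 5 → V) (N : Finset V) (D : Fin 5 → Finset V) : Prop where
  cyc : ∀ i, C5c G (c i) (c (i+1)) (c (i+2)) (c (i+3)) (c (i+4))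
  tn : ∀ i, ∀ x ∈ N, TN G (c i) (c (i+1)) (c (i+2)) (c (i+3)) (c (i+4)) x
  td : ∀ i, ∀ x ∈ D i, TD G (c i) (c (i+1)) (c (i+2)) (c (i+3)) (c (i+4)) x

variable {c : Fin 5 → V} {N : Finset V} {D : Fin 5 → Finset V}

lemma Cfg.td2 (h : Cfg G c N D) (i : Fin 5) {x : V} (hx : x ∈ D (i+2)) :
    TD G (c (i+2)) (c (i+3)) (c (i+4)) (c i) (c (i+1)) x := by
  have := h.td (i+2) x hx
  rwa [e21, e22, e23, e24] at this

lemma Cfg.td3 (h : Cfg G c N D) (i : Fin 5) {x : V} (hx : x ∈ D (i+3)) :
    TD G (c (i+3)) (c (i+4)) (c i) (c (i+1)) (c (i+2)) x := by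
  have := h.td (i+3) x hx
  rwa [e31, e32, e33, e34] at this

lemma Cfg.adjc (h : Cfg G c N D) {i : Fin 5} {x : V} (hx : x ∈ D i) (k : Fin 5) :
    G.Adj (c k) x ↔ k = i + 1 ∨ k = i + 4 := by
  obtain ⟨j, rfl⟩ := exk i k
  have h1 := h.td i x hx
  have h2 : (i + j = i + 1 ∨ i + j = i + 4) ↔ (j = 1 ∨ j = 4) := by simp
  rw [h2]
  fin_cases j
  · simp only [Fin.zero_eta, e00]
    exact ⟨fun h' => absurd h' h1.1, fun h' => absurd h' (by decide)⟩
  · exact ⟨fun _ => Or.inl rfl, fun _ => h1.2.1⟩
  · exact ⟨fun h' => absurd h' h1.2.2.1, fun h' => absurd h' (by decide)⟩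
  · exact ⟨fun h' => absurd h' h1.2.2.2.1, fun h' => absurd h' (by decide)⟩
  · exact ⟨fun _ => Or.inr rfl, fun _ => h1.2.2.2.2.1⟩

lemma Cfg.uniq (h : Cfg G c N D) {i j : Fin 5} {x : V} (hx : x ∈ D i) (hy : x ∈ D j) : i = j := by
  have h1 : ∀ k, (k = i + 1 ∨ k = i + 4) ↔ (k = j + 1 ∨ k = j + 4) := fun k =>
    (h.adjc hx k).symm.trans (h.adjc hy k)
  exact unq i j h1

lemma Cfg.nN (h : Cfg G c N D) {i : Fin 5} {x : V} (hx : x ∈ D i) : x ∉ N := by
  intro hN
  exact (h.tn i x hN).2.1 (h.td i x hx).2.1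

/-- a vertex of `N` has no neighbour in `D i` if `D (i+2)`, `D (i+3)` are complete to each other
and have at least two vertices each -/
lemma Cfg.antiN (hg : NoGem G) (hp : NoP23 G) (h : Cfg G c N D) (i : Fin 5)
    (h2 : 2 ≤ (D (i+2)).card) (h3 : 2 ≤ (D (i+3)).card) (hc : Comp G (D (i+2)) (D (i+3))) :
    Anti G N (D i) := by
  intro n hn x hx hnx
  have hC := h.cyc i
  have tn := h.tn i n hn
  have tx := h.td i x hx
  by_cases hy : ∃ y ∈ D (i+2), G.Adj x y
  · obtain ⟨y, hy, hxy⟩ := hy
    have ty := h.td2 i hy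
    have hz : ∀ z ∈ D (i+3), ¬ G.Adj x z := fun z hz hxz =>
      f8 hg hp hC tx ty (h.td3 i hz) hxy hxz (hc y hy z hz)
    obtain ⟨z, hz1, z', hz2, hne⟩ := Finset.one_lt_card.1 h3
    have tz := h.td3 i hz1
    have tz' := h.td3 i hz2
    have n1 := f6' hg hp hC tn tx tz hnx (hz z hz1)
    have n2 := f6' hg hp hC tn tx tz' hnx (hz z' hz2)
    have hC3 := h.cyc (i+3)
    rw [e31, e32, e33, e34] at hC3
    have tn3 := h.tn (i+3) n hn
    rw [e31, e32, e33, e34] at tn3
    have h5 := f5 hg hp hC3 tn3 tz tz' n1 n2 hne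
    exact hz z hz1 (f7 hg hp hC3 tz tz' tx h5).symm
  · push Not at hy
    obtain ⟨z, hz1, z', hz2, hne⟩ := Finset.one_lt_card.1 h2
    have tz := h.td2 i hz1
    have tz' := h.td2 i hz2
    have n1 := f6 hg hp hC tn tx tz hnx (hy z hz1)
    have n2 := f6 hg hp hC tn tx tz' hnx (hy z' hz2)
    have hC3 := h.cyc (i+2)
    rw [e21, e22, e23, e24] at hC3
    have tn3 := h.tn (i+2) n hn
    rw [e21, e22, e23, e24] at tn3
    have h5 := f5 hg hp hC3 tn3 tz tz' n1 n2 hne
    exact hy z hz1 (f7' hg hp hC3 tz tz' tx h5).symm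

/-- type of a vertex -/
noncomputable def ty (D : Fin 5 → Finset V) (x : V) : Option (Fin 5) :=
  if h : ∃ i, x ∈ D i then some h.choose else none

lemma Cfg.ty_some (h : Cfg G c N D) {i : Fin 5} {x : V} (hx : x ∈ D i) : ty D x = some i := by
  have h1 : ∃ i, x ∈ D i := ⟨i, hx⟩
  unfold ty
  rw [dif_pos h1]
  exact congrArg some (h.uniq h1.choose_spec hx)

lemma Cfg.ty_none (h : Cfg G c N D) {x : V} (hx : x ∈ N) : ty D x = none := by
  unfold ty
  rw [dif_neg]
  rintro ⟨i, hi⟩
  exact h.nN hi hx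

/-- part of a vertex -/
noncomputable def pt (G : SimpleGraph V) (D : Fin 5 → Finset V) (x : V) : Option (Fin 5) :=
  match ty D x with
  | some i => if ∃ y ∈ D (i+3), G.Adj x y then some (i+3) else some i
  | none => none

lemma Cfg.pt_none (h : Cfg G c N D) {x : V} (hx : x ∈ N) : pt G D x = none := by
  unfold pt; rw [h.ty_none hx]

lemma Cfg.pt_pos (h : Cfg G c N D) {i : Fin 5} {x : V} (hx : x ∈ D i)
    (hy : ∃ y ∈ D (i+3), G.Adj x y) : pt G D x = some (i+3) := by
  unfold pt; rw [h.ty_some hx]; simp only; rw [if_pos hy]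

lemma Cfg.pt_neg (h : Cfg G c N D) {i : Fin 5} {x : V} (hx : x ∈ D i)
    (hy : ¬ ∃ y ∈ D (i+3), G.Adj x y) : pt G D x = some i := by
  unfold pt; rw [h.ty_some hx]; simp only; rw [if_neg hy]

/-- adjacency from types, for vertices in different parts -/
def adjF : Option (Fin 5) → Option (Fin 5) → Prop
  | some i, some j => j = i + 1 ∨ i = j + 1
  | _, _ => False

lemma adjF_iff (i k : Fin 5) : adjF (some i) (some (i+k)) ↔ (k = 1 ∨ k = 4) := by
  unfold adjF
  revert i k; decide

lemma adjF_none_left (b : Option (Fin 5)) : ¬ adjF none b := by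
  cases b <;> simp [adjF]

lemma adjF_none_right (b : Option (Fin 5)) : ¬ adjF b none := by
  cases b <;> simp [adjF]

/-- all vertices -/
noncomputable def un (N : Finset V) (D : Fin 5 → Finset V) : Finset V := N ∪ univ.biUnion D

lemma mem_un {x : V} : x ∈ un N D ↔ x ∈ N ∨ ∃ i, x ∈ D i := by simp [un]

lemma Cfg.cross2 (hg : NoGem G) (hp : NoP23 G) (h : Cfg G c N D)
    (hc : ∀ i, Comp G (D i) (D (i+1))) (i : Fin 5) {x y : V} (hx : x ∈ D i) (hy : y ∈ D (i+2))
    (hxy : G.Adj x y) : pt G D x = pt G D y := by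
  have hc1 : Comp G (D (i+2)) (D (i+3)) := by
    have := hc (i+2); rwa [e21] at this
  rw [h.pt_neg hx, h.pt_pos hy (by rw [e23]; exact ⟨x, hx, hxy.symm⟩), e23]
  rintro ⟨z, hz, hxz⟩
  exact f8 hg hp (h.cyc i) (h.td i x hx) (h.td2 i hy) (h.td3 i hz) hxy hxz (hc1 y hy z hz)

lemma Cfg.cross0 (hg : NoGem G) (hp : NoP23 G) (h : Cfg G c N D) (i : Fin 5) {x y : V}
    (hx : x ∈ D i) (hy : y ∈ D i) (hxy : G.Adj x y) : pt G D x = pt G D y := by
  by_cases hne : (D (i+3)).Nonempty
  · obtain ⟨z, hz⟩ := hne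
    have t3 := h.td3 i hz
    rw [h.pt_pos hx ⟨z, hz, f7' hg hp (h.cyc i) (h.td i x hx) (h.td i y hy) t3 hxy⟩,
      h.pt_pos hy ⟨z, hz, f7' hg hp (h.cyc i) (h.td i y hy) (h.td i x hx) t3 hxy.symm⟩]
  · rw [not_nonempty_iff_eq_empty] at hne
    rw [h.pt_neg hx (by rw [hne]; simp), h.pt_neg hy (by rw [hne]; simp)]

/-- all consecutive pairs complete and `N` isolated -/
lemma gen (hA : AttachStmt) : ∃ K : ℕ, ∀ (V : Type) (G : SimpleGraph V), NoGem G → NoP23 G →
    ∀ (c : Fin 5 → V) (N : Finset V) (D : Fin 5 → Finset V), Cfg G c N D →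
    (∀ i, Comp G (D i) (D (i+1))) → (∀ i, Anti G N (D i)) → BD G K (un N D) := by
  obtain ⟨B, hB⟩ := hA
  refine ⟨B 0 1 (Fintype.card (Option (Fin 5))), ?_⟩
  intro V G hg hp c N D h hc hN
  have key := hB V G (Option (Fin 5)) (Option (Fin 5)) 0 1 ∅ (un N D) (ty D) adjF (pt G D)
    BD.empty (by simp) ?_ ?_
  · rwa [empty_union] at key
  · intro x hx
    rw [empty_union] at hx ⊢
    rcases hb : pt G D x with _ | k
    · -- block `N`
      apply BD.ind
      intro y hy z hz
      have aux : ∀ y, y ∈ un N D → pt G D y = none → y ∈ N := by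
        intro y hy h2
        rw [mem_un] at hy
        rcases hy with h1 | ⟨i, hi⟩
        · exact h1
        · exfalso
          by_cases h3 : ∃ z ∈ D (i+3), G.Adj y z
          · rw [h.pt_pos hi h3] at h2; cases h2
          · rw [h.pt_neg hi h3] at h2; cases h2
      have hy := mf hy
      have hz := mf hz
      exact f2 hg hp (h.cyc 0) (h.tn 0 y (aux y hy.1 hy.2)) (h.tn 0 z (aux z hz.1 hz.2))
    · apply BD.cograph
      apply p4free_of_nb hg (v := c (k+1))
      intro y hy
      have hy := mf hy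
      rw [mem_un] at hy
      rcases hy with ⟨h1 | ⟨i, hi⟩, h2⟩
      · rw [h.pt_none h1] at h2; cases h2
      · rw [h.adjc hi]
        by_cases h3 : ∃ z ∈ D (i+3), G.Adj y z
        · rw [h.pt_pos hi h3] at h2
          simp only [Option.some.injEq] at h2
          subst h2
          right; rw [e31]
        · rw [h.pt_neg hi h3] at h2
          simp only [Option.some.injEq] at h2
          subst h2
          left; rfl
  · intro x hx y hy hne
    rw [empty_union, mem_un] at hy
    rw [mem_un] at hx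
    rcases hx with hx | ⟨i, hx⟩
    · rw [h.ty_none hx]
      refine ⟨fun hadj => ?_, fun h' => absurd h' (adjF_none_left _)⟩
      rcases hy with hy | ⟨j, hy⟩
      · exact absurd hadj (f2 hg hp (h.cyc 0) (h.tn 0 x hx) (h.tn 0 y hy))
      · exact absurd hadj (hN j x hx y hy)
    · rcases hy with hy | ⟨j, hy⟩
      · rw [h.ty_none hy]
        exact ⟨fun hadj => absurd hadj.symm (hN i y hy x hx), fun h' => absurd h' (adjF_none_right _)⟩
      · rw [h.ty_some hx, h.ty_some hy]
        obtain ⟨k, rfl⟩ := exk i j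
        have hF : adjF (some i) (some (i+k)) ↔ (k = 1 ∨ k = 4) := by
          exact adjF_iff i k
        rw [hF]
        fin_cases k
        · simp only [Fin.zero_eta, e00] at hy ⊢
          exact ⟨fun hadj => absurd (h.cross0 hg hp i hx hy hadj) hne, fun h' => absurd h' (by decide)⟩
        · exact ⟨fun _ => Or.inl rfl, fun _ => hc i x hx y hy⟩
        · exact ⟨fun hadj => absurd (h.cross2 hg hp hc i hx hy hadj) hne,
            fun h' => absurd h' (by decide)⟩
        · refine ⟨fun hadj => absurd ?_ hne, fun h' => absurd h' (by decide)⟩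
          exact (h.cross2 hg hp hc (i+3) hy (by rw [e32]; exact hx) hadj.symm).symm
        · refine ⟨fun _ => Or.inr rfl, fun _ => ?_⟩
          have := hc (i+4)
          rw [e41] at this
          exact (this y hy x hx).symm

lemma f5i (hg : NoGem G) (hp : NoP23 G) (h : Cfg G c N D) {i : Fin 5} {n d d' : V} (hn : n ∈ N)
    (hd : d ∈ D i) (hd' : d' ∈ D i) (h1 : G.Adj n d) (h2 : G.Adj n d') (h3 : d ≠ d') :
    G.Adj d d' :=
  f5 hg hp (h.cyc i) (h.tn i n hn) (h.td i d hd) (h.td i d' hd') h1 h2 h3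

/-- anchor of a vertex -/
noncomputable def anc (G : SimpleGraph V) (N : Finset V) (x : V) : V :=
  if h : ∃ n ∈ N, G.Adj n x then h.choose else x

lemma anc_pos {x : V} (h : ∃ n ∈ N, G.Adj n x) : anc G N x ∈ N ∧ G.Adj (anc G N x) x := by
  unfold anc; rw [dif_pos h]; exact h.choose_spec

lemma anc_neg {x : V} (h : ¬ ∃ n ∈ N, G.Adj n x) : anc G N x = x := by
  unfold anc; rw [dif_neg h]

lemma Cfg.anc_eq (hg : NoGem G) (hp : NoP23 G) (h : Cfg G c N D) {i : Fin 5} {n x : V}
    (hn : n ∈ N) (hx : x ∈ D i) (h1 : G.Adj n x) : anc G N x = n := by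
  have h2 := anc_pos (G := G) (N := N) ⟨n, hn, h1⟩
  exact f3 hg hp (h.cyc i) (h.tn i _ h2.1) (h.tn i _ hn) (h.td i x hx) h2.2 h1

lemma Cfg.indN (hg : NoGem G) (hp : NoP23 G) (h : Cfg G c N D) : Ind G N :=
  fun x hx y hy => f2 hg hp (h.cyc 0) (h.tn 0 x hx) (h.tn 0 y hy)

/-- label rule for attached vertices -/
def neF : Option (Fin 5) → Option (Fin 5) → Prop
  | some i, some j => i ≠ j
  | _, _ => False

lemma neF_add (i k : Fin 5) (h : k ≠ 0) : neF (some i) (some (i + k)) := by
  unfold neF
  revert i k; decide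

lemma neF_none_right (b : Option (Fin 5)) : ¬ neF b none := by
  cases b <;> simp [neF]

lemma att (hA : AttachStmt) : ∃ K : ℕ, ∀ (V : Type) (G : SimpleGraph V), NoGem G → NoP23 G →
    ∀ (c : Fin 5 → V) (N : Finset V) (D : Fin 5 → Finset V), Cfg G c N D →
    (∀ i, Comp G (D i) (D (i+1))) → Anti G N (D 0) → Anti G N (D 3) → Anti G N (D 4) →
    BD G K (un N D) := by
  obtain ⟨K0, hK0⟩ := gen hA
  obtain ⟨B, hB⟩ := hA
  refine ⟨B K0 1 (Fintype.card (Option (Fin 5))), ?_⟩
  intro V G hg hp c N D h hc hN0 hN3 hN4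
  set D' : Fin 5 → Finset V := fun i => (D i).filter (fun x => ¬ ∃ n ∈ N, G.Adj n x) with hD'
  have hsub : ∀ i, ∀ x ∈ D' i, x ∈ D i ∧ ¬ ∃ n ∈ N, G.Adj n x := by
    intro i x hx
    rw [hD'] at hx
    exact mf hx
  have hmem : ∀ i, ∀ x ∈ D i, (¬ ∃ n ∈ N, G.Adj n x) → x ∈ D' i := by
    intro i x hx hn
    rw [hD']
    simp only [mem_filter]
    exact ⟨hx, hn⟩
  have h' : Cfg G c N D' := ⟨h.cyc, h.tn, fun i x hx => h.td i x (hsub i x hx).1⟩
  have hV0 : BD G K0 (un N D') := hK0 V G hg hp c N D' h'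
    (fun i x hx y hy => hc i x (hsub i x hx).1 y (hsub (i+1) y hy).1)
    (fun i n hn x hx hnx => (hsub i x hx).2 ⟨n, hn, hnx⟩)
  set W : Finset V := (un N D).filter (fun x => ∃ n ∈ N, G.Adj n x) with hW
  have hWm : ∀ x ∈ W, (∃ n ∈ N, G.Adj n x) ∧ ∃ i, x ∈ D i := by
    intro x hx
    rw [hW] at hx
    obtain ⟨h1, h2⟩ := mf hx
    refine ⟨h2, ?_⟩
    rw [mem_un] at h1
    rcases h1 with h1 | h1
    · obtain ⟨n, hn, hnx⟩ := h2
      exact absurd hnx (h.indN hg hp n hn x h1)
    · exact h1
  have hun : un N D = un N D' ∪ W := by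
    ext x
    rw [mem_union, mem_un, mem_un, hW]
    simp only [mem_filter, mem_un]
    constructor
    · rintro (h1 | ⟨i, hi⟩)
      · exact Or.inl (Or.inl h1)
      · by_cases h2 : ∃ n ∈ N, G.Adj n x
        · exact Or.inr ⟨Or.inr ⟨i, hi⟩, h2⟩
        · exact Or.inl (Or.inr ⟨i, hmem i x hi h2⟩)
    · rintro ((h1 | ⟨i, hi⟩) | ⟨h1, _⟩)
      · exact Or.inl h1
      · exact Or.inr ⟨i, (hsub i x hi).1⟩
      · exact h1
  have h12 : ∀ i, ∀ x ∈ D i, (∃ n ∈ N, G.Adj n x) → i = 1 ∨ i = 2 := by
    intro i x hx ⟨n, hn, hnx⟩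
    fin_cases i
    · exact absurd hnx (hN0 n hn x hx)
    · exact Or.inl rfl
    · exact Or.inr rfl
    · exact absurd hnx (hN3 n hn x hx)
    · exact absurd hnx (hN4 n hn x hx)
  rw [hun]
  apply hB V G (Option (Fin 5)) V K0 1 (un N D') W (ty D) neF (anc G N) hV0
  · -- injective on V0
    have aux : ∀ x ∈ un N D', anc G N x = x := by
      intro x hx
      apply anc_neg
      rintro ⟨n, hn, hnx⟩
      rw [mem_un] at hx
      rcases hx with hx | ⟨i, hi⟩
      · exact h.indN hg hp n hn x hx hnx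
      · exact (hsub i x hi).2 ⟨n, hn, hnx⟩
    intro x hx y hy hxy
    rwa [aux x hx, aux y hy] at hxy
  · intro x _
    apply BD.clq
    intro y hy z hz hne
    have hy := mf hy
    have hz := mf hz
    have hyz : anc G N y = anc G N z := hy.2.trans hz.2.symm
    have hym := hy.1
    have hzm := hz.1
    rw [← hun, mem_un] at hym hzm
    by_cases h1 : ∃ n ∈ N, G.Adj n y
    · have a1 := anc_pos h1
      by_cases h2 : ∃ n ∈ N, G.Adj n z
      · have a2 := anc_pos h2
        rw [← hyz] at a2
        rcases hym with hym | ⟨i, hi⟩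
        · exact absurd a1.2 (h.indN hg hp _ a1.1 y hym)
        rcases hzm with hzm | ⟨j, hj⟩
        · exact absurd a2.2 (h.indN hg hp _ a1.1 z hzm)
        rcases h12 i y hi h1 with rfl | rfl
        · rcases h12 j z hj h2 with rfl | rfl
          · exact f5i hg hp h a1.1 hi hj a1.2 a2.2 hne
          · exact hc 1 y hi z hj
        · rcases h12 j z hj h2 with rfl | rfl
          · exact (hc 1 z hj y hi).symm
          · exact f5i hg hp h a1.1 hi hj a1.2 a2.2 hne
      · rw [anc_neg h2] at hyz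
        rw [hyz] at a1
        exact a1.2.symm
    · rw [anc_neg h1] at hyz
      by_cases h2 : ∃ n ∈ N, G.Adj n z
      · have a2 := anc_pos h2
        rw [← hyz] at a2
        exact a2.2
      · rw [anc_neg h2] at hyz
        exact absurd hyz hne
  · intro x hx y hy hne
    obtain ⟨h1, i, hi⟩ := hWm x hx
    have a1 := anc_pos h1
    rw [← hun, mem_un] at hy
    rw [h.ty_some hi]
    rcases hy with hy | ⟨j, hj⟩
    · rw [h.ty_none hy]
      refine ⟨fun hadj => ?_, fun h' => absurd h' (neF_none_right _)⟩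
      exfalso
      apply hne
      rw [h.anc_eq hg hp hy hi hadj.symm]
      symm
      apply anc_neg
      rintro ⟨n, hn, hny⟩
      exact h.indN hg hp n hn y hy hny
    · rw [h.ty_some hj]
      have hn : ¬ G.Adj (anc G N x) y := fun h' => hne (h.anc_eq hg hp a1.1 hj h').symm
      obtain ⟨k, rfl⟩ := exk i j
      have hC := h.cyc i
      have tn := h.tn i _ a1.1
      have tx := h.td i x hi
      fin_cases k
      · simp only [Fin.zero_eta, e00] at hj ⊢
        refine ⟨fun hadj => ?_, fun h' => absurd rfl h'⟩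
        exact absurd (f4 hg hp hC tn tx (h.td i y hj) a1.2 hadj) hn
      · refine ⟨fun _ => neF_add i _ (by decide), fun _ => hc i x hi y hj⟩
      · refine ⟨fun _ => neF_add i _ (by decide), fun _ => ?_⟩
        by_contra hadj
        exact hn (f6 hg hp hC tn tx (h.td2 i hj) a1.2 hadj)
      · refine ⟨fun _ => neF_add i _ (by decide), fun _ => ?_⟩
        by_contra hadj
        exact hn (f6' hg hp hC tn tx (h.td3 i hj) a1.2 hadj)
      · refine ⟨fun _ => neF_add i _ (by decide), fun _ => ?_⟩
        have := hc (i+4)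
        rw [e41] at this
        exact (this y hj x hi).symm

/-- five sets as a function -/
def fam (D0 D1 D2 D3 D4 : Finset V) : Fin 5 → Finset V := ![D0, D1, D2, D3, D4]

lemma cfg_of {c0 c1 c2 c3 c4 : V} {N D0 D1 D2 D3 D4 : Finset V}
    (h : NDCfg G c0 c1 c2 c3 c4 N D0 D1 D2 D3 D4) :
    Cfg G ![c0, c1, c2, c3, c4] N (fam D0 D1 D2 D3 D4) := by
  obtain ⟨⟨h01, h12, h23, h34, h40, n02, n03, n13, n14, n24⟩, hN, h0, h1, h2, h3, h4⟩ := h
  have n02' := not_symm' n02
  have n03' := not_symm' n03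
  have n13' := not_symm' n13
  have n14' := not_symm' n14
  have n24' := not_symm' n24
  refine ⟨?_, ?_, ?_⟩
  · intro i
    fin_cases i
    · exact ⟨h01, h12, h23, h34, h40, n02, n03, n13, n14, n24⟩
    · exact ⟨h12, h23, h34, h40, h01, n13, n14, n24, n02', n03'⟩
    · exact ⟨h23, h34, h40, h01, h12, n24, n02', n03', n13', n14'⟩
    · exact ⟨h34, h40, h01, h12, h23, n03', n13', n14', n24', n02⟩
    · exact ⟨h40, h01, h12, h23, h34, n14', n24', n02, n03, n13⟩
  · intro i x hx
    obtain ⟨a0, a1, a2, a3, a4⟩ := hN x hx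
    fin_cases i
    · exact ⟨a0, a1, a2, a3, a4⟩
    · exact ⟨a1, a2, a3, a4, a0⟩
    · exact ⟨a2, a3, a4, a0, a1⟩
    · exact ⟨a3, a4, a0, a1, a2⟩
    · exact ⟨a4, a0, a1, a2, a3⟩
  · intro i x hx
    fin_cases i
    · exact h0 x hx
    · exact h1 x hx
    · exact h2 x hx
    · exact h3 x hx
    · exact h4 x hx

lemma un_fam {D0 D1 D2 D3 D4 : Finset V} :
    un N (fam D0 D1 D2 D3 D4) = N ∪ D0 ∪ D1 ∪ D2 ∪ D3 ∪ D4 := by
  ext x
  rw [mem_un]
  simp only [mem_union, fam]
  constructor
  · rintro (h | ⟨i, hi⟩)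
    · tauto
    · fin_cases i
      · have : x ∈ D0 := hi
        tauto
      · have : x ∈ D1 := hi
        tauto
      · have : x ∈ D2 := hi
        tauto
      · have : x ∈ D3 := hi
        tauto
      · have : x ∈ D4 := hi
        tauto
  · rintro (((((h | h) | h) | h) | h) | h)
    · exact Or.inl h
    · exact Or.inr ⟨0, h⟩
    · exact Or.inr ⟨1, h⟩
    · exact Or.inr ⟨2, h⟩
    · exact Or.inr ⟨3, h⟩
    · exact Or.inr ⟨4, h⟩

end Indexed

theorem nd0123_stmt (hA : AttachStmt) : ND0123Stmt := by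
  obtain ⟨K, hK⟩ := att hA
  refine ⟨K, ?_⟩
  intro V G hg hp c0 c1 c2 c3 c4 N D0 D1 D2 D3 hcfg k0 k1 k2 k3 h01 h12 h23
  have h := cfg_of hcfg
  have e := un_fam (N := N) (D0 := D0) (D1 := D1) (D2 := D2) (D3 := D3) (D4 := ∅)
  rw [union_empty] at e
  rw [← e]
  apply hK V G hg hp _ N _ h
  · intro i
    fin_cases i
    · exact h01
    · exact h12
    · exact h23
    · intro x _ y hy; exact absurd hy (notMem_empty y)
    · intro x hx; exact absurd hx (notMem_empty x)
  · exact h.antiN hg hp 0 (by change 2 ≤ D2.card; omega) (by change 2 ≤ D3.card; omega) h23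
  · exact h.antiN hg hp 3 (by change 2 ≤ D0.card; omega) (by change 2 ≤ D1.card; omega) h01
  · intro x _ y hy; exact absurd hy (notMem_empty y)

theorem nd5_stmt (hA : AttachStmt) : ND5Stmt := by
  obtain ⟨K, hK⟩ := gen hA
  refine ⟨K, ?_⟩
  intro V G hg hp c0 c1 c2 c3 c4 N D0 D1 D2 D3 D4 hcfg k0 k1 k2 k3 k4 h01 h12 h23 h34 h40
  have h := cfg_of hcfg
  rw [← un_fam]
  apply hK V G hg hp _ N _ h
  · intro i
    fin_cases i
    · exact h01
    · exact h12
    · exact h23
    · exact h34
    · exact h40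
  · intro i
    fin_cases i
    · exact h.antiN hg hp 0 (by change 2 ≤ D2.card; omega) (by change 2 ≤ D3.card; omega) h23
    · exact h.antiN hg hp 1 (by change 2 ≤ D3.card; omega) (by change 2 ≤ D4.card; omega) h34
    · exact h.antiN hg hp 2 (by change 2 ≤ D4.card; omega) (by change 2 ≤ D0.card; omega) h40
    · exact h.antiN hg hp 3 (by change 2 ≤ D0.card; omega) (by change 2 ≤ D1.card; omega) h01
    · exact h.antiN hg hp 4 (by change 2 ≤ D1.card; omega) (by change 2 ≤ D2.card; omega) h12

/-- block of a vertex, `ND012` -/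
noncomputable def blk {V : Type} (G : SimpleGraph V) (N D1 : Finset V) (x : V) : Option V :=
  if x ∈ D1 then (if ∃ n ∈ N, G.Adj n x then some (anc G N x) else none) else some x

theorem nd012_stmt (hA : AttachStmt) (hZ : ZStmt) : ND012Stmt := by
  obtain ⟨K0, hK0⟩ := hZ
  obtain ⟨B, hB⟩ := hA
  refine ⟨B K0 1 (Fintype.card Prop), ?_⟩
  intro V G hg hp c0 c1 c2 c3 c4 N D0 D1 D2 hcfg k0 k1 k2 h01 h12
  have h := cfg_of hcfg
  have hm : ∀ x ∈ D1, x ∈ (fam D0 D1 D2 ∅ ∅) 1 := fun x hx => hx
  have hn1 : ∀ x ∈ D1, x ∉ N := fun x hx => h.nN (hm x hx)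
  have hd01 : ∀ x ∈ D0, x ∉ D1 := by
    intro x hx hx'
    have := h.uniq (i := 0) (j := 1) (x := x) hx hx'
    exact absurd this (by decide)
  have hd21 : ∀ x ∈ D2, x ∉ D1 := by
    intro x hx hx'
    have := h.uniq (i := 2) (j := 1) (x := x) hx hx'
    exact absurd this (by decide)
  have hV0 : BD G K0 (D0 ∪ D2 ∪ N) := by
    apply hK0 V G hg hp c1
    obtain ⟨⟨g01, g12, g23, g34, g40, n02, n03, n13, n14, n24⟩, hN, h0, h1, h2, h3, h4⟩ := hcfg
    refine ⟨?_, ?_, h.indN hg hp, ?_⟩
    · intro m hm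
      rw [mem_union] at hm
      rcases hm with hm | hm
      · exact (h0 m hm).2.1
      · exact (h2 m hm).2.2.2.2.1
    · intro n hn; exact (hN n hn).2.1
    · intro hc; exact (hN c1 hc).1 g01
  have hb0 : ∀ x ∈ D0 ∪ D2 ∪ N, x ∉ D1 := by
    intro x hx hx'
    simp only [mem_union] at hx
    rcases hx with (hx | hx) | hx
    · exact hd01 x hx hx'
    · exact hd21 x hx hx'
    · exact hn1 x hx' hx
  have hb1 : ∀ x, x ∉ D1 → blk G N D1 x = some x := by
    intro x hx; unfold blk; rw [if_neg hx]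
  have key := hB V G Prop (Option V) K0 1 (D0 ∪ D2 ∪ N) D1 (fun x => x ∈ D0 ∪ D2) (fun _ l => l)
    (blk G N D1) hV0 ?_ ?_ ?_
  · refine key.sub ?_
    intro x hx
    simp only [mem_union] at hx ⊢
    tauto
  · intro x hx y hy hxy
    rw [hb1 x (hb0 x hx), hb1 y (hb0 y hy)] at hxy
    exact Option.some.inj hxy
  · intro x _
    rcases hb : blk G N D1 x with _ | m
    · apply BD.cograph
      apply p4free_of_clus
      have aux : ∀ y, blk G N D1 y = none → y ∈ D1 := by
        intro y hy
        by_contra hcon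
        rw [hb1 y hcon] at hy
        cases hy
      intro x hx y hy z hz
      have hx := aux x (mf hx).2
      have hy := aux y (mf hy).2
      have hz := aux z (mf hz).2
      exact fun a b c => f1 hg hp (h.cyc 1) (h.td 1 x hx) (h.td 1 y hy) (h.td 1 z hz) a b c
    · apply BD.clq
      have aux : ∀ y, blk G N D1 y = some m → (y ∈ D1 ∧ m ∈ N ∧ G.Adj m y) ∨ y = m := by
        intro y hy
        by_cases h1 : y ∈ D1
        · left
          unfold blk at hy
          rw [if_pos h1] at hy
          by_cases h2 : ∃ n ∈ N, G.Adj n y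
          · rw [if_pos h2] at hy
            have := anc_pos h2
            rw [Option.some.inj hy] at this
            exact ⟨h1, this⟩
          · rw [if_neg h2] at hy; cases hy
        · right
          rw [hb1 y h1] at hy
          exact Option.some.inj hy
      intro y hy z hz hne
      rcases aux y (mf hy).2 with ⟨a1, a2, a3⟩ | rfl
      · rcases aux z (mf hz).2 with ⟨b1, b2, b3⟩ | rfl
        · exact f5i hg hp h a2 (hm y a1) (hm z b1) a3 b3 hne
        · exact a3.symm
      · rcases aux z (mf hz).2 with ⟨b1, b2, b3⟩ | rfl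
        · exact b3
        · exact absurd rfl hne
  · intro x hx y hy hne
    rw [mem_union] at hy
    have hbx : blk G N D1 x = if ∃ n ∈ N, G.Adj n x then some (anc G N x) else none := by
      unfold blk; rw [if_pos hx]
    rcases hy with hy | hy
    · have hy1 := hb0 y hy
      rw [mem_union] at hy
      rcases hy with hy | hy
      · refine ⟨fun _ => hy, fun _ => ?_⟩
        rw [mem_union] at hy
        rcases hy with hy | hy
        · exact (h01 y hy x hx).symm
        · exact h12 x hx y hy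
      · refine ⟨fun hadj => ?_, fun h' => ?_⟩
        · exfalso
          apply hne
          rw [hb1 y hy1, hbx, if_pos ⟨y, hy, hadj.symm⟩, h.anc_eq hg hp hy (hm x hx) hadj.symm]
        · exfalso
          change y ∈ D0 ∪ D2 at h'
          rw [mem_union] at h'
          rcases h' with h' | h'
          · exact h.nN (i := 0) (x := y) h' hy
          · exact h.nN (i := 2) (x := y) h' hy
    · have hby : blk G N D1 y = if ∃ n ∈ N, G.Adj n y then some (anc G N y) else none := by
        unfold blk; rw [if_pos hy]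
      refine ⟨fun hadj => ?_, fun h' => ?_⟩
      · exfalso
        apply hne
        by_cases h1 : ∃ n ∈ N, G.Adj n x
        · obtain ⟨n, hn, hnx⟩ := h1
          have h2 := f4 hg hp (h.cyc 1) (h.tn 1 n hn) (h.td 1 x hx) (h.td 1 y hy) hnx hadj
          rw [hbx, hby, if_pos ⟨n, hn, hnx⟩, if_pos ⟨n, hn, h2⟩, h.anc_eq hg hp hn (hm x hx) hnx,
            h.anc_eq hg hp hn (hm y hy) h2]
        · have h2 : ¬ ∃ n ∈ N, G.Adj n y := by
            rintro ⟨n, hn, hny⟩
            exact h1 ⟨n, hn, f4 hg hp (h.cyc 1) (h.tn 1 n hn) (h.td 1 y hy) (h.td 1 x hx) hny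
              hadj.symm⟩
          rw [hbx, hby, if_neg h1, if_neg h2]
      · exfalso
        change y ∈ D0 ∪ D2 at h'
        rw [mem_union] at h'
        rcases h' with h' | h'
        · exact hd01 y h' hy
        · exact hd21 y h' hy

end Pool.Agent.H797R2.ND17b
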