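import Pool.Agent.H175F.Frame0

/-! A clique and an independent set with laminar traces: task T05 (LAM), helper89. -/

set_option autoImplicit false

namespace Pool.Agent.H89R2.Lam

open Finset Classical
open Pool.Agent.H175G
open Pool.Agent.H175R2 (DT nt on mem_on nt_le_of_label)

variable {V : Type} {G : SimpleGraph V} {Q N : Finset V}

/-- the block of `X`: `X` and the vertices of `N` with a nonempty trace contained in `X` -/
noncomputable def blk (G : SimpleGraph V) (Q N X : Finset V) : Finset V :=
  X ∪ N.filter (fun n => (nb G Q n).Nonempty ∧ nb G Q n ⊆ X)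

lemma mem_blk {X : Finset V} {x : V} :
    x ∈ blk G Q N X ↔ x ∈ X ∨ (x ∈ N ∧ (nb G Q x).Nonempty ∧ nb G Q x ⊆ X) := by
  unfold blk
  rw [mem_union, mem_filter]

lemma mem_nb' {S : Finset V} {x y : V} : y ∈ nb G S x ↔ y ∈ S ∧ G.Adj x y := by
  unfold nb
  rw [mem_filter]

lemma blk_mono {X Y : Finset V} (h : X ⊆ Y) : blk G Q N X ⊆ blk G Q N Y := by
  intro x hx
  rw [mem_blk] at hx ⊢
  rcases hx with hx | ⟨h1, h2, h3⟩
  · exact Or.inl (h hx)
  · exact Or.inr ⟨h1, h2, h3.trans h⟩

/-- `S` is a union of pieces inside `X` -/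
structure PP (G : SimpleGraph V) (Q N X S : Finset V) : Prop where
  sub : ∀ x ∈ S, x ∈ X ∨ (x ∈ N ∧ nb G Q x ⊆ X)
  cl : ∀ n ∈ N, (nb G Q n).Nonempty → nb G Q n ⊂ X →
    blk G Q N (nb G Q n) ⊆ S ∨ Disjoint (blk G Q N (nb G Q n)) S

/-- `X` is compatible with the traces -/
def Gd (G : SimpleGraph V) (Q N X : Finset V) : Prop :=
  X ⊆ Q ∧ ∀ n ∈ N, nb G Q n ⊆ X ∨ X ⊆ nb G Q n ∨ Disjoint (nb G Q n) X

lemma nt_two (hd : Disjoint Q N) (hQ : Clq G Q) (hN : Ind G N) {X S : Finset V}
    (hX : Gd G Q N X) (hP : PP G Q N X S) : nt G (Q ∪ N) S ≤ 2 := by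
  have hQN : ∀ x, x ∈ Q → x ∈ N → False := fun x h1 h2 => (Finset.disjoint_left.1 hd) h1 h2
  have hSQ : ∀ x ∈ S, x ∈ Q → x ∈ X := by
    intro x hx hxQ
    rcases hP.sub x hx with h | h
    · exact h
    · exact (hQN x hxQ h.1).elim
  have c1 : ∀ x ∈ S, x ∈ Q → ∀ y ∈ S, y ∈ Q → ∀ z ∈ Q ∪ N, z ∉ S → G.Adj x z → G.Adj y z := by
    intro x hx hxQ y hy hyQ z hz hzS hxz
    rcases mem_union.1 hz with hzQ | hzN
    · exact hQ y hyQ z hzQ (fun h => hzS (h ▸ hy))
    · have hxz' : x ∈ nb G Q z := mem_nb'.2 ⟨hxQ, hxz.symm⟩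
      have hyX := hSQ y hy hyQ
      have hxX := hSQ x hx hxQ
      have hgoal : y ∈ nb G Q z → G.Adj y z := fun h => (mem_nb'.1 h).2.symm
      rcases hX.2 z hzN with h | h | h
      · rcases eq_or_ssubset_of_subset h with he | hs
        · exact hgoal (he ▸ hyX)
        · exfalso
          rcases hP.cl z hzN ⟨x, hxz'⟩ hs with h1 | h1
          · exact hzS (h1 (mem_blk.2 (Or.inr ⟨hzN, ⟨x, hxz'⟩, Subset.refl _⟩)))
          · exact (Finset.disjoint_left.1 h1) (mem_blk.2 (Or.inl hxz')) hx
      · exact hgoal (h hyX)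
      · exact ((Finset.disjoint_left.1 h) hxz' hxX).elim
  have c2 : ∀ x ∈ S, x ∉ Q → on G (Q ∪ N) S x ≠ ∅ → nb G Q x = X := by
    intro x hx hxQ hne
    have h1 : x ∈ N ∧ nb G Q x ⊆ X := by
      rcases hP.sub x hx with h | h
      · exact (hxQ (hX.1 h)).elim
      · exact h
    by_contra hcon
    have hs : nb G Q x ⊂ X := lt_of_le_of_ne h1.2 hcon
    obtain ⟨z, hz⟩ := Finset.nonempty_iff_ne_empty.2 hne
    rw [mem_on] at hz
    have hzQ : z ∈ Q := by
      rcases mem_union.1 hz.1.1 with h | h
      · exact h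
      · exact (hN x h1.1 z h hz.2).elim
    have hzx : z ∈ nb G Q x := mem_nb'.2 ⟨hzQ, hz.2⟩
    rcases hP.cl x h1.1 ⟨z, hzx⟩ hs with h2 | h2
    · exact hz.1.2 (h2 (mem_blk.2 (Or.inl hzx)))
    · exact (Finset.disjoint_left.1 h2) (mem_blk.2 (Or.inr ⟨h1.1, ⟨z, hzx⟩, Subset.refl _⟩)) hx
  have hNS : ∀ x ∈ S, x ∉ Q → x ∈ N := by
    intro x hx hxQ
    rcases hP.sub x hx with h | h
    · exact (hxQ (hX.1 h)).elim
    · exact h.1
  have c3 : ∀ x ∈ S, x ∉ Q → ∀ y ∈ S, y ∉ Q → nb G Q x = nb G Q y →
      ∀ z ∈ Q ∪ N, G.Adj x z → G.Adj y z := by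
    intro x hx hxQ y hy hyQ he z hz hxz
    have hzQ : z ∈ Q := by
      rcases mem_union.1 hz with h | h
      · exact h
      · exact (hN x (hNS x hx hxQ) z h hxz).elim
    have h1 : z ∈ nb G Q x := mem_nb'.2 ⟨hzQ, hxz⟩
    rw [he] at h1
    exact (mem_nb'.1 h1).2
  have hmain := nt_le_of_label (G := G) (R := Q ∪ N) (A := S) (univ : Finset Bool)
    (fun x => decide (x ∈ Q)) (fun _ _ _ => mem_univ _) (by
      intro x hx y hy hxe hye hxy
      have hiff : x ∈ Q ↔ y ∈ Q := by simpa using hxy
      ext z
      rw [mem_on, mem_on]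
      by_cases hxQ : x ∈ Q
      · have hyQ := hiff.1 hxQ
        exact ⟨fun h => ⟨h.1, c1 x hx hxQ y hy hyQ z h.1.1 h.1.2 h.2⟩,
          fun h => ⟨h.1, c1 y hy hyQ x hx hxQ z h.1.1 h.1.2 h.2⟩⟩
      · have hyQ : y ∉ Q := fun h => hxQ (hiff.2 h)
        have e1 := c2 x hx hxQ hxe
        have e2 := c2 y hy hyQ hye
        exact ⟨fun h => ⟨h.1, c3 x hx hxQ y hy hyQ (e1.trans e2.symm) z h.1.1 h.2⟩,
          fun h => ⟨h.1, c3 y hy hyQ x hx hxQ (e2.trans e1.symm) z h.1.1 h.2⟩⟩)
  simpa using hmain

lemma main (hd : Disjoint Q N) (hQ : Clq G Q) (hN : Ind G N)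
    (hlam : ∀ n ∈ N, ∀ n' ∈ N, nb G Q n ⊆ nb G Q n' ∨ nb G Q n' ⊆ nb G Q n ∨
      Disjoint (nb G Q n) (nb G Q n')) :
    ∀ (m : ℕ) (X S : Finset V), Gd G Q N X → PP G Q N X S → S.Nonempty →
      X.card + S.card ≤ m → DT G 2 (Q ∪ N) S := by
  have hQN : ∀ x, x ∈ Q → x ∈ N → False := fun x h1 h2 => (Finset.disjoint_left.1 hd) h1 h2
  have hnbQ : ∀ x, nb G Q x ⊆ Q := fun x y hy => (mem_nb'.1 hy).1
  intro m
  induction m with
  | zero =>
    intro X S _ _ hS hc
    have := Finset.card_pos.2 hS
    omega
  | succ m ih =>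
    intro X S hX hP hS hc
    have hnt := nt_two hd hQ hN hX hP
    -- removing one vertex
    have hrem : ∀ x ∈ S, PP G Q N X (S.erase x) → DT G 2 (Q ∪ N) S := by
      intro x hx hPx
      by_cases hem : (S.erase x).Nonempty
      · have h1 := ih X (S.erase x) hX hPx hem (by
          have := Finset.card_erase_lt_of_mem hx
          omega)
        have h2 : ({x} : Finset V) ∪ S.erase x = S := by
          rw [← Finset.insert_eq, insert_erase hx]
        have h3 := DT.node (by simp) (DT.leaf (G := G) (K := 2) (R := Q ∪ N) x) h1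
          (by rw [h2]; exact hnt)
        rwa [h2] at h3
      · rw [not_nonempty_iff_eq_empty, Finset.erase_eq_empty_iff] at hem
        rcases hem with h | h
        · rw [h] at hS
          simp at hS
        · rw [h]
          exact DT.leaf x
    by_cases c1 : ∃ n ∈ S, n ∈ N ∧ (nb G Q n = X ∨ nb G Q n = ∅)
    · obtain ⟨n, hnS, hnN, hn⟩ := c1
      apply hrem n hnS
      refine ⟨fun x hx => hP.sub x (mem_of_mem_erase hx), ?_⟩
      intro n' hn' hne hs
      rcases hP.cl n' hn' hne hs with h | h
      · left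
        intro x hx
        rw [mem_erase]
        refine ⟨?_, h hx⟩
        rintro rfl
        rw [mem_blk] at hx
        rcases hx with hx | ⟨_, hx1, hx2⟩
        · exact hQN x (hnbQ n' hx) hnN
        · rcases hn with hn | hn
          · rw [hn] at hx2
            exact hs.2 hx2
          · rw [hn] at hx1
            simp at hx1
      · right
        exact Finset.disjoint_of_subset_right (erase_subset _ _) h
    · push Not at c1
      by_cases c2 : (S.filter (fun x => x ∈ N)).Nonempty
      · obtain ⟨n, hn, hmax⟩ := Finset.exists_max_image (S.filter (fun x => x ∈ N))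
          (fun n => (nb G Q n).card) c2
        rw [mem_filter] at hn
        obtain ⟨hnS, hnN⟩ := hn
        have hnX : nb G Q n ⊆ X := by
          rcases hP.sub n hnS with h | h
          · exact (hQN n (hX.1 h) hnN).elim
          · exact h.2
        obtain ⟨hn1, hn2⟩ := c1 n hnS hnN
        have hss : nb G Q n ⊂ X := lt_of_le_of_ne hnX hn1
        have hne : (nb G Q n).Nonempty := hn2
        set Y := nb G Q n with hY
        have hnY : n ∈ blk G Q N Y := mem_blk.2 (Or.inr ⟨hnN, hne, Subset.refl _⟩)
        have hYS : blk G Q N Y ⊆ S := by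
          rcases hP.cl n hnN hne hss with h | h
          · exact h
          · exact ((Finset.disjoint_left.1 h) hnY hnS).elim
        by_cases heq : blk G Q N Y = S
        · apply ih Y S ⟨hnbQ n, fun n' hn' => hlam n' hn' n hnN⟩ ?_ hS ?_
          · refine ⟨?_, ?_⟩
            · intro x hx
              rw [← heq, mem_blk] at hx
              rcases hx with hx | hx
              · exact Or.inl hx
              · exact Or.inr ⟨hx.1, hx.2.2⟩
            · intro n' hn' _ hs'
              left
              rw [← heq]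
              exact blk_mono hs'.1
          · have := Finset.card_lt_card hss
            omega
        · have hstr : blk G Q N Y ⊂ S := lt_of_le_of_ne hYS heq
          have hneS : (S \ blk G Q N Y).Nonempty := by
            rw [Finset.sdiff_nonempty]
            exact hstr.2
          have hkey : ∀ n' ∈ N, (nb G Q n').Nonempty → blk G Q N (nb G Q n') ⊆ S →
              blk G Q N (nb G Q n') ⊆ blk G Q N Y ∨
                Disjoint (blk G Q N (nb G Q n')) (blk G Q N Y) := by
            intro n' hn' hne' hsub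
            have hn'S : n' ∈ S := hsub (mem_blk.2 (Or.inr ⟨hn', hne', Subset.refl _⟩))
            rcases hlam n' hn' n hnN with h | h | h
            · exact Or.inl (blk_mono h)
            · left
              have h1 := hmax n' (mem_filter.2 ⟨hn'S, hn'⟩)
              have h2 : nb G Q n = nb G Q n' := Finset.eq_of_subset_of_card_le h h1
              rw [hY, h2]
            · right
              rw [Finset.disjoint_left]
              intro x hx hx'
              rw [mem_blk] at hx hx'
              rcases hx with hx | ⟨hx1, hx2, hx3⟩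
              · rcases hx' with hx' | ⟨hx1', _, _⟩
                · exact (Finset.disjoint_left.1 h) hx hx'
                · exact hQN x (hnbQ n' hx) hx1'
              · rcases hx' with hx' | ⟨_, _, hx3'⟩
                · exact hQN x (hnbQ n hx') hx1
                · obtain ⟨u, hu⟩ := hx2
                  exact (Finset.disjoint_left.1 h) (hx3 hu) (hx3' hu)
          have hPY : PP G Q N X (blk G Q N Y) := by
            refine ⟨fun x hx => hP.sub x (hYS hx), ?_⟩
            intro n' hn' hne' hs'
            rcases hP.cl n' hn' hne' hs' with h | h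
            · exact hkey n' hn' hne' h
            · exact Or.inr (Finset.disjoint_of_subset_right hYS h)
          have hPS : PP G Q N X (S \ blk G Q N Y) := by
            refine ⟨fun x hx => hP.sub x (mem_sdiff.1 hx).1, ?_⟩
            intro n' hn' hne' hs'
            rcases hP.cl n' hn' hne' hs' with h | h
            · rcases hkey n' hn' hne' h with h1 | h1
              · right
                exact Finset.disjoint_of_subset_left h1 disjoint_sdiff
              · left
                intro x hx
                rw [mem_sdiff]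
                exact ⟨h hx, (Finset.disjoint_left.1 h1) hx⟩
            · exact Or.inr (Finset.disjoint_of_subset_right sdiff_subset h)
          have h1 := ih X _ hX hPY ⟨n, hnY⟩ (by
            have := Finset.card_lt_card hstr
            omega)
          have h2 := ih X _ hX hPS hneS (by
            have h3 : (S \ blk G Q N Y).card < S.card := by
              apply Finset.card_lt_card
              rw [Finset.ssubset_iff_of_subset sdiff_subset]
              exact ⟨n, hnS, fun h => (mem_sdiff.1 h).2 hnY⟩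
            omega)
          have h3 : blk G Q N Y ∪ (S \ blk G Q N Y) = S := Finset.union_sdiff_of_subset hYS
          have h4 := DT.node disjoint_sdiff h1 h2 (by rw [h3]; exact hnt)
          rwa [h3] at h4
      · rw [not_nonempty_iff_eq_empty, Finset.filter_eq_empty_iff] at c2
        obtain ⟨q, hq⟩ := hS
        apply hrem q hq
        refine ⟨fun x hx => hP.sub x (mem_of_mem_erase hx), ?_⟩
        intro n' hn' hne hs
        rcases hP.cl n' hn' hne hs with h | h
        · exfalso
          exact c2 (h (mem_blk.2 (Or.inr ⟨hn', hne, Subset.refl _⟩))) hn'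
        · right
          exact Finset.disjoint_of_subset_right (erase_subset _ _) h

theorem lam_stmt : LamStmt := by
  refine ⟨2, ?_⟩
  intro V G Q N hd hQ hN hlam hne
  refine main hd hQ hN hlam _ Q (Q ∪ N) ⟨Subset.refl _, fun n _ => Or.inl ?_⟩ ⟨?_, ?_⟩ hne le_rfl
  · intro y hy
    exact (mem_nb'.1 hy).1
  · intro x hx
    rcases mem_union.1 hx with h | h
    · exact Or.inl h
    · exact Or.inr ⟨h, fun y hy => (mem_nb'.1 hy).1⟩
  · intro n hn _ _
    left
    intro x hx
    rw [mem_blk] at hx
    rw [mem_union]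
    rcases hx with hx | hx
    · exact Or.inl (mem_nb'.1 hx).1
    · exact Or.inr hx.1

end Pool.Agent.H89R2.Lam
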