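import Pool.Agent.H175F.Stmts2

/-! C5 assembly (task T19b of helper175's project). -/

namespace Pool.Agent.H175G.C5asm

open Finset Classical

variable {V : Type} {G : SimpleGraph V}

/-- few vertices have the property `P` -/
def Few (P : V → Prop) (a : ℕ) : Prop := ∃ S : Finset V, S.card ≤ a ∧ ∀ x, P x → x ∈ S

theorem few_one {P : V → Prop} (h : ∀ x y, P x → P y → x = y) : Few P 1 := by
  by_cases hx : ∃ x, P x
  · obtain ⟨x, hx⟩ := hx
    exact ⟨{x}, by simp, fun y hy => by rw [mem_singleton]; exact h y x hy hx⟩
  · exact ⟨∅, by simp, fun y hy => absurd ⟨y, hy⟩ hx⟩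

theorem Few.or {P Q : V → Prop} {a b : ℕ} (hP : Few P a) (hQ : Few Q b) :
    Few (fun x => P x ∨ Q x) (a + b) := by
  obtain ⟨S, hS, hS'⟩ := hP
  obtain ⟨T, hT, hT'⟩ := hQ
  refine ⟨S ∪ T, (card_union_le _ _).trans (by omega), fun x hx => ?_⟩
  rcases hx with hx | hx
  · exact mem_union_left _ (hS' x hx)
  · exact mem_union_right _ (hT' x hx)

/-- a vertex attached only to `c0` -/
abbrev T1 (G : SimpleGraph V) (c0 c1 c2 c3 c4 x : V) : Prop :=
  G.Adj c0 x ∧ ¬ G.Adj c1 x ∧ ¬ G.Adj c2 x ∧ ¬ G.Adj c3 x ∧ ¬ G.Adj c4 x ∧ x ≠ c1

/-- a vertex attached only to `c0` and `c1` -/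
abbrev T2 (G : SimpleGraph V) (c0 c1 c2 c3 c4 x : V) : Prop :=
  G.Adj c0 x ∧ G.Adj c1 x ∧ ¬ G.Adj c2 x ∧ ¬ G.Adj c3 x ∧ ¬ G.Adj c4 x

theorem t1_one (hp : NoP23 G) {c0 c1 c2 c3 c4 : V} (hc : C5c G c0 c1 c2 c3 c4)
    (x y : V) (hx : T1 G c0 c1 c2 c3 c4 x) (hy : T1 G c0 c1 c2 c3 c4 y) : x = y := by
  by_contra hne
  exact hp c2 c3 x c0 y (And.left (And.right (And.right hc))) (SimpleGraph.Adj.symm (And.left hx)) (And.left hy) hne (id fun (h : SimpleGraph.Adj G x y) => hp x y c1 c2 c3 h (And.left (And.right hc)) (And.left (And.right (And.right hc))) (ne_of_wit (And.left hc) (And.left (And.right (And.right (And.right (And.right (And.right (And.right hc)))))))) (And.left (And.right (And.right (And.right (And.right (And.right (And.right (And.right hc)))))))) (not_symm' (And.left (And.right hx))) (not_symm' (And.left (And.right (And.right hx)))) (not_symm' (And.left (And.right (And.right (And.right hx))))) (not_symm' (And.left (And.right hy))) (not_symm' (And.left (And.right (And.right hy)))) (not_symm' (And.left (And.right (And.right (And.right hy)))))) (And.left (And.right (And.right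 hx))) (not_symm' (And.left (And.right (And.right (And.right (And.right (And.right hc))))))) (And.left (And.right (And.right hy))) (And.left (And.right (And.right (And.right hx)))) (not_symm' (And.left (And.right (And.right (And.right (And.right (And.right (And.right hc)))))))) (And.left (And.right (And.right (And.right hy))))

theorem t2_one (hp : NoP23 G) {c0 c1 c2 c3 c4 : V} (hc : C5c G c0 c1 c2 c3 c4)
    (x y : V) (hx : T2 G c0 c1 c2 c3 c4 x) (hy : T2 G c0 c1 c2 c3 c4 y) : x = y := by
  by_contra hne
  exact hp c2 c3 x c0 y (And.left (And.right (And.right hc))) (SimpleGraph.Adj.symm (And.left hx)) (And.left hy) hne (id fun (h : SimpleGraph.Adj G x y) => hp x y c2 c3 c4 h (And.left (And.right (And.right hc))) (And.left (And.right (And.right (And.right hc)))) (Ne.symm (ne_of_wit (SimpleGraph.Adj.symm (And.left (And.right (And.right (And.right (And.right hc)))))) (And.left (And.right (And.right (And.right (And.right (And.right hc)))))))) (And.right (And.right (And.right (And.right (And.right (And.right (And.right (And.right (And.right hc))))))))) (not_symm' (And.left (And.right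 (And.right hx)))) (not_symm' (And.left (And.right (And.right (And.right hx))))) (not_symm' (And.right (And.right (And.right (And.right hx))))) (not_symm' (And.left (And.right (And.right hy)))) (not_symm' (And.left (And.right (And.right (And.right hy))))) (not_symm' (And.right (And.right (And.right (And.right hy)))))) (And.left (And.right (And.right hx))) (not_symm' (And.left (And.right (And.right (And.right (And.right (And.right hc))))))) (And.left (And.right (And.right hy))) (And.left (And.right (And.right (And.right hx)))) (not_symm' (And.left (And.right (And.right (And.right (And.right (And.right (And.right hc)))))))) (And.left (And.right (And.right (And.right hy))))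

theorem kd_one (hg : NoGem G) (hp : NoP23 G) {c0 c1 c2 c3 c4 : V} (hc : C5c G c0 c1 c2 c3 c4)
    (x y : V) (hx : TK G c0 c1 c2 c3 c4 x ∧ ∃ d, TD G c1 c2 c3 c4 c0 d ∧ ¬ G.Adj x d)
    (hy : TK G c0 c1 c2 c3 c4 y ∧ ∃ d, TD G c1 c2 c3 c4 c0 d ∧ ¬ G.Adj y d) : x = y := by
  obtain ⟨hx, d, hd, hxd⟩ := hx
  obtain ⟨hy, e, he, hye⟩ := hy
  by_contra hne
  by_cases hde : d = e
  · subst hde
    exact hp c2 c3 x c0 y (And.left (And.right (And.right hc))) (SimpleGraph.Adj.symm (And.left hx)) (And.left hy) hne (id fun (h : SimpleGraph.Adj G x y) => hp x y c3 c2 d h (SimpleGraph.Adj.symm (And.left (And.right (And.right hc)))) (And.left (And.right hd)) (Ne.symm (ne_of_wit (And.left (And.right (And.right (And.right (And.right hd))))) (And.left (And.right (And.right (And.right (And.right (And.right (And.right hc))))))))) (And.left (And.right (And.right hd))) (not_symm' (And.left (And.right (And.right (And.right hx))))) (not_symm' (And.left (And.right (And.right hx)))) hxd (not_symm' (And.left (And.right (And.right (And.right hy))))) (not_symm' (And.left (And.right (And.right hy)))) hye) (And.left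 (And.right (And.right hx))) (not_symm' (And.left (And.right (And.right (And.right (And.right (And.right hc))))))) (And.left (And.right (And.right hy))) (And.left (And.right (And.right (And.right hx)))) (not_symm' (And.left (And.right (And.right (And.right (And.right (And.right (And.right hc)))))))) (And.left (And.right (And.right (And.right hy))))
  · exact hg d y x e c0 (And.left (And.right (And.right (And.right (And.right hd))))) (And.left hy) (And.left hx) (And.left (And.right (And.right (And.right (And.right he))))) (byContradiction fun (h : ¬SimpleGraph.Adj G d y) => hp y x d c2 c3 (SimpleGraph.Adj.symm (byContradiction fun (h : ¬SimpleGraph.Adj G x y) => hp c2 c3 x c0 y (And.left (And.right (And.right hc))) (SimpleGraph.Adj.symm (And.left hx)) (And.left hy) hne h (And.left (And.right (And.right hx))) (not_symm' (And.left (And.right (And.right (And.right (And.right (And.right hc))))))) (And.left (And.right (And.right hy))) (And.left (And.right (And.right (And.right hx)))) (not_symm' (And.left (And.right (And.right (And.right (And.right (And.right (And.right hc)))))))) (And.left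 (And.right (And.right (And.right hy)))))) (SimpleGraph.Adj.symm (And.left (And.right hd))) (And.left (And.right (And.right hc))) (ne_of_wit (And.left (And.right (And.right (And.right (And.right hd))))) (And.left (And.right (And.right (And.right (And.right (And.right (And.right hc)))))))) (not_symm' (And.left (And.right (And.right hd)))) (not_symm' h) (not_symm' (And.left (And.right (And.right hy)))) (not_symm' (And.left (And.right (And.right (And.right hy))))) hxd (not_symm' (And.left (And.right (And.right hx)))) (not_symm' (And.left (And.right (And.right (And.right hx)))))) (SimpleGraph.Adj.symm (byContradiction fun (h : ¬SimpleGraph.Adj G x y) => hp c2 c3 x c0 y (And.left (And.right (And.right hc))) (SimpleGraph.Adj.symm (And.left hx)) (And.left hy) hne h (And.left (And.right (And.right hx))) (not_symm' (And.left (And.right (And.right (And.right (And.right (And.right hc))))))) (And.left (And.right (And.right hy))) (And.left (And.right (And.right (And.right hx)))) (not_symm' (And.left (And.right (And.right (And.right (And.right (And.right (And.right hc)))))))) (And.left (And.right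 (And.right (And.right hy)))))) (byContradiction fun (h : ¬SimpleGraph.Adj G x e) => hp x y e c2 c3 (byContradiction fun (h : ¬SimpleGraph.Adj G x y) => hp c2 c3 x c0 y (And.left (And.right (And.right hc))) (SimpleGraph.Adj.symm (And.left hx)) (And.left hy) hne h (And.left (And.right (And.right hx))) (not_symm' (And.left (And.right (And.right (And.right (And.right (And.right hc))))))) (And.left (And.right (And.right hy))) (And.left (And.right (And.right (And.right hx)))) (not_symm' (And.left (And.right (And.right (And.right (And.right (And.right (And.right hc)))))))) (And.left (And.right (And.right (And.right hy))))) (SimpleGraph.Adj.symm (And.left (And.right he))) (And.left (And.right (And.right hc))) (ne_of_wit (And.left (And.right (And.right (And.right (And.right he))))) (And.left (And.right (And.right (And.right (And.right (And.right (And.right hc)))))))) (not_symm' (And.left (And.right (And.right he)))) h (not_symm' (And.left (And.right (And.right hx)))) (not_symm' (And.left (And.right (And.right (And.right hx))))) hye (not_symm' (And.left (And.right (And.right hy)))) (not_symm'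 (And.left (And.right (And.right (And.right hy)))))) (not_symm' hxd) hye (id fun (h : SimpleGraph.Adj G d e) => hg d e x c1 c0 (And.left (And.right (And.right (And.right (And.right hd))))) (And.left (And.right (And.right (And.right (And.right he))))) (And.left hx) (And.left hc) h (SimpleGraph.Adj.symm (byContradiction fun (h : ¬SimpleGraph.Adj G x e) => hp x y e c2 c3 (byContradiction fun (h : ¬SimpleGraph.Adj G x y) => hp c2 c3 x c0 y (And.left (And.right (And.right hc))) (SimpleGraph.Adj.symm (And.left hx)) (And.left hy) hne h (And.left (And.right (And.right hx))) (not_symm' (And.left (And.right (And.right (And.right (And.right (And.right hc))))))) (And.left (And.right (And.right hy))) (And.left (And.right (And.right (And.right hx)))) (not_symm' (And.left (And.right (And.right (And.right (And.right (And.right (And.right hc)))))))) (And.left (And.right (And.right (And.right hy))))) (SimpleGraph.Adj.symm (And.left (And.right he))) (And.left (And.right (And.right hc))) (ne_of_wit (And.left (And.right (And.right (And.right (And.right he))))) (And.left (And.right (And.right (And.right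 (And.right (And.right (And.right hc)))))))) (not_symm' (And.left (And.right (And.right he)))) h (not_symm' (And.left (And.right (And.right hx)))) (not_symm' (And.left (And.right (And.right (And.right hx))))) hye (not_symm' (And.left (And.right (And.right hy)))) (not_symm' (And.left (And.right (And.right (And.right hy))))))) (SimpleGraph.Adj.symm (And.left (And.right hx))) (not_symm' hxd) (not_symm' (And.left he)) (not_symm' (And.left hd)))

theorem kd_one' (hg : NoGem G) (hp : NoP23 G) {c0 c1 c2 c3 c4 : V} (hc : C5c G c0 c1 c2 c3 c4)
    (x y : V) (hx : TK G c0 c1 c2 c3 c4 x ∧ ∃ d, TD G c4 c0 c1 c2 c3 d ∧ ¬ G.Adj x d)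
    (hy : TK G c0 c1 c2 c3 c4 y ∧ ∃ d, TD G c4 c0 c1 c2 c3 d ∧ ¬ G.Adj y d) : x = y := by
  obtain ⟨hx, d, hd, hxd⟩ := hx
  obtain ⟨hy, e, he, hye⟩ := hy
  by_contra hne
  by_cases hde : d = e
  · subst hde
    exact hp c2 c3 x c0 y (And.left (And.right (And.right hc))) (SimpleGraph.Adj.symm (And.left hx)) (And.left hy) hne (id fun (h : SimpleGraph.Adj G x y) => hp x y c2 c3 d h (And.left (And.right (And.right hc))) (And.left (And.right (And.right (And.right (And.right hd))))) (Ne.symm (ne_of_wit (And.left (And.right hd)) (And.left (And.right (And.right (And.right (And.right (And.right hc)))))))) (And.left (And.right (And.right (And.right hd)))) (not_symm' (And.left (And.right (And.right hx)))) (not_symm' (And.left (And.right (And.right (And.right hx))))) hxd (not_symm' (And.left (And.right (And.right hy)))) (not_symm' (And.left (And.right (And.right (And.right hy))))) hye) (And.left (And.right (And.right hx))) (not_symm' (And.left (And.right (And.right (And.right (And.right (And.right hc))))))) (And.left (And.right (And.right hy))) (And.left (And.right (And.right (And.right hx))))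 (not_symm' (And.left (And.right (And.right (And.right (And.right (And.right (And.right hc)))))))) (And.left (And.right (And.right (And.right hy))))
  · exact hg d y x e c0 (And.left (And.right hd)) (And.left hy) (And.left hx) (And.left (And.right he)) (byContradiction fun (h : ¬SimpleGraph.Adj G d y) => hp y x d c3 c2 (SimpleGraph.Adj.symm (byContradiction fun (h : ¬SimpleGraph.Adj G x y) => hp c2 c3 x c0 y (And.left (And.right (And.right hc))) (SimpleGraph.Adj.symm (And.left hx)) (And.left hy) hne h (And.left (And.right (And.right hx))) (not_symm' (And.left (And.right (And.right (And.right (And.right (And.right hc))))))) (And.left (And.right (And.right hy))) (And.left (And.right (And.right (And.right hx)))) (not_symm' (And.left (And.right (And.right (And.right (And.right (And.right (And.right hc)))))))) (And.left (And.right (And.right (And.right hy)))))) (SimpleGraph.Adj.symm (And.left (And.right (And.right (And.right (And.right hd)))))) (SimpleGraph.Adj.symm (And.left (And.right (And.right hc)))) (ne_of_wit (And.left (And.right hd)) (And.left (And.right (And.right (And.right (And.right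 (And.right hc))))))) (not_symm' (And.left (And.right (And.right (And.right hd))))) (not_symm' h) (not_symm' (And.left (And.right (And.right (And.right hy))))) (not_symm' (And.left (And.right (And.right hy)))) hxd (not_symm' (And.left (And.right (And.right (And.right hx))))) (not_symm' (And.left (And.right (And.right hx))))) (SimpleGraph.Adj.symm (byContradiction fun (h : ¬SimpleGraph.Adj G x y) => hp c2 c3 x c0 y (And.left (And.right (And.right hc))) (SimpleGraph.Adj.symm (And.left hx)) (And.left hy) hne h (And.left (And.right (And.right hx))) (not_symm' (And.left (And.right (And.right (And.right (And.right (And.right hc))))))) (And.left (And.right (And.right hy))) (And.left (And.right (And.right (And.right hx)))) (not_symm' (And.left (And.right (And.right (And.right (And.right (And.right (And.right hc)))))))) (And.left (And.right (And.right (And.right hy)))))) (byContradiction fun (h : ¬SimpleGraph.Adj G x e) => hp x y e c3 c2 (byContradiction fun (h : ¬SimpleGraph.Adj G x y) => hp c2 c3 x c0 y (And.left (And.right (And.right hc))) (SimpleGraph.Adj.symm (And.left hx)) (And.left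 hy) hne h (And.left (And.right (And.right hx))) (not_symm' (And.left (And.right (And.right (And.right (And.right (And.right hc))))))) (And.left (And.right (And.right hy))) (And.left (And.right (And.right (And.right hx)))) (not_symm' (And.left (And.right (And.right (And.right (And.right (And.right (And.right hc)))))))) (And.left (And.right (And.right (And.right hy))))) (SimpleGraph.Adj.symm (And.left (And.right (And.right (And.right (And.right he)))))) (SimpleGraph.Adj.symm (And.left (And.right (And.right hc)))) (ne_of_wit (And.left (And.right he)) (And.left (And.right (And.right (And.right (And.right (And.right hc))))))) (not_symm' (And.left (And.right (And.right (And.right he))))) h (not_symm' (And.left (And.right (And.right (And.right hx))))) (not_symm' (And.left (And.right (And.right hx)))) hye (not_symm' (And.left (And.right (And.right (And.right hy))))) (not_symm' (And.left (And.right (And.right hy))))) (not_symm' hxd) hye (id fun (h : SimpleGraph.Adj G d e) => hg d e x c1 c0 (And.left (And.right hd)) (And.left (And.right he)) (And.left hx) (And.left hc) h (SimpleGraph.Adj.symm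 (byContradiction fun (h : ¬SimpleGraph.Adj G x e) => hp x y e c3 c2 (byContradiction fun (h : ¬SimpleGraph.Adj G x y) => hp c2 c3 x c0 y (And.left (And.right (And.right hc))) (SimpleGraph.Adj.symm (And.left hx)) (And.left hy) hne h (And.left (And.right (And.right hx))) (not_symm' (And.left (And.right (And.right (And.right (And.right (And.right hc))))))) (And.left (And.right (And.right hy))) (And.left (And.right (And.right (And.right hx)))) (not_symm' (And.left (And.right (And.right (And.right (And.right (And.right (And.right hc)))))))) (And.left (And.right (And.right (And.right hy))))) (SimpleGraph.Adj.symm (And.left (And.right (And.right (And.right (And.right he)))))) (SimpleGraph.Adj.symm (And.left (And.right (And.right hc)))) (ne_of_wit (And.left (And.right he)) (And.left (And.right (And.right (And.right (And.right (And.right hc))))))) (not_symm' (And.left (And.right (And.right (And.right he))))) h (not_symm' (And.left (And.right (And.right (And.right hx))))) (not_symm' (And.left (And.right (And.right hx)))) hye (not_symm' (And.left (And.right (And.right (And.right hy))))) (not_symm'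 (And.left (And.right (And.right hy)))))) (SimpleGraph.Adj.symm (And.left (And.right hx))) (not_symm' hxd) (not_symm' (And.left (And.right (And.right he)))) (not_symm' (And.left (And.right (And.right hd)))))

theorem km_one (hg : NoGem G) (hp : NoP23 G) {c0 c1 c2 c3 c4 : V} (hc : C5c G c0 c1 c2 c3 c4)
    (x y : V) (hx : TM G c0 c1 c2 c3 c4 x ∧ ∃ k, TK G c0 c1 c2 c3 c4 k ∧ ¬ G.Adj k x)
    (hy : TM G c0 c1 c2 c3 c4 y ∧ ∃ k, TK G c0 c1 c2 c3 c4 k ∧ ¬ G.Adj k y) : x = y := by
  obtain ⟨hx, k, hk, hxk⟩ := hx
  obtain ⟨hy, l, hl, hyl⟩ := hy
  by_contra hne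
  by_cases hkl : k = l
  · subst hkl
    exact hp c1 k x c3 y (And.left (And.right hk)) (SimpleGraph.Adj.symm (And.left (And.right (And.right (And.right hx))))) (And.left (And.right (And.right (And.right hy)))) hne (id fun (h : SimpleGraph.Adj G x y) => hp x y c1 k c4 h (And.left (And.right hk)) (SimpleGraph.Adj.symm (And.right (And.right (And.right (And.right hk))))) (ne_of_wit (SimpleGraph.Adj.symm (And.left (And.right hc))) (And.right (And.right (And.right (And.right (And.right (And.right (And.right (And.right (And.right hc)))))))))) (And.left (And.right (And.right (And.right (And.right (And.right (And.right (And.right (And.right hc))))))))) (not_symm' (And.left (And.right hx))) (not_symm' hxk) (not_symm' (And.right (And.right (And.right (And.right hx))))) (not_symm' (And.left (And.right hy))) (not_symm' hyl) (not_symm' (And.right (And.right (And.right (And.right hy)))))) (And.left (And.right hx)) (And.left (And.right (And.right (And.right (And.right (And.right (And.right (And.right hc)))))))) (And.left (And.right hy)) hxk (not_symm' (And.left (And.right (And.right (And.right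 hk))))) hyl
  · exact byCases (fun (h : SimpleGraph.Adj G x y) => hp x y c1 l c4 h (And.left (And.right hl)) (SimpleGraph.Adj.symm (And.right (And.right (And.right (And.right hl))))) (ne_of_wit (SimpleGraph.Adj.symm (And.left (And.right hc))) (And.right (And.right (And.right (And.right (And.right (And.right (And.right (And.right (And.right hc)))))))))) (And.left (And.right (And.right (And.right (And.right (And.right (And.right (And.right (And.right hc))))))))) (not_symm' (And.left (And.right hx))) (id fun (h_1 : SimpleGraph.Adj G x l) => hg c1 l x y c0 (And.left hc) (And.left hl) (And.left hx) (And.left hy) (And.left (And.right hl)) (SimpleGraph.Adj.symm h_1) h (And.left (And.right hx)) hyl (And.left (And.right hy))) (not_symm' (And.right (And.right (And.right (And.right hx))))) (not_symm' (And.left (And.right hy))) (not_symm' hyl) (not_symm' (And.right (And.right (And.right (And.right hy)))))) fun (h : ¬SimpleGraph.Adj G x y) => hp k c1 y c3 x (SimpleGraph.Adj.symm (And.left (And.right hk))) (SimpleGraph.Adj.symm (And.left (And.right (And.right (And.right hy))))) (And.left (And.right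 (And.right (And.right hx)))) (Ne.symm hne) (not_symm' h) (id fun (h_1 : SimpleGraph.Adj G k y) => hg y k l x c0 (And.left hy) (And.left hk) (And.left hl) (And.left hx) (SimpleGraph.Adj.symm h_1) (byContradiction fun (h : ¬SimpleGraph.Adj G k l) => hp c2 c3 k c0 l (And.left (And.right (And.right hc))) (SimpleGraph.Adj.symm (And.left hk)) (And.left hl) hkl h (And.left (And.right (And.right hk))) (not_symm' (And.left (And.right (And.right (And.right (And.right (And.right hc))))))) (And.left (And.right (And.right hl))) (And.left (And.right (And.right (And.right hk)))) (not_symm' (And.left (And.right (And.right (And.right (And.right (And.right (And.right hc)))))))) (And.left (And.right (And.right (And.right hl))))) (SimpleGraph.Adj.symm (byContradiction fun (h_2 : ¬SimpleGraph.Adj G x l) => hp l c1 x c3 y (SimpleGraph.Adj.symm (And.left (And.right hl))) (SimpleGraph.Adj.symm (And.left (And.right (And.right (And.right hx))))) (And.left (And.right (And.right (And.right hy)))) hne h (not_symm' h_2) (not_symm' (And.left (And.right (And.right (And.right hl))))) hyl (And.left (And.right hx))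 (And.left (And.right (And.right (And.right (And.right (And.right (And.right (And.right hc)))))))) (And.left (And.right hy)))) (not_symm' hyl) hxk (not_symm' h)) (not_symm' (And.left (And.right (And.right (And.right hk))))) hxk (And.left (And.right hy)) (And.left (And.right (And.right (And.right (And.right (And.right (And.right (And.right hc)))))))) (And.left (And.right hx))


/-- the exceptional vertices (for the index `0`) -/
def Bad (G : SimpleGraph V) (c0 c1 c2 c3 c4 x : V) : Prop :=
  x = c0 ∨ T1 G c0 c1 c2 c3 c4 x ∨ T2 G c0 c1 c2 c3 c4 x ∨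
    (TK G c0 c1 c2 c3 c4 x ∧ ∃ d, TD G c1 c2 c3 c4 c0 d ∧ ¬ G.Adj x d) ∨
    (TK G c0 c1 c2 c3 c4 x ∧ ∃ d, TD G c4 c0 c1 c2 c3 d ∧ ¬ G.Adj x d) ∨
    (TM G c0 c1 c2 c3 c4 x ∧ ∃ k, TK G c0 c1 c2 c3 c4 k ∧ ¬ G.Adj k x)

theorem few_bad (hg : NoGem G) (hp : NoP23 G) {c0 c1 c2 c3 c4 : V}
    (hc : C5c G c0 c1 c2 c3 c4) : Few (Bad G c0 c1 c2 c3 c4) 6 := by
  have h := (few_one (P := fun x => x = c0) (fun x y hx hy => hx.trans hy.symm)).or
    ((few_one (t1_one hp hc)).or ((few_one (t2_one hp hc)).or ((few_one (kd_one hg hp hc)).or
      ((few_one (kd_one' hg hp hc)).or (few_one (km_one hg hp hc))))))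
  exact h

theorem c5_rot {c0 c1 c2 c3 c4 : V} (hc : C5c G c0 c1 c2 c3 c4) : C5c G c1 c2 c3 c4 c0 := by
  obtain ⟨h1, h2, h3, h4, h5, h6, h7, h8, h9, h10⟩ := hc
  exact ⟨h2, h3, h4, h5, h1, h8, h9, h10, fun h => h6 h.symm, fun h => h7 h.symm⟩

theorem classify (hg : NoGem G) {c0 c1 c2 c3 c4 x : V} (hc : C5c G c0 c1 c2 c3 c4)
    (b0 : ¬ Bad G c0 c1 c2 c3 c4 x) (b1 : ¬ Bad G c1 c2 c3 c4 c0 x)
    (b2 : ¬ Bad G c2 c3 c4 c0 c1 x) (b3 : ¬ Bad G c3 c4 c0 c1 c2 x)
    (b4 : ¬ Bad G c4 c0 c1 c2 c3 x) :
    TN G c0 c1 c2 c3 c4 x ∨
      TD G c0 c1 c2 c3 c4 x ∨ TD G c1 c2 c3 c4 c0 x ∨ TD G c2 c3 c4 c0 c1 x ∨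
      TD G c3 c4 c0 c1 c2 x ∨ TD G c4 c0 c1 c2 c3 x ∨
      TK G c0 c1 c2 c3 c4 x ∨ TK G c1 c2 c3 c4 c0 x ∨ TK G c2 c3 c4 c0 c1 x ∨
      TK G c3 c4 c0 c1 c2 x ∨ TK G c4 c0 c1 c2 c3 x ∨
      TM G c0 c1 c2 c3 c4 x ∨ TM G c1 c2 c3 c4 c0 x ∨ TM G c2 c3 c4 c0 c1 x ∨
      TM G c3 c4 c0 c1 c2 x ∨ TM G c4 c0 c1 c2 c3 x := by
  unfold Bad at b0 b1 b2 b3 b4
  simp only [not_or] at b0 b1 b2 b3 b4
  obtain ⟨e0, a0, d0, -, -, -⟩ := b0
  obtain ⟨e1, a1, d1, -, -, -⟩ := b1
  obtain ⟨e2, a2, d2, -, -, -⟩ := b2
  obtain ⟨e3, a3, d3, -, -, -⟩ := b3
  obtain ⟨e4, a4, d4, -, -, -⟩ := b4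
  have q0 : ¬ (G.Adj c0 x ∧ G.Adj c1 x ∧ G.Adj c2 x ∧ G.Adj c3 x) := by
    rintro ⟨h1, h2, h3, h4⟩; clear a0 a1 a2 a3 a4 d0 d1 d2 d3 d4; exact hg c0 c1 c2 c3 x (SimpleGraph.Adj.symm h1) (SimpleGraph.Adj.symm h2) (SimpleGraph.Adj.symm h3) (SimpleGraph.Adj.symm h4) (And.left hc) (And.left (And.right hc)) (And.left (And.right (And.right hc))) (And.left (And.right (And.right (And.right (And.right (And.right hc)))))) (And.left (And.right (And.right (And.right (And.right (And.right (And.right (And.right hc)))))))) (And.left (And.right (And.right (And.right (And.right (And.right (And.right hc)))))))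
  have q1 : ¬ (G.Adj c1 x ∧ G.Adj c2 x ∧ G.Adj c3 x ∧ G.Adj c4 x) := by
    rintro ⟨h1, h2, h3, h4⟩; clear a0 a1 a2 a3 a4 d0 d1 d2 d3 d4; exact hg c1 c2 c3 c4 x (SimpleGraph.Adj.symm h1) (SimpleGraph.Adj.symm h2) (SimpleGraph.Adj.symm h3) (SimpleGraph.Adj.symm h4) (And.left (And.right hc)) (And.left (And.right (And.right hc))) (And.left (And.right (And.right (And.right hc)))) (And.left (And.right (And.right (And.right (And.right (And.right (And.right (And.right hc)))))))) (And.right (And.right (And.right (And.right (And.right (And.right (And.right (And.right (And.right hc))))))))) (And.left (And.right (And.right (And.right (And.right (And.right (And.right (And.right (And.right hc)))))))))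
  have q2 : ¬ (G.Adj c2 x ∧ G.Adj c3 x ∧ G.Adj c4 x ∧ G.Adj c0 x) := by
    rintro ⟨h1, h2, h3, h4⟩; clear a0 a1 a2 a3 a4 d0 d1 d2 d3 d4; exact hg c0 c4 c3 c2 x (SimpleGraph.Adj.symm h4) (SimpleGraph.Adj.symm h3) (SimpleGraph.Adj.symm h2) (SimpleGraph.Adj.symm h1) (SimpleGraph.Adj.symm (And.left (And.right (And.right (And.right (And.right hc)))))) (SimpleGraph.Adj.symm (And.left (And.right (And.right (And.right hc))))) (SimpleGraph.Adj.symm (And.left (And.right (And.right hc)))) (And.left (And.right (And.right (And.right (And.right (And.right (And.right hc))))))) (not_symm' (And.right (And.right (And.right (And.right (And.right (And.right (And.right (And.right (And.right hc)))))))))) (And.left (And.right (And.right (And.right (And.right (And.right hc))))))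
  have q3 : ¬ (G.Adj c3 x ∧ G.Adj c4 x ∧ G.Adj c0 x ∧ G.Adj c1 x) := by
    rintro ⟨h1, h2, h3, h4⟩; clear a0 a1 a2 a3 a4 d0 d1 d2 d3 d4; exact hg c1 c0 c4 c3 x (SimpleGraph.Adj.symm h4) (SimpleGraph.Adj.symm h3) (SimpleGraph.Adj.symm h2) (SimpleGraph.Adj.symm h1) (SimpleGraph.Adj.symm (And.left hc)) (SimpleGraph.Adj.symm (And.left (And.right (And.right (And.right (And.right hc)))))) (SimpleGraph.Adj.symm (And.left (And.right (And.right (And.right hc))))) (And.left (And.right (And.right (And.right (And.right (And.right (And.right (And.right (And.right hc))))))))) (And.left (And.right (And.right (And.right (And.right (And.right (And.right hc))))))) (And.left (And.right (And.right (And.right (And.right (And.right (And.right (And.right hc))))))))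
  have q4 : ¬ (G.Adj c4 x ∧ G.Adj c0 x ∧ G.Adj c1 x ∧ G.Adj c2 x) := by
    rintro ⟨h1, h2, h3, h4⟩; clear a0 a1 a2 a3 a4 d0 d1 d2 d3 d4; exact hg c2 c1 c0 c4 x (SimpleGraph.Adj.symm h4) (SimpleGraph.Adj.symm h3) (SimpleGraph.Adj.symm h2) (SimpleGraph.Adj.symm h1) (SimpleGraph.Adj.symm (And.left (And.right hc))) (SimpleGraph.Adj.symm (And.left hc)) (SimpleGraph.Adj.symm (And.left (And.right (And.right (And.right (And.right hc)))))) (not_symm' (And.left (And.right (And.right (And.right (And.right (And.right hc))))))) (And.left (And.right (And.right (And.right (And.right (And.right (And.right (And.right (And.right hc))))))))) (And.right (And.right (And.right (And.right (And.right (And.right (And.right (And.right (And.right hc)))))))))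
  unfold T1 at a0 a1 a2 a3 a4
  unfold T2 at d0 d1 d2 d3 d4
  unfold TN TD TK TM
  clear hc
  by_cases h0 : G.Adj c0 x <;> by_cases h1 : G.Adj c1 x <;> by_cases h2 : G.Adj c2 x <;>
    by_cases h3 : G.Adj c3 x <;> by_cases h4 : G.Adj c4 x <;>
    simp_all

theorem c5_stmt (hC5a : C5aStmt) : C5Stmt := by
  obtain ⟨K, hK⟩ := hC5a
  refine ⟨(K + 1) * 2 ^ 30, ?_⟩
  intro V G hg hp c0 c1 c2 c3 c4 hc R
  have r1 := c5_rot hc
  have r2 := c5_rot r1
  have r3 := c5_rot r2
  have r4 := c5_rot r3
  obtain ⟨S, hS, hS'⟩ := (few_bad hg hp hc).or ((few_bad hg hp r1).or ((few_bad hg hp r2).or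
    ((few_bad hg hp r3).or (few_bad hg hp r4))))
  refine BD.of_sdiff (X := S) ?_ hS
  have hbad : ∀ x ∈ R \ S, ¬ Bad G c0 c1 c2 c3 c4 x ∧ ¬ Bad G c1 c2 c3 c4 c0 x ∧
      ¬ Bad G c2 c3 c4 c0 c1 x ∧ ¬ Bad G c3 c4 c0 c1 c2 x ∧ ¬ Bad G c4 c0 c1 c2 c3 x := by
    intro x hx
    rw [mem_sdiff] at hx
    have h1 : ¬ _ := fun h => hx.2 (hS' x h)
    simpa only [not_or] using h1
  have key : ∀ {c0 c1 c2 c3 c4 : V}, (∀ x ∈ R \ S, ¬ Bad G c0 c1 c2 c3 c4 x) →
      (∀ x ∈ R \ S, ∀ y ∈ R \ S, TK G c0 c1 c2 c3 c4 x →
      (TD G c1 c2 c3 c4 c0 y ∨ TD G c4 c0 c1 c2 c3 y ∨ TM G c0 c1 c2 c3 c4 y) → G.Adj x y) := by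
    intro c0 c1 c2 c3 c4 hb x hx y hy hk h
    by_contra hxy
    rcases h with h | h | h
    · exact hb x hx (Or.inr (Or.inr (Or.inr (Or.inl ⟨hk, y, h, hxy⟩))))
    · exact hb x hx (Or.inr (Or.inr (Or.inr (Or.inr (Or.inl ⟨hk, y, h, hxy⟩)))))
    · exact hb y hy (Or.inr (Or.inr (Or.inr (Or.inr (Or.inr ⟨h, x, hk, hxy⟩)))))
  refine hK V G hg hp c0 c1 c2 c3 c4 hc (R \ S) ?_ ?_ ?_ ?_ ?_ ?_
  · intro x hx
    obtain ⟨b0, b1, b2, b3, b4⟩ := hbad x hx
    exact classify hg hc b0 b1 b2 b3 b4
  · exact key fun x hx => (hbad x hx).1
  · exact key fun x hx => (hbad x hx).2.1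
  · exact key fun x hx => (hbad x hx).2.2.1
  · exact key fun x hx => (hbad x hx).2.2.2.1
  · exact key fun x hx => (hbad x hx).2.2.2.2

end Pool.Agent.H175G.C5asm
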