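import Pool.Agent.H175F.Frame0

/-! Task T10 (helper959): the class `𝒵`, general `M` (chain of modules). -/

namespace Pool.Agent.H959R2.GEM.Z

open Finset Classical
open Pool.Agent.H175R2 (DT nt on cpt Cn P4Free mem_on nt_le_of_label Spl spl_of_p4free
  cpt_subset mem_cpt_self cn_cpt not_adj_cpt subset_cpt)
open Pool.Agent.H175G

variable {V : Type} {G : SimpleGraph V}

/-- structure of a `P₄`-free set that is not a disjoint union of cliques -/
theorem struct (hp : NoP23 G) {X : Finset V} (hP4 : P4Free G X) (hX : ¬ Clus G X) :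
    ∃ C X' : Finset V, X' ⊆ C ∧ C ⊆ X ∧ (∀ x ∈ C, ∀ z ∈ X, z ∉ C → ¬ G.Adj x z) ∧
      (∀ z ∈ X, z ∉ C → ∀ z' ∈ X, z' ∉ C → ¬ G.Adj z z') ∧
      (∀ x ∈ X', ∀ k ∈ C, k ∉ X' → G.Adj x k) ∧ (∃ k ∈ C, k ∉ X') ∧ 2 ≤ X'.card ∧
      Cn Gᶜ X' ∧ (∃ A1 A2 : Finset V, A1.Nonempty ∧ A2.Nonempty ∧ Disjoint A1 A2 ∧
        A1 ∪ A2 = X' ∧ ∀ a ∈ A1, ∀ b ∈ A2, ¬ G.Adj a b) := by
  unfold Clus at hX
  push Not at hX
  obtain ⟨a, ha, b, hb, c, hc, hab, hbc, hac, hnac⟩ := hX
  set C := cpt G X b with hC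
  have hCX : C ⊆ X := cpt_subset
  have hCn : Cn G C := cn_cpt hb
  have hout : ∀ x ∈ C, ∀ z ∈ X, z ∉ C → ¬ G.Adj x z := fun x hx z hz hzC =>
    not_adj_cpt hb hx hz hzC
  have hbC : b ∈ C := mem_cpt_self hb
  have haC : a ∈ C := by
    by_contra h
    exact hout b hbC a ha h hab.symm
  have hcC : c ∈ C := by
    by_contra h
    exact hout b hbC c hc h hbc
  set X' := cpt Gᶜ C a with hX'
  have hX'C : X' ⊆ C := cpt_subset
  have hX'n : Cn Gᶜ X' := cn_cpt haC
  have haX' : a ∈ X' := mem_cpt_self haC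
  have hcX' : c ∈ X' := by
    by_contra h
    exact not_adj_cpt haC haX' hcC h (by
      rw [SimpleGraph.compl_adj]
      exact ⟨hac, hnac⟩)
  have hcard : 2 ≤ X'.card := Finset.one_lt_card.2 ⟨a, haX', c, hcX', hac⟩
  have hjoin : ∀ x ∈ X', ∀ k ∈ C, k ∉ X' → G.Adj x k := by
    intro x hx k hk hkX
    have h1 := not_adj_cpt haC hx hk hkX
    rw [SimpleGraph.compl_adj] at h1
    by_contra h2
    exact h1 ⟨fun h => hkX (h ▸ hx), h2⟩
  have hcardC : 2 ≤ C.card := hcard.trans (card_le_card hX'C)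
  have hproper : ∃ k ∈ C, k ∉ X' := by
    by_contra hcon
    push Not at hcon
    have hCX' : X' = C := subset_antisymm hX'C hcon
    obtain ⟨A, B, hA, hB, hd, hu, h⟩ := spl_of_p4free C.card G C le_rfl hcardC (hP4.mono hCX)
    rcases h with h | h
    · obtain ⟨x, hx, y, hy, hxy⟩ := hCn.tc_of_cover hu.symm hd hA hB
      exact h x hx y hy hxy
    · rw [hCX'] at hX'n
      obtain ⟨x, hx, y, hy, hxy⟩ := hX'n.tc_of_cover hu.symm hd hA hB
      rw [SimpleGraph.compl_adj] at hxy
      exact hxy.2 (h x hx y hy)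
  refine ⟨C, X', hX'C, hCX, hout, ?_, hjoin, hproper, hcard, hX'n, ?_⟩
  · intro z hz hzC z' hz' hz'C hzz
    have h1 := hout a haC z hz hzC
    have h2 := hout b hbC z hz hzC
    have h3 := hout c hcC z hz hzC
    have h4 := hout a haC z' hz' hz'C
    have h5 := hout b hbC z' hz' hz'C
    have h6 := hout c hcC z' hz' hz'C
    exact hp z z' a b c hzz hab hbc hac hnac (not_symm' h1) (not_symm' h2) (not_symm' h3) (not_symm' h4) (not_symm' h5) (not_symm' h6)
  · obtain ⟨A, B, hA, hB, hd, hu, h⟩ := spl_of_p4free X'.card G X' le_rfl hcard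
      (hP4.mono (hX'C.trans hCX))
    rcases h with h | h
    · exact ⟨A, B, hA, hB, hd, hu, h⟩
    · exfalso
      obtain ⟨x, hx, y, hy, hxy⟩ := hX'n.tc_of_cover hu.symm hd hA hB
      rw [SimpleGraph.compl_adj] at hxy
      exact hxy.2 (h x hx y hy)

/-- good pairs -/
structure Good (G : SimpleGraph V) (M N X E : Finset V) : Prop where
  XM : X ⊆ M
  ne : X.Nonempty
  EN : E ⊆ N
  hom : ∀ m ∈ M, m ∉ X → (∀ x ∈ X, G.Adj m x) ∨ (∀ x ∈ X, ¬ G.Adj m x)
  q : ∃ q, ∀ n ∈ N, n ∉ E → (∀ x ∈ X, ¬ G.Adj n x) ∨ (∀ x ∈ X, x ≠ q → G.Adj n x)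
  y : ∃ y, ∀ n ∈ E, ∀ m ∈ M, m ∉ X → G.Adj n m →
    m = y ∧ ∀ x ∈ X, ∀ x' ∈ X, ¬ G.Adj n x → ¬ G.Adj n x' → x = x'

variable {v : V} {M N X E : Finset V}

theorem disj (hZ : ZCfg G v M N) {x : V} (h1 : x ∈ M) (h2 : x ∈ N) : False :=
  hZ.2.1 x h2 (hZ.1 x h1)

/-- few rows -/
theorem good_rows (hZ : ZCfg G v M N) (h : Good G M N X E) :
    ∃ l : V → Bool × Bool, ∀ x ∈ X ∪ E, ∀ x' ∈ X ∪ E, l x = l x' →
      ∀ z ∈ insert v (M ∪ N), z ∉ X ∪ E → (G.Adj x z ↔ G.Adj x' z) := by
  obtain ⟨q, hq⟩ := h.q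
  obtain ⟨y, hy⟩ := h.y
  refine ⟨fun x => if x ∈ X then (true, decide (x = q)) else (false, decide (G.Adj x y)), ?_⟩
  intro x hx x' hx' hl z hz hzn
  rw [mem_union, not_or] at hzn
  obtain ⟨hzX, hzE⟩ := hzn
  simp only [mem_insert, mem_union] at hz
  by_cases hxX : x ∈ X
  · by_cases hx'X : x' ∈ X
    · simp only [if_pos hxX, if_pos hx'X, Prod.mk.injEq, true_and, decide_eq_decide] at hl
      by_cases hxq : x = q
      · have : x = x' := by rw [hxq, hl.1 hxq]
        rw [this]
      · have hx'q : x' ≠ q := fun h => hxq (hl.2 h)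
        rcases hz with rfl | hz | hz
        · exact iff_of_true (hZ.1 x (h.XM hxX)).symm (hZ.1 x' (h.XM hx'X)).symm
        · rcases h.hom z hz hzX with h1 | h1
          · exact iff_of_true (h1 x hxX).symm (h1 x' hx'X).symm
          · exact iff_of_false (fun h2 => h1 x hxX h2.symm) (fun h2 => h1 x' hx'X h2.symm)
        · rcases hq z hz hzE with h1 | h1
          · exact iff_of_false (fun h2 => h1 x hxX h2.symm) (fun h2 => h1 x' hx'X h2.symm)
          · exact iff_of_true (h1 x hxX hxq).symm (h1 x' hx'X hx'q).symm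
    · simp [if_pos hxX, if_neg hx'X] at hl
  · by_cases hx'X : x' ∈ X
    · simp [if_neg hxX, if_pos hx'X] at hl
    · have hxE : x ∈ E := (mem_union.1 hx).resolve_left hxX
      have hx'E : x' ∈ E := (mem_union.1 hx').resolve_left hx'X
      simp only [if_neg hxX, if_neg hx'X, Prod.mk.injEq, true_and, decide_eq_decide] at hl
      rcases hz with rfl | hz | hz
      · exact iff_of_false (fun h2 => hZ.2.1 x (h.EN hxE) h2.symm)
          (fun h2 => hZ.2.1 x' (h.EN hx'E) h2.symm)
      · constructor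
        · intro h2
          have := (hy x hxE z hz hzX h2).1
          rw [this] at h2 ⊢
          exact hl.1 h2
        · intro h2
          have := (hy x' hx'E z hz hzX h2).1
          rw [this] at h2 ⊢
          exact hl.2 h2
      · exact iff_of_false (hZ.2.2.1 x (h.EN hxE) z hz) (hZ.2.2.1 x' (h.EN hx'E) z hz)

theorem nt_of_rows {α : Type} [Fintype α] {R A : Finset V} (l : V → α)
    (h2 : ∀ x ∈ A, ∀ y ∈ A, l x = l y → ∀ z ∈ R, z ∉ A → (G.Adj x z ↔ G.Adj y z)) :
    nt G R A ≤ Fintype.card α := by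
  refine nt_le_of_label (Finset.univ) l (fun _ _ _ => Finset.mem_univ _) ?_
  intro x hx y hy _ _ hl
  ext z
  rw [mem_on, mem_on]
  constructor
  · rintro ⟨⟨h3, h4⟩, h5⟩
    exact ⟨⟨h3, h4⟩, (h2 x hx y hy hl z h3 h4).1 h5⟩
  · rintro ⟨⟨h3, h4⟩, h5⟩
    exact ⟨⟨h3, h4⟩, (h2 x hx y hy hl z h3 h4).2 h5⟩

/-- the next module -/
theorem step (hg : NoGem G) (hp : NoP23 G) (hZ : ZCfg G v M N)
    (hS : NoSplit G (insert v (M ∪ N))) (h : Good G M N X E) (hX : ¬ Clus G X) :
    ∃ X' E' : Finset V, X' ⊆ X ∧ X'.card < X.card ∧ E' ⊆ E ∧ Good G M N X' E' ∧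
      Clus G (X \ X') ∧ (X \ X').Nonempty ∧
      ∃ l : V → Bool × Bool × Bool × Bool, ∀ x ∈ (X \ X') ∪ (E \ E'), ∀ x' ∈ (X \ X') ∪ (E \ E'),
        l x = l x' → ∀ z ∈ insert v (M ∪ N), z ∉ (X \ X') ∪ (E \ E') →
          (G.Adj x z ↔ G.Adj x' z) := by
  have hP4 : P4Free G X := p4free_of_nb hg (v := v) fun x hx => hZ.1 x (h.XM hx)
  obtain ⟨C, X', hX'C, hCX, hout, hI, hjoin, ⟨k0, hk0, hk0'⟩, hcard, hcn, A1, A2, hA1, hA2, hd12,
    hu12, hanti⟩ := struct hp hP4 hX
  have hX'X : X' ⊆ X := hX'C.trans hCX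
  have hX'M : X' ⊆ M := hX'X.trans h.XM
  have hCM : C ⊆ M := hCX.trans h.XM
  obtain ⟨q, hq⟩ := h.q
  obtain ⟨y, hy⟩ := h.y
  have hvM : ∀ x ∈ M, G.Adj v x := hZ.1
  have hvN : ∀ x ∈ N, ¬ G.Adj v x := hZ.2.1
  have hN : Ind G N := hZ.2.2.1
  set D' : Finset V := N.filter (fun n => (∃ x ∈ X', G.Adj n x) ∧ ∃ x ∈ X', ¬ G.Adj n x) with hD'
  have hD'N : D' ⊆ N := filter_subset _ _
  -- a mixed nonadjacent pair
  have f0 : ∀ n ∈ D', ∃ m ∈ X', ∃ q ∈ X', G.Adj n m ∧ ¬ G.Adj n q ∧ ¬ G.Adj m q ∧ m ≠ q := by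
    intro n hn
    obtain ⟨_, ⟨x1, hx1, hnx1⟩, x2, hx2, hnx2⟩ := mem_filter.1 hn
    obtain ⟨m, hm, r, hr, hmr⟩ := hcn.2 (X'.filter (fun x => G.Adj n x)) (filter_subset _ _)
      ⟨x1, mem_filter.2 ⟨hx1, hnx1⟩⟩ ⟨x2, mem_sdiff.2 ⟨hx2, fun h => hnx2 (mem_filter.1 h).2⟩⟩
    rw [mem_filter] at hm
    rw [mem_sdiff, mem_filter] at hr
    rw [SimpleGraph.compl_adj] at hmr
    exact ⟨m, hm.1, r, hr.1, hm.2, fun h => hr.2 ⟨hr.1, h⟩, hmr.2, hmr.1⟩
  have f1 : ∀ n ∈ D', ∀ k ∈ C, k ∉ X' → ¬ G.Adj n k := by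
    intro n hn k hk hk' hnk
    obtain ⟨m, hm, r, hr, h1, h2, h3, h4⟩ := f0 n hn
    have e1 := hvM m (hX'M hm)
    have e2 := hvM r (hX'M hr)
    have e3 := hvM k (hCM hk)
    have e4 := hvN n (hD'N hn)
    have e5 := hjoin m hm k hk hk'
    have e6 := hjoin r hr k hk hk'
    exact hg n m v r k (SimpleGraph.Adj.symm hnk) (SimpleGraph.Adj.symm e5) (SimpleGraph.Adj.symm e3) (SimpleGraph.Adj.symm e6) h1 (SimpleGraph.Adj.symm e1) e2 (not_symm' e4) h3 h2
  have f2 : ∀ n ∈ D', n ∈ E := by
    intro n hn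
    by_contra hnE
    obtain ⟨m, hm, r, hr, h1, h2, h3, h4⟩ := f0 n hn
    have h5 := f1 n hn k0 hk0 hk0'
    rcases hq n (hD'N hn) hnE with h6 | h6
    · exact h6 m (hX'X hm) h1
    · by_cases hrq : r = q
      · have hkq : k0 ≠ q := by
          rw [← hrq]
          exact fun h => hk0' (h ▸ hr)
        exact h5 (h6 k0 (hCX hk0) hkq)
      · exact h2 (h6 r (hX'X hr) hrq)
  have f3 : ∀ n ∈ D', ∀ m ∈ M, m ∉ X → ¬ G.Adj n m := by
    intro n hn m hm hmX hnm
    obtain ⟨m1, hm1, r, hr, h1, h2, h3, h4⟩ := f0 n hn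
    have h5 := f1 n hn k0 hk0 hk0'
    have h6 := (hy n (f2 n hn) m hm hmX hnm).2 r (hX'X hr) k0 (hCX hk0) h2 h5
    exact hk0' (h6 ▸ hr)
  -- neighbours in `I`
  have f4 : ∀ n ∈ D', ∀ y ∈ X, y ∉ C → G.Adj n y → ∀ y' ∈ X, y' ∉ C → G.Adj n y' → y = y' := by
    intro n hn y hyX hyC hny y' hy'X hy'C hny'
    by_contra hne
    obtain ⟨m, hm, r, hr, h1, h2, h3, h4⟩ := f0 n hn
    have e1 := hI y hyX hyC y' hy'X hy'C
    have e2 := hout r (hX'C hr) y hyX hyC
    have e3 := hout r (hX'C hr) y' hy'X hy'C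
    have e4 := hout k0 hk0 y hyX hyC
    have e5 := hout k0 hk0 y' hy'X hy'C
    have e6 := hjoin r hr k0 hk0 hk0'
    have e7 := f1 n hn k0 hk0 hk0'
    clear h1 h3 h4
    exact hp r k0 y n y' e6 (SimpleGraph.Adj.symm hny) hny' hne e1 e2 (not_symm' h2) e3 e4 (not_symm' e7) e5
  have f5 : ∀ n ∈ D', ∀ y ∈ X, y ∉ C → G.Adj n y → ∀ k ∈ C, k ∉ X' → ∀ k' ∈ C, k' ∉ X' →
      k ≠ k' → G.Adj k k' := by
    intro n hn y hyX hyC hny k hk hkX k' hk' hk'X hne
    by_contra hcon
    obtain ⟨m, hm, r, hr, h1, h2, h3, h4⟩ := f0 n hn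
    have e1 := hjoin r hr k hk hkX
    have e2 := hjoin r hr k' hk' hk'X
    have e3 := f1 n hn k hk hkX
    have e4 := f1 n hn k' hk' hk'X
    have e5 := hout r (hX'C hr) y hyX hyC
    have e6 := hout k hk y hyX hyC
    have e7 := hout k' hk' y hyX hyC
    clear h1 h3 h4
    exact hp n y k r k' hny (SimpleGraph.Adj.symm e1) e2 hne hcon e3 h2 e4 (not_symm' e6) (not_symm' e5) (not_symm' e7)
  have f6 : ∀ n ∈ D', ∀ y ∈ X, y ∉ C → G.Adj n y → ∀ r ∈ X', ∀ r' ∈ X', ¬ G.Adj n r →
      ¬ G.Adj n r' → r = r' := by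
    intro n hn y hyX hyC hny
    have e7 := f1 n hn k0 hk0 hk0'
    have e8 := hout k0 hk0 y hyX hyC
    have key : ∀ r ∈ X', ∀ r' ∈ X', ¬ G.Adj n r → ¬ G.Adj n r' → r ≠ r' → G.Adj r r' := by
      intro r hr r' hr' h1 h2 hne
      by_contra hcon
      have e1 := hjoin r hr k0 hk0 hk0'
      have e2 := hjoin r' hr' k0 hk0 hk0'
      have e5 := hout r (hX'C hr) y hyX hyC
      have e6 := hout r' (hX'C hr') y hyX hyC
      exact hp n y r k0 r' hny e1 (SimpleGraph.Adj.symm e2) hne hcon h1 e7 h2 (not_symm' e5) (not_symm' e8) (not_symm' e6)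
    intro r hr r' hr' h1 h2
    by_contra hne
    have hrr := key r hr r' hr' h1 h2 hne
    have gen : ∀ A B : Finset V, B.Nonempty → A ∪ B = X' → Disjoint A B →
        (∀ a ∈ A, ∀ b ∈ B, ¬ G.Adj a b) → r ∈ A → False := by
      intro A B hB hu hd han hrA
      have hr'A : r' ∈ A := by
        by_contra hc
        have : r' ∈ B := by
          rw [← hu, mem_union] at hr'
          exact hr'.resolve_left hc
        exact han r hrA r' this hrr
      obtain ⟨m, hm⟩ := hB
      have hmX : m ∈ X' := by rw [← hu]; exact mem_union_right _ hm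
      have e1 := han r hrA m hm
      have e2 := han r' hr'A m hm
      have hmr : m ≠ r := fun h => (Finset.disjoint_left.1 hd) hrA (h ▸ hm)
      have e3 : G.Adj n m := by
        by_contra hc
        exact e1 (key m hmX r hr hc h1 hmr).symm
      have e4 := hout m (hX'C hmX) y hyX hyC
      have e5 := hout r (hX'C hr) y hyX hyC
      have e6 := hout r' (hX'C hr') y hyX hyC
      have hmy : m ≠ y := fun h => hyC (h ▸ hX'C hmX)
      clear e7 e8
      exact hp r r' y n m hrr (SimpleGraph.Adj.symm hny) e3 (Ne.symm hmy) (not_symm' e4) e5 (not_symm' h1) e1 e6 (not_symm' h2) e2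
    have hr12 := hr
    rw [← hu12, mem_union] at hr12
    rcases hr12 with hr1 | hr2
    · exact gen A1 A2 hA2 hu12 hd12 hanti hr1
    · exact gen A2 A1 hA1 (by rw [union_comm]; exact hu12) hd12.symm
        (fun a ha b hb hab => hanti b hb a ha hab.symm) hr2
  -- some vertex of `D'` has a neighbour in `I`
  have f7 : ∃ n ∈ D', ∃ y ∈ X, y ∉ C ∧ G.Adj n y := by
    by_contra hcon
    push Not at hcon
    obtain ⟨x0, hx0⟩ : X'.Nonempty := card_pos.1 (by omega)
    refine hS (X' ∪ D') ?_ ?_ ?_ ⟨X', (insert v (M ∪ N)).filter (fun z => G.Adj x0 z), ?_⟩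
    · intro z hz
      rcases mem_union.1 hz with hz | hz
      · exact mem_insert_of_mem (mem_union_left _ (hX'M hz))
      · exact mem_insert_of_mem (mem_union_right _ (hD'N hz))
    · exact hcard.trans (card_le_card subset_union_left)
    · refine Finset.one_lt_card.2 ⟨v, ?_, k0, ?_, ?_⟩
      · rw [mem_sdiff, mem_union, not_or]
        refine ⟨mem_insert_self _ _, fun hv => ?_, fun hv => ?_⟩
        · exact G.loopless.irrefl v (hvM v (hX'M hv))
        · exact hZ.2.2.2 (hD'N hv)
      · rw [mem_sdiff, mem_union, not_or]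
        exact ⟨mem_insert_of_mem (mem_union_left _ (hCM hk0)), hk0',
          fun hv => disj hZ (hCM hk0) (hD'N hv)⟩
      · rintro rfl
        exact G.loopless.irrefl _ (hvM _ (hCM hk0))
    · intro x hx z hz
      rw [mem_sdiff, mem_union, not_or] at hz
      obtain ⟨hzR, hzX', hzD'⟩ := hz
      rw [mem_filter]
      by_cases hxX' : x ∈ X'
      · have hrow : G.Adj x z ↔ G.Adj x0 z := by
          simp only [mem_insert, mem_union] at hzR
          rcases hzR with rfl | hzM | hzN
          · exact iff_of_true (hvM x (hX'M hxX')).symm (hvM x0 (hX'M hx0)).symm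
          · by_cases hzX : z ∈ X
            · by_cases hzC : z ∈ C
              · exact iff_of_true (hjoin x hxX' z hzC hzX') (hjoin x0 hx0 z hzC hzX')
              · exact iff_of_false (hout x (hX'C hxX') z hzX hzC) (hout x0 (hX'C hx0) z hzX hzC)
            · rcases h.hom z hzM hzX with h1 | h1
              · exact iff_of_true (h1 x (hX'X hxX')).symm (h1 x0 (hX'X hx0)).symm
              · exact iff_of_false (fun h2 => h1 x (hX'X hxX') h2.symm)
                  (fun h2 => h1 x0 (hX'X hx0) h2.symm)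
          · have h1 : ¬ ((∃ x ∈ X', G.Adj z x) ∧ ∃ x ∈ X', ¬ G.Adj z x) :=
              fun h2 => hzD' (mem_filter.2 ⟨hzN, h2⟩)
            by_cases h2 : ∃ x ∈ X', G.Adj z x
            · have h3 : ∀ x ∈ X', G.Adj z x := by
                intro x hx
                by_contra h4
                exact h1 ⟨h2, x, hx, h4⟩
              exact iff_of_true (h3 x hxX').symm (h3 x0 hx0).symm
            · push Not at h2
              exact iff_of_false (fun h4 => h2 x hxX' h4.symm) (fun h4 => h2 x0 hx0 h4.symm)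
        rw [hrow]
        exact ⟨fun h1 => ⟨hxX', hzR, h1⟩, fun h1 => h1.2.2⟩
      · have hxD : x ∈ D' := (mem_union.1 hx).resolve_left hxX'
        refine iff_of_false ?_ (fun h1 => hxX' h1.1)
        simp only [mem_insert, mem_union] at hzR
        rcases hzR with rfl | hzM | hzN
        · exact fun h1 => hvN x (hD'N hxD) h1.symm
        · by_cases hzX : z ∈ X
          · by_cases hzC : z ∈ C
            · exact f1 x hxD z hzC hzX'
            · exact hcon x hxD z hzX hzC
          · exact f3 x hxD z hzM hzX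
        · exact hN x (hD'N hxD) z hzN
  obtain ⟨n1, hn1, y1, hy1X, hy1C, hn1y1⟩ := f7
  -- crossing pairs
  have f8 : ∀ n ∈ D', ∀ y ∈ X, y ∉ C → G.Adj n y → ∀ n' ∈ D', ∀ y' ∈ X, y' ∉ C → G.Adj n' y' →
      y ≠ y' → ∀ r ∈ X', ∀ r' ∈ X', ¬ G.Adj n r → ¬ G.Adj n' r' → r = r' := by
    intro n hn y hyX hyC hny n' hn' y' hy'X hy'C hn'y' hyy r hr r' hr' hnr hn'r'
    by_contra hne
    have e1 : G.Adj n r' := by
      by_contra hc
      exact hne (f6 n hn y hyX hyC hny r hr r' hr' hnr hc)
    have e2 : ¬ G.Adj n' y := fun hc => hyy (f4 n' hn' y hyX hyC hc y' hy'X hy'C hn'y')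
    have e3 : ¬ G.Adj n y' := fun hc => hyy (f4 n hn y hyX hyC hny y' hy'X hy'C hc)
    have e4 := hI y hyX hyC y' hy'X hy'C
    have e5 := hout r' (hX'C hr') y hyX hyC
    have e6 := hout r' (hX'C hr') y' hy'X hy'C
    have e7 := hN n (hD'N hn) n' (hD'N hn')
    have e8 : y ≠ r' := fun h => hyC (h ▸ hX'C hr')
    clear hne
    exact hp n' y' y n r' hn'y' (SimpleGraph.Adj.symm hny) e1 e8 (not_symm' e5) e2 (not_symm' e7) hn'r' (not_symm' e4) (not_symm' e3) (not_symm' e6)
  have hclus : Clus G (X \ X') := by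
    intro a ha b hb c hc hab hbc hac
    rw [mem_sdiff] at ha hb hc
    have hbC : b ∈ C := by
      by_contra hbC
      by_cases haC : a ∈ C
      · exact hout a haC b hb.1 hbC hab
      · exact hI a ha.1 haC b hb.1 hbC hab
    have haC : a ∈ C := by
      by_contra haC
      exact hout b hbC a ha.1 haC hab.symm
    have hcC : c ∈ C := by
      by_contra hcC
      exact hout b hbC c hc.1 hcC hbc
    exact f5 n1 hn1 y1 hy1X hy1C hn1y1 a haC ha.2 c hcC hc.2 hac
  have hlt : X'.card < X.card := card_lt_card ⟨hX'X, fun hsub => hk0' (hsub (hCX hk0))⟩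
  have hne' : (X \ X').Nonempty := ⟨k0, mem_sdiff.2 ⟨hCX hk0, hk0'⟩⟩
  have hhom' : ∀ m ∈ M, m ∉ X' → (∀ x ∈ X', G.Adj m x) ∨ (∀ x ∈ X', ¬ G.Adj m x) := by
    intro m hm hmX'
    by_cases hmX : m ∈ X
    · by_cases hmC : m ∈ C
      · exact Or.inl fun x hx => (hjoin x hx m hmC hmX').symm
      · exact Or.inr fun x hx hc => hout x (hX'C hx) m hmX hmC hc.symm
    · rcases h.hom m hm hmX with h1 | h1
      · exact Or.inl fun x hx => h1 x (hX'X hx)
      · exact Or.inr fun x hx => h1 x (hX'X hx)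
  have hnonD : ∀ n ∈ N, n ∉ D' → (∀ x ∈ X', ¬ G.Adj n x) ∨ (∀ x ∈ X', G.Adj n x) := by
    intro n hn hnD
    have h1 : ¬ ((∃ x ∈ X', G.Adj n x) ∧ ∃ x ∈ X', ¬ G.Adj n x) :=
      fun h2 => hnD (mem_filter.2 ⟨hn, h2⟩)
    by_cases h2 : ∃ x ∈ X', G.Adj n x
    · right
      intro x hx
      by_contra h4
      exact h1 ⟨h2, x, hx, h4⟩
    · left
      push Not at h2
      exact h2
  -- neighbours of `n ∈ D'` outside `X'`
  have hnbr : ∀ n ∈ D', ∀ m ∈ M, m ∉ X' → G.Adj n m → m ∈ X ∧ m ∉ C := by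
    intro n hn m hm hmX' hnm
    have hmX : m ∈ X := by
      by_contra hc
      exact f3 n hn m hm hc hnm
    exact ⟨hmX, fun hmC => f1 n hn m hmC hmX' hnm⟩
  -- the set `E'`
  obtain ⟨E', y', q', hE'D, hgood⟩ : ∃ E' : Finset V, ∃ y' q' : V, E' ⊆ D' ∧
      ((∀ n ∈ E', ∀ m ∈ X, m ∉ C → G.Adj n m → m = y') ∧
        ∀ n ∈ N, n ∉ E' → (∀ x ∈ X', ¬ G.Adj n x) ∨ (∀ x ∈ X', x ≠ q' → G.Adj n x)) := by
    by_cases hTA : ∃ y', ∀ n ∈ D', ∀ m ∈ X, m ∉ C → G.Adj n m → m = y'
    · obtain ⟨y', hy'⟩ := hTA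
      refine ⟨D', y', v, subset_rfl, hy', ?_⟩
      intro n hn hnD
      rcases hnonD n hn hnD with h1 | h1
      · exact Or.inl h1
      · exact Or.inr fun x hx _ => h1 x hx
    · push Not at hTA
      obtain ⟨n2, hn2, y2, hy2X, hy2C, hn2y2, hy21⟩ := hTA y1
      obtain ⟨_, _, q1, hq1, _, hn1q1, _, _⟩ := f0 n1 hn1
      obtain ⟨_, _, q2, hq2, _, hn2q2, _, _⟩ := f0 n2 hn2
      have hq12 : q2 = q1 := f8 n2 hn2 y2 hy2X hy2C hn2y2 n1 hn1 y1 hy1X hy1C hn1y1 hy21 q2 hq2 q1
        hq1 hn2q2 hn1q1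
      refine ⟨D'.filter (fun n => ∀ m ∈ X, m ∉ C → ¬ G.Adj n m), v, q1, filter_subset _ _, ?_, ?_⟩
      · intro n hn m hmX hmC hnm
        exact absurd hnm ((mem_filter.1 hn).2 m hmX hmC)
      · intro n hn hnE
        by_cases hnD : n ∈ D'
        · right
          have h1 : ¬ ∀ m ∈ X, m ∉ C → ¬ G.Adj n m := fun h2 => hnE (mem_filter.2 ⟨hnD, h2⟩)
          push Not at h1
          obtain ⟨m, hmX, hmC, hnm⟩ := h1
          intro x hx hxq
          by_contra hnx
          by_cases hmy : m = y1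
          · have hmy2 : m ≠ y2 := by rw [hmy]; exact fun h => hy21 h.symm
            exact hxq ((f8 n hnD m hmX hmC hnm n2 hn2 y2 hy2X hy2C hn2y2 hmy2 x hx q2 hq2 hnx
              hn2q2).trans hq12)
          · exact hxq (f8 n hnD m hmX hmC hnm n1 hn1 y1 hy1X hy1C hn1y1 hmy x hx q1 hq1 hnx
              hn1q1)
        · rcases hnonD n hn hnD with h1 | h1
          · exact Or.inl h1
          · exact Or.inr fun x hx _ => h1 x hx
  have hE'E : E' ⊆ E := fun n hn => f2 n (hE'D hn)
  refine ⟨X', E', hX'X, hlt, hE'E, ?_, hclus, hne', ?_⟩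
  · refine ⟨hX'M, card_pos.1 (by omega), hE'D.trans hD'N, hhom', ⟨q', hgood.2⟩, ⟨y', ?_⟩⟩
    intro n hn m hm hmX' hnm
    obtain ⟨hmX, hmC⟩ := hnbr n (hE'D hn) m hm hmX' hnm
    exact ⟨hgood.1 n hn m hmX hmC hnm, f6 n (hE'D hn) m hmX hmC hnm⟩
  · -- rows of `L`
    refine ⟨fun x => if x ∈ X then (true, decide (x ∈ C), decide (x = q), decide (x = y')) else
      (false, decide (G.Adj x y), decide (G.Adj x q'), decide (∃ z ∈ X', G.Adj x z)), ?_⟩
    intro x hx x' hx' hl z hz hzn
    rw [mem_union, mem_sdiff, mem_sdiff] at hx hx'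
    rw [mem_union, mem_sdiff, mem_sdiff, not_or] at hzn
    obtain ⟨hzn1, hzn2⟩ := hzn
    simp only [mem_insert, mem_union] at hz
    have hEX : ∀ z, z ∈ E → z ∉ X := fun z hzE hzX => disj hZ (h.XM hzX) (h.EN hzE)
    by_cases hxX : x ∈ X
    · by_cases hx'X : x' ∈ X
      · simp only [if_pos hxX, if_pos hx'X, Prod.mk.injEq, true_and, decide_eq_decide] at hl
        obtain ⟨hl1, hl2, hl3⟩ := hl
        have hxX' : x ∉ X' := by
          rcases hx with hx | hx
          · exact hx.2
          · exact absurd hxX (hEX x hx.1)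
        have hx'X' : x' ∉ X' := by
          rcases hx' with hx' | hx'
          · exact hx'.2
          · exact absurd hx'X (hEX x' hx'.1)
        rcases hz with rfl | hzM | hzN
        · exact iff_of_true (hvM x (h.XM hxX)).symm (hvM x' (h.XM hx'X)).symm
        · by_cases hzX : z ∈ X
          · have hzX' : z ∈ X' := by
              by_contra hc
              exact hzn1 ⟨hzX, hc⟩
            by_cases hxC : x ∈ C
            · exact iff_of_true (hjoin z hzX' x hxC hxX').symm
                (hjoin z hzX' x' (hl1.1 hxC) hx'X').symm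
            · exact iff_of_false (fun h1 => hout z (hX'C hzX') x hxX hxC h1.symm)
                (fun h1 => hout z (hX'C hzX') x' hx'X (fun h2 => hxC (hl1.2 h2)) h1.symm)
          · rcases h.hom z hzM hzX with h1 | h1
            · exact iff_of_true (h1 x hxX).symm (h1 x' hx'X).symm
            · exact iff_of_false (fun h2 => h1 x hxX h2.symm) (fun h2 => h1 x' hx'X h2.symm)
        · by_cases hzE : z ∈ E
          · have hzE' : z ∈ E' := by
              by_contra hc
              exact hzn2 ⟨hzE, hc⟩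
            by_cases hxy : x = y'
            · rw [hxy, hl3.1 hxy]
            · have gen : ∀ w ∈ X, w ∉ X' → w ≠ y' → ¬ G.Adj w z := by
                intro w hw hwX' hwy hwz
                obtain ⟨h1, h2⟩ := hnbr z (hE'D hzE') w (h.XM hw) hwX' hwz.symm
                exact hwy (hgood.1 z hzE' w h1 h2 hwz.symm)
              exact iff_of_false (gen x hxX hxX' hxy)
                (gen x' hx'X hx'X' (fun h1 => hxy (hl3.2 h1)))
          · by_cases hxq : x = q
            · rw [hxq, hl2.1 hxq]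
            · have hx'q : x' ≠ q := fun h1 => hxq (hl2.2 h1)
              rcases hq z hzN hzE with h1 | h1
              · exact iff_of_false (fun h2 => h1 x hxX h2.symm) (fun h2 => h1 x' hx'X h2.symm)
              · exact iff_of_true (h1 x hxX hxq).symm (h1 x' hx'X hx'q).symm
      · simp [if_pos hxX, if_neg hx'X] at hl
    · by_cases hx'X : x' ∈ X
      · simp [if_neg hxX, if_pos hx'X] at hl
      · simp only [if_neg hxX, if_neg hx'X, Prod.mk.injEq, true_and, decide_eq_decide] at hl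
        obtain ⟨hl1, hl2, hl3⟩ := hl
        have hxE : x ∈ E ∧ x ∉ E' := by
          rcases hx with hx | hx
          · exact absurd hx.1 hxX
          · exact hx
        have hx'E : x' ∈ E ∧ x' ∉ E' := by
          rcases hx' with hx' | hx'
          · exact absurd hx'.1 hx'X
          · exact hx'
        rcases hz with rfl | hzM | hzN
        · exact iff_of_false (fun h2 => hvN x (h.EN hxE.1) h2.symm)
            (fun h2 => hvN x' (h.EN hx'E.1) h2.symm)
        · by_cases hzX : z ∈ X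
          · have hzX' : z ∈ X' := by
              by_contra hc
              exact hzn1 ⟨hzX, hc⟩
            have gen : ∀ w ∈ E, w ∉ E' → (∃ u ∈ X', G.Adj w u) → z ≠ q' → G.Adj w z := by
              intro w hw hwE' hex hzq
              rcases hgood.2 w (h.EN hw) hwE' with h1 | h1
              · obtain ⟨u, hu, hwu⟩ := hex
                exact absurd hwu (h1 u hu)
              · exact h1 z hzX' hzq
            by_cases hzq : z = q'
            · rw [hzq]; exact hl2
            · constructor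
              · intro h1
                exact gen x' hx'E.1 hx'E.2 (hl3.1 ⟨z, hzX', h1⟩) hzq
              · intro h1
                exact gen x hxE.1 hxE.2 (hl3.2 ⟨z, hzX', h1⟩) hzq
          · constructor
            · intro h2
              have := (hy x hxE.1 z hzM hzX h2).1
              rw [this] at h2 ⊢
              exact hl1.1 h2
            · intro h2
              have := (hy x' hx'E.1 z hzM hzX h2).1
              rw [this] at h2 ⊢
              exact hl1.2 h2
        · exact iff_of_false (hN x (h.EN hxE.1) z hzN) (hN x' (h.EN hx'E.1) z hzN)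

theorem ZCfg.sub (hZ : ZCfg G v M N) {X E : Finset V} (hX : X ⊆ M) (hE : E ⊆ N) : ZCfg G v X E :=
  ⟨fun m hm => hZ.1 m (hX hm), fun n hn => hZ.2.1 n (hE hn), hZ.2.2.1.sub hE,
    fun h => hZ.2.2.2 (hE h)⟩

/-- trees for good pairs -/
theorem tree (Kc : ℕ) (hKc : ∀ X E : Finset V, ZCfg G v X E → Clus G X → BD G Kc (X ∪ E))
    (hg : NoGem G) (hp : NoP23 G) (hZ : ZCfg G v M N) (hS : NoSplit G (insert v (M ∪ N))) :
    ∀ n : ℕ, ∀ X E : Finset V, X.card ≤ n → Good G M N X E →
      DT G ((Kc + 1) * 16) (insert v (M ∪ N)) (X ∪ E) := by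
  intro n
  induction n with
  | zero =>
    intro X E hn h
    exact absurd h.ne (by rw [not_nonempty_iff_eq_empty]; exact card_eq_zero.1 (by omega))
  | succ n ih =>
    intro X E hn h
    have hsub : X ∪ E ⊆ insert v (M ∪ N) := by
      intro z hz
      rcases mem_union.1 hz with hz | hz
      · exact mem_insert_of_mem (mem_union_left _ (h.XM hz))
      · exact mem_insert_of_mem (mem_union_right _ (h.EN hz))
    obtain ⟨l, hl⟩ := good_rows hZ h
    by_cases hX : Clus G X
    · have h1 := hKc X E (ZCfg.sub hZ h.XM h.EN) hX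
      have h2 := h1.ambient (h.ne.mono subset_union_left) hsub Finset.univ l
        (fun _ _ => Finset.mem_univ _) hl
      refine h2.mono (Nat.mul_le_mul_left _ ?_)
      simp
    · obtain ⟨X', E', hX'X, hlt, hE'E, hgood, hclus, hne, l', hl'⟩ := step hg hp hZ hS h hX
      have t1 := ih X' E' (by omega) hgood
      have hLsub : (X \ X') ∪ (E \ E') ⊆ insert v (M ∪ N) :=
        (union_subset_union sdiff_subset sdiff_subset).trans hsub
      have h1 := hKc (X \ X') (E \ E') (ZCfg.sub hZ (sdiff_subset.trans h.XM)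
        (sdiff_subset.trans h.EN)) hclus
      have t2 := h1.ambient (hne.mono subset_union_left) hLsub Finset.univ l'
        (fun _ _ => Finset.mem_univ _) hl'
      have t2 : DT G ((Kc + 1) * 16) (insert v (M ∪ N)) ((X \ X') ∪ (E \ E')) := by
        refine t2.mono (Nat.mul_le_mul_left _ ?_)
        simp
      have hu : X ∪ E = (X' ∪ E') ∪ ((X \ X') ∪ (E \ E')) := by
        ext z
        simp only [mem_union, mem_sdiff]
        constructor
        · rintro (hz | hz)
          · by_cases hz' : z ∈ X' <;> simp [hz, hz']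
          · by_cases hz' : z ∈ E' <;> simp [hz, hz']
        · rintro ((hz | hz) | (hz | hz))
          · exact Or.inl (hX'X hz)
          · exact Or.inr (hE'E hz)
          · exact Or.inl hz.1
          · exact Or.inr hz.1
      have hd : Disjoint (X' ∪ E') ((X \ X') ∪ (E \ E')) := by
        rw [Finset.disjoint_left]
        intro z hz hz'
        simp only [mem_union, mem_sdiff] at hz hz'
        rcases hz with hz | hz
        · rcases hz' with hz' | hz'
          · exact hz'.2 hz
          · exact disj hZ (h.XM (hX'X hz)) (h.EN hz'.1)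
        · rcases hz' with hz' | hz'
          · exact disj hZ (h.XM hz'.1) (h.EN (hE'E hz))
          · exact hz'.2 hz
      rw [hu]
      refine DT.node hd t1 t2 ?_
      rw [← hu]
      refine (nt_of_rows l hl).trans ?_
      simp only [Fintype.card_prod, Fintype.card_bool]
      omega

end Pool.Agent.H959R2.GEM.Z

namespace Pool.Agent.H959R2.GEM

open Finset Classical
open Pool.Agent.H175R2 (DT nt on cpt Cn P4Free)
open Pool.Agent.H175G

theorem z_stmt (hC : ClusterStmt) (hS : SplitStmt) : ZStmt := by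
  obtain ⟨Kc, hKc⟩ := hC
  set K1 : ℕ := (((Kc + 1) * 16) + 1) * 2 ^ 1 + 2 ^ 5 + 1 with hK1
  refine ⟨2 * K1 + 2, ?_⟩
  intro V G hg hp v M0 N0 hZ0
  set C : Finset V → Prop := fun R => v ∈ R ∧ ∀ x ∈ R, ∀ y ∈ R, ¬ G.Adj v x → ¬ G.Adj v y →
    ¬ G.Adj x y with hCdef
  have key : ∀ R, C R → NoSplit G R → BD G K1 R := by
    intro R hR hns
    obtain ⟨hvR, hind⟩ := hR
    by_cases hcard : R.card ≤ 5
    · exact (BD.card hcard).mono (by omega)
    set M : Finset V := R.filter (fun x => G.Adj v x) with hM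
    set N : Finset V := (R.filter (fun x => ¬ G.Adj v x)).erase v with hN
    have hRe : insert v (M ∪ N) = R := by
      ext z
      simp only [hM, hN, mem_insert, mem_union, mem_filter, mem_erase]
      constructor
      · rintro (rfl | hz | hz)
        · exact hvR
        · exact hz.1
        · exact hz.2.1
      · intro hz
        by_cases h1 : z = v
        · exact Or.inl h1
        · by_cases h2 : G.Adj v z
          · exact Or.inr (Or.inl ⟨hz, h2⟩)
          · exact Or.inr (Or.inr ⟨h1, hz, h2⟩)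
    have hZ : ZCfg G v M N := by
      refine ⟨fun m hm => (mem_filter.1 hm).2, fun n hn => (mem_filter.1 (mem_erase.1 hn).2).2,
        ?_, fun h => (mem_erase.1 h).1 rfl⟩
      intro x hx y hy
      have h1 := mem_filter.1 (mem_erase.1 hx).2
      have h2 := mem_filter.1 (mem_erase.1 hy).2
      exact hind x h1.1 y h2.1 h1.2 h2.2
    by_cases hMe : M.Nonempty
    · set D : Finset V := N.filter (fun n => (∃ x ∈ M, G.Adj n x) ∧ ∃ x ∈ M, ¬ G.Adj n x) with hD
      have hnD : ∀ n ∈ N, n ∉ D → (∀ x ∈ M, ¬ G.Adj n x) ∨ (∀ x ∈ M, G.Adj n x) := by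
        intro n hn hnD
        have h1 : ¬ ((∃ x ∈ M, G.Adj n x) ∧ ∃ x ∈ M, ¬ G.Adj n x) :=
          fun h2 => hnD (mem_filter.2 ⟨hn, h2⟩)
        by_cases h2 : ∃ x ∈ M, G.Adj n x
        · right
          intro x hx
          by_contra h4
          exact h1 ⟨h2, x, hx, h4⟩
        · left
          push Not at h2
          exact h2
      have hgood : Z.Good G M N M D := by
        refine ⟨subset_rfl, hMe, filter_subset _ _, fun m hm hm' => absurd hm hm', ⟨v, ?_⟩,
          ⟨v, fun n _ m hm hm' => absurd hm hm'⟩⟩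
        intro n hn hn'
        rcases hnD n hn hn' with h1 | h1
        · exact Or.inl h1
        · exact Or.inr fun x hx _ => h1 x hx
      have hns' : NoSplit G (insert v (M ∪ N)) := by rw [hRe]; exact hns
      have ht := Z.tree Kc (fun X E hXE hcl => hKc V G hg hp v X E hXE hcl) hg hp hZ hns' M.card M D
        le_rfl hgood
      rw [hRe] at ht
      have hsub : M ∪ D ⊆ R := by
        rw [← hRe]
        intro z hz
        rcases mem_union.1 hz with hz | hz
        · exact mem_insert_of_mem (mem_union_left _ hz)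
        · exact mem_insert_of_mem (mem_union_right _ (mem_filter.1 hz).1)
      have hbd : BD G ((Kc + 1) * 16) (M ∪ D) := by
        intro hne
        have h1 := DT.restrict hsub ht (by rw [inter_self]; exact hne)
        rwa [inter_self] at h1
      have hND : N ⊆ D := by
        intro n hn
        by_contra hc
        have hnv : n ≠ v := (mem_erase.1 hn).1
        have hnR : n ∈ R := (mem_filter.1 (mem_erase.1 hn).2).1
        have hsubA : ({n, v} : Finset V) ⊆ R := by
          intro z hz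
          rcases mem_insert.1 hz with rfl | hz
          · exact hnR
          · rw [mem_singleton.1 hz]; exact hvR
        have hcA : ({n, v} : Finset V).card = 2 := card_pair hnv
        have hcB : 2 ≤ (R \ {n, v}).card := by
          rw [card_sdiff_of_subset hsubA, hcA]
          omega
        rcases hnD n hn hc with h1 | h1
        · refine hns {n, v} hsubA (by omega) hcB ⟨{v}, M, ?_⟩
          intro x hx z hz
          rw [mem_sdiff, mem_insert, mem_singleton, not_or] at hz
          obtain ⟨hzR, hzn, hzv⟩ := hz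
          rw [mem_singleton]
          rcases mem_insert.1 hx with rfl | hx
          · refine iff_of_false ?_ (fun h2 => hnv h2.1)
            rw [← hRe] at hzR
            simp only [mem_insert, mem_union] at hzR
            rcases hzR with hz1 | hz1 | hz1
            · exact absurd hz1 hzv
            · exact h1 z hz1
            · exact hZ.2.2.1 x hn z hz1
          · rw [mem_singleton.1 hx]
            exact ⟨fun h2 => ⟨rfl, mem_filter.2 ⟨hzR, h2⟩⟩, fun h2 => (mem_filter.1 h2.2).2⟩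
        · refine hns {n, v} hsubA (by omega) hcB ⟨{n, v}, M, ?_⟩
          intro x hx z hz
          have hx0 := hx
          rw [mem_sdiff, mem_insert, mem_singleton, not_or] at hz
          obtain ⟨hzR, hzn, hzv⟩ := hz
          rcases mem_insert.1 hx with rfl | hx
          · constructor
            · intro h2
              refine ⟨hx0, ?_⟩
              rw [← hRe] at hzR
              simp only [mem_insert, mem_union] at hzR
              rcases hzR with hz1 | hz1 | hz1
              · exact absurd hz1 hzv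
              · exact hz1
              · exact absurd h2 (hZ.2.2.1 x hn z hz1)
            · exact fun h2 => h1 z h2.2
          · rw [mem_singleton.1 hx]
            exact ⟨fun h2 => ⟨by simp, mem_filter.2 ⟨hzR, h2⟩⟩, fun h2 => (mem_filter.1 h2.2).2⟩
      have hall : BD G ((((Kc + 1) * 16) + 1) * 2 ^ ({v} : Finset V).card) ((M ∪ D) ∪ {v}) :=
        hbd.add {v}
      rw [card_singleton] at hall
      refine (hall.sub ?_).mono (by omega)
      rw [← hRe]
      intro z hz
      simp only [mem_insert, mem_union, mem_singleton] at hz ⊢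
      rcases hz with rfl | hz | hz
      · exact Or.inr rfl
      · exact Or.inl (Or.inl hz)
      · exact Or.inl (Or.inr (hND hz))
    · have hindR : Ind G R := by
        rw [not_nonempty_iff_eq_empty] at hMe
        intro x hx y hy
        have h1 : ∀ z ∈ R, ¬ G.Adj v z := by
          intro z hz hvz
          have : z ∈ M := mem_filter.2 ⟨hz, hvz⟩
          rw [hMe] at this
          simp at this
        exact hind x hx y hy (h1 x hx) (h1 y hy)
      exact (BD.ind hindR).mono (by omega)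
  have hall := hS V G v K1 C (fun R S hR hSR hv => ⟨hv, fun x hx y hy => hR.2 x (hSR hx) y (hSR hy)⟩)
    (fun R hR => hR) key
  have h0 : C (insert v (M0 ∪ N0)) := by
    refine ⟨mem_insert_self _ _, ?_⟩
    intro x hx y hy h1 h2 hxy
    simp only [mem_insert, mem_union] at hx hy
    have hx' : x = v ∨ x ∈ N0 := by
      rcases hx with hx | hx | hx
      · exact Or.inl hx
      · exact absurd (hZ0.1 x hx) h1
      · exact Or.inr hx
    have hy' : y = v ∨ y ∈ N0 := by
      rcases hy with hy | hy | hy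
      · exact Or.inl hy
      · exact absurd (hZ0.1 y hy) h2
      · exact Or.inr hy
    rcases hx' with rfl | hx'
    · exact h2 hxy
    · rcases hy' with rfl | hy'
      · exact h1 hxy.symm
      · exact hZ0.2.2.1 x hx' y hy' hxy
  exact (hall _ h0).sub (subset_insert _ _)

end Pool.Agent.H959R2.GEM
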