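import Pool.Agent.H175F.Main0
import Pool.Agent.H175F.H51R3_Attach
import Pool.Agent.H175F.H473R2_G175_Linear
import Pool.Agent.H175F.H837R2_GP_Bip
import Pool.Agent.H175F.H497R2_CW_Split
import Pool.Agent.H175F.H89R2_Lam
import Pool.Agent.H175F.H503R2_GP_Alpha
import Pool.Agent.H175F.H368R2_CW_Beta
import Pool.Agent.H175F.H814R2_Gam
import Pool.Agent.H175F.H175G83_Cluster
import Pool.Agent.H175F.H959R2_GEM_Z
import Pool.Agent.H175F.H409R2_GP_ZP
import Pool.Agent.H175F.H9Z_ZpA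
import Pool.Agent.H175F.H551R2_GP_ZpB
import Pool.Agent.H175F.H605R2_CW_Base
import Pool.Agent.H175F.H20R2_CL_Lam
import Pool.Agent.H175F.H972R2_GP_Cross
import Pool.Agent.H175F.H485R2_NoC5
import Pool.Agent.H175F.H488R2_CW_ND01
import Pool.Agent.H175F.H797R2_ND17b
import Pool.Agent.H175F.H146R2_GP_ND013
import Pool.Agent.H175F.H619R2_GP_T17
import Pool.Agent.H175F.H676R2_G_T18a
import Pool.Agent.H175F.H867_ND_NDML2
import Pool.Agent.H175F.H459R3_NDM
import Pool.Agent.H175F.H201R2_T19a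
import Pool.Agent.H175F.H903R2_CG_C5
import Pool.Agent.H175F.H793R2_G_CP

/-! Assembly of all parts. -/

namespace Pool.Agent.H175G

/-- all (gem, `P₂+P₃`)-free graphs have decomposition trees of bounded width -/
theorem main_stmt : MainStmt := by
  have hA : AttachStmt := Pool.Agent.H51R3.Attach.attach_stmt
  have hT : TwoStmt := Pool.Agent.H51R3.Attach.two_stmt
  have hLin : LinearStmt := linear_stmt
  have hB : BipStmt := Pool.Agent.H837R2.GP.bip_stmt hA hLin
  have hS : SplitStmt := split_stmt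
  have hLam : LamStmt := Pool.Agent.H89R2.Lam.lam_stmt
  have hAl : AlphaStmt := Pool.Agent.H503R2.GP.alpha_stmt hT hB hLam
  have hBe : BetaStmt := beta_stmt hA hT hB hLam hAl
  have hGa : GammaStmt := Pool.Agent.H814R2.Gam.gamma_stmt hA hB
  have hC : ClusterStmt := cluster_stmt hB hAl hBe hGa
  have hZ : ZStmt := Pool.Agent.H959R2.GEM.z_stmt hC hS
  have hZa : ZpAStmt := Pool.Agent.H9Z.zpA_stmt hA hT hZ
  have hZb : ZpBStmt := Pool.Agent.H551R2.GP.zpB_stmt hA hT hZ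
  have hZp : ZpStmt := Pool.Agent.H409R2.GP.zp_stmt hT hZ hZa hZb
  have hBase : BaseStmt := Pool.Agent.H605R2.CW.base_stmt hT hB hZ
  have hCPL : CPLamStmt := Pool.Agent.H20R2.CL.cplam_stmt
  have hCP : CPStmt := cp_stmt hA hT hZ hCPL
  have hCr : CrossStmt := cross_stmt hA hZp hCP
  have hN : NoC5Stmt := noc5_stmt hA hZp hBase hCr
  have h01 : ND01Stmt := Pool.Agent.H488R2.CW.nd01_stmt hA
  have h012 : ND012Stmt := Pool.Agent.H797R2.ND17b.nd012_stmt hA hZ
  have h013 : ND013Stmt := Pool.Agent.H146GP.nd013_stmt hA hT hZ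
  have h0123 : ND0123Stmt := Pool.Agent.H797R2.ND17b.nd0123_stmt hA
  have h5 : ND5Stmt := Pool.Agent.H797R2.ND17b.nd5_stmt hA
  have hND : NDStmt := Pool.Agent.H619R2.ND.nd_stmt hZ h01 h012 h013 h0123 h5
  have hnl : NDMnlStmt := Pool.Agent.H676R2.T18a.ndmnl_stmt hA hT hZ hND
  have hL2 : NDML2Stmt := Pool.Agent.H867.ND.ndml2_stmt hA hZ
  have hM : NDMStmt := Pool.Agent.H459R3.ndm_stmt hA hnl hL2
  have h5a : C5aStmt := Pool.Agent.H201R2.T19a.c5a_stmt hA hM
  exact main_of hN (C5asm.c5_stmt h5a)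

end Pool.Agent.H175G
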