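import Pool.Agent.H333R2.Col.Main
import Pool.Agent.H175F.Final

/-! COLOURING on (gem, `P₂+P₃`)-free graphs and on their complements, from the width bound. -/

namespace Pool.Agent.H175G.Col

open Finset Classical
open Pool.Agent.H175R2 (DT nt on)
open Pool.Agent.H333R2.Col (ColouringInPOn colouringInPOn_of_cliqueWidth
  colouringInPOn_of_cliqueWidth_compl)

/-- The graph `P₁ + P₄`: the path `0 1 2 3` and the isolated vertex `4`. -/
def P1_P4 : SimpleGraph (Fin 5) :=
  SimpleGraph.fromRel (fun a b : Fin 5 => a.val + 1 = b.val ∧ b.val ≤ 3)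

/-- The gem, i.e. the complement of `P₁ + P₄`. -/
def Gem : SimpleGraph (Fin 5) := P1_P4ᶜ

/-- The graph `P₂ + P₃`: the edge `0 1` and the path `2 3 4`. -/
def P2_P3 : SimpleGraph (Fin 5) :=
  SimpleGraph.fromRel (fun a b : Fin 5 =>
    (a.val = 0 ∧ b.val = 1) ∨ (a.val = 2 ∧ b.val = 3) ∨ (a.val = 3 ∧ b.val = 4))

theorem cwBuilt_tr {k : ℕ} {V : Type} {G : SimpleGraph V} {l : V → Fin k}
    (h : Pool.Agent.H175R2.CwBuilt k V G l) : Pool.Agent.Helper856.Cw.CwBuilt k V G l := by
  induction h with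
  | single i => exact .single i
  | union V W G H l m _ _ ih1 ih2 => exact .union V W G H l m ih1 ih2
  | join V G l i j hij _ ih => exact .join V G l i j hij ih
  | relabel V G l i j _ ih => exact .relabel V G l i j ih

theorem cw_le_of_dt {V : Type} [Fintype V] {G : SimpleGraph V} {K : ℕ} (h : DT G K univ univ) :
    Pool.Agent.Helper856.Cw.cliqueWidth G ≤ 3 * (K + 1) := by
  obtain ⟨W, G', l, h1, h2⟩ := Pool.Agent.H175R2.cwLE_of_dt h
  exact Nat.sInf_le ⟨W, G', l, cwBuilt_tr h1, h2⟩

/-- bounded clique-width of (gem, `P₂+P₃`)-free graphs -/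
theorem cw_bound (h : MainStmt) : ∃ c : ℕ, ∀ (V : Type) [Finite V] (G : SimpleGraph V),
    ¬ Gem.IsIndContained G ∧ ¬ P2_P3.IsIndContained G →
    Pool.Agent.Helper856.Cw.cliqueWidth G ≤ c := by
  obtain ⟨K, hK⟩ := h
  refine ⟨3 * (K + 1), fun V _ G hG => ?_⟩
  have : Fintype V := Fintype.ofFinite V
  rcases isEmpty_or_nonempty V with hV | hV
  · unfold Pool.Agent.Helper856.Cw.cliqueWidth
    by_cases hn : ∃ k, Pool.Agent.Helper856.Cw.CwLE G k
    · obtain ⟨k, W, G', l, hb, ⟨e⟩⟩ := hn
      exfalso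
      have hW : Nonempty W := by
        clear e
        induction hb with
        | single i => exact ⟨()⟩
        | union V W G H l m _ _ ih1 ih2 => exact ih1.map Sum.inl
        | join V G l i j hij _ ih => exact ih
        | relabel V G l i j _ ih => exact ih
      exact hV.false (e.symm hW.some)
    · have : {k | Pool.Agent.Helper856.Cw.CwLE G k} = ∅ := by
        ext k; simp only [Set.mem_setOf_eq, Set.mem_empty_iff_false, iff_false]
        exact fun h => hn ⟨k, h⟩
      rw [this]; simp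
  · refine cw_le_of_dt (hK V G (noGem_of ?_) (noP23_of ?_) univ Finset.univ_nonempty)
    · exact not_nonempty_iff.1 hG.1
    · exact not_nonempty_iff.1 hG.2

theorem compl_ind {W V : Type} {H : SimpleGraph W} {G : SimpleGraph V}
    (h : H.IsIndContained Gᶜ) : Hᶜ.IsIndContained G := by
  obtain ⟨f⟩ := h
  refine ⟨⟨f.toEmbedding, ?_⟩⟩
  intro a b
  have := f.map_rel_iff (a := a) (b := b)
  simp only [SimpleGraph.compl_adj] at this ⊢
  by_cases hab : a = b
  · subst hab; simp
  · have hne : f a ≠ f b := fun h => hab (f.injective h)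
    have h1 : (f a ≠ f b ∧ ¬ G.Adj (f a) (f b)) ↔ H.Adj a b := this
    have h2 : G.Adj (f a) (f b) ↔ a ≠ b ∧ ¬ H.Adj a b := by
      constructor
      · intro h; exact ⟨hab, fun h3 => (h1.2 h3).2 h⟩
      · intro h; by_contra h3; exact h.2 (h1.1 ⟨hne, h3⟩)
    exact h2

/-- COLOURING on (gem, `P₂+P₃`)-free graphs -/
theorem col_gem (h : MainStmt) :
    ColouringInPOn (fun _ G => ¬ Gem.IsIndContained G ∧ ¬ P2_P3.IsIndContained G) := by
  obtain ⟨c, hc⟩ := cw_bound h
  exact colouringInPOn_of_cliqueWidth (c := c) fun V _ G hG => hc V G hG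

/-- COLOURING on (`P₁+P₄`, complement of `P₂+P₃`)-free graphs -/
theorem col_compl (h : MainStmt) :
    ColouringInPOn (fun _ G => ¬ P1_P4.IsIndContained G ∧ ¬ P2_P3ᶜ.IsIndContained G) := by
  obtain ⟨c, hc⟩ := cw_bound h
  refine colouringInPOn_of_cliqueWidth_compl (c := c) fun V _ G hG => hc V Gᶜ ⟨?_, ?_⟩
  · intro h1
    have := compl_ind h1
    unfold Gem at this
    rw [compl_compl] at this
    exact hG.1 this
  · intro h1
    exact hG.2 (compl_ind h1)

end Pool.Agent.H175G.Col
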