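import Pool.Agent.H175F.Stmts2

namespace Pool.Agent.H146GP

open Finset Classical
open Pool.Agent.H175G
open Pool.Agent.H175R2 (DT nt on cpt Cn P4Free)

variable {V : Type} {G : SimpleGraph V} {c0 c1 c2 c3 c4 : V}

section facts

variable (hg : NoGem G) (hp : NoP23 G) (hc : C5c G c0 c1 c2 c3 c4)
include hg hp hc

lemma f_nn {n n' : V} (h1 : TN G c0 c1 c2 c3 c4 n) (h2 : TN G c0 c1 c2 c3 c4 n') :
    ¬ G.Adj n n' := by
  intro h; exact hp n n' c0 c1 c2 h (And.left hc) (And.left (And.right hc)) (Ne.symm (ne_of_wit (SimpleGraph.Adj.symm (And.left (And.right (And.right hc)))) (not_symm' (And.left (And.right (And.right (And.right (And.right (And.right (And.right hc)))))))))) (And.left (And.right (And.right (And.right (And.right (And.right hc)))))) (not_symm' (And.left h1)) (not_symm' (And.left (And.right h1))) (not_symm' (And.left (And.right (And.right h1)))) (not_symm' (And.left h2)) (not_symm' (And.left (And.right h2))) (not_symm' (And.left (And.right (And.right h2))))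

lemma f_deg0 {d n n' : V} (h : TD G c0 c1 c2 c3 c4 d) (h1 : TN G c0 c1 c2 c3 c4 n)
    (h2 : TN G c0 c1 c2 c3 c4 n') (a1 : G.Adj d n) (a2 : G.Adj d n') : n = n' := by
  by_contra hne; exact hp c2 c3 n d n' (And.left (And.right (And.right hc))) (SimpleGraph.Adj.symm a1) a2 hne (id fun (h : SimpleGraph.Adj G n n') => hp n n' c0 c1 c2 h (And.left hc) (And.left (And.right hc)) (Ne.symm (ne_of_wit (SimpleGraph.Adj.symm (And.left (And.right (And.right hc)))) (not_symm' (And.left (And.right (And.right (And.right (And.right (And.right (And.right hc)))))))))) (And.left (And.right (And.right (And.right (And.right (And.right hc)))))) (not_symm' (And.left h1)) (not_symm' (And.left (And.right h1))) (not_symm' (And.left (And.right (And.right h1)))) (not_symm' (And.left h2)) (not_symm' (And.left (And.right h2))) (not_symm' (And.left (And.right (And.right h2))))) (And.left (And.right (And.right h1))) (And.left (And.right (And.right h))) (And.left (And.right (And.right h2))) (And.left (And.right (And.right (And.right h1)))) (And.left (And.right (And.right (And.right h)))) (And.left (And.right (And.right (And.right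 h2))))

lemma f_cl0 {d d' n : V} (h : TD G c0 c1 c2 c3 c4 d) (h' : TD G c0 c1 c2 c3 c4 d')
    (h1 : TN G c0 c1 c2 c3 c4 n) (a1 : G.Adj n d) (a2 : G.Adj n d') (hne : d ≠ d') :
    G.Adj d d' := by
  by_contra hh; exact hp c2 c3 d n d' (And.left (And.right (And.right hc))) (SimpleGraph.Adj.symm a1) a2 hne hh (And.left (And.right (And.right h))) (And.left (And.right (And.right h1))) (And.left (And.right (And.right h'))) (And.left (And.right (And.right (And.right h)))) (And.left (And.right (And.right (And.right h1)))) (And.left (And.right (And.right (And.right h'))))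

lemma f_miss0 {d0 d1 d1' : V} (h : TD G c0 c1 c2 c3 c4 d0) (h' : TD G c1 c2 c3 c4 c0 d1)
    (h1 : TD G c1 c2 c3 c4 c0 d1') (a1 : ¬ G.Adj d0 d1) (a2 : ¬ G.Adj d0 d1') : d1 = d1' := by
  by_contra hne; exact hp c4 d0 d1 c2 d1' (And.left (And.right (And.right (And.right (And.right h))))) (SimpleGraph.Adj.symm (And.left (And.right h'))) (And.left (And.right h1)) hne (id fun (h_1 : SimpleGraph.Adj G d1 d1') => hp d1 d1' c1 d0 c4 h_1 (And.left (And.right h)) (SimpleGraph.Adj.symm (And.left (And.right (And.right (And.right (And.right h)))))) (ne_of_wit (SimpleGraph.Adj.symm (And.left (And.right hc))) (And.right (And.right (And.right (And.right (And.right (And.right (And.right (And.right (And.right hc)))))))))) (And.left (And.right (And.right (And.right (And.right (And.right (And.right (And.right (And.right hc))))))))) (not_symm' (And.left h')) (not_symm' a1) (not_symm' (And.left (And.right (And.right (And.right h'))))) (not_symm' (And.left h1)) (not_symm' a2) (not_symm' (And.left (And.right (And.right (And.right h1)))))) (And.left (And.right (And.right (And.right h')))) (not_symm' (And.right (And.right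 (And.right (And.right (And.right (And.right (And.right (And.right (And.right hc)))))))))) (And.left (And.right (And.right (And.right h1)))) a1 (not_symm' (And.left (And.right (And.right h)))) a2

lemma f_link {d0 d1 n : V} (h : TD G c0 c1 c2 c3 c4 d0) (h' : TD G c1 c2 c3 c4 c0 d1)
    (h1 : TN G c0 c1 c2 c3 c4 n) (a1 : ¬ G.Adj d0 d1) (a2 : G.Adj d0 n) : G.Adj d1 n := by
  by_contra hh; exact hp d0 n c0 d1 c2 a2 (And.left (And.right (And.right (And.right (And.right h'))))) (SimpleGraph.Adj.symm (And.left (And.right h'))) (Ne.symm (ne_of_wit (SimpleGraph.Adj.symm (And.left (And.right (And.right hc)))) (not_symm' (And.left (And.right (And.right (And.right (And.right (And.right (And.right hc)))))))))) (And.left (And.right (And.right (And.right (And.right (And.right hc)))))) (not_symm' (And.left h)) a1 (not_symm' (And.left (And.right (And.right h)))) (not_symm' (And.left h1)) (not_symm' hh) (not_symm' (And.left (And.right (And.right h1))))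

lemma f_b1 {d0 d3 n : V} (h : TD G c0 c1 c2 c3 c4 d0) (h' : TD G c3 c4 c0 c1 c2 d3)
    (h1 : TN G c0 c1 c2 c3 c4 n) (a1 : G.Adj n d0) (a2 : ¬ G.Adj n d3) : G.Adj d0 d3 := by
  by_contra hh; exact hp d0 n c3 c2 d3 (SimpleGraph.Adj.symm a1) (SimpleGraph.Adj.symm (And.left (And.right (And.right hc)))) (And.left (And.right (And.right (And.right (And.right h'))))) (Ne.symm (And.right (And.right (And.right (And.right (And.right h')))))) (And.left h') (not_symm' (And.left (And.right (And.right (And.right h))))) (not_symm' (And.left (And.right (And.right h)))) hh (not_symm' (And.left (And.right (And.right (And.right h1))))) (not_symm' (And.left (And.right (And.right h1)))) a2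

lemma f_b2 {d0 d3 n : V} (h : TD G c0 c1 c2 c3 c4 d0) (h' : TD G c3 c4 c0 c1 c2 d3)
    (h1 : TN G c0 c1 c2 c3 c4 n) (a1 : G.Adj n d3) (a2 : ¬ G.Adj n d0) : G.Adj d0 d3 := by
  by_contra hh; exact hp d3 n c0 c1 d0 (SimpleGraph.Adj.symm a1) (And.left hc) (And.left (And.right h)) (Ne.symm (And.right (And.right (And.right (And.right (And.right h)))))) (And.left h) (not_symm' (And.left (And.right (And.right h')))) (not_symm' (And.left (And.right (And.right (And.right h'))))) (not_symm' hh) (not_symm' (And.left h1)) (not_symm' (And.left (And.right h1))) a2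

lemma f_e0 {d d' d3 : V} (h : TD G c0 c1 c2 c3 c4 d) (h0 : TD G c0 c1 c2 c3 c4 d')
    (h' : TD G c3 c4 c0 c1 c2 d3) (a1 : G.Adj d d') : G.Adj d d3 := by
  by_contra hh; exact hp d' d d3 c2 c3 (SimpleGraph.Adj.symm a1) (SimpleGraph.Adj.symm (And.left (And.right (And.right (And.right (And.right h')))))) (And.left (And.right (And.right hc))) (And.right (And.right (And.right (And.right (And.right h'))))) (not_symm' (And.left h')) (id fun (h_1 : SimpleGraph.Adj G d' d3) => hg d3 c4 d c1 d' h_1 (SimpleGraph.Adj.symm (And.left (And.right (And.right (And.right (And.right h0)))))) (SimpleGraph.Adj.symm a1) (SimpleGraph.Adj.symm (And.left (And.right h0))) (SimpleGraph.Adj.symm (And.left (And.right h'))) (And.left (And.right (And.right (And.right (And.right h))))) (SimpleGraph.Adj.symm (And.left (And.right h))) (not_symm' hh) (not_symm' (And.left (And.right (And.right (And.right (And.right (And.right (And.right (And.right (And.right hc)))))))))) (not_symm' (And.left (And.right (And.right (And.right h')))))) (not_symm' (And.left (And.right (And.right h0)))) (not_symm' (And.left (And.right (And.right (And.right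 h0))))) hh (not_symm' (And.left (And.right (And.right h)))) (not_symm' (And.left (And.right (And.right (And.right h)))))

lemma f_e3 {d d' d0 : V} (h : TD G c3 c4 c0 c1 c2 d) (h0 : TD G c3 c4 c0 c1 c2 d')
    (h' : TD G c0 c1 c2 c3 c4 d0) (a1 : G.Adj d d') : G.Adj d d0 := by
  by_contra hh; exact hp d' d d0 c1 c0 (SimpleGraph.Adj.symm a1) (SimpleGraph.Adj.symm (And.left (And.right h'))) (SimpleGraph.Adj.symm (And.left hc)) (And.right (And.right (And.right (And.right (And.right h'))))) (not_symm' (And.left h')) (id fun (h_1 : SimpleGraph.Adj G d' d0) => hg d0 c4 d c2 d' h_1 (SimpleGraph.Adj.symm (And.left (And.right h0))) (SimpleGraph.Adj.symm a1) (SimpleGraph.Adj.symm (And.left (And.right (And.right (And.right (And.right h0)))))) (SimpleGraph.Adj.symm (And.left (And.right (And.right (And.right (And.right h')))))) (And.left (And.right h)) (SimpleGraph.Adj.symm (And.left (And.right (And.right (And.right (And.right h)))))) (not_symm' hh) (not_symm' (And.right (And.right (And.right (And.right (And.right (And.right (And.right (And.right (And.right hc)))))))))) (not_symm' (And.left (And.right (And.right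 h'))))) (not_symm' (And.left (And.right (And.right (And.right h0))))) (not_symm' (And.left (And.right (And.right h0)))) hh (not_symm' (And.left (And.right (And.right (And.right h))))) (not_symm' (And.left (And.right (And.right h))))

lemma f_tri {d0 d1 d3 : V} (h0 : TD G c0 c1 c2 c3 c4 d0) (h1 : TD G c1 c2 c3 c4 c0 d1)
    (h3 : TD G c3 c4 c0 c1 c2 d3) (a : G.Adj d0 d1) (b : G.Adj d3 d0) (c : G.Adj d3 d1) : False := by
  exact hg c2 d1 d0 c4 d3 (SimpleGraph.Adj.symm (And.left (And.right (And.right (And.right (And.right h3)))))) c b (SimpleGraph.Adj.symm (And.left (And.right h3))) (And.left (And.right h1)) (SimpleGraph.Adj.symm a) (SimpleGraph.Adj.symm (And.left (And.right (And.right (And.right (And.right h0)))))) (And.left (And.right (And.right h0))) (not_symm' (And.left (And.right (And.right (And.right h1))))) (And.right (And.right (And.right (And.right (And.right (And.right (And.right (And.right (And.right hc)))))))))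

lemma f_lk {d0 d0' d1 d3 : V} (h0 : TD G c0 c1 c2 c3 c4 d0) (h0' : TD G c0 c1 c2 c3 c4 d0')
    (h1 : TD G c1 c2 c3 c4 c0 d1)
    (h3 : TD G c3 c4 c0 c1 c2 d3) (a : ¬ G.Adj d0 d1) (b : G.Adj d3 d0) (c : ¬ G.Adj d3 d1) :
    G.Adj d3 d0' := by
  by_contra hh; exact hp d1 c2 d0' c4 d0 (SimpleGraph.Adj.symm (And.left (And.right h1))) (SimpleGraph.Adj.symm (And.left (And.right (And.right (And.right (And.right h0')))))) (And.left (And.right (And.right (And.right (And.right h0))))) (Ne.symm (ne_of_wit b hh)) (not_symm' (id fun (h : SimpleGraph.Adj G d0 d0') => hg c1 d0' c4 d3 d0 (SimpleGraph.Adj.symm (And.left (And.right h0))) h (SimpleGraph.Adj.symm (And.left (And.right (And.right (And.right (And.right h0)))))) (SimpleGraph.Adj.symm b) (And.left (And.right h0')) (SimpleGraph.Adj.symm (And.left (And.right (And.right (And.right (And.right h0')))))) (And.left (And.right h3)) (And.left (And.right (And.right (And.right (And.right (And.right (And.right (And.right (And.right hc))))))))) (not_symm' hh) (And.left (And.right (And.right (And.right h3)))))) (not_symm' (id fun (h : SimpleGraph.Adj G d0' d1) =>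 hp d0 d3 d0' d1 c0 (SimpleGraph.Adj.symm b) h (SimpleGraph.Adj.symm (And.left (And.right (And.right (And.right (And.right h1)))))) (And.right (And.right (And.right (And.right (And.right h0'))))) (not_symm' (And.left h0')) (id fun (h : SimpleGraph.Adj G d0 d0') => hg c1 d0' c4 d3 d0 (SimpleGraph.Adj.symm (And.left (And.right h0))) h (SimpleGraph.Adj.symm (And.left (And.right (And.right (And.right (And.right h0)))))) (SimpleGraph.Adj.symm b) (And.left (And.right h0')) (SimpleGraph.Adj.symm (And.left (And.right (And.right (And.right (And.right h0')))))) (And.left (And.right h3)) (And.left (And.right (And.right (And.right (And.right (And.right (And.right (And.right (And.right hc))))))))) (not_symm' hh) (And.left (And.right (And.right (And.right h3))))) a (not_symm' (And.left h0)) hh c (not_symm' (And.left (And.right (And.right h3)))))) (not_symm' (And.left (And.right (And.right (And.right h1))))) (not_symm' a) (And.left (And.right (And.right h0'))) (And.right (And.right (And.right (And.right (And.right (And.right (And.right (And.right (And.right hc))))))))) (And.left (And.right (And.right h0)))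

end facts

end Pool.Agent.H146GP
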