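import Pool.Agent.H175F.Stmts2

set_option autoImplicit false

/-! Task T19a of h175g: `C5` with the types `K_i`. -/

namespace Pool.Agent.H201R2.T19a

open Finset Classical
open Pool.Agent.H175G

variable {V : Type} {G : SimpleGraph V}

theorem rot {c0 c1 c2 c3 c4 : V} (h : C5c G c0 c1 c2 c3 c4) : C5c G c1 c2 c3 c4 c0 := by
  obtain ⟨h1, h2, h3, h4, h5, h6, h7, h8, h9, h10⟩ := h
  exact ⟨h2, h3, h4, h5, h1, h8, h9, h10, fun h => h6 h.symm, fun h => h7 h.symm⟩

/-- types other than `K₀` -/
abbrev Ty (G : SimpleGraph V) (c0 c1 c2 c3 c4 y : V) : Prop :=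
  TN G c0 c1 c2 c3 c4 y ∨
      TD G c0 c1 c2 c3 c4 y ∨ TD G c1 c2 c3 c4 c0 y ∨ TD G c2 c3 c4 c0 c1 y ∨
      TD G c3 c4 c0 c1 c2 y ∨ TD G c4 c0 c1 c2 c3 y ∨
      TK G c1 c2 c3 c4 c0 y ∨ TK G c2 c3 c4 c0 c1 y ∨
      TK G c3 c4 c0 c1 c2 y ∨ TK G c4 c0 c1 c2 c3 y ∨
      TM G c0 c1 c2 c3 c4 y ∨ TM G c1 c2 c3 c4 c0 y ∨ TM G c2 c3 c4 c0 c1 y ∨
      TM G c3 c4 c0 c1 c2 y ∨ TM G c4 c0 c1 c2 c3 y

theorem key {c0 c1 c2 c3 c4 : V} (hg : NoGem G) (hp : NoP23 G) (hC : C5c G c0 c1 c2 c3 c4)
    {x y : V} (hx : TK G c0 c1 c2 c3 c4 x) (hy : Ty G c0 c1 c2 c3 c4 y)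
    (h : (TD G c1 c2 c3 c4 c0 y ∨ TD G c4 c0 c1 c2 c3 y ∨ TM G c0 c1 c2 c3 c4 y) → G.Adj x y) :
    G.Adj x y ↔ G.Adj c0 y := by
  rcases hy with hy | hy | hy | hy | hy | hy | hy | hy | hy | hy | hy | hy | hy | hy | hy
  · exact iff_of_false (by intro h1; exact hp c2 c3 c0 x y (And.left (And.right (And.right hC))) (And.left hx) h1 (ne_of_wit (SimpleGraph.Adj.symm (And.left hC)) (And.left (And.right hy))) (And.left hy) (not_symm' (And.left (And.right (And.right (And.right (And.right (And.right hC))))))) (And.left (And.right (And.right hx))) (And.left (And.right (And.right hy))) (not_symm' (And.left (And.right (And.right (And.right (And.right (And.right (And.right hC)))))))) (And.left (And.right (And.right (And.right hx)))) (And.left (And.right (And.right (And.right hy))))) hy.1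
  · exact iff_of_false (by intro h1; exact hp c2 c3 c0 x y (And.left (And.right (And.right hC))) (And.left hx) h1 (Ne.symm (And.right (And.right (And.right (And.right (And.right hy)))))) (And.left hy) (not_symm' (And.left (And.right (And.right (And.right (And.right (And.right hC))))))) (And.left (And.right (And.right hx))) (And.left (And.right (And.right hy))) (not_symm' (And.left (And.right (And.right (And.right (And.right (And.right (And.right hC)))))))) (And.left (And.right (And.right (And.right hx)))) (And.left (And.right (And.right (And.right hy))))) hy.1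
  · exact iff_of_true (h (Or.inl hy)) hy.2.2.2.2.1
  · exfalso; exact hp x c0 y c3 c2 (SimpleGraph.Adj.symm (And.left hx)) (SimpleGraph.Adj.symm (And.left (And.right hy))) (SimpleGraph.Adj.symm (And.left (And.right (And.right hC)))) (And.right (And.right (And.right (And.right (And.right hy))))) (not_symm' (And.left hy)) (id fun (h : SimpleGraph.Adj G x y) => hg y c1 c0 c4 x h (SimpleGraph.Adj.symm (And.left (And.right hx))) (SimpleGraph.Adj.symm (And.left hx)) (SimpleGraph.Adj.symm (And.right (And.right (And.right (And.right hx))))) (SimpleGraph.Adj.symm (And.left (And.right (And.right (And.right (And.right hy)))))) (SimpleGraph.Adj.symm (And.left hC)) (SimpleGraph.Adj.symm (And.left (And.right (And.right (And.right (And.right hC)))))) (not_symm' (And.left (And.right (And.right (And.right hy))))) (And.left (And.right (And.right (And.right (And.right (And.right (And.right (And.right (And.right hC))))))))) (not_symm' (And.left (And.right (And.right hy))))) (not_symm' (And.left (And.right (And.right (And.right hx)))))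 (not_symm' (And.left (And.right (And.right hx)))) (And.left (And.right (And.right (And.right hy)))) (And.left (And.right (And.right (And.right (And.right (And.right (And.right hC))))))) (And.left (And.right (And.right (And.right (And.right (And.right hC))))))
  · exfalso; exact hp x c0 y c2 c3 (SimpleGraph.Adj.symm (And.left hx)) (SimpleGraph.Adj.symm (And.left (And.right (And.right (And.right (And.right hy)))))) (And.left (And.right (And.right hC))) (And.right (And.right (And.right (And.right (And.right hy))))) (not_symm' (And.left hy)) (id fun (h : SimpleGraph.Adj G x y) => hg y c4 c0 c1 x h (SimpleGraph.Adj.symm (And.right (And.right (And.right (And.right hx))))) (SimpleGraph.Adj.symm (And.left hx)) (SimpleGraph.Adj.symm (And.left (And.right hx))) (SimpleGraph.Adj.symm (And.left (And.right hy))) (And.left (And.right (And.right (And.right (And.right hC))))) (And.left hC) (not_symm' (And.left (And.right (And.right hy)))) (not_symm' (And.left (And.right (And.right (And.right (And.right (And.right (And.right (And.right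 (And.right hC)))))))))) (not_symm' (And.left (And.right (And.right (And.right hy)))))) (not_symm' (And.left (And.right (And.right hx)))) (not_symm' (And.left (And.right (And.right (And.right hx))))) (And.left (And.right (And.right hy))) (And.left (And.right (And.right (And.right (And.right (And.right hC)))))) (And.left (And.right (And.right (And.right (And.right (And.right (And.right hC)))))))
  · exact iff_of_true (h (Or.inr (Or.inl hy))) hy.2.1
  · exact iff_of_true (by by_contra h1; exact hg c2 y c0 x c1 (And.left (And.right hC)) (And.left hy) (SimpleGraph.Adj.symm (And.left hC)) (And.left (And.right hx)) (And.left (And.right hy)) (SimpleGraph.Adj.symm (And.right (And.right (And.right (And.right hy))))) (And.left hx) (not_symm' (And.left (And.right (And.right (And.right (And.right (And.right hC))))))) (not_symm' h1) (And.left (And.right (And.right hx)))) hy.2.2.2.2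
  · exact iff_of_false (by intro h1; exact hg c0 x y c2 c1 (SimpleGraph.Adj.symm (And.left hC)) (And.left (And.right hx)) (And.right (And.right (And.right (And.right hy)))) (And.left (And.right hC)) (And.left hx) h1 (SimpleGraph.Adj.symm (And.left hy)) (And.left (And.right (And.right (And.right hy)))) (not_symm' (And.left (And.right (And.right hx)))) (And.left (And.right (And.right (And.right (And.right (And.right hC))))))) hy.2.2.2.1
  · exact iff_of_false (by intro h1; exact hg c1 c0 c4 y x (SimpleGraph.Adj.symm (And.left (And.right hx))) (SimpleGraph.Adj.symm (And.left hx)) (SimpleGraph.Adj.symm (And.right (And.right (And.right (And.right hx))))) h1 (SimpleGraph.Adj.symm (And.left hC)) (SimpleGraph.Adj.symm (And.left (And.right (And.right (And.right (And.right hC)))))) (And.left (And.right hy)) (And.left (And.right (And.right (And.right (And.right (And.right (And.right (And.right (And.right hC))))))))) (And.left (And.right (And.right hy))) (And.left (And.right (And.right (And.right hy))))) hy.2.2.1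
  · exact iff_of_true (by by_contra h1; exact hg c1 x c4 y c0 (And.left hC) (And.left hx) (SimpleGraph.Adj.symm (And.left (And.right (And.right (And.right (And.right hC)))))) (And.left (And.right hy)) (And.left (And.right hx)) (SimpleGraph.Adj.symm (And.right (And.right (And.right (And.right hx))))) (And.left hy) (And.left (And.right (And.right (And.right (And.right (And.right (And.right (And.right (And.right hC))))))))) h1 (And.left (And.right (And.right hy)))) hy.2.1
  · exact iff_of_true (h (Or.inr (Or.inr hy))) hy.1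
  · exfalso; exact hp x c0 y c3 c2 (SimpleGraph.Adj.symm (And.left hx)) (SimpleGraph.Adj.symm (And.left (And.right (And.right hy)))) (SimpleGraph.Adj.symm (And.left (And.right (And.right hC)))) (ne_of_wit (And.left (And.right (And.right (And.right hy)))) (not_symm' (And.right (And.right (And.right (And.right (And.right (And.right (And.right (And.right (And.right hC))))))))))) (not_symm' (And.left (And.right hy))) (id fun (h : SimpleGraph.Adj G x y) => hg c0 x y c3 c4 (And.left (And.right (And.right (And.right (And.right hC))))) (And.right (And.right (And.right (And.right hx)))) (And.left (And.right (And.right (And.right hy)))) (SimpleGraph.Adj.symm (And.left (And.right (And.right (And.right hC))))) (And.left hx) h (SimpleGraph.Adj.symm (And.left (And.right (And.right hy)))) (And.right (And.right (And.right (And.right hy)))) (not_symm' (And.left (And.right (And.right (And.right hx))))) (And.left (And.right (And.right (And.right (And.right (And.right (And.right hC)))))))) (not_symm' (And.left (And.right (And.right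 (And.right hx))))) (not_symm' (And.left (And.right (And.right hx)))) (And.right (And.right (And.right (And.right hy)))) (And.left (And.right (And.right (And.right (And.right (And.right (And.right hC))))))) (And.left (And.right (And.right (And.right (And.right (And.right hC))))))
  · exact iff_of_true (by by_contra h1; exact hg c1 x c4 y c0 (And.left hC) (And.left hx) (SimpleGraph.Adj.symm (And.left (And.right (And.right (And.right (And.right hC)))))) (And.left (And.right (And.right (And.right hy)))) (And.left (And.right hx)) (SimpleGraph.Adj.symm (And.right (And.right (And.right (And.right hx))))) (And.left (And.right (And.right hy))) (And.left (And.right (And.right (And.right (And.right (And.right (And.right (And.right (And.right hC))))))))) h1 (And.right (And.right (And.right (And.right hy))))) hy.2.2.2.1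
  · exact iff_of_true (by by_contra h1; exact hg c4 x c1 y c0 (SimpleGraph.Adj.symm (And.left (And.right (And.right (And.right (And.right hC)))))) (And.left hx) (And.left hC) (And.left (And.right (And.right hy))) (And.right (And.right (And.right (And.right hx)))) (SimpleGraph.Adj.symm (And.left (And.right hx))) (And.left (And.right (And.right (And.right hy)))) (not_symm' (And.left (And.right (And.right (And.right (And.right (And.right (And.right (And.right (And.right hC)))))))))) h1 (And.left (And.right hy))) hy.2.2.1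
  · exfalso; exact hp x c0 y c2 c3 (SimpleGraph.Adj.symm (And.left hx)) (SimpleGraph.Adj.symm (And.left (And.right (And.right (And.right hy))))) (And.left (And.right (And.right hC))) (ne_of_wit (And.left (And.right (And.right hy))) (And.left (And.right (And.right (And.right (And.right (And.right (And.right (And.right hC))))))))) (not_symm' (And.right (And.right (And.right (And.right hy))))) (id fun (h : SimpleGraph.Adj G x y) => hg c0 x y c2 c1 (SimpleGraph.Adj.symm (And.left hC)) (And.left (And.right hx)) (And.left (And.right (And.right hy))) (And.left (And.right hC)) (And.left hx) h (SimpleGraph.Adj.symm (And.left (And.right (And.right (And.right hy))))) (And.left (And.right hy)) (not_symm' (And.left (And.right (And.right hx)))) (And.left (And.right (And.right (And.right (And.right (And.right hC))))))) (not_symm' (And.left (And.right (And.right hx)))) (not_symm' (And.left (And.right (And.right (And.right hx))))) (And.left (And.right hy)) (And.left (And.right (And.right (And.right (And.right (And.right hC))))))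 (And.left (And.right (And.right (And.right (And.right (And.right (And.right hC)))))))

theorem kclq {c0 c1 c2 c3 c4 : V} (hp : NoP23 G) (hC : C5c G c0 c1 c2 c3 c4)
    {x y : V} (hx : TK G c0 c1 c2 c3 c4 x) (hy : TK G c0 c1 c2 c3 c4 y) (hne : x ≠ y) :
    G.Adj x y := by
  by_contra h
  exact hp c2 c3 x c0 y (And.left (And.right (And.right hC))) (SimpleGraph.Adj.symm (And.left hx)) (And.left hy) hne h (And.left (And.right (And.right hx))) (not_symm' (And.left (And.right (And.right (And.right (And.right (And.right hC))))))) (And.left (And.right (And.right hy))) (And.left (And.right (And.right (And.right hx)))) (not_symm' (And.left (And.right (And.right (And.right (And.right (And.right (And.right hC)))))))) (And.left (And.right (And.right (And.right hy))))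

theorem mm {c0 c1 c2 c3 c4 : V} (hg : NoGem G) (hp : NoP23 G) (hC : C5c G c0 c1 c2 c3 c4)
    {x y z : V} (hx : TM G c0 c1 c2 c3 c4 x) (hy : TM G c0 c1 c2 c3 c4 y) (hne : x ≠ y)
    (hz : TM G c1 c2 c3 c4 c0 z) : False := by
  exact hp c4 z x c2 y (And.left (And.right (And.right (And.right hz)))) (SimpleGraph.Adj.symm (And.left (And.right (And.right hx)))) (And.left (And.right (And.right hy))) hne (id fun (h : SimpleGraph.Adj G x y) => hp x y c1 z c4 h (And.left hz) (SimpleGraph.Adj.symm (And.left (And.right (And.right (And.right hz))))) (ne_of_wit (SimpleGraph.Adj.symm (And.left (And.right hC))) (And.right (And.right (And.right (And.right (And.right (And.right (And.right (And.right (And.right hC)))))))))) (And.left (And.right (And.right (And.right (And.right (And.right (And.right (And.right (And.right hC))))))))) (not_symm' (And.left (And.right hx))) (id fun (h : SimpleGraph.Adj G x z) => hg c2 x z c4 c3 (SimpleGraph.Adj.symm (And.left (And.right (And.right hC)))) (And.left (And.right (And.right (And.right hx))))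 (And.left (And.right (And.right hz))) (And.left (And.right (And.right (And.right hC)))) (And.left (And.right (And.right hx))) h (SimpleGraph.Adj.symm (And.left (And.right (And.right (And.right hz))))) (And.left (And.right hz)) (not_symm' (And.right (And.right (And.right (And.right hx))))) (And.right (And.right (And.right (And.right (And.right (And.right (And.right (And.right (And.right hC)))))))))) (not_symm' (And.right (And.right (And.right (And.right hx))))) (not_symm' (And.left (And.right hy))) (id fun (h : SimpleGraph.Adj G y z) => hg c2 y z c4 c3 (SimpleGraph.Adj.symm (And.left (And.right (And.right hC)))) (And.left (And.right (And.right (And.right hy)))) (And.left (And.right (And.right hz))) (And.left (And.right (And.right (And.right hC)))) (And.left (And.right (And.right hy))) h (SimpleGraph.Adj.symm (And.left (And.right (And.right (And.right hz))))) (And.left (And.right hz)) (not_symm' (And.right (And.right (And.right (And.right hy))))) (And.right (And.right (And.right (And.right (And.right (And.right (And.right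 (And.right (And.right hC)))))))))) (not_symm' (And.right (And.right (And.right (And.right hy)))))) (And.right (And.right (And.right (And.right hx)))) (not_symm' (And.right (And.right (And.right (And.right (And.right (And.right (And.right (And.right (And.right hC)))))))))) (And.right (And.right (And.right (And.right hy)))) (not_symm' (id fun (h : SimpleGraph.Adj G x z) => hg c2 x z c4 c3 (SimpleGraph.Adj.symm (And.left (And.right (And.right hC)))) (And.left (And.right (And.right (And.right hx)))) (And.left (And.right (And.right hz))) (And.left (And.right (And.right (And.right hC)))) (And.left (And.right (And.right hx))) h (SimpleGraph.Adj.symm (And.left (And.right (And.right (And.right hz))))) (And.left (And.right hz)) (not_symm' (And.right (And.right (And.right (And.right hx))))) (And.right (And.right (And.right (And.right (And.right (And.right (And.right (And.right (And.right hC))))))))))) (not_symm' (And.left (And.right hz))) (not_symm' (id fun (h : SimpleGraph.Adj G y z) => hg c2 y z c4 c3 (SimpleGraph.Adj.symm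 (And.left (And.right (And.right hC)))) (And.left (And.right (And.right (And.right hy)))) (And.left (And.right (And.right hz))) (And.left (And.right (And.right (And.right hC)))) (And.left (And.right (And.right hy))) h (SimpleGraph.Adj.symm (And.left (And.right (And.right (And.right hz))))) (And.left (And.right hz)) (not_symm' (And.right (And.right (And.right (And.right hy))))) (And.right (And.right (And.right (And.right (And.right (And.right (And.right (And.right (And.right hC)))))))))))

theorem mm' {c0 c1 c2 c3 c4 : V} (hg : NoGem G) (hp : NoP23 G) (hC : C5c G c0 c1 c2 c3 c4)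
    {x y z : V} (hx : TM G c1 c2 c3 c4 c0 x) (hy : TM G c1 c2 c3 c4 c0 y) (hne : x ≠ y)
    (hz : TM G c0 c1 c2 c3 c4 z) : False := by
  exact hp c2 z x c4 y (And.left (And.right (And.right hz))) (SimpleGraph.Adj.symm (And.left (And.right (And.right (And.right hx))))) (And.left (And.right (And.right (And.right hy)))) hne (id fun (h : SimpleGraph.Adj G x y) => hp x y c0 z c2 h (And.left hz) (SimpleGraph.Adj.symm (And.left (And.right (And.right hz)))) (Ne.symm (ne_of_wit (SimpleGraph.Adj.symm (And.left (And.right (And.right hC)))) (not_symm' (And.left (And.right (And.right (And.right (And.right (And.right (And.right hC)))))))))) (And.left (And.right (And.right (And.right (And.right (And.right hC)))))) (not_symm' (And.right (And.right (And.right (And.right hx))))) (id fun (h : SimpleGraph.Adj G x z) => hg c2 z x c4 c3 (SimpleGraph.Adj.symm (And.left (And.right (And.right hC)))) (And.left (And.right (And.right (And.right hz)))) (And.left (And.right (And.right hx))) (And.left (And.right (And.right (And.right hC)))) (And.left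 (And.right (And.right hz))) (SimpleGraph.Adj.symm h) (SimpleGraph.Adj.symm (And.left (And.right (And.right (And.right hx))))) (And.left (And.right hx)) (not_symm' (And.right (And.right (And.right (And.right hz))))) (And.right (And.right (And.right (And.right (And.right (And.right (And.right (And.right (And.right hC)))))))))) (not_symm' (And.left (And.right hx))) (not_symm' (And.right (And.right (And.right (And.right hy))))) (id fun (h : SimpleGraph.Adj G y z) => hg c2 z y c4 c3 (SimpleGraph.Adj.symm (And.left (And.right (And.right hC)))) (And.left (And.right (And.right (And.right hz)))) (And.left (And.right (And.right hy))) (And.left (And.right (And.right (And.right hC)))) (And.left (And.right (And.right hz))) (SimpleGraph.Adj.symm h) (SimpleGraph.Adj.symm (And.left (And.right (And.right (And.right hy))))) (And.left (And.right hy)) (not_symm' (And.right (And.right (And.right (And.right hz))))) (And.right (And.right (And.right (And.right (And.right (And.right (And.right (And.right (And.right hC)))))))))) (not_symm'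 (And.left (And.right hy)))) (And.left (And.right hx)) (And.right (And.right (And.right (And.right (And.right (And.right (And.right (And.right (And.right hC))))))))) (And.left (And.right hy)) (not_symm' (id fun (h : SimpleGraph.Adj G x z) => hg c2 z x c4 c3 (SimpleGraph.Adj.symm (And.left (And.right (And.right hC)))) (And.left (And.right (And.right (And.right hz)))) (And.left (And.right (And.right hx))) (And.left (And.right (And.right (And.right hC)))) (And.left (And.right (And.right hz))) (SimpleGraph.Adj.symm h) (SimpleGraph.Adj.symm (And.left (And.right (And.right (And.right hx))))) (And.left (And.right hx)) (not_symm' (And.right (And.right (And.right (And.right hz))))) (And.right (And.right (And.right (And.right (And.right (And.right (And.right (And.right (And.right hC))))))))))) (not_symm' (And.right (And.right (And.right (And.right hz))))) (not_symm' (id fun (h : SimpleGraph.Adj G y z) => hg c2 z y c4 c3 (SimpleGraph.Adj.symm (And.left (And.right (And.right hC)))) (And.left (And.right (And.right (And.right hz))))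 (And.left (And.right (And.right hy))) (And.left (And.right (And.right (And.right hC)))) (And.left (And.right (And.right hz))) (SimpleGraph.Adj.symm h) (SimpleGraph.Adj.symm (And.left (And.right (And.right (And.right hy))))) (And.left (And.right hy)) (not_symm' (And.right (And.right (And.right (And.right hz))))) (And.right (And.right (And.right (And.right (And.right (And.right (And.right (And.right (And.right hC)))))))))))


/-- all types -/
abbrev Fu (G : SimpleGraph V) (c0 c1 c2 c3 c4 y : V) : Prop :=
  TN G c0 c1 c2 c3 c4 y ∨ TD G c0 c1 c2 c3 c4 y ∨ TD G c1 c2 c3 c4 c0 y ∨ TD G c2 c3 c4 c0 c1 y ∨ TD G c3 c4 c0 c1 c2 y ∨ TD G c4 c0 c1 c2 c3 y ∨ TK G c0 c1 c2 c3 c4 y ∨ TK G c1 c2 c3 c4 c0 y ∨ TK G c2 c3 c4 c0 c1 y ∨ TK G c3 c4 c0 c1 c2 y ∨ TK G c4 c0 c1 c2 c3 y ∨ TM G c0 c1 c2 c3 c4 y ∨ TM G c1 c2 c3 c4 c0 y ∨ TM G c2 c3 c4 c0 c1 y ∨ TM G c3 c4 c0 c1 c2 y ∨ TM G c4 c0 c1 c2 c3 y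

theorem rotF {c0 c1 c2 c3 c4 y : V} (h : Fu G c0 c1 c2 c3 c4 y) : Fu G c1 c2 c3 c4 c0 y := by
  rcases h with h | h | h | h | h | h | h | h | h | h | h | h | h | h | h | h
  · exact Or.inl ⟨h.2.1, h.2.2.1, h.2.2.2.1, h.2.2.2.2, h.1⟩
  all_goals
    repeat' first
      | exact h
      | exact Or.inl h
      | apply Or.inr

theorem drop {c0 c1 c2 c3 c4 y : V} (h : Fu G c0 c1 c2 c3 c4 y) (hn : ¬ TK G c0 c1 c2 c3 c4 y) :
    Ty G c0 c1 c2 c3 c4 y := by
  rcases h with h | h | h | h | h | h | h | h | h | h | h | h | h | h | h | h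
  case inr.inr.inr.inr.inr.inr.inl => exact absurd h hn
  all_goals
    repeat' first
      | exact h
      | exact Or.inl h
      | apply Or.inr

/-- the label of a vertex -/
noncomputable def lab (G : SimpleGraph V) (c0 c1 c2 c3 c4 x : V) :
    Bool × Bool × Bool × Bool × Bool :=
  (decide (G.Adj c0 x), decide (G.Adj c1 x), decide (G.Adj c2 x), decide (G.Adj c3 x),
    decide (G.Adj c4 x))

def F (l l' : Bool × Bool × Bool × Bool × Bool) : Prop :=
  (l = (true, true, false, false, true) ∧ l'.1 = true) ∨
  (l = (true, true, true, false, false) ∧ l'.2.1 = true) ∨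
  (l = (false, true, true, true, false) ∧ l'.2.2.1 = true) ∨
  (l = (false, false, true, true, true) ∧ l'.2.2.2.1 = true) ∨
  (l = (true, false, false, true, true) ∧ l'.2.2.2.2 = true)

theorem lab0 {c0 c1 c2 c3 c4 x : V} (h : TK G c0 c1 c2 c3 c4 x) :
    lab G c0 c1 c2 c3 c4 x = (true, true, false, false, true) := by
  obtain ⟨h1, h2, h3, h4, h5⟩ := h
  simp [lab, h1, h2, h3, h4, h5]

theorem unl0 {c0 c1 c2 c3 c4 x : V} (h : lab G c0 c1 c2 c3 c4 x = (true, true, false, false, true)) :
    TK G c0 c1 c2 c3 c4 x := by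
  simp only [lab, Prod.mk.injEq, decide_eq_true_eq, decide_eq_false_iff_not] at h
  exact ⟨h.1, h.2.1, h.2.2.1, h.2.2.2.1, h.2.2.2.2⟩

theorem lab1 {c0 c1 c2 c3 c4 x : V} (h : TK G c1 c2 c3 c4 c0 x) :
    lab G c0 c1 c2 c3 c4 x = (true, true, true, false, false) := by
  obtain ⟨h1, h2, h3, h4, h5⟩ := h
  simp [lab, h1, h2, h3, h4, h5]

theorem unl1 {c0 c1 c2 c3 c4 x : V} (h : lab G c0 c1 c2 c3 c4 x = (true, true, true, false, false)) :
    TK G c1 c2 c3 c4 c0 x := by
  simp only [lab, Prod.mk.injEq, decide_eq_true_eq, decide_eq_false_iff_not] at h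
  exact ⟨h.2.1, h.2.2.1, h.2.2.2.1, h.2.2.2.2, h.1⟩

theorem lab2 {c0 c1 c2 c3 c4 x : V} (h : TK G c2 c3 c4 c0 c1 x) :
    lab G c0 c1 c2 c3 c4 x = (false, true, true, true, false) := by
  obtain ⟨h1, h2, h3, h4, h5⟩ := h
  simp [lab, h1, h2, h3, h4, h5]

theorem unl2 {c0 c1 c2 c3 c4 x : V} (h : lab G c0 c1 c2 c3 c4 x = (false, true, true, true, false)) :
    TK G c2 c3 c4 c0 c1 x := by
  simp only [lab, Prod.mk.injEq, decide_eq_true_eq, decide_eq_false_iff_not] at h
  exact ⟨h.2.2.1, h.2.2.2.1, h.2.2.2.2, h.1, h.2.1⟩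

theorem lab3 {c0 c1 c2 c3 c4 x : V} (h : TK G c3 c4 c0 c1 c2 x) :
    lab G c0 c1 c2 c3 c4 x = (false, false, true, true, true) := by
  obtain ⟨h1, h2, h3, h4, h5⟩ := h
  simp [lab, h1, h2, h3, h4, h5]

theorem unl3 {c0 c1 c2 c3 c4 x : V} (h : lab G c0 c1 c2 c3 c4 x = (false, false, true, true, true)) :
    TK G c3 c4 c0 c1 c2 x := by
  simp only [lab, Prod.mk.injEq, decide_eq_true_eq, decide_eq_false_iff_not] at h
  exact ⟨h.2.2.2.1, h.2.2.2.2, h.1, h.2.1, h.2.2.1⟩

theorem lab4 {c0 c1 c2 c3 c4 x : V} (h : TK G c4 c0 c1 c2 c3 x) :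
    lab G c0 c1 c2 c3 c4 x = (true, false, false, true, true) := by
  obtain ⟨h1, h2, h3, h4, h5⟩ := h
  simp [lab, h1, h2, h3, h4, h5]

theorem unl4 {c0 c1 c2 c3 c4 x : V} (h : lab G c0 c1 c2 c3 c4 x = (true, false, false, true, true)) :
    TK G c4 c0 c1 c2 c3 x := by
  simp only [lab, Prod.mk.injEq, decide_eq_true_eq, decide_eq_false_iff_not] at h
  exact ⟨h.2.2.2.2, h.1, h.2.1, h.2.2.1, h.2.2.2.1⟩


theorem two {M M' : Finset V} (h : ∀ x ∈ M, ∀ y ∈ M, x ≠ y → ∀ z ∈ M', False) (h2 : 2 ≤ M.card) :
    ¬ 2 ≤ M'.card := by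
  intro h3
  obtain ⟨x, hx, y, hy, hne⟩ := Finset.one_lt_card.1 (by omega : 1 < M.card)
  obtain ⟨z, hz, _⟩ := Finset.one_lt_card.1 (by omega : 1 < M'.card)
  exact h x hx y hy hne z hz

theorem mcard {c0 c1 c2 c3 c4 : V} (hg : NoGem G) (hp : NoP23 G) (hC : C5c G c0 c1 c2 c3 c4)
    (R : Finset V) (h : 2 ≤ (R.filter (fun x => TM G c0 c1 c2 c3 c4 x)).card) :
    ¬ 2 ≤ (R.filter (fun x => TM G c1 c2 c3 c4 c0 x)).card := by
  refine two ?_ h
  intro x hx y hy hne z hz
  rw [Finset.mem_filter] at hx hy hz
  exact mm hg hp hC hx.2 hy.2 hne hz.2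

/-- the part without the `K_i` -/
theorem part (hNDM : NDMStmt) : ∃ K : ℕ, ∀ (V : Type) (G : SimpleGraph V), NoGem G → NoP23 G →
    ∀ (c0 c1 c2 c3 c4 : V), C5c G c0 c1 c2 c3 c4 → ∀ (R : Finset V),
    (∀ x ∈ R, TN G c0 c1 c2 c3 c4 x ∨
      TD G c0 c1 c2 c3 c4 x ∨ TD G c1 c2 c3 c4 c0 x ∨ TD G c2 c3 c4 c0 c1 x ∨
      TD G c3 c4 c0 c1 c2 x ∨ TD G c4 c0 c1 c2 c3 x ∨
      TM G c0 c1 c2 c3 c4 x ∨ TM G c1 c2 c3 c4 c0 x ∨ TM G c2 c3 c4 c0 c1 x ∨
      TM G c3 c4 c0 c1 c2 x ∨ TM G c4 c0 c1 c2 c3 x) → BD G K R := by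
  obtain ⟨K, hK⟩ := hNDM
  refine ⟨(K + 1) * 2 ^ 5, ?_⟩
  intro V G hg hp c0 c1 c2 c3 c4 hC R hR
  have hC1 := rot hC
  have hC2 := rot hC1
  have hC3 := rot hC2
  have hC4 := rot hC3
  have n0 := mcard hg hp hC R
  have n1 := mcard hg hp hC1 R
  have n2 := mcard hg hp hC2 R
  have n3 := mcard hg hp hC3 R
  have n4 := mcard hg hp hC4 R
  set M0 : Finset V := R.filter (fun x => TM G c0 c1 c2 c3 c4 x) with hM0
  set M1 : Finset V := R.filter (fun x => TM G c1 c2 c3 c4 c0 x) with hM1
  set M2 : Finset V := R.filter (fun x => TM G c2 c3 c4 c0 c1 x) with hM2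
  set M3 : Finset V := R.filter (fun x => TM G c3 c4 c0 c1 c2 x) with hM3
  set M4 : Finset V := R.filter (fun x => TM G c4 c0 c1 c2 c3 x) with hM4
  set X : Finset V := (if 2 ≤ M0.card then ∅ else M0) ∪ (if 2 ≤ M1.card then ∅ else M1) ∪
    (if 2 ≤ M2.card then ∅ else M2) ∪ (if 2 ≤ M3.card then ∅ else M3) ∪
    (if 2 ≤ M4.card then ∅ else M4) with hX
  have hsm : ∀ M : Finset V, (if 2 ≤ M.card then (∅ : Finset V) else M).card ≤ 1 := by
    intro M
    split_ifs with h
    · simp
    · omega
  have hXc : X.card ≤ 5 := by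
    have e0 := hsm M0
    have e1 := hsm M1
    have e2 := hsm M2
    have e3 := hsm M3
    have e4 := hsm M4
    rw [hX]
    refine (Finset.card_union_le _ _).trans ?_
    refine (Nat.add_le_add_right (Finset.card_union_le _ _) _).trans ?_
    refine (Nat.add_le_add_right (Nat.add_le_add_right (Finset.card_union_le _ _) _) _).trans ?_
    refine (Nat.add_le_add_right (Nat.add_le_add_right (Nat.add_le_add_right
      (Finset.card_union_le _ _) _) _) _).trans ?_
    omega
  have hV : ∀ x ∈ R \ X, TN G c0 c1 c2 c3 c4 x ∨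
      TD G c0 c1 c2 c3 c4 x ∨ TD G c1 c2 c3 c4 c0 x ∨ TD G c2 c3 c4 c0 c1 x ∨
      TD G c3 c4 c0 c1 c2 x ∨ TD G c4 c0 c1 c2 c3 x ∨
      (TM G c0 c1 c2 c3 c4 x ∧ 2 ≤ M0.card) ∨ (TM G c1 c2 c3 c4 c0 x ∧ 2 ≤ M1.card) ∨
      (TM G c2 c3 c4 c0 c1 x ∧ 2 ≤ M2.card) ∨
      (TM G c3 c4 c0 c1 c2 x ∧ 2 ≤ M3.card) ∨ (TM G c4 c0 c1 c2 c3 x ∧ 2 ≤ M4.card) := by
    intro x hx
    rw [Finset.mem_sdiff] at hx
    obtain ⟨hx, hnx⟩ := hx
    rw [hX] at hnx
    simp only [Finset.mem_union, not_or] at hnx
    obtain ⟨⟨⟨⟨x0, x1⟩, x2⟩, x3⟩, x4⟩ := hnx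
    have hcon : ∀ M : Finset V, x ∈ M → x ∉ (if 2 ≤ M.card then (∅ : Finset V) else M) →
        2 ≤ M.card := by
      intro M hm hn
      by_contra h
      rw [if_neg h] at hn
      exact hn hm
    rcases hR x hx with h | h | h | h | h | h | h | h | h | h | h
    · exact Or.inl h
    · exact Or.inr (Or.inl h)
    · exact Or.inr (Or.inr (Or.inl h))
    · exact Or.inr (Or.inr (Or.inr (Or.inl h)))
    · exact Or.inr (Or.inr (Or.inr (Or.inr (Or.inl h))))
    · exact Or.inr (Or.inr (Or.inr (Or.inr (Or.inr (Or.inl h)))))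
    · have h' := hcon M0 (Finset.mem_filter.2 ⟨hx, h⟩) x0
      exact Or.inr (Or.inr (Or.inr (Or.inr (Or.inr (Or.inr (Or.inl ⟨h, h'⟩))))))
    · have h' := hcon M1 (Finset.mem_filter.2 ⟨hx, h⟩) x1
      exact Or.inr (Or.inr (Or.inr (Or.inr (Or.inr (Or.inr (Or.inr (Or.inl ⟨h, h'⟩)))))))
    · have h' := hcon M2 (Finset.mem_filter.2 ⟨hx, h⟩) x2
      exact Or.inr (Or.inr (Or.inr (Or.inr (Or.inr (Or.inr (Or.inr (Or.inr (Or.inl ⟨h, h'⟩))))))))
    · have h' := hcon M3 (Finset.mem_filter.2 ⟨hx, h⟩) x3
      exact Or.inr (Or.inr (Or.inr (Or.inr (Or.inr (Or.inr (Or.inr (Or.inr (Or.inr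
        (Or.inl ⟨h, h'⟩)))))))))
    · have h' := hcon M4 (Finset.mem_filter.2 ⟨hx, h⟩) x4
      exact Or.inr (Or.inr (Or.inr (Or.inr (Or.inr (Or.inr (Or.inr (Or.inr (Or.inr
        (Or.inr ⟨h, h'⟩)))))))))
  refine BD.of_sdiff (c := 5) (X := X) ?_ hXc
  have hcase : (¬ 2 ≤ M1.card ∧ ¬ 2 ≤ M3.card ∧ ¬ 2 ≤ M4.card) ∨
      (¬ 2 ≤ M2.card ∧ ¬ 2 ≤ M4.card ∧ ¬ 2 ≤ M0.card) ∨
      (¬ 2 ≤ M3.card ∧ ¬ 2 ≤ M0.card ∧ ¬ 2 ≤ M1.card) ∨
      (¬ 2 ≤ M4.card ∧ ¬ 2 ≤ M1.card ∧ ¬ 2 ≤ M2.card) ∨
      (¬ 2 ≤ M0.card ∧ ¬ 2 ≤ M2.card ∧ ¬ 2 ≤ M3.card) := by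
    clear_value M0 M1 M2 M3 M4
    clear hV hXc hsm hX hM0 hM1 hM2 hM3 hM4 hR hC hC1 hC2 hC3 hC4
    omega
  rcases hcase with hm | hm | hm | hm | hm
  · refine hK V G hg hp c0 c1 c2 c3 c4 hC (R \ X) ?_
    intro x hx
    rcases hV x hx with h | h | h | h | h | h | h | h | h | h | h
    · exact Or.inl h
    · exact Or.inr (Or.inl h)
    · exact Or.inr (Or.inr (Or.inl h))
    · exact Or.inr (Or.inr (Or.inr (Or.inl h)))
    · exact Or.inr (Or.inr (Or.inr (Or.inr (Or.inl h))))
    · exact Or.inr (Or.inr (Or.inr (Or.inr (Or.inr (Or.inl h)))))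
    · exact Or.inr (Or.inr (Or.inr (Or.inr (Or.inr (Or.inr (Or.inl h.1))))))
    · exact absurd h.2 hm.1
    · exact Or.inr (Or.inr (Or.inr (Or.inr (Or.inr (Or.inr (Or.inr h.1))))))
    · exact absurd h.2 hm.2.1
    · exact absurd h.2 hm.2.2
  · refine hK V G hg hp c1 c2 c3 c4 c0 hC1 (R \ X) ?_
    intro x hx
    rcases hV x hx with h | h | h | h | h | h | h | h | h | h | h
    · exact Or.inl ⟨h.2.1, h.2.2.1, h.2.2.2.1, h.2.2.2.2, h.1⟩
    · exact Or.inr (Or.inr (Or.inr (Or.inr (Or.inr (Or.inl h)))))
    · exact Or.inr (Or.inl h)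
    · exact Or.inr (Or.inr (Or.inl h))
    · exact Or.inr (Or.inr (Or.inr (Or.inl h)))
    · exact Or.inr (Or.inr (Or.inr (Or.inr (Or.inl h))))
    · exact absurd h.2 hm.2.2
    · exact Or.inr (Or.inr (Or.inr (Or.inr (Or.inr (Or.inr (Or.inl h.1))))))
    · exact absurd h.2 hm.1
    · exact Or.inr (Or.inr (Or.inr (Or.inr (Or.inr (Or.inr (Or.inr h.1))))))
    · exact absurd h.2 hm.2.1
  · refine hK V G hg hp c2 c3 c4 c0 c1 hC2 (R \ X) ?_
    intro x hx
    rcases hV x hx with h | h | h | h | h | h | h | h | h | h | h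
    · exact Or.inl ⟨h.2.2.1, h.2.2.2.1, h.2.2.2.2, h.1, h.2.1⟩
    · exact Or.inr (Or.inr (Or.inr (Or.inr (Or.inl h))))
    · exact Or.inr (Or.inr (Or.inr (Or.inr (Or.inr (Or.inl h)))))
    · exact Or.inr (Or.inl h)
    · exact Or.inr (Or.inr (Or.inl h))
    · exact Or.inr (Or.inr (Or.inr (Or.inl h)))
    · exact absurd h.2 hm.2.1
    · exact absurd h.2 hm.2.2
    · exact Or.inr (Or.inr (Or.inr (Or.inr (Or.inr (Or.inr (Or.inl h.1))))))
    · exact absurd h.2 hm.1
    · exact Or.inr (Or.inr (Or.inr (Or.inr (Or.inr (Or.inr (Or.inr h.1))))))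
  · refine hK V G hg hp c3 c4 c0 c1 c2 hC3 (R \ X) ?_
    intro x hx
    rcases hV x hx with h | h | h | h | h | h | h | h | h | h | h
    · exact Or.inl ⟨h.2.2.2.1, h.2.2.2.2, h.1, h.2.1, h.2.2.1⟩
    · exact Or.inr (Or.inr (Or.inr (Or.inl h)))
    · exact Or.inr (Or.inr (Or.inr (Or.inr (Or.inl h))))
    · exact Or.inr (Or.inr (Or.inr (Or.inr (Or.inr (Or.inl h)))))
    · exact Or.inr (Or.inl h)
    · exact Or.inr (Or.inr (Or.inl h))
    · exact Or.inr (Or.inr (Or.inr (Or.inr (Or.inr (Or.inr (Or.inr h.1))))))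
    · exact absurd h.2 hm.2.1
    · exact absurd h.2 hm.2.2
    · exact Or.inr (Or.inr (Or.inr (Or.inr (Or.inr (Or.inr (Or.inl h.1))))))
    · exact absurd h.2 hm.1
  · refine hK V G hg hp c4 c0 c1 c2 c3 hC4 (R \ X) ?_
    intro x hx
    rcases hV x hx with h | h | h | h | h | h | h | h | h | h | h
    · exact Or.inl ⟨h.2.2.2.2, h.1, h.2.1, h.2.2.1, h.2.2.2.1⟩
    · exact Or.inr (Or.inr (Or.inl h))
    · exact Or.inr (Or.inr (Or.inr (Or.inl h)))
    · exact Or.inr (Or.inr (Or.inr (Or.inr (Or.inl h))))
    · exact Or.inr (Or.inr (Or.inr (Or.inr (Or.inr (Or.inl h)))))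
    · exact Or.inr (Or.inl h)
    · exact absurd h.2 hm.1
    · exact Or.inr (Or.inr (Or.inr (Or.inr (Or.inr (Or.inr (Or.inr h.1))))))
    · exact absurd h.2 hm.2.1
    · exact absurd h.2 hm.2.2
    · exact Or.inr (Or.inr (Or.inr (Or.inr (Or.inr (Or.inr (Or.inl h.1))))))

theorem c5a_stmt (hA : AttachStmt) (hNDM : NDMStmt) : C5aStmt := by
  obtain ⟨B, hB⟩ := hA
  obtain ⟨K, hK⟩ := part hNDM
  refine ⟨B K 1 (Fintype.card (Bool × Bool × Bool × Bool × Bool)), ?_⟩
  intro V G hg hp c0 c1 c2 c3 c4 hC R hR h0 h1 h2 h3 h4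
  have hC1 := rot hC
  have hC2 := rot hC1
  have hC3 := rot hC2
  have hC4 := rot hC3
  have hR1 : ∀ x ∈ R, Fu G c1 c2 c3 c4 c0 x := fun x hx => rotF (hR x hx)
  have hR2 : ∀ x ∈ R, Fu G c2 c3 c4 c0 c1 x := fun x hx => rotF (hR1 x hx)
  have hR3 : ∀ x ∈ R, Fu G c3 c4 c0 c1 c2 x := fun x hx => rotF (hR2 x hx)
  have hR4 : ∀ x ∈ R, Fu G c4 c0 c1 c2 c3 x := fun x hx => rotF (hR3 x hx)
  have A0 : ∀ x ∈ R, ∀ y ∈ R, TK G c0 c1 c2 c3 c4 x → ¬ TK G c0 c1 c2 c3 c4 y →
      (G.Adj x y ↔ G.Adj c0 y) :=
    fun x hx y hy h n => key hg hp hC h (drop (hR y hy) n) (h0 x hx y hy h)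
  have A1 : ∀ x ∈ R, ∀ y ∈ R, TK G c1 c2 c3 c4 c0 x → ¬ TK G c1 c2 c3 c4 c0 y →
      (G.Adj x y ↔ G.Adj c1 y) :=
    fun x hx y hy h n => key hg hp hC1 h (drop (hR1 y hy) n) (h1 x hx y hy h)
  have A2 : ∀ x ∈ R, ∀ y ∈ R, TK G c2 c3 c4 c0 c1 x → ¬ TK G c2 c3 c4 c0 c1 y →
      (G.Adj x y ↔ G.Adj c2 y) :=
    fun x hx y hy h n => key hg hp hC2 h (drop (hR2 y hy) n) (h2 x hx y hy h)
  have A3 : ∀ x ∈ R, ∀ y ∈ R, TK G c3 c4 c0 c1 c2 x → ¬ TK G c3 c4 c0 c1 c2 y →
      (G.Adj x y ↔ G.Adj c3 y) :=
    fun x hx y hy h n => key hg hp hC3 h (drop (hR3 y hy) n) (h3 x hx y hy h)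
  have A4 : ∀ x ∈ R, ∀ y ∈ R, TK G c4 c0 c1 c2 c3 x → ¬ TK G c4 c0 c1 c2 c3 y →
      (G.Adj x y ↔ G.Adj c4 y) :=
    fun x hx y hy h n => key hg hp hC4 h (drop (hR4 y hy) n) (h4 x hx y hy h)
  set KK : V → Prop := fun x => TK G c0 c1 c2 c3 c4 x ∨ TK G c1 c2 c3 c4 c0 x ∨
    TK G c2 c3 c4 c0 c1 x ∨ TK G c3 c4 c0 c1 c2 x ∨ TK G c4 c0 c1 c2 c3 x with hKK
  set b : V → V ⊕ (Bool × Bool × Bool × Bool × Bool) := fun x =>
    if KK x then Sum.inr (lab G c0 c1 c2 c3 c4 x) else Sum.inl x with hb
  have hb1 : ∀ x, KK x → b x = Sum.inr (lab G c0 c1 c2 c3 c4 x) := fun x hx => if_pos hx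
  have hb2 : ∀ x, ¬ KK x → b x = Sum.inl x := fun x hx => if_neg hx
  have hRe : R.filter (fun x => ¬ KK x) ∪ R.filter (fun x => KK x) = R := by
    ext x
    simp only [Finset.mem_union, Finset.mem_filter]
    tauto
  have main := hB V G (Bool × Bool × Bool × Bool × Bool) (V ⊕ (Bool × Bool × Bool × Bool × Bool))
    K 1 (R.filter (fun x => ¬ KK x)) (R.filter (fun x => KK x)) (lab G c0 c1 c2 c3 c4) F b
    ?_ ?_ ?_ ?_
  · rwa [hRe] at main
  · apply hK V G hg hp c0 c1 c2 c3 c4 hC
    intro x hx
    rw [Finset.mem_filter] at hx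
    obtain ⟨hx, hn⟩ := hx
    rcases hR x hx with h | h | h | h | h | h | h | h | h | h | h | h | h | h | h | h
    · exact Or.inl h
    · exact Or.inr (Or.inl h)
    · exact Or.inr (Or.inr (Or.inl h))
    · exact Or.inr (Or.inr (Or.inr (Or.inl h)))
    · exact Or.inr (Or.inr (Or.inr (Or.inr (Or.inl h))))
    · exact Or.inr (Or.inr (Or.inr (Or.inr (Or.inr (Or.inl h)))))
    · exact absurd (Or.inl h) hn
    · exact absurd (Or.inr (Or.inl h)) hn
    · exact absurd (Or.inr (Or.inr (Or.inl h))) hn
    · exact absurd (Or.inr (Or.inr (Or.inr (Or.inl h)))) hn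
    · exact absurd (Or.inr (Or.inr (Or.inr (Or.inr h)))) hn
    · exact Or.inr (Or.inr (Or.inr (Or.inr (Or.inr (Or.inr (Or.inl h))))))
    · exact Or.inr (Or.inr (Or.inr (Or.inr (Or.inr (Or.inr (Or.inr (Or.inl h)))))))
    · exact Or.inr (Or.inr (Or.inr (Or.inr (Or.inr (Or.inr (Or.inr (Or.inr (Or.inl h))))))))
    · exact Or.inr (Or.inr (Or.inr (Or.inr (Or.inr (Or.inr (Or.inr (Or.inr (Or.inr
        (Or.inl h)))))))))
    · exact Or.inr (Or.inr (Or.inr (Or.inr (Or.inr (Or.inr (Or.inr (Or.inr (Or.inr
        (Or.inr h)))))))))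
  · intro x hx y hy hxy
    rw [Finset.mem_filter] at hx hy
    rw [hb2 x hx.2, hb2 y hy.2] at hxy
    exact Sum.inl.inj hxy
  · intro x _
    by_cases hx : KK x
    · apply BD.clq
      intro y hy z hz hne
      simp only [Finset.mem_filter] at hy hz
      rw [hb1 x hx] at hy hz
      have e : ∀ w, b w = Sum.inr (lab G c0 c1 c2 c3 c4 x) →
          lab G c0 c1 c2 c3 c4 w = lab G c0 c1 c2 c3 c4 x := by
        intro w hw
        by_cases hk : KK w
        · rw [hb1 w hk] at hw
          exact Sum.inr.inj hw
        · rw [hb2 w hk] at hw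
          cases hw
      have ey := e y hy.2
      have ez := e z hz.2
      rcases hx with h | h | h | h | h
      · rw [lab0 h] at ey ez
        exact kclq hp hC (unl0 ey) (unl0 ez) hne
      · rw [lab1 h] at ey ez
        exact kclq hp hC1 (unl1 ey) (unl1 ez) hne
      · rw [lab2 h] at ey ez
        exact kclq hp hC2 (unl2 ey) (unl2 ez) hne
      · rw [lab3 h] at ey ez
        exact kclq hp hC3 (unl3 ey) (unl3 ez) hne
      · rw [lab4 h] at ey ez
        exact kclq hp hC4 (unl4 ey) (unl4 ez) hne
    · refine BD.sub (BD.singleton (x := x)) ?_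
      intro y hy
      simp only [Finset.mem_filter] at hy
      rw [hb2 x hx] at hy
      rw [Finset.mem_singleton]
      by_cases hk : KK y
      · rw [hb1 y hk] at hy
        cases hy.2
      · rw [hb2 y hk] at hy
        exact Sum.inl.inj hy.2
  · intro x hx y hy hne
    rw [hRe] at hy
    rw [Finset.mem_filter] at hx
    obtain ⟨hx, hk⟩ := hx
    have hbn : lab G c0 c1 c2 c3 c4 y ≠ lab G c0 c1 c2 c3 c4 x ∨ ¬ KK y := by
      by_cases hky : KK y
      · left
        intro he
        apply hne
        rw [hb1 x hk, hb1 y hky, he]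
      · exact Or.inr hky
    rcases hk with h | h | h | h | h
    · have hn : ¬ TK G c0 c1 c2 c3 c4 y := by
        intro h'
        rcases hbn with hbn | hbn
        · exact hbn ((lab0 h').trans (lab0 h).symm)
        · exact hbn (Or.inl h')
      rw [A0 x hx y hy h hn, lab0 h]
      simp [F, lab]
    · have hn : ¬ TK G c1 c2 c3 c4 c0 y := by
        intro h'
        rcases hbn with hbn | hbn
        · exact hbn ((lab1 h').trans (lab1 h).symm)
        · exact hbn (Or.inr (Or.inl h'))
      rw [A1 x hx y hy h hn, lab1 h]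
      simp [F, lab]
    · have hn : ¬ TK G c2 c3 c4 c0 c1 y := by
        intro h'
        rcases hbn with hbn | hbn
        · exact hbn ((lab2 h').trans (lab2 h).symm)
        · exact hbn (Or.inr (Or.inr (Or.inl h')))
      rw [A2 x hx y hy h hn, lab2 h]
      simp [F, lab]
    · have hn : ¬ TK G c3 c4 c0 c1 c2 y := by
        intro h'
        rcases hbn with hbn | hbn
        · exact hbn ((lab3 h').trans (lab3 h).symm)
        · exact hbn (Or.inr (Or.inr (Or.inr (Or.inl h'))))
      rw [A3 x hx y hy h hn, lab3 h]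
      simp [F, lab]
    · have hn : ¬ TK G c4 c0 c1 c2 c3 y := by
        intro h'
        rcases hbn with hbn | hbn
        · exact hbn ((lab4 h').trans (lab4 h).symm)
        · exact hbn (Or.inr (Or.inr (Or.inr (Or.inr h'))))
      rw [A4 x hx y hy h hn, lab4 h]
      simp [F, lab]

end Pool.Agent.H201R2.T19a
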