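import Pool.Agent.H175F.Stmts2

/-! Facts for `NDMStmt`. -/

namespace Pool.Agent.H459R3

open Finset Classical
open Pool.Agent.H175G

variable {V : Type} {G : SimpleGraph V} {c0 c1 c2 c3 c4 : V}

/-- each `d` misses at most one `m` -/
theorem miss1 (hg : NoGem G) (hp : NoP23 G) (hc : C5c G c0 c1 c2 c3 c4) {d m m' : V}
    (hd : TD G c0 c1 c2 c3 c4 d) (hm : TM G c0 c1 c2 c3 c4 m) (hm' : TM G c0 c1 c2 c3 c4 m')
    (hl : ¬ G.Adj d m) (hne : m ≠ m') : G.Adj d m' := by
  by_contra h
  exact hp c1 d m c3 m' (And.left (And.right hd)) (SimpleGraph.Adj.symm (And.left (And.right (And.right (And.right hm))))) (And.left (And.right (And.right (And.right hm')))) hne (id fun (h_1 : SimpleGraph.Adj G m m') => hp m m' c1 d c4 h_1 (And.left (And.right hd)) (SimpleGraph.Adj.symm (And.left (And.right (And.right (And.right (And.right hd)))))) (ne_of_wit (SimpleGraph.Adj.symm (And.left (And.right hc))) (And.right (And.right (And.right (And.right (And.right (And.right (And.right (And.right (And.right hc)))))))))) (And.left (And.right (And.right (And.right (And.right (And.right (And.right (And.right (And.right hc))))))))) (not_symm' (And.left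 (And.right hm))) (not_symm' hl) (not_symm' (And.right (And.right (And.right (And.right hm))))) (not_symm' (And.left (And.right hm'))) (not_symm' h) (not_symm' (And.right (And.right (And.right (And.right hm')))))) (And.left (And.right hm)) (And.left (And.right (And.right (And.right (And.right (And.right (And.right (And.right hc)))))))) (And.left (And.right hm')) hl (not_symm' (And.left (And.right (And.right (And.right hd))))) h

/-- each `m` misses at most one `d` -/
theorem miss2 (hg : NoGem G) (hp : NoP23 G) (hc : C5c G c0 c1 c2 c3 c4) {d d' m : V}
    (hd : TD G c0 c1 c2 c3 c4 d) (hd' : TD G c0 c1 c2 c3 c4 d') (hm : TM G c0 c1 c2 c3 c4 m)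
    (hl : ¬ G.Adj d m) (hne : d ≠ d') : G.Adj d' m := by
  by_contra h
  exact hp c3 m d c1 d' (And.left (And.right (And.right (And.right hm)))) (SimpleGraph.Adj.symm (And.left (And.right hd))) (And.left (And.right hd')) hne (id fun (h_1 : SimpleGraph.Adj G d d') => hp d d' c0 m c2 h_1 (And.left hm) (SimpleGraph.Adj.symm (And.left (And.right (And.right hm)))) (Ne.symm (ne_of_wit (SimpleGraph.Adj.symm (And.left (And.right (And.right hc)))) (not_symm' (And.left (And.right (And.right (And.right (And.right (And.right (And.right hc)))))))))) (And.left (And.right (And.right (And.right (And.right (And.right hc)))))) (not_symm' (And.left hd)) hl (not_symm' (And.left (And.right (And.right hd)))) (not_symm' (And.left hd')) h (not_symm' (And.left (And.right (And.right hd'))))) (And.left (And.right (And.right (And.right hd)))) (not_symm' (And.left (And.right (And.right (And.right (And.right (And.right (And.right (And.right hc))))))))) (And.left (And.right (And.right (And.right hd')))) (not_symm' hl) (not_symm' (And.left (And.right hm))) (not_symm' h)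

/-- `D₁ = ∅` -/
theorem noD1 (hg : NoGem G) (hp : NoP23 G) (hc : C5c G c0 c1 c2 c3 c4) {d m m' x : V}
    (hd : TD G c0 c1 c2 c3 c4 d) (hm : TM G c0 c1 c2 c3 c4 m) (hm' : TM G c0 c1 c2 c3 c4 m')
    (hl : ¬ G.Adj d m) (hne : m ≠ m') (hx : TD G c1 c2 c3 c4 c0 x) : False := by
  have := miss1 hg hp hc hd hm hm' hl hne
  exact hp d c4 x c2 m (SimpleGraph.Adj.symm (And.left (And.right (And.right (And.right (And.right hd)))))) (SimpleGraph.Adj.symm (And.left (And.right hx))) (And.left (And.right (And.right hm))) (Ne.symm (ne_of_wit (And.left (And.right (And.right (And.right hm)))) (And.left (And.right (And.right hx))))) (not_symm' (id fun (h : SimpleGraph.Adj G m x) => hg c0 x c2 c3 m (SimpleGraph.Adj.symm (And.left hm)) h (SimpleGraph.Adj.symm (And.left (And.right (And.right hm)))) (SimpleGraph.Adj.symm (And.left (And.right (And.right (And.right hm))))) (And.left (And.right (And.right (And.right (And.right hx))))) (SimpleGraph.Adj.symm (And.left (And.right hx))) (And.left (And.right (And.right hc))) (And.left (And.right (And.right (And.right (And.right (And.right hc)))))) (not_symm' (And.left (And.right (And.right hx))))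 (And.left (And.right (And.right (And.right (And.right (And.right (And.right hc))))))))) (id fun (h : SimpleGraph.Adj G d x) => hp c3 m x d c1 (And.left (And.right (And.right (And.right hm)))) (SimpleGraph.Adj.symm h) (SimpleGraph.Adj.symm (And.left (And.right hd))) (And.right (And.right (And.right (And.right (And.right hx))))) (not_symm' (And.left hx)) (And.left (And.right (And.right hx))) (And.left (And.right (And.right (And.right hd)))) (not_symm' (And.left (And.right (And.right (And.right (And.right (And.right (And.right (And.right hc))))))))) (id fun (h : SimpleGraph.Adj G m x) => hg c0 x c2 c3 m (SimpleGraph.Adj.symm (And.left hm)) h (SimpleGraph.Adj.symm (And.left (And.right (And.right hm)))) (SimpleGraph.Adj.symm (And.left (And.right (And.right (And.right hm))))) (And.left (And.right (And.right (And.right (And.right hx))))) (SimpleGraph.Adj.symm (And.left (And.right hx))) (And.left (And.right (And.right hc))) (And.left (And.right (And.right (And.right (And.right (And.right hc)))))) (not_symm' (And.left (And.right (And.right hx)))) (And.left (And.right (And.right (And.right (And.right (And.right (And.right hc))))))))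 (not_symm' hl) (not_symm' (And.left (And.right hm)))) (not_symm' (And.left (And.right (And.right hd)))) hl (And.left (And.right (And.right (And.right hx)))) (not_symm' (And.right (And.right (And.right (And.right (And.right (And.right (And.right (And.right (And.right hc)))))))))) (And.right (And.right (And.right (And.right hm))))

/-- `D₄ = ∅` -/
theorem noD4 (hg : NoGem G) (hp : NoP23 G) (hc : C5c G c0 c1 c2 c3 c4) {d m m' x : V}
    (hd : TD G c0 c1 c2 c3 c4 d) (hm : TM G c0 c1 c2 c3 c4 m) (hm' : TM G c0 c1 c2 c3 c4 m')
    (hl : ¬ G.Adj d m) (hne : m ≠ m') (hx : TD G c4 c0 c1 c2 c3 x) : False := by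
  have := miss1 hg hp hc hd hm hm' hl hne
  exact hp d c1 x c3 m (SimpleGraph.Adj.symm (And.left (And.right hd))) (SimpleGraph.Adj.symm (And.left (And.right (And.right (And.right (And.right hx)))))) (And.left (And.right (And.right (And.right hm)))) (Ne.symm (ne_of_wit (And.left (And.right (And.right hm))) (And.left (And.right (And.right (And.right hx)))))) (not_symm' (id fun (h : SimpleGraph.Adj G m x) => hg c0 x c3 c2 m (SimpleGraph.Adj.symm (And.left hm)) h (SimpleGraph.Adj.symm (And.left (And.right (And.right (And.right hm))))) (SimpleGraph.Adj.symm (And.left (And.right (And.right hm)))) (And.left (And.right hx)) (SimpleGraph.Adj.symm (And.left (And.right (And.right (And.right (And.right hx)))))) (SimpleGraph.Adj.symm (And.left (And.right (And.right hc)))) (And.left (And.right (And.right (And.right (And.right (And.right (And.right hc))))))) (not_symm' (And.left (And.right (And.right (And.right hx))))) (And.left (And.right (And.right (And.right (And.right (And.right hc)))))))) (id fun (h : SimpleGraph.Adj G d x) => hp c2 m x d c4 (And.left (And.right (And.right hm))) (SimpleGraph.Adj.symm h) (SimpleGraph.Adj.symm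 (And.left (And.right (And.right (And.right (And.right hd)))))) (And.right (And.right (And.right (And.right (And.right hx))))) (not_symm' (And.left hx)) (And.left (And.right (And.right (And.right hx)))) (And.left (And.right (And.right hd))) (And.right (And.right (And.right (And.right (And.right (And.right (And.right (And.right (And.right hc))))))))) (id fun (h : SimpleGraph.Adj G m x) => hg c0 x c3 c2 m (SimpleGraph.Adj.symm (And.left hm)) h (SimpleGraph.Adj.symm (And.left (And.right (And.right (And.right hm))))) (SimpleGraph.Adj.symm (And.left (And.right (And.right hm)))) (And.left (And.right hx)) (SimpleGraph.Adj.symm (And.left (And.right (And.right (And.right (And.right hx)))))) (SimpleGraph.Adj.symm (And.left (And.right (And.right hc)))) (And.left (And.right (And.right (And.right (And.right (And.right (And.right hc))))))) (not_symm' (And.left (And.right (And.right (And.right hx))))) (And.left (And.right (And.right (And.right (And.right (And.right hc))))))) (not_symm' hl) (not_symm' (And.right (And.right (And.right (And.right hm)))))) (not_symm' (And.left (And.right (And.right (And.right hd))))) hl (And.left (And.right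 (And.right hx))) (And.left (And.right (And.right (And.right (And.right (And.right (And.right (And.right hc)))))))) (And.left (And.right hm))

/-- `D₂` is anti to linked `d₀` -/
theorem antiD2 (hg : NoGem G) (hp : NoP23 G) (hc : C5c G c0 c1 c2 c3 c4) {d m m' x : V}
    (hd : TD G c0 c1 c2 c3 c4 d) (hm : TM G c0 c1 c2 c3 c4 m) (hm' : TM G c0 c1 c2 c3 c4 m')
    (hl : ¬ G.Adj d m) (hne : m ≠ m') (hx : TD G c2 c3 c4 c0 c1 x) : ¬ G.Adj x d := by
  intro h
  have := miss1 hg hp hc hd hm hm' hl hne
  exact hg m' c2 m x c3 (And.left (And.right (And.right (And.right hm')))) (SimpleGraph.Adj.symm (And.left (And.right (And.right hc)))) (And.left (And.right (And.right (And.right hm)))) (And.left (And.right hx)) (SimpleGraph.Adj.symm (And.left (And.right (And.right hm')))) (And.left (And.right (And.right hm))) (byContradiction fun (h_1 : ¬SimpleGraph.Adj G m x) => hp x d c0 m c2 h (And.left hm) (SimpleGraph.Adj.symm (And.left (And.right (And.right hm)))) (Ne.symm (ne_of_wit (SimpleGraph.Adj.symm (And.left (And.right (And.right hc)))) (not_symm' (And.left (And.right (And.right (And.right (And.right (And.right (And.right hc))))))))))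 (And.left (And.right (And.right (And.right (And.right (And.right hc)))))) (not_symm' (And.left (And.right (And.right (And.right hx))))) (not_symm' h_1) (not_symm' (And.left hx)) (not_symm' (And.left hd)) hl (not_symm' (And.left (And.right (And.right hd))))) (not_symm' (id fun (h_1 : SimpleGraph.Adj G m m') => hg c0 m' c3 x m (SimpleGraph.Adj.symm (And.left hm)) h_1 (SimpleGraph.Adj.symm (And.left (And.right (And.right (And.right hm))))) (byContradiction fun (h_2 : ¬SimpleGraph.Adj G m x) => hp x d c0 m c2 h (And.left hm) (SimpleGraph.Adj.symm (And.left (And.right (And.right hm)))) (Ne.symm (ne_of_wit (SimpleGraph.Adj.symm (And.left (And.right (And.right hc)))) (not_symm' (And.left (And.right (And.right (And.right (And.right (And.right (And.right hc)))))))))) (And.left (And.right (And.right (And.right (And.right (And.right hc)))))) (not_symm' (And.left (And.right (And.right (And.right hx))))) (not_symm' h_2) (not_symm' (And.left hx)) (not_symm' (And.left hd)) hl (not_symm' (And.left (And.right (And.right hd))))) (And.left hm') (SimpleGraph.Adj.symm (And.left (And.right (And.right (And.right hm'))))) (And.left (And.right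 hx)) (And.left (And.right (And.right (And.right (And.right (And.right (And.right hc))))))) (id fun (h_2 : SimpleGraph.Adj G m' x) => hg c1 d m' c3 x (SimpleGraph.Adj.symm (And.left (And.right (And.right (And.right (And.right hx)))))) h (SimpleGraph.Adj.symm h_2) (SimpleGraph.Adj.symm (And.left (And.right hx))) (And.left (And.right hd)) this (SimpleGraph.Adj.symm (And.left (And.right (And.right (And.right hm'))))) (And.left (And.right hm')) (not_symm' (And.left (And.right (And.right (And.right hd))))) (And.left (And.right (And.right (And.right (And.right (And.right (And.right (And.right hc))))))))) (And.left (And.right (And.right (And.right hx)))))) (And.left hx) (id fun (h_1 : SimpleGraph.Adj G m' x) => hg c1 d m' c3 x (SimpleGraph.Adj.symm (And.left (And.right (And.right (And.right (And.right hx)))))) h (SimpleGraph.Adj.symm h_1) (SimpleGraph.Adj.symm (And.left (And.right hx))) (And.left (And.right hd)) this (SimpleGraph.Adj.symm (And.left (And.right (And.right (And.right hm'))))) (And.left (And.right hm')) (not_symm' (And.left (And.right (And.right (And.right hd))))) (And.left (And.right (And.right (And.right (And.right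 (And.right (And.right (And.right hc)))))))))

/-- `D₃` is anti to linked `d₀` -/
theorem antiD3 (hg : NoGem G) (hp : NoP23 G) (hc : C5c G c0 c1 c2 c3 c4) {d m m' x : V}
    (hd : TD G c0 c1 c2 c3 c4 d) (hm : TM G c0 c1 c2 c3 c4 m) (hm' : TM G c0 c1 c2 c3 c4 m')
    (hl : ¬ G.Adj d m) (hne : m ≠ m') (hx : TD G c3 c4 c0 c1 c2 x) : ¬ G.Adj x d := by
  intro h
  have := miss1 hg hp hc hd hm hm' hl hne
  exact hg m' c3 m x c2 (And.left (And.right (And.right hm'))) (And.left (And.right (And.right hc))) (And.left (And.right (And.right hm))) (And.left (And.right (And.right (And.right (And.right hx))))) (SimpleGraph.Adj.symm (And.left (And.right (And.right (And.right hm'))))) (And.left (And.right (And.right (And.right hm)))) (byContradiction fun (h_1 : ¬SimpleGraph.Adj G m x) => hp x d c0 m c3 h (And.left hm) (SimpleGraph.Adj.symm (And.left (And.right (And.right (And.right hm))))) (ne_of_wit (SimpleGraph.Adj.symm (And.left hc)) (And.left (And.right (And.right (And.right (And.right (And.right (And.right (And.right hc))))))))) (And.left (And.right (And.right (And.right (And.right (And.right (And.right hc))))))) (not_symm' (And.left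 (And.right (And.right hx)))) (not_symm' h_1) (not_symm' (And.left hx)) (not_symm' (And.left hd)) hl (not_symm' (And.left (And.right (And.right (And.right hd)))))) (not_symm' (id fun (h_1 : SimpleGraph.Adj G m m') => hg c0 m' c2 x m (SimpleGraph.Adj.symm (And.left hm)) h_1 (SimpleGraph.Adj.symm (And.left (And.right (And.right hm)))) (byContradiction fun (h_2 : ¬SimpleGraph.Adj G m x) => hp x d c0 m c3 h (And.left hm) (SimpleGraph.Adj.symm (And.left (And.right (And.right (And.right hm))))) (ne_of_wit (SimpleGraph.Adj.symm (And.left hc)) (And.left (And.right (And.right (And.right (And.right (And.right (And.right (And.right hc))))))))) (And.left (And.right (And.right (And.right (And.right (And.right (And.right hc))))))) (not_symm' (And.left (And.right (And.right hx)))) (not_symm' h_2) (not_symm' (And.left hx)) (not_symm' (And.left hd)) hl (not_symm' (And.left (And.right (And.right (And.right hd)))))) (And.left hm') (SimpleGraph.Adj.symm (And.left (And.right (And.right hm')))) (And.left (And.right (And.right (And.right (And.right hx))))) (And.left (And.right (And.right (And.right (And.right (And.right hc)))))) (id fun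 (h_2 : SimpleGraph.Adj G m' x) => hg c3 c2 x d m' (SimpleGraph.Adj.symm (And.left (And.right (And.right (And.right hm'))))) (SimpleGraph.Adj.symm (And.left (And.right (And.right hm')))) h_2 (SimpleGraph.Adj.symm this) (SimpleGraph.Adj.symm (And.left (And.right (And.right hc)))) (And.left (And.right (And.right (And.right (And.right hx))))) h (And.left hx) (And.left (And.right (And.right hd))) (And.left (And.right (And.right (And.right hd))))) (And.left (And.right (And.right hx))))) (And.left hx) (id fun (h_1 : SimpleGraph.Adj G m' x) => hg c3 c2 x d m' (SimpleGraph.Adj.symm (And.left (And.right (And.right (And.right hm'))))) (SimpleGraph.Adj.symm (And.left (And.right (And.right hm')))) h_1 (SimpleGraph.Adj.symm this) (SimpleGraph.Adj.symm (And.left (And.right (And.right hc)))) (And.left (And.right (And.right (And.right (And.right hx))))) h (And.left hx) (And.left (And.right (And.right hd))) (And.left (And.right (And.right (And.right hd)))))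

/-- linked `d₀` are anti to `M₂` -/
theorem antiM2 (hg : NoGem G) (hp : NoP23 G) (hc : C5c G c0 c1 c2 c3 c4) {d m m' x : V}
    (hd : TD G c0 c1 c2 c3 c4 d) (hm : TM G c0 c1 c2 c3 c4 m) (hm' : TM G c0 c1 c2 c3 c4 m')
    (hl : ¬ G.Adj d m) (hne : m ≠ m') (hx : TM G c2 c3 c4 c0 c1 x) : ¬ G.Adj d x := by
  intro h
  have := miss1 hg hp hc hd hm hm' hl hne
  exact hp m c3 x d c1 (SimpleGraph.Adj.symm (And.left (And.right (And.right (And.right hm))))) (SimpleGraph.Adj.symm h) (SimpleGraph.Adj.symm (And.left (And.right hd))) (ne_of_wit (And.left (And.right (And.right hx))) (not_symm' (And.left (And.right (And.right (And.right (And.right (And.right (And.right (And.right (And.right hc))))))))))) (not_symm' (And.right (And.right (And.right (And.right hx))))) (id fun (h : SimpleGraph.Adj G m x) => hg c0 x c2 c3 m (SimpleGraph.Adj.symm (And.left hm)) h (SimpleGraph.Adj.symm (And.left (And.right (And.right hm)))) (SimpleGraph.Adj.symm (And.left (And.right (And.right (And.right hm))))) (And.left (And.right (And.right (And.right hx)))) (SimpleGraph.Adj.symm (And.left hx)) (And.left (And.right (And.right hc))) (And.left (And.right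 (And.right (And.right (And.right (And.right hc)))))) (not_symm' (And.left (And.right hx))) (And.left (And.right (And.right (And.right (And.right (And.right (And.right hc)))))))) (not_symm' hl) (not_symm' (And.left (And.right hm))) (And.left (And.right hx)) (And.left (And.right (And.right (And.right hd)))) (not_symm' (And.left (And.right (And.right (And.right (And.right (And.right (And.right (And.right hc)))))))))

/-- if `D₂ ≠ ∅` then linked `d₀` are isolated in `D₀` -/
theorem isoD2 (hg : NoGem G) (hp : NoP23 G) (hc : C5c G c0 c1 c2 c3 c4) {d m m' x d' : V}
    (hd : TD G c0 c1 c2 c3 c4 d) (hm : TM G c0 c1 c2 c3 c4 m) (hm' : TM G c0 c1 c2 c3 c4 m')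
    (hl : ¬ G.Adj d m) (hne : m ≠ m') (hx : TD G c2 c3 c4 c0 c1 x)
    (hd' : TD G c0 c1 c2 c3 c4 d') : ¬ G.Adj d d' := by
  intro h
  have h1 := miss1 hg hp hc hd hm hm' hl hne
  have h2 := antiD2 hg hp hc hd hm hm' hl hne hx
  exact hp d' d x c3 c2 (SimpleGraph.Adj.symm h) (SimpleGraph.Adj.symm (And.left (And.right hx))) (SimpleGraph.Adj.symm (And.left (And.right (And.right hc)))) (And.right (And.right (And.right (And.right (And.right hx))))) (not_symm' (And.left hx)) (not_symm' (id fun (h_1 : SimpleGraph.Adj G x d') => hg x c1 d c4 d' (SimpleGraph.Adj.symm h_1) (SimpleGraph.Adj.symm (And.left (And.right hd'))) (SimpleGraph.Adj.symm h) (SimpleGraph.Adj.symm (And.left (And.right (And.right (And.right (And.right hd')))))) (SimpleGraph.Adj.symm (And.left (And.right (And.right (And.right (And.right hx)))))) (And.left (And.right hd)) (SimpleGraph.Adj.symm (And.left (And.right (And.right (And.right (And.right hd)))))) h2 (And.left (And.right (And.right (And.right (And.right (And.right (And.right (And.right (And.right hc))))))))) (not_symm' (And.left (And.right (And.right hx)))))) (not_symm' (And.left (And.right (And.right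 (And.right hd'))))) (not_symm' (And.left (And.right (And.right hd')))) (not_symm' h2) (not_symm' (And.left (And.right (And.right (And.right hd))))) (not_symm' (And.left (And.right (And.right hd))))

theorem isoD3 (hg : NoGem G) (hp : NoP23 G) (hc : C5c G c0 c1 c2 c3 c4) {d m m' x d' : V}
    (hd : TD G c0 c1 c2 c3 c4 d) (hm : TM G c0 c1 c2 c3 c4 m) (hm' : TM G c0 c1 c2 c3 c4 m')
    (hl : ¬ G.Adj d m) (hne : m ≠ m') (hx : TD G c3 c4 c0 c1 c2 x)
    (hd' : TD G c0 c1 c2 c3 c4 d') : ¬ G.Adj d d' := by
  intro h
  have h1 := miss1 hg hp hc hd hm hm' hl hne
  have h2 := antiD3 hg hp hc hd hm hm' hl hne hx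
  exact hp d' d x c2 c3 (SimpleGraph.Adj.symm h) (SimpleGraph.Adj.symm (And.left (And.right (And.right (And.right (And.right hx)))))) (And.left (And.right (And.right hc))) (And.right (And.right (And.right (And.right (And.right hx))))) (not_symm' (And.left hx)) (not_symm' (id fun (h_1 : SimpleGraph.Adj G x d') => hg x c4 d c1 d' (SimpleGraph.Adj.symm h_1) (SimpleGraph.Adj.symm (And.left (And.right (And.right (And.right (And.right hd')))))) (SimpleGraph.Adj.symm h) (SimpleGraph.Adj.symm (And.left (And.right hd'))) (SimpleGraph.Adj.symm (And.left (And.right hx))) (And.left (And.right (And.right (And.right (And.right hd))))) (SimpleGraph.Adj.symm (And.left (And.right hd))) h2 (not_symm' (And.left (And.right (And.right (And.right (And.right (And.right (And.right (And.right (And.right hc)))))))))) (not_symm' (And.left (And.right (And.right (And.right hx))))))) (not_symm' (And.left (And.right (And.right hd')))) (not_symm' (And.left (And.right (And.right (And.right hd'))))) (not_symm' h2) (not_symm' (And.left (And.right (And.right hd)))) (not_symm' (And.left (And.right (And.right (And.right hd)))))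

/-- an `N`-neighbour of a linked `d₀` is adjacent to all of `D₂` -/
theorem nD2 (hg : NoGem G) (hp : NoP23 G) (hc : C5c G c0 c1 c2 c3 c4) {d m m' x n : V}
    (hd : TD G c0 c1 c2 c3 c4 d) (hm : TM G c0 c1 c2 c3 c4 m) (hm' : TM G c0 c1 c2 c3 c4 m')
    (hl : ¬ G.Adj d m) (hne : m ≠ m') (hx : TD G c2 c3 c4 c0 c1 x)
    (hn : TN G c0 c1 c2 c3 c4 n) (hnd : G.Adj n d) : G.Adj n x := by
  by_contra h
  have h1 := miss1 hg hp hc hd hm hm' hl hne
  have h2 := antiD2 hg hp hc hd hm hm' hl hne hx
  exact hp d n c2 c3 x (SimpleGraph.Adj.symm hnd) (And.left (And.right (And.right hc))) (And.left (And.right hx)) (Ne.symm (And.right (And.right (And.right (And.right (And.right hx)))))) (And.left hx) (not_symm' (And.left (And.right (And.right hd)))) (not_symm' (And.left (And.right (And.right (And.right hd))))) (not_symm' h2) (not_symm' (And.left (And.right (And.right hn)))) (not_symm' (And.left (And.right (And.right (And.right hn))))) h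

theorem nD3 (hg : NoGem G) (hp : NoP23 G) (hc : C5c G c0 c1 c2 c3 c4) {d m m' x n : V}
    (hd : TD G c0 c1 c2 c3 c4 d) (hm : TM G c0 c1 c2 c3 c4 m) (hm' : TM G c0 c1 c2 c3 c4 m')
    (hl : ¬ G.Adj d m) (hne : m ≠ m') (hx : TD G c3 c4 c0 c1 c2 x)
    (hn : TN G c0 c1 c2 c3 c4 n) (hnd : G.Adj n d) : G.Adj n x := by
  by_contra h
  have h1 := miss1 hg hp hc hd hm hm' hl hne
  have h2 := antiD3 hg hp hc hd hm hm' hl hne hx
  exact hp d n c3 c2 x (SimpleGraph.Adj.symm hnd) (SimpleGraph.Adj.symm (And.left (And.right (And.right hc)))) (And.left (And.right (And.right (And.right (And.right hx))))) (Ne.symm (And.right (And.right (And.right (And.right (And.right hx)))))) (And.left hx) (not_symm' (And.left (And.right (And.right (And.right hd))))) (not_symm' (And.left (And.right (And.right hd)))) (not_symm' h2) (not_symm' (And.left (And.right (And.right (And.right hn))))) (not_symm' (And.left (And.right (And.right hn)))) h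

/-- a `d₂` has at most one neighbour in `N` -/
theorem oneN (hg : NoGem G) (hp : NoP23 G) (hc : C5c G c0 c1 c2 c3 c4) {x n n' : V}
    (hx : TD G c0 c1 c2 c3 c4 x) (hn : TN G c0 c1 c2 c3 c4 n) (hn' : TN G c0 c1 c2 c3 c4 n')
    (h : G.Adj n x) (h' : G.Adj n' x) : n = n' := by
  by_contra hne
  exact hp c2 c3 n x n' (And.left (And.right (And.right hc))) h (SimpleGraph.Adj.symm h') hne (id fun (h : SimpleGraph.Adj G n n') => hp n n' c0 c1 c2 h (And.left hc) (And.left (And.right hc)) (Ne.symm (ne_of_wit (SimpleGraph.Adj.symm (And.left (And.right (And.right hc)))) (not_symm' (And.left (And.right (And.right (And.right (And.right (And.right (And.right hc)))))))))) (And.left (And.right (And.right (And.right (And.right (And.right hc)))))) (not_symm' (And.left hn)) (not_symm' (And.left (And.right hn))) (not_symm' (And.left (And.right (And.right hn)))) (not_symm' (And.left hn')) (not_symm' (And.left (And.right hn'))) (not_symm' (And.left (And.right (And.right hn'))))) (And.left (And.right (And.right hn))) (And.left (And.right (And.right hx))) (And.left (And.right (And.right hn'))) (And.left (And.right (And.right (And.right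 hn)))) (And.left (And.right (And.right (And.right hx)))) (And.left (And.right (And.right (And.right hn'))))

end Pool.Agent.H459R3
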