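import Pool.Agent.H175F.Stmts2

/-! T18a (helper676): local facts. -/

set_option linter.unusedVariables false

namespace Pool.Agent.H676R2.T18a

open Pool.Agent.H175G
open Finset Classical

variable {V : Type} {G : SimpleGraph V} {c0 c1 c2 c3 c4 : V}

lemma rot (h : C5c G c0 c1 c2 c3 c4) : C5c G c2 c3 c4 c0 c1 := by
  obtain ⟨h1, h2, h3, h4, h5, h6, h7, h8, h9, h10⟩ := h
  exact ⟨h3, h4, h5, h1, h2, h10, fun h => h6 h.symm, fun h => h7 h.symm, fun h => h8 h.symm,
    fun h => h9 h.symm⟩

/-- `N` is independent -/
lemma indN (hp : NoP23 G) (hc : C5c G c0 c1 c2 c3 c4) {n n' : V} (hn : TN G c0 c1 c2 c3 c4 n)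
    (hn' : TN G c0 c1 c2 c3 c4 n') : ¬ G.Adj n n' := by
  intro h; exact hp n n' c0 c1 c2 h (And.left hc) (And.left (And.right hc)) (Ne.symm (ne_of_wit (SimpleGraph.Adj.symm (And.left (And.right (And.right hc)))) (not_symm' (And.left (And.right (And.right (And.right (And.right (And.right (And.right hc)))))))))) (And.left (And.right (And.right (And.right (And.right (And.right hc)))))) (not_symm' (And.left hn)) (not_symm' (And.left (And.right hn))) (not_symm' (And.left (And.right (And.right hn)))) (not_symm' (And.left hn')) (not_symm' (And.left (And.right hn'))) (not_symm' (And.left (And.right (And.right hn'))))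

/-- `D₁` is anticomplete to `M₀` -/
lemma d1m (hg : NoGem G) (hp : NoP23 G) (hc : C5c G c0 c1 c2 c3 c4) {d m : V}
    (hd : TD G c1 c2 c3 c4 c0 d) (hm : TM G c0 c1 c2 c3 c4 m) : ¬ G.Adj d m := by
  intro h; exact hg c0 d c2 c3 m (SimpleGraph.Adj.symm (And.left hm)) (SimpleGraph.Adj.symm h) (SimpleGraph.Adj.symm (And.left (And.right (And.right hm)))) (SimpleGraph.Adj.symm (And.left (And.right (And.right (And.right hm))))) (And.left (And.right (And.right (And.right (And.right hd))))) (SimpleGraph.Adj.symm (And.left (And.right hd))) (And.left (And.right (And.right hc))) (And.left (And.right (And.right (And.right (And.right (And.right hc)))))) (not_symm' (And.left (And.right (And.right hd)))) (And.left (And.right (And.right (And.right (And.right (And.right (And.right hc)))))))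

/-- `D₄` is anticomplete to `M₀` -/
lemma d4m (hg : NoGem G) (hp : NoP23 G) (hc : C5c G c0 c1 c2 c3 c4) {d m : V}
    (hd : TD G c4 c0 c1 c2 c3 d) (hm : TM G c0 c1 c2 c3 c4 m) : ¬ G.Adj d m := by
  intro h; exact hg c0 d c3 c2 m (SimpleGraph.Adj.symm (And.left hm)) (SimpleGraph.Adj.symm h) (SimpleGraph.Adj.symm (And.left (And.right (And.right (And.right hm))))) (SimpleGraph.Adj.symm (And.left (And.right (And.right hm)))) (And.left (And.right hd)) (SimpleGraph.Adj.symm (And.left (And.right (And.right (And.right (And.right hd)))))) (SimpleGraph.Adj.symm (And.left (And.right (And.right hc)))) (And.left (And.right (And.right (And.right (And.right (And.right (And.right hc))))))) (not_symm' (And.left (And.right (And.right (And.right hd))))) (And.left (And.right (And.right (And.right (And.right (And.right hc))))))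

/-- `d ∈ D₂` is homogeneous to `M₀` -/
lemma d2m (hg : NoGem G) (hp : NoP23 G) (hc : C5c G c0 c1 c2 c3 c4) {d m m' : V}
    (hd : TD G c2 c3 c4 c0 c1 d) (hm : TM G c0 c1 c2 c3 c4 m) (hm' : TM G c0 c1 c2 c3 c4 m')
    (h : G.Adj d m) : G.Adj d m' := by
  by_contra h'; exact hg m' c2 m d c3 (And.left (And.right (And.right (And.right hm')))) (SimpleGraph.Adj.symm (And.left (And.right (And.right hc)))) (And.left (And.right (And.right (And.right hm)))) (And.left (And.right hd)) (SimpleGraph.Adj.symm (And.left (And.right (And.right hm')))) (And.left (And.right (And.right hm))) (SimpleGraph.Adj.symm h) (not_symm' (id fun (h_1 : SimpleGraph.Adj G m m') => hg c0 m' c3 d m (SimpleGraph.Adj.symm (And.left hm)) h_1 (SimpleGraph.Adj.symm (And.left (And.right (And.right (And.right hm))))) (SimpleGraph.Adj.symm h) (And.left hm') (SimpleGraph.Adj.symm (And.left (And.right (And.right (And.right hm'))))) (And.left (And.right hd)) (And.left (And.right (And.right (And.right (And.right (And.right (And.right hc))))))) (not_symm' h') (And.left (And.right (And.right (And.right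 hd)))))) (And.left hd) (not_symm' h')

/-- `d ∈ D₃` is homogeneous to `M₀` -/
lemma d3m (hg : NoGem G) (hp : NoP23 G) (hc : C5c G c0 c1 c2 c3 c4) {d m m' : V}
    (hd : TD G c3 c4 c0 c1 c2 d) (hm : TM G c0 c1 c2 c3 c4 m) (hm' : TM G c0 c1 c2 c3 c4 m')
    (h : G.Adj d m) : G.Adj d m' := by
  by_contra h'; exact hg m' c3 m d c2 (And.left (And.right (And.right hm'))) (And.left (And.right (And.right hc))) (And.left (And.right (And.right hm))) (And.left (And.right (And.right (And.right (And.right hd))))) (SimpleGraph.Adj.symm (And.left (And.right (And.right (And.right hm'))))) (And.left (And.right (And.right (And.right hm)))) (SimpleGraph.Adj.symm h) (not_symm' (id fun (h_1 : SimpleGraph.Adj G m m') => hg c0 m' c2 d m (SimpleGraph.Adj.symm (And.left hm)) h_1 (SimpleGraph.Adj.symm (And.left (And.right (And.right hm)))) (SimpleGraph.Adj.symm h) (And.left hm') (SimpleGraph.Adj.symm (And.left (And.right (And.right hm')))) (And.left (And.right (And.right (And.right (And.right hd))))) (And.left (And.right (And.right (And.right (And.right (And.right hc)))))) (not_symm'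 h') (And.left (And.right (And.right hd))))) (And.left hd) (not_symm' h')

/-- `n ~ d₁` is complete to `M₀` -/
lemma nd1 (hg : NoGem G) (hp : NoP23 G) (hc : C5c G c0 c1 c2 c3 c4) {n d m : V}
    (hn : TN G c0 c1 c2 c3 c4 n) (hd : TD G c1 c2 c3 c4 c0 d) (hm : TM G c0 c1 c2 c3 c4 m)
    (h : G.Adj n d) : G.Adj n m := by
  by_contra h'; exact hp d n m c3 c4 (SimpleGraph.Adj.symm h) (SimpleGraph.Adj.symm (And.left (And.right (And.right (And.right hm))))) (And.left (And.right (And.right (And.right hc)))) (ne_of_wit (And.left (And.right (And.right hm))) (And.right (And.right (And.right (And.right (And.right (And.right (And.right (And.right (And.right hc)))))))))) (not_symm' (And.right (And.right (And.right (And.right hm))))) (id fun (h : SimpleGraph.Adj G d m) => hg c0 d c2 c3 m (SimpleGraph.Adj.symm (And.left hm)) (SimpleGraph.Adj.symm h) (SimpleGraph.Adj.symm (And.left (And.right (And.right hm)))) (SimpleGraph.Adj.symm (And.left (And.right (And.right (And.right hm))))) (And.left (And.right (And.right (And.right (And.right hd))))) (SimpleGraph.Adj.symm (And.left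 (And.right hd))) (And.left (And.right (And.right hc))) (And.left (And.right (And.right (And.right (And.right (And.right hc)))))) (not_symm' (And.left (And.right (And.right hd)))) (And.left (And.right (And.right (And.right (And.right (And.right (And.right hc)))))))) (not_symm' (And.left (And.right (And.right hd)))) (not_symm' (And.left (And.right (And.right (And.right hd))))) h' (not_symm' (And.left (And.right (And.right (And.right hn))))) (not_symm' (And.right (And.right (And.right (And.right hn)))))

lemma nd4 (hg : NoGem G) (hp : NoP23 G) (hc : C5c G c0 c1 c2 c3 c4) {n d m : V}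
    (hn : TN G c0 c1 c2 c3 c4 n) (hd : TD G c4 c0 c1 c2 c3 d) (hm : TM G c0 c1 c2 c3 c4 m)
    (h : G.Adj n d) : G.Adj n m := by
  by_contra h'; exact hp d n m c2 c1 (SimpleGraph.Adj.symm h) (SimpleGraph.Adj.symm (And.left (And.right (And.right hm)))) (SimpleGraph.Adj.symm (And.left (And.right hc))) (ne_of_wit (And.left (And.right (And.right (And.right hm)))) (not_symm' (And.left (And.right (And.right (And.right (And.right (And.right (And.right (And.right hc)))))))))) (not_symm' (And.left (And.right hm))) (id fun (h : SimpleGraph.Adj G d m) => hg c0 d c3 c2 m (SimpleGraph.Adj.symm (And.left hm)) (SimpleGraph.Adj.symm h) (SimpleGraph.Adj.symm (And.left (And.right (And.right (And.right hm))))) (SimpleGraph.Adj.symm (And.left (And.right (And.right hm)))) (And.left (And.right hd)) (SimpleGraph.Adj.symm (And.left (And.right (And.right (And.right (And.right hd)))))) (SimpleGraph.Adj.symm (And.left (And.right (And.right hc)))) (And.left (And.right (And.right (And.right (And.right (And.right (And.right hc))))))) (not_symm' (And.left (And.right (And.right (And.right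 hd))))) (And.left (And.right (And.right (And.right (And.right (And.right hc))))))) (not_symm' (And.left (And.right (And.right (And.right hd))))) (not_symm' (And.left (And.right (And.right hd)))) h' (not_symm' (And.left (And.right (And.right hn)))) (not_symm' (And.left (And.right hn)))

lemma nd2 (hg : NoGem G) (hp : NoP23 G) (hc : C5c G c0 c1 c2 c3 c4) {n d m m' : V}
    (hn : TN G c0 c1 c2 c3 c4 n) (hd : TD G c2 c3 c4 c0 c1 d) (hm : TM G c0 c1 c2 c3 c4 m)
    (hm' : TM G c0 c1 c2 c3 c4 m') (h : G.Adj n d) (h1 : G.Adj n m) : G.Adj n m' := by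
  by_contra h'; exact hg m c2 m' d c3 (And.left (And.right (And.right (And.right hm)))) (SimpleGraph.Adj.symm (And.left (And.right (And.right hc)))) (And.left (And.right (And.right (And.right hm')))) (And.left (And.right hd)) (SimpleGraph.Adj.symm (And.left (And.right (And.right hm)))) (And.left (And.right (And.right hm'))) (SimpleGraph.Adj.symm (byContradiction fun (h_1 : ¬SimpleGraph.Adj G d m') => hp d n c0 m' c2 (SimpleGraph.Adj.symm h) (And.left hm') (SimpleGraph.Adj.symm (And.left (And.right (And.right hm')))) (Ne.symm (ne_of_wit (SimpleGraph.Adj.symm (And.left (And.right (And.right hc)))) (not_symm' (And.left (And.right (And.right (And.right (And.right (And.right (And.right hc)))))))))) (And.left (And.right (And.right (And.right (And.right (And.right hc)))))) (not_symm' (And.left (And.right (And.right (And.right hd))))) h_1 (not_symm' (And.left hd)) (not_symm' (And.left hn)) h' (not_symm' (And.left (And.right (And.right hn)))))) (id fun (h_1 : SimpleGraph.Adj G m m') => hg c0 m c3 d m' (SimpleGraph.Adj.symm (And.left hm')) (SimpleGraph.Adj.symm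 h_1) (SimpleGraph.Adj.symm (And.left (And.right (And.right (And.right hm'))))) (SimpleGraph.Adj.symm (byContradiction fun (h_2 : ¬SimpleGraph.Adj G d m') => hp d n c0 m' c2 (SimpleGraph.Adj.symm h) (And.left hm') (SimpleGraph.Adj.symm (And.left (And.right (And.right hm')))) (Ne.symm (ne_of_wit (SimpleGraph.Adj.symm (And.left (And.right (And.right hc)))) (not_symm' (And.left (And.right (And.right (And.right (And.right (And.right (And.right hc)))))))))) (And.left (And.right (And.right (And.right (And.right (And.right hc)))))) (not_symm' (And.left (And.right (And.right (And.right hd))))) h_2 (not_symm' (And.left hd)) (not_symm' (And.left hn)) h' (not_symm' (And.left (And.right (And.right hn)))))) (And.left hm) (SimpleGraph.Adj.symm (And.left (And.right (And.right (And.right hm))))) (And.left (And.right hd)) (And.left (And.right (And.right (And.right (And.right (And.right (And.right hc))))))) (not_symm' (id fun (h_2 : SimpleGraph.Adj G d m) => hg c2 c3 d n m (SimpleGraph.Adj.symm (And.left (And.right (And.right hm)))) (SimpleGraph.Adj.symm (And.left (And.right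 (And.right (And.right hm))))) (SimpleGraph.Adj.symm h_2) (SimpleGraph.Adj.symm h1) (And.left (And.right (And.right hc))) (And.left (And.right hd)) (SimpleGraph.Adj.symm h) (And.left hd) (And.left (And.right (And.right (And.right hn)))) (And.left (And.right (And.right hn))))) (And.left (And.right (And.right (And.right hd))))) (And.left hd) (not_symm' (id fun (h_1 : SimpleGraph.Adj G d m) => hg c2 c3 d n m (SimpleGraph.Adj.symm (And.left (And.right (And.right hm)))) (SimpleGraph.Adj.symm (And.left (And.right (And.right (And.right hm))))) (SimpleGraph.Adj.symm h_1) (SimpleGraph.Adj.symm h1) (And.left (And.right (And.right hc))) (And.left (And.right hd)) (SimpleGraph.Adj.symm h) (And.left hd) (And.left (And.right (And.right (And.right hn)))) (And.left (And.right (And.right hn)))))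

lemma nd3 (hg : NoGem G) (hp : NoP23 G) (hc : C5c G c0 c1 c2 c3 c4) {n d m m' : V}
    (hn : TN G c0 c1 c2 c3 c4 n) (hd : TD G c3 c4 c0 c1 c2 d) (hm : TM G c0 c1 c2 c3 c4 m)
    (hm' : TM G c0 c1 c2 c3 c4 m') (h : G.Adj n d) (h1 : G.Adj n m) : G.Adj n m' := by
  by_contra h'; exact hg m c3 m' d c2 (And.left (And.right (And.right hm))) (And.left (And.right (And.right hc))) (And.left (And.right (And.right hm'))) (And.left (And.right (And.right (And.right (And.right hd))))) (SimpleGraph.Adj.symm (And.left (And.right (And.right (And.right hm))))) (And.left (And.right (And.right (And.right hm')))) (SimpleGraph.Adj.symm (byContradiction fun (h_1 : ¬SimpleGraph.Adj G d m') => hp d n m' c0 c1 (SimpleGraph.Adj.symm h) (SimpleGraph.Adj.symm (And.left hm')) (And.left hc) (ne_of_wit (And.left (And.right (And.right (And.right hm')))) (not_symm' (And.left (And.right (And.right (And.right (And.right (And.right (And.right (And.right hc)))))))))) (not_symm' (And.left (And.right hm'))) h_1 (not_symm' (And.left (And.right (And.right hd)))) (not_symm' (And.left (And.right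 (And.right (And.right hd))))) h' (not_symm' (And.left hn)) (not_symm' (And.left (And.right hn))))) (id fun (h_1 : SimpleGraph.Adj G m m') => hg c0 m c2 d m' (SimpleGraph.Adj.symm (And.left hm')) (SimpleGraph.Adj.symm h_1) (SimpleGraph.Adj.symm (And.left (And.right (And.right hm')))) (SimpleGraph.Adj.symm (byContradiction fun (h_2 : ¬SimpleGraph.Adj G d m') => hp d n m' c0 c1 (SimpleGraph.Adj.symm h) (SimpleGraph.Adj.symm (And.left hm')) (And.left hc) (ne_of_wit (And.left (And.right (And.right (And.right hm')))) (not_symm' (And.left (And.right (And.right (And.right (And.right (And.right (And.right (And.right hc)))))))))) (not_symm' (And.left (And.right hm'))) h_2 (not_symm' (And.left (And.right (And.right hd)))) (not_symm' (And.left (And.right (And.right (And.right hd))))) h' (not_symm' (And.left hn)) (not_symm' (And.left (And.right hn))))) (And.left hm) (SimpleGraph.Adj.symm (And.left (And.right (And.right hm)))) (And.left (And.right (And.right (And.right (And.right hd))))) (And.left (And.right (And.right (And.right (And.right (And.right hc)))))) (not_symm'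 (id fun (h_2 : SimpleGraph.Adj G d m) => hg c3 c2 d n m (SimpleGraph.Adj.symm (And.left (And.right (And.right (And.right hm))))) (SimpleGraph.Adj.symm (And.left (And.right (And.right hm)))) (SimpleGraph.Adj.symm h_2) (SimpleGraph.Adj.symm h1) (SimpleGraph.Adj.symm (And.left (And.right (And.right hc)))) (And.left (And.right (And.right (And.right (And.right hd))))) (SimpleGraph.Adj.symm h) (And.left hd) (And.left (And.right (And.right hn))) (And.left (And.right (And.right (And.right hn)))))) (And.left (And.right (And.right hd)))) (And.left hd) (not_symm' (id fun (h_1 : SimpleGraph.Adj G d m) => hg c3 c2 d n m (SimpleGraph.Adj.symm (And.left (And.right (And.right (And.right hm))))) (SimpleGraph.Adj.symm (And.left (And.right (And.right hm)))) (SimpleGraph.Adj.symm h_1) (SimpleGraph.Adj.symm h1) (SimpleGraph.Adj.symm (And.left (And.right (And.right hc)))) (And.left (And.right (And.right (And.right (And.right hd))))) (SimpleGraph.Adj.symm h) (And.left hd) (And.left (And.right (And.right hn))) (And.left (And.right (And.right (And.right hn))))))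

/-! facts about `x ∈ D₀`, `n ~ x`, `n` not homogeneous to `M₀` (`n ~ m`, `n ≁ m'`) -/

lemma x1 (hg : NoGem G) (hp : NoP23 G) (hc : C5c G c0 c1 c2 c3 c4) {n x d m m' : V}
    (hn : TN G c0 c1 c2 c3 c4 n) (hx : TD G c0 c1 c2 c3 c4 x) (hd : TD G c1 c2 c3 c4 c0 d)
    (hm : TM G c0 c1 c2 c3 c4 m) (hm' : TM G c0 c1 c2 c3 c4 m') (hxm : G.Adj x m)
    (hxm' : G.Adj x m') (h : G.Adj n x) (h1 : G.Adj n m) (h2 : ¬ G.Adj n m') : G.Adj x d := by
  have h3 : ¬ G.Adj n d := fun h3 => h2 (nd1 hg hp hc hn hd hm' h3)
  by_contra h'; exact hp n x c0 d c2 h (And.left (And.right (And.right (And.right (And.right hd))))) (SimpleGraph.Adj.symm (And.left (And.right hd))) (Ne.symm (ne_of_wit (SimpleGraph.Adj.symm (And.left (And.right (And.right hc)))) (not_symm' (And.left (And.right (And.right (And.right (And.right (And.right (And.right hc)))))))))) (And.left (And.right (And.right (And.right (And.right (And.right hc)))))) (not_symm' (And.left hn)) h3 (not_symm' (And.left (And.right (And.right hn)))) (not_symm' (And.left hx)) h' (not_symm' (And.left (And.right (And.right hx))))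

lemma x4 (hg : NoGem G) (hp : NoP23 G) (hc : C5c G c0 c1 c2 c3 c4) {n x d m m' : V}
    (hn : TN G c0 c1 c2 c3 c4 n) (hx : TD G c0 c1 c2 c3 c4 x) (hd : TD G c4 c0 c1 c2 c3 d)
    (hm : TM G c0 c1 c2 c3 c4 m) (hm' : TM G c0 c1 c2 c3 c4 m') (hxm : G.Adj x m)
    (hxm' : G.Adj x m') (h : G.Adj n x) (h1 : G.Adj n m) (h2 : ¬ G.Adj n m') : G.Adj x d := by
  have h3 : ¬ G.Adj n d := fun h3 => h2 (nd4 hg hp hc hn hd hm' h3)
  by_contra h'; exact hp n x c0 d c3 h (And.left (And.right hd)) (SimpleGraph.Adj.symm (And.left (And.right (And.right (And.right (And.right hd)))))) (ne_of_wit (SimpleGraph.Adj.symm (And.left hc)) (And.left (And.right (And.right (And.right (And.right (And.right (And.right (And.right hc))))))))) (And.left (And.right (And.right (And.right (And.right (And.right (And.right hc))))))) (not_symm' (And.left hn)) h3 (not_symm' (And.left (And.right (And.right (And.right hn))))) (not_symm' (And.left hx)) h' (not_symm' (And.left (And.right (And.right (And.right hx)))))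

lemma x2 (hg : NoGem G) (hp : NoP23 G) (hc : C5c G c0 c1 c2 c3 c4) {n x d m m' : V}
    (hn : TN G c0 c1 c2 c3 c4 n) (hx : TD G c0 c1 c2 c3 c4 x) (hd : TD G c2 c3 c4 c0 c1 d)
    (hm : TM G c0 c1 c2 c3 c4 m) (hm' : TM G c0 c1 c2 c3 c4 m') (hxm : G.Adj x m)
    (hxm' : G.Adj x m') (h : G.Adj n x) (h1 : G.Adj n m) (h2 : ¬ G.Adj n m') : G.Adj x d := by
  have h3 : ¬ G.Adj n d := fun h3 => h2 (nd2 hg hp hc hn hd hm hm' h3 h1)
  by_contra h'; exact hp n x c2 c3 d h (And.left (And.right (And.right hc))) (And.left (And.right hd)) (Ne.symm (And.right (And.right (And.right (And.right (And.right hd)))))) (And.left hd) (not_symm' (And.left (And.right (And.right hn)))) (not_symm' (And.left (And.right (And.right (And.right hn))))) h3 (not_symm' (And.left (And.right (And.right hx)))) (not_symm' (And.left (And.right (And.right (And.right hx))))) h'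

lemma x3 (hg : NoGem G) (hp : NoP23 G) (hc : C5c G c0 c1 c2 c3 c4) {n x d m m' : V}
    (hn : TN G c0 c1 c2 c3 c4 n) (hx : TD G c0 c1 c2 c3 c4 x) (hd : TD G c3 c4 c0 c1 c2 d)
    (hm : TM G c0 c1 c2 c3 c4 m) (hm' : TM G c0 c1 c2 c3 c4 m') (hxm : G.Adj x m)
    (hxm' : G.Adj x m') (h : G.Adj n x) (h1 : G.Adj n m) (h2 : ¬ G.Adj n m') : G.Adj x d := by
  have h3 : ¬ G.Adj n d := fun h3 => h2 (nd3 hg hp hc hn hd hm hm' h3 h1)
  by_contra h'; exact hp n x c3 c2 d h (SimpleGraph.Adj.symm (And.left (And.right (And.right hc)))) (And.left (And.right (And.right (And.right (And.right hd))))) (Ne.symm (And.right (And.right (And.right (And.right (And.right hd)))))) (And.left hd) (not_symm' (And.left (And.right (And.right (And.right hn))))) (not_symm' (And.left (And.right (And.right hn)))) h3 (not_symm' (And.left (And.right (And.right (And.right hx))))) (not_symm' (And.left (And.right (And.right hx)))) h'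

/-- anticomplete to the rest of `D₀` -/
lemma x0 (hg : NoGem G) (hp : NoP23 G) (hc : C5c G c0 c1 c2 c3 c4) {n x d m m' : V}
    (hn : TN G c0 c1 c2 c3 c4 n) (hx : TD G c0 c1 c2 c3 c4 x) (hd : TD G c0 c1 c2 c3 c4 d)
    (hm : TM G c0 c1 c2 c3 c4 m) (hm' : TM G c0 c1 c2 c3 c4 m') (hxm : G.Adj x m)
    (hxm' : G.Adj x m') (hdm : G.Adj d m) (hdm' : G.Adj d m')
    (h : G.Adj n x) (h1 : G.Adj n m) (h2 : ¬ G.Adj n m')
    (h3 : ¬ G.Adj n d) : ¬ G.Adj x d := by
  intro h'; exact hg c1 d m n x (SimpleGraph.Adj.symm (And.left (And.right hx))) h' hxm (SimpleGraph.Adj.symm h) (And.left (And.right hd)) hdm (SimpleGraph.Adj.symm h1) (And.left (And.right hm)) (not_symm' h3) (And.left (And.right hn))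

/-- the neighbours of `n` in `D₀` form a clique -/
lemma x00 (hg : NoGem G) (hp : NoP23 G) (hc : C5c G c0 c1 c2 c3 c4) {n x d m m' : V}
    (hn : TN G c0 c1 c2 c3 c4 n) (hx : TD G c0 c1 c2 c3 c4 x) (hd : TD G c0 c1 c2 c3 c4 d)
    (hm : TM G c0 c1 c2 c3 c4 m) (hm' : TM G c0 c1 c2 c3 c4 m') (hxm : G.Adj x m)
    (hxm' : G.Adj x m') (hdm : G.Adj d m) (hdm' : G.Adj d m')
    (h : G.Adj n x) (h1 : G.Adj n m) (h2 : ¬ G.Adj n m')
    (h3 : G.Adj n d) (hne : x ≠ d) : G.Adj x d := by
  by_contra h'; exact hp c2 c3 x n d (And.left (And.right (And.right hc))) (SimpleGraph.Adj.symm h) h3 hne h' (And.left (And.right (And.right hx))) (And.left (And.right (And.right hn))) (And.left (And.right (And.right hd))) (And.left (And.right (And.right (And.right hx)))) (And.left (And.right (And.right (And.right hn)))) (And.left (And.right (And.right (And.right hd))))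

/-- anticomplete to `N ∖ {n}` -/
lemma xn (hg : NoGem G) (hp : NoP23 G) (hc : C5c G c0 c1 c2 c3 c4) {n n' x m m' : V}
    (hn : TN G c0 c1 c2 c3 c4 n) (hn' : TN G c0 c1 c2 c3 c4 n') (hx : TD G c0 c1 c2 c3 c4 x)
    (hm : TM G c0 c1 c2 c3 c4 m) (hm' : TM G c0 c1 c2 c3 c4 m') (hxm : G.Adj x m)
    (hxm' : G.Adj x m') (h : G.Adj n x) (h1 : G.Adj n m) (h2 : ¬ G.Adj n m') (hne : n ≠ n') :
    ¬ G.Adj x n' := by
  intro h'
  have h3 := indN hp hc hn hn'
  exact hp c2 c3 n x n' (And.left (And.right (And.right hc))) h h' hne h3 (And.left (And.right (And.right hn))) (And.left (And.right (And.right hx))) (And.left (And.right (And.right hn'))) (And.left (And.right (And.right (And.right hn)))) (And.left (And.right (And.right (And.right hx)))) (And.left (And.right (And.right (And.right hn'))))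

/-- `n ~ d₀` implies `n` homogeneous to `M₂`; stated for the rotated cycle: `n ~ d₃` and `M₀` -/
lemma nd0' (hg : NoGem G) (hp : NoP23 G) (hc : C5c G c0 c1 c2 c3 c4) {n d m m' : V}
    (hn : TN G c0 c1 c2 c3 c4 n) (hd : TD G c3 c4 c0 c1 c2 d) (hm : TM G c0 c1 c2 c3 c4 m)
    (hm' : TM G c0 c1 c2 c3 c4 m') (h : G.Adj n d) (h1 : G.Adj n m) : G.Adj n m' :=
  nd3 hg hp hc hn hd hm hm' h h1

end Pool.Agent.H676R2.T18a
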