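import Pool.Agent.H175F.Stmts2
import Pool.Agent.H175F.Frame0
import Pool.Agent.H175F.Cwp

/-! Assembly: from the bound on decomposition trees to the frozen statement on clique-width. -/

namespace Pool.Agent.H175G

open Finset Classical
open Pool.Agent.H175R2 (DT nt on)

/-- `C₅`-free graphs and graphs with an induced `C₅` together -/
theorem main_of (h1 : NoC5Stmt) (h2 : C5Stmt) : MainStmt := by
  obtain ⟨K1, h1⟩ := h1
  obtain ⟨K2, h2⟩ := h2
  refine ⟨max K1 K2, fun V G hg hp R => ?_⟩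
  by_cases hc : NoC5 G
  · exact (h1 V G hg hp hc R).mono (le_max_left _ _)
  · unfold NoC5 at hc
    push Not at hc
    obtain ⟨a, b, c, d, e, h3, h4, h5, h6, h7, h8, h9, h10, h11, h12, -⟩ := hc
    exact (h2 V G hg hp a b c d e ⟨h3, h4, h5, h6, h7, h8, h9, h10, h11, h12⟩ R).mono
      (le_max_right _ _)

theorem noGem_of {V : Type} {G : SimpleGraph V}
    (h : IsEmpty ((SimpleGraph.fromRel (fun a b : Fin 5 => a.val + 1 = b.val ∧ b.val ≤ 3))ᶜ ↪g G)) :
    NoGem G := by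
  intro a b c d e h1 h2 h3 h4 h5 h6 h7 h8 h9 h10
  have n1 : a ≠ b := h5.ne
  have n2 : b ≠ c := h6.ne
  have n3 : c ≠ d := h7.ne
  have n4 : a ≠ d := fun h => h9 (by rw [← h]; exact h5.symm)
  have n5 : b ≠ d := fun h => h10 (by rw [← h]; exact h5)
  have n6 : a ≠ c := fun h => h10 (by rw [h]; exact h7)
  have m1 := h1.ne
  have m2 := h2.ne
  have m3 := h3.ne
  have m4 := h4.ne
  have inj : Function.Injective ![b, d, a, c, e] := by
    intro i j
    fin_cases i <;> fin_cases j <;>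
      simp [n1, n2, n3, n4, n5, n6, m1, m2, m3, m4, n1.symm, n2.symm, n3.symm, n4.symm, n5.symm,
        n6.symm, m1.symm, m2.symm, m3.symm, m4.symm]
  refine h.false ⟨⟨![b, d, a, c, e], inj⟩, ?_⟩
  intro i j
  have a1 := h1.symm
  have a2 := h2.symm
  have a3 := h3.symm
  have a4 := h4.symm
  have a5 := h5.symm
  have a6 := h6.symm
  have a7 := h7.symm
  have a8 : ¬ G.Adj c a := fun h => h8 h.symm
  have a9 : ¬ G.Adj d b := fun h => h9 h.symm
  have a10 : ¬ G.Adj d a := fun h => h10 h.symm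
  fin_cases i <;> fin_cases j <;>
    simp [SimpleGraph.fromRel_adj, h1, h2, h3, h4, h5, h6, h7, h8, h9, h10, a1, a2, a3, a4, a5, a6,
      a7, a8, a9, a10]

theorem noP23_of {V : Type} {G : SimpleGraph V}
    (h : IsEmpty (SimpleGraph.fromRel (fun a b : Fin 5 =>
        (a.val = 0 ∧ b.val = 1) ∨ (a.val = 2 ∧ b.val = 3) ∨ (a.val = 3 ∧ b.val = 4)) ↪g G)) :
    NoP23 G := by
  intro x y a b c h1 h2 h3 n h4 h5 h6 h7 h8 h9 h10
  have n1 : x ≠ y := h1.ne
  have n2 : a ≠ b := h2.ne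
  have n3 : b ≠ c := h3.ne
  have n4 : x ≠ a := fun h => h6 (by rw [h]; exact h2)
  have n5 : x ≠ b := fun h => h7 (by rw [h]; exact h3)
  have n6 : x ≠ c := fun h => h6 (by rw [h]; exact h3.symm)
  have n7 : y ≠ a := fun h => h9 (by rw [h]; exact h2)
  have n8 : y ≠ b := fun h => h10 (by rw [h]; exact h3)
  have n9 : y ≠ c := fun h => h9 (by rw [h]; exact h3.symm)
  have inj : Function.Injective ![x, y, a, b, c] := by
    intro i j
    fin_cases i <;> fin_cases j <;>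
      simp [n, n1, n2, n3, n4, n5, n6, n7, n8, n9, n.symm, n1.symm, n2.symm, n3.symm, n4.symm,
        n5.symm, n6.symm, n7.symm, n8.symm, n9.symm]
  refine h.false ⟨⟨![x, y, a, b, c], inj⟩, ?_⟩
  intro i j
  have a1 := h1.symm
  have a2 := h2.symm
  have a3 := h3.symm
  have a4 : ¬ G.Adj c a := fun h => h4 h.symm
  have a5 : ¬ G.Adj a x := fun h => h5 h.symm
  have a6 : ¬ G.Adj b x := fun h => h6 h.symm
  have a7 : ¬ G.Adj c x := fun h => h7 h.symm
  have a8 : ¬ G.Adj a y := fun h => h8 h.symm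
  have a9 : ¬ G.Adj b y := fun h => h9 h.symm
  have a10 : ¬ G.Adj c y := fun h => h10 h.symm
  fin_cases i <;> fin_cases j <;>
    simp [SimpleGraph.fromRel_adj, h1, h2, h3, h4, h5, h6, h7, h8, h9, h10, a1, a2, a3, a4, a5, a6,
      a7, a8, a9, a10]

/-- the statement on clique-width, in predicate form -/
theorem frozen_of (h : MainStmt) :
  ∃ k : ℕ, ∀ (V : Type) [Finite V] [Nonempty V] (G : SimpleGraph V),
    IsEmpty ((SimpleGraph.fromRel (fun a b : Fin 5 => a.val + 1 = b.val ∧ b.val ≤ 3))ᶜ ↪g G) →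
    IsEmpty (SimpleGraph.fromRel (fun a b : Fin 5 =>
        (a.val = 0 ∧ b.val = 1) ∨ (a.val = 2 ∧ b.val = 3) ∨ (a.val = 3 ∧ b.val = 4)) ↪g G) →
    ∃ l : V → Fin k, ∀ P : Set V → (V → Fin k) → SimpleGraph V → Prop,
      (∀ (v : V) (l0 : V → Fin k), P ({v} : Set V) l0 ⊥) →
      (∀ (S1 S2 : Set V) (l1 l2 l0 : V → Fin k) (H1 H2 : SimpleGraph V),
          P S1 l1 H1 → P S2 l2 H2 → Disjoint S1 S2 →
          (∀ u ∈ S1, l0 u = l1 u) → (∀ u ∈ S2, l0 u = l2 u) →
          P (S1 ∪ S2) l0 (H1 ⊔ H2)) →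
      (∀ (S : Set V) (l0 : V → Fin k) (H H' : SimpleGraph V) (i j : Fin k),
          P S l0 H → i ≠ j →
          (∀ u v : V, H'.Adj u v ↔ (H.Adj u v ∨
              (u ∈ S ∧ v ∈ S ∧ ((l0 u = i ∧ l0 v = j) ∨ (l0 u = j ∧ l0 v = i))))) →
          P S l0 H') →
      (∀ (S : Set V) (l0 l' : V → Fin k) (H : SimpleGraph V) (i j : Fin k),
          P S l0 H →
          (∀ u ∈ S, (l0 u = i → l' u = j) ∧ (l0 u ≠ i → l' u = l0 u)) →
          P S l' H) →
      P Set.univ l G := by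
  obtain ⟨K, hK⟩ := h
  refine ⟨3 * (K + 1), fun V hf hn G hg hp => ?_⟩
  haveI : Fintype V := Fintype.ofFinite V
  have hD : DT G K univ univ := hK V G (noGem_of hg) (noP23_of hp) univ Finset.univ_nonempty
  obtain ⟨l, hl⟩ := Cwp.built_of_dt hD
  exact ⟨l, fun P p1 p2 p3 p4 => hl P ⟨p1, p2, p3, p4⟩⟩

end Pool.Agent.H175G
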