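import Pool.Agent.H175F.Tac
import Pool.Agent.H175R2.Width

/-! Statements used in the proof that (gem, `P₂+P₃`)-free graphs have bounded clique-width. -/

namespace Pool.Agent.H175G

open Finset Classical
open Pool.Agent.H175R2 (DT nt on cpt Cn P4Free)

variable {V : Type}

/-- `G[A]` has a decomposition tree of width `K` (nothing is required if `A = ∅`) -/
def BD (G : SimpleGraph V) (K : ℕ) (A : Finset V) : Prop := A.Nonempty → DT G K A A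

/-- independent set -/
def Ind (G : SimpleGraph V) (S : Finset V) : Prop := ∀ x ∈ S, ∀ y ∈ S, ¬ G.Adj x y

/-- clique -/
def Clq (G : SimpleGraph V) (S : Finset V) : Prop := ∀ x ∈ S, ∀ y ∈ S, x ≠ y → G.Adj x y

/-- disjoint union of cliques -/
def Clus (G : SimpleGraph V) (S : Finset V) : Prop :=
  ∀ x ∈ S, ∀ y ∈ S, ∀ z ∈ S, G.Adj x y → G.Adj y z → x ≠ z → G.Adj x z

/-- no edges between `S` and `T` -/
def Anti (G : SimpleGraph V) (S T : Finset V) : Prop := ∀ x ∈ S, ∀ y ∈ T, ¬ G.Adj x y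

/-- all edges between `S` and `T` -/
def Comp (G : SimpleGraph V) (S T : Finset V) : Prop := ∀ x ∈ S, ∀ y ∈ T, G.Adj x y

/-- neighbours of `x` in `S` -/
noncomputable def nb (G : SimpleGraph V) (S : Finset V) (x : V) : Finset V :=
  S.filter (fun y => G.Adj x y)

/-! ### framework -/

/-- Attachment: `V₀` has width `K`; `W` is attached in blocks (classes of `b`), each block
containing at most one vertex of `V₀`; adjacency between a vertex of `W` and a vertex of another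
block depends only on the labels. -/
def AttachStmt : Prop :=
  ∃ B : ℕ → ℕ → ℕ → ℕ, ∀ (V : Type) (G : SimpleGraph V) (Λ β : Type) [Fintype Λ] (K K' : ℕ)
    (V0 W : Finset V) (lab : V → Λ) (F : Λ → Λ → Prop) (b : V → β),
    BD G K V0 → (∀ x ∈ V0, ∀ y ∈ V0, b x = b y → x = y) →
    (∀ x ∈ V0 ∪ W, BD G K' ((V0 ∪ W).filter (fun y => b y = b x))) →
    (∀ x ∈ W, ∀ y ∈ V0 ∪ W, b x ≠ b y → (G.Adj x y ↔ F (lab x) (lab y))) →
    BD G (B K K' (Fintype.card Λ)) (V0 ∪ W)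

/-- two parts with adjacency between them determined by labels -/
def TwoStmt : Prop :=
  ∃ B : ℕ → ℕ → ℕ → ℕ, ∀ (V : Type) (G : SimpleGraph V) (Λ : Type) [Fintype Λ] (K K' : ℕ)
    (A C : Finset V) (lab : V → Λ) (F : Λ → Λ → Prop), Disjoint A C →
    BD G K A → BD G K' C → (∀ x ∈ A, ∀ y ∈ C, (G.Adj x y ↔ F (lab x) (lab y))) →
    BD G (B K K' (Fintype.card Λ)) (A ∪ C)

/-- levels: prefixes and levels have few outside neighbourhoods, levels have small width -/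
def LinearStmt : Prop :=
  ∃ B : ℕ → ℕ → ℕ → ℕ, ∀ (V : Type) (G : SimpleGraph V) (K a c : ℕ) (R : Finset V) (f : V → ℕ),
    (∀ t, nt G R (R.filter (fun x => f x ≤ t)) ≤ a) →
    (∀ t, nt G R (R.filter (fun x => f x = t)) ≤ c) →
    (∀ t, BD G K (R.filter (fun x => f x = t))) → BD G (B K a c) R

/-- `R` has no split: no partition into two parts of size at least 2 whose edges form a complete
bipartite graph between subsets `A'` and `B'` -/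
def NoSplit (G : SimpleGraph V) (R : Finset V) : Prop :=
  ∀ A ⊆ R, 2 ≤ A.card → 2 ≤ (R \ A).card →
    ¬ ∃ A' B' : Finset V, ∀ x ∈ A, ∀ y ∈ R \ A, (G.Adj x y ↔ x ∈ A' ∧ y ∈ B')

/-- it is enough to bound split-free members, for classes of sets containing a fixed vertex `v`
whose non-neighbours are independent -/
def SplitStmt : Prop :=
  ∀ (V : Type) (G : SimpleGraph V) (v : V) (K : ℕ) (C : Finset V → Prop),
    (∀ R S, C R → S ⊆ R → v ∈ S → C S) →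
    (∀ R, C R → v ∈ R ∧ ∀ x ∈ R, ∀ y ∈ R, ¬ G.Adj v x → ¬ G.Adj v y → ¬ G.Adj x y) →
    (∀ R, C R → NoSplit G R → BD G K R) → ∀ R, C R → BD G (2 * K + 2) R

/-! ### the class `𝒵` -/

/-- `M`, `N` disjoint, `N` independent, `v` complete to `M` and anticomplete to `N` -/
def ZCfg (G : SimpleGraph V) (v : V) (M N : Finset V) : Prop :=
  (∀ m ∈ M, G.Adj v m) ∧ (∀ n ∈ N, ¬ G.Adj v n) ∧ Ind G N ∧ v ∉ N

def BipStmt : Prop :=
  ∃ K : ℕ, ∀ (V : Type) (G : SimpleGraph V) (M N : Finset V), Disjoint M N → Ind G M → Ind G N →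
    (∀ m ∈ M, ∀ m' ∈ M, 2 ≤ (nb G N m \ nb G N m').card → nb G N m' ⊆ nb G N m) →
    BD G K (M ∪ N)

def LamStmt : Prop :=
  ∃ K : ℕ, ∀ (V : Type) (G : SimpleGraph V) (Q N : Finset V), Disjoint Q N → Clq G Q → Ind G N →
    (∀ n ∈ N, ∀ n' ∈ N, nb G Q n ⊆ nb G Q n' ∨ nb G Q n' ⊆ nb G Q n ∨
      Disjoint (nb G Q n) (nb G Q n')) → BD G K (Q ∪ N)

/-- `M` is a clique plus isolated vertices -/
def AlphaStmt : Prop :=
  ∃ K : ℕ, ∀ (V : Type) (G : SimpleGraph V), NoGem G → NoP23 G → ∀ (v : V) (Q I N : Finset V),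
    ZCfg G v (Q ∪ I) N → Clq G Q → Ind G I → Anti G Q I → BD G K (Q ∪ I ∪ N)

/-- `M` is the union of two cliques plus isolated vertices -/
def BetaStmt : Prop :=
  ∃ K : ℕ, ∀ (V : Type) (G : SimpleGraph V), NoGem G → NoP23 G → ∀ (v : V) (P Q I N : Finset V),
    ZCfg G v (P ∪ Q ∪ I) N → Clq G P → Clq G Q → Ind G I → Anti G P Q → Anti G P I → Anti G Q I →
    BD G K (P ∪ Q ∪ I ∪ N)

/-- `M` is a disjoint union of cliques, at least three of them with an edge -/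
def GammaStmt : Prop :=
  ∃ K : ℕ, ∀ (V : Type) (G : SimpleGraph V), NoGem G → NoP23 G → ∀ (v : V) (M N : Finset V),
    ZCfg G v M N → Clus G M →
    (∃ a ∈ M, ∃ a' ∈ M, ∃ b ∈ M, ∃ b' ∈ M, ∃ c ∈ M, ∃ c' ∈ M, G.Adj a a' ∧ G.Adj b b' ∧
      G.Adj c c' ∧ ¬ G.Adj a b ∧ a ≠ b ∧ ¬ G.Adj a c ∧ a ≠ c ∧ ¬ G.Adj b c ∧ b ≠ c) →
    BD G K (M ∪ N)

/-- `M` is a disjoint union of cliques -/
def ClusterStmt : Prop :=
  ∃ K : ℕ, ∀ (V : Type) (G : SimpleGraph V), NoGem G → NoP23 G → ∀ (v : V) (M N : Finset V),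
    ZCfg G v M N → Clus G M → BD G K (M ∪ N)

/-- the class `𝒵`: `v` complete to `M`, anticomplete to the independent set `N` -/
def ZStmt : Prop :=
  ∃ K : ℕ, ∀ (V : Type) (G : SimpleGraph V), NoGem G → NoP23 G → ∀ (v : V) (M N : Finset V),
    ZCfg G v M N → BD G K (M ∪ N)

/-! ### `C₅`-free graphs -/

/-- `R ∖ N(v)` is a disjoint union of cliques -/
def ZpStmt : Prop :=
  ∃ K : ℕ, ∀ (V : Type) (G : SimpleGraph V), NoGem G → NoP23 G → NoC5 G → ∀ (v : V) (R : Finset V),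
    Clus G (R.filter (fun x => ¬ G.Adj v x)) → BD G K R

/-- no induced `2K₂` -/
def No2K2 (G : SimpleGraph V) : Prop :=
  ∀ a b c d : V, G.Adj a b → G.Adj c d → ¬ G.Adj a c → ¬ G.Adj a d → ¬ G.Adj b c → ¬ G.Adj b d →
    False

/-- `2K₂`-free and `C₅`-free -/
def BaseStmt : Prop :=
  ∃ K : ℕ, ∀ (V : Type) (G : SimpleGraph V), NoGem G → No2K2 G → NoC5 G → ∀ (R : Finset V),
    BD G K R

/-- induced `2K₂` -/
abbrev C22 (G : SimpleGraph V) (v0 v1 v2 v3 : V) : Prop :=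
  G.Adj v0 v1 ∧ G.Adj v2 v3 ∧ ¬ G.Adj v0 v2 ∧ ¬ G.Adj v0 v3 ∧ ¬ G.Adj v1 v2 ∧ ¬ G.Adj v1 v3

/-- the crossing case: `P` of types `02`, `012`, `Q` of types `13`, `013`, `A` of type `∅`. -/
def CrossStmt : Prop :=
  ∃ K : ℕ, ∀ (V : Type) (G : SimpleGraph V), NoGem G → NoP23 G → NoC5 G →
    ∀ (v0 v1 v2 v3 : V), C22 G v0 v1 v2 v3 → ∀ (P Q A : Finset V),
    (∀ x ∈ P, G.Adj v0 x ∧ G.Adj v2 x ∧ ¬ G.Adj v3 x) →
    (∀ x ∈ Q, G.Adj v1 x ∧ G.Adj v3 x ∧ ¬ G.Adj v2 x) →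
    (∀ x ∈ A, ¬ G.Adj v0 x ∧ ¬ G.Adj v1 x ∧ ¬ G.Adj v2 x ∧ ¬ G.Adj v3 x) →
    (∃ x ∈ P, ¬ G.Adj v1 x) → (∃ x ∈ Q, ¬ G.Adj v0 x) →
    BD G K (P ∪ Q ∪ A)

/-- `C₅`-free graphs with an induced `2K₂` -/
def NoC5Stmt : Prop :=
  ∃ K : ℕ, ∀ (V : Type) (G : SimpleGraph V), NoGem G → NoP23 G → NoC5 G → ∀ (R : Finset V),
    BD G K R

/-! ### graphs with an induced `C₅` -/

/-- induced `C₅` -/
abbrev C5c (G : SimpleGraph V) (c0 c1 c2 c3 c4 : V) : Prop :=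
  G.Adj c0 c1 ∧ G.Adj c1 c2 ∧ G.Adj c2 c3 ∧ G.Adj c3 c4 ∧ G.Adj c4 c0 ∧
    ¬ G.Adj c0 c2 ∧ ¬ G.Adj c0 c3 ∧ ¬ G.Adj c1 c3 ∧ ¬ G.Adj c1 c4 ∧ ¬ G.Adj c2 c4

/-- type `∅` -/
abbrev TN (G : SimpleGraph V) (c0 c1 c2 c3 c4 x : V) : Prop :=
  ¬ G.Adj c0 x ∧ ¬ G.Adj c1 x ∧ ¬ G.Adj c2 x ∧ ¬ G.Adj c3 x ∧ ¬ G.Adj c4 x

/-- type `D₀ = {1,4}`; type `D₁` is `TD G c1 c2 c3 c4 c0` and so on -/
abbrev TD (G : SimpleGraph V) (c0 c1 c2 c3 c4 x : V) : Prop :=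
  ¬ G.Adj c0 x ∧ G.Adj c1 x ∧ ¬ G.Adj c2 x ∧ ¬ G.Adj c3 x ∧ G.Adj c4 x ∧ x ≠ c0

/-- type `K₀ = {4,0,1}` -/
abbrev TK (G : SimpleGraph V) (c0 c1 c2 c3 c4 x : V) : Prop :=
  G.Adj c0 x ∧ G.Adj c1 x ∧ ¬ G.Adj c2 x ∧ ¬ G.Adj c3 x ∧ G.Adj c4 x

/-- type `M₀ = {0,2,3}` -/
abbrev TM (G : SimpleGraph V) (c0 c1 c2 c3 c4 x : V) : Prop :=
  G.Adj c0 x ∧ ¬ G.Adj c1 x ∧ G.Adj c2 x ∧ G.Adj c3 x ∧ ¬ G.Adj c4 x

/-- `N` and the `D_i` -/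
def NDStmt : Prop :=
  ∃ K : ℕ, ∀ (V : Type) (G : SimpleGraph V), NoGem G → NoP23 G →
    ∀ (c0 c1 c2 c3 c4 : V), C5c G c0 c1 c2 c3 c4 → ∀ (R : Finset V),
    (∀ x ∈ R, TN G c0 c1 c2 c3 c4 x ∨ TD G c0 c1 c2 c3 c4 x ∨ TD G c1 c2 c3 c4 c0 x ∨
      TD G c2 c3 c4 c0 c1 x ∨ TD G c3 c4 c0 c1 c2 x ∨ TD G c4 c0 c1 c2 c3 x) → BD G K R

/-- `N`, the `D_i`, `M₀` and `M₂` -/
def NDMStmt : Prop :=
  ∃ K : ℕ, ∀ (V : Type) (G : SimpleGraph V), NoGem G → NoP23 G →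
    ∀ (c0 c1 c2 c3 c4 : V), C5c G c0 c1 c2 c3 c4 → ∀ (R : Finset V),
    (∀ x ∈ R, TN G c0 c1 c2 c3 c4 x ∨ TD G c0 c1 c2 c3 c4 x ∨ TD G c1 c2 c3 c4 c0 x ∨
      TD G c2 c3 c4 c0 c1 x ∨ TD G c3 c4 c0 c1 c2 x ∨ TD G c4 c0 c1 c2 c3 x ∨
      TM G c0 c1 c2 c3 c4 x ∨ TM G c2 c3 c4 c0 c1 x) → BD G K R

/-- graphs with an induced `C₅` -/
def C5Stmt : Prop :=
  ∃ K : ℕ, ∀ (V : Type) (G : SimpleGraph V), NoGem G → NoP23 G →
    ∀ (c0 c1 c2 c3 c4 : V), C5c G c0 c1 c2 c3 c4 → ∀ (R : Finset V), BD G K R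

/-- everything -/
def MainStmt : Prop :=
  ∃ K : ℕ, ∀ (V : Type) (G : SimpleGraph V), NoGem G → NoP23 G → ∀ (R : Finset V), BD G K R

end Pool.Agent.H175G
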