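import Pool.Agent.H175F.Frame0

/-! More statements (sub-steps). -/

namespace Pool.Agent.H175G

open Finset Classical
open Pool.Agent.H175R2 (DT nt on cpt Cn P4Free)

variable {V : Type}

/-! ### sub-steps for `ZpStmt` -/

/-- one nontrivial clique `Q` of size at least 3, isolated vertices `I` outside `N(v)` -/
def ZpAStmt : Prop :=
  ∃ K : ℕ, ∀ (V : Type) (G : SimpleGraph V), NoGem G → NoP23 G → NoC5 G →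
    ∀ (v : V) (M Q I : Finset V), (∀ m ∈ M, G.Adj v m) → (∀ x ∈ Q ∪ I, ¬ G.Adj v x) →
    v ∉ Q → v ∉ I → Clq G Q → Ind G I → Anti G Q I → 3 ≤ Q.card → BD G K (M ∪ Q ∪ I)

/-- at least two nontrivial cliques outside `N(v)` -/
def ZpBStmt : Prop :=
  ∃ K : ℕ, ∀ (V : Type) (G : SimpleGraph V), NoGem G → NoP23 G → NoC5 G →
    ∀ (v : V) (M A : Finset V), (∀ m ∈ M, G.Adj v m) → (∀ x ∈ A, ¬ G.Adj v x) → v ∉ A →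
    Clus G A →
    (∃ a ∈ A, ∃ a' ∈ A, ∃ b ∈ A, ∃ b' ∈ A, G.Adj a a' ∧ G.Adj b b' ∧ ¬ G.Adj a b ∧ a ≠ b) →
    BD G K (M ∪ A)

/-! ### sub-steps for `CrossStmt` -/

/-- crossing configuration with coordinates `ω ∈ Ω`: either a single vertex (`π ω = ω`) or an edge
`ω, π ω` with `π ω` complete to `P` and `ω` complete to `Q`. -/
def CPCfg (G : SimpleGraph V) (v0 v1 v2 v3 : V) (P Q Ω : Finset V) (π : V → V) : Prop :=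
  C22 G v0 v1 v2 v3 ∧
  (∀ x ∈ P, G.Adj v0 x ∧ G.Adj v2 x ∧ ¬ G.Adj v3 x) ∧
  (∀ x ∈ Q, G.Adj v1 x ∧ G.Adj v3 x ∧ ¬ G.Adj v2 x) ∧
  (∀ x ∈ Ω, ¬ G.Adj v0 x ∧ ¬ G.Adj v1 x ∧ ¬ G.Adj v2 x ∧ ¬ G.Adj v3 x) ∧
  (∀ x ∈ Ω, ¬ G.Adj v0 (π x) ∧ ¬ G.Adj v1 (π x) ∧ ¬ G.Adj v2 (π x) ∧ ¬ G.Adj v3 (π x)) ∧
  (∀ x ∈ Ω, ∀ y ∈ Ω, x ≠ y → ¬ G.Adj x y ∧ ¬ G.Adj (π x) (π y) ∧ ¬ G.Adj x (π y) ∧ x ≠ π y ∧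
    π x ≠ π y) ∧
  (∀ x ∈ Ω, π x = x ∨
    (G.Adj x (π x) ∧ (∀ p ∈ P, G.Adj (π x) p) ∧ (∀ q ∈ Q, G.Adj x q)))

def CPStmt : Prop :=
  ∃ K : ℕ, ∀ (V : Type) (G : SimpleGraph V), NoGem G → NoP23 G → NoC5 G →
    ∀ (v0 v1 v2 v3 : V) (P Q Ω : Finset V) (π : V → V), CPCfg G v0 v1 v2 v3 P Q Ω π →
    P.Nonempty → Q.Nonempty → BD G K (P ∪ Q ∪ Ω ∪ Ω.image π)

/-- laminarity on one of the two sides -/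
def CPLamStmt : Prop :=
  ∀ (V : Type) (G : SimpleGraph V), NoGem G → NoP23 G → NoC5 G →
    ∀ (v0 v1 v2 v3 : V) (P Q Ω : Finset V) (π : V → V), CPCfg G v0 v1 v2 v3 P Q Ω π →
    P.Nonempty → Q.Nonempty →
    (∀ x ∈ Ω, ∀ y ∈ Ω, (nb G P x).Nonempty → (nb G Q (π x)).Nonempty → (nb G P y).Nonempty →
      (nb G Q (π y)).Nonempty → nb G Q (π x) = nb G Q (π y) ∨
        Disjoint (nb G Q (π x)) (nb G Q (π y))) ∨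
    (∀ x ∈ Ω, ∀ y ∈ Ω, (nb G P x).Nonempty → (nb G Q (π x)).Nonempty → (nb G P y).Nonempty →
      (nb G Q (π y)).Nonempty → nb G P x = nb G P y ∨ Disjoint (nb G P x) (nb G P y))

/-! ### sub-steps for `NDStmt` -/

/-- an induced `C₅` and sets of vertices of the types `N, D₀, …, D₄` -/
def NDCfg (G : SimpleGraph V) (c0 c1 c2 c3 c4 : V) (N D0 D1 D2 D3 D4 : Finset V) : Prop :=
  C5c G c0 c1 c2 c3 c4 ∧ (∀ x ∈ N, TN G c0 c1 c2 c3 c4 x) ∧ (∀ x ∈ D0, TD G c0 c1 c2 c3 c4 x) ∧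
  (∀ x ∈ D1, TD G c1 c2 c3 c4 c0 x) ∧ (∀ x ∈ D2, TD G c2 c3 c4 c0 c1 x) ∧
  (∀ x ∈ D3, TD G c3 c4 c0 c1 c2 x) ∧ (∀ x ∈ D4, TD G c4 c0 c1 c2 c3 x)

def ND01Stmt : Prop :=
  ∃ K : ℕ, ∀ (V : Type) (G : SimpleGraph V), NoGem G → NoP23 G →
    ∀ (c0 c1 c2 c3 c4 : V) (N D0 D1 : Finset V), NDCfg G c0 c1 c2 c3 c4 N D0 D1 ∅ ∅ ∅ →
    BD G K (N ∪ D0 ∪ D1)

def ND012Stmt : Prop :=
  ∃ K : ℕ, ∀ (V : Type) (G : SimpleGraph V), NoGem G → NoP23 G →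
    ∀ (c0 c1 c2 c3 c4 : V) (N D0 D1 D2 : Finset V), NDCfg G c0 c1 c2 c3 c4 N D0 D1 D2 ∅ ∅ →
    3 ≤ D0.card → 3 ≤ D1.card → 3 ≤ D2.card → Comp G D0 D1 → Comp G D1 D2 →
    BD G K (N ∪ D0 ∪ D1 ∪ D2)

def ND013Stmt : Prop :=
  ∃ K : ℕ, ∀ (V : Type) (G : SimpleGraph V), NoGem G → NoP23 G →
    ∀ (c0 c1 c2 c3 c4 : V) (N D0 D1 D3 : Finset V), NDCfg G c0 c1 c2 c3 c4 N D0 D1 ∅ D3 ∅ →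
    5 ≤ D0.card → 5 ≤ D1.card → 5 ≤ D3.card → BD G K (N ∪ D0 ∪ D1 ∪ D3)

def ND0123Stmt : Prop :=
  ∃ K : ℕ, ∀ (V : Type) (G : SimpleGraph V), NoGem G → NoP23 G →
    ∀ (c0 c1 c2 c3 c4 : V) (N D0 D1 D2 D3 : Finset V), NDCfg G c0 c1 c2 c3 c4 N D0 D1 D2 D3 ∅ →
    3 ≤ D0.card → 3 ≤ D1.card → 3 ≤ D2.card → 3 ≤ D3.card →
    Comp G D0 D1 → Comp G D1 D2 → Comp G D2 D3 → BD G K (N ∪ D0 ∪ D1 ∪ D2 ∪ D3)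

def ND5Stmt : Prop :=
  ∃ K : ℕ, ∀ (V : Type) (G : SimpleGraph V), NoGem G → NoP23 G →
    ∀ (c0 c1 c2 c3 c4 : V) (N D0 D1 D2 D3 D4 : Finset V), NDCfg G c0 c1 c2 c3 c4 N D0 D1 D2 D3 D4 →
    3 ≤ D0.card → 3 ≤ D1.card → 3 ≤ D2.card → 3 ≤ D3.card → 3 ≤ D4.card →
    Comp G D0 D1 → Comp G D1 D2 → Comp G D2 D3 → Comp G D3 D4 → Comp G D4 D0 →
    BD G K (N ∪ D0 ∪ D1 ∪ D2 ∪ D3 ∪ D4)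

/-! ### sub-steps for `NDMStmt` -/

/-- no links: `D₀` complete to `M₀` and `D₂` complete to `M₂` -/
def NDMnlStmt : Prop :=
  ∃ K : ℕ, ∀ (V : Type) (G : SimpleGraph V), NoGem G → NoP23 G →
    ∀ (c0 c1 c2 c3 c4 : V) (N D0 D1 D2 D3 D4 M0 M2 : Finset V),
    NDCfg G c0 c1 c2 c3 c4 N D0 D1 D2 D3 D4 → (∀ x ∈ M0, TM G c0 c1 c2 c3 c4 x) →
    (∀ x ∈ M2, TM G c2 c3 c4 c0 c1 x) → Comp G D0 M0 → Comp G D2 M2 →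
    BD G K (N ∪ D0 ∪ D1 ∪ D2 ∪ D3 ∪ D4 ∪ M0 ∪ M2)

/-- only `D₀` -/
def NDML2Stmt : Prop :=
  ∃ K : ℕ, ∀ (V : Type) (G : SimpleGraph V), NoGem G → NoP23 G →
    ∀ (c0 c1 c2 c3 c4 : V) (N D0 M0 M2 : Finset V), C5c G c0 c1 c2 c3 c4 →
    (∀ x ∈ N, TN G c0 c1 c2 c3 c4 x) → (∀ x ∈ D0, TD G c0 c1 c2 c3 c4 x) →
    (∀ x ∈ M0, TM G c0 c1 c2 c3 c4 x) → (∀ x ∈ M2, TM G c2 c3 c4 c0 c1 x) →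
    BD G K (N ∪ D0 ∪ M0 ∪ M2)

/-! ### sub-step for `C5Stmt` -/

/-- only vertices of types `N, D_i, K_i, M_i`, and the `K_i` complete to `D_{i±1}` and `M_i` -/
def C5aStmt : Prop :=
  ∃ K : ℕ, ∀ (V : Type) (G : SimpleGraph V), NoGem G → NoP23 G →
    ∀ (c0 c1 c2 c3 c4 : V), C5c G c0 c1 c2 c3 c4 → ∀ (R : Finset V),
    (∀ x ∈ R, TN G c0 c1 c2 c3 c4 x ∨
      TD G c0 c1 c2 c3 c4 x ∨ TD G c1 c2 c3 c4 c0 x ∨ TD G c2 c3 c4 c0 c1 x ∨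
      TD G c3 c4 c0 c1 c2 x ∨ TD G c4 c0 c1 c2 c3 x ∨
      TK G c0 c1 c2 c3 c4 x ∨ TK G c1 c2 c3 c4 c0 x ∨ TK G c2 c3 c4 c0 c1 x ∨
      TK G c3 c4 c0 c1 c2 x ∨ TK G c4 c0 c1 c2 c3 x ∨
      TM G c0 c1 c2 c3 c4 x ∨ TM G c1 c2 c3 c4 c0 x ∨ TM G c2 c3 c4 c0 c1 x ∨
      TM G c3 c4 c0 c1 c2 x ∨ TM G c4 c0 c1 c2 c3 x) →
    (∀ x ∈ R, ∀ y ∈ R, TK G c0 c1 c2 c3 c4 x →
      (TD G c1 c2 c3 c4 c0 y ∨ TD G c4 c0 c1 c2 c3 y ∨ TM G c0 c1 c2 c3 c4 y) → G.Adj x y) →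
    (∀ x ∈ R, ∀ y ∈ R, TK G c1 c2 c3 c4 c0 x →
      (TD G c2 c3 c4 c0 c1 y ∨ TD G c0 c1 c2 c3 c4 y ∨ TM G c1 c2 c3 c4 c0 y) → G.Adj x y) →
    (∀ x ∈ R, ∀ y ∈ R, TK G c2 c3 c4 c0 c1 x →
      (TD G c3 c4 c0 c1 c2 y ∨ TD G c1 c2 c3 c4 c0 y ∨ TM G c2 c3 c4 c0 c1 y) → G.Adj x y) →
    (∀ x ∈ R, ∀ y ∈ R, TK G c3 c4 c0 c1 c2 x →
      (TD G c4 c0 c1 c2 c3 y ∨ TD G c2 c3 c4 c0 c1 y ∨ TM G c3 c4 c0 c1 c2 y) → G.Adj x y) →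
    (∀ x ∈ R, ∀ y ∈ R, TK G c4 c0 c1 c2 c3 x →
      (TD G c0 c1 c2 c3 c4 y ∨ TD G c3 c4 c0 c1 c2 y ∨ TM G c4 c0 c1 c2 c3 y) → G.Adj x y) →
    BD G K R

end Pool.Agent.H175G
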