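import Mathlib

/-! Forbidden configurations (gem, `P₂+P₃`, `C₅`) . -/

namespace Pool.Agent.H175G

variable {V : Type}

/-- no induced gem (apex `e`, path `a b c d`) -/
def NoGem (G : SimpleGraph V) : Prop :=
  ∀ a b c d e : V, G.Adj e a → G.Adj e b → G.Adj e c → G.Adj e d → G.Adj a b → G.Adj b c →
    G.Adj c d → ¬ G.Adj a c → ¬ G.Adj b d → ¬ G.Adj a d → False

/-- no induced `P₂ + P₃` (edge `x y`, path `a b c`) -/
def NoP23 (G : SimpleGraph V) : Prop :=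
  ∀ x y a b c : V, G.Adj x y → G.Adj a b → G.Adj b c → a ≠ c → ¬ G.Adj a c →
    ¬ G.Adj x a → ¬ G.Adj x b → ¬ G.Adj x c → ¬ G.Adj y a → ¬ G.Adj y b → ¬ G.Adj y c → False

/-- no induced `C₅` -/
def NoC5 (G : SimpleGraph V) : Prop :=
  ∀ a b c d e : V, G.Adj a b → G.Adj b c → G.Adj c d → G.Adj d e → G.Adj e a →
    ¬ G.Adj a c → ¬ G.Adj a d → ¬ G.Adj b d → ¬ G.Adj b e → ¬ G.Adj c e → False

theorem ne_of_wit {G : SimpleGraph V} {a c z : V} (h1 : G.Adj z a) (h2 : ¬ G.Adj z c) : a ≠ c :=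
  fun h => h2 (h ▸ h1)

theorem not_symm' {G : SimpleGraph V} {a b : V} (h : ¬ G.Adj a b) : ¬ G.Adj b a :=
  fun h' => h h'.symm


end Pool.Agent.H175G
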